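import Pool.Agent.Helper83.ET.Loc

/-!
# All codes of the project (except the random sets of the windows)

`mk C TK : Codes` with `W e = C ^ e`, the `P` codes `pcode C p` (`p = 0` anchor 0, `p = e + 1`
anchors of epoch `e`), the `R` code, the local sets `locT C e`, `locTh C e`, the window sets `TK`.
-/

namespace Pool.Agent.Helper83.ET

open Finset Pool.Agent.ETS Pool.Agent.Helper5.ETP Pool.Agent.Helper41.ETPP

/-- The untwisted length of the code number `p` is `C ^ e0 p`. -/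
def e0 (p : ℕ) : ℕ := max 9 (p + 7)

open Classical in
/-- The `P` code number `p`. -/
noncomputable def pcode (C p : ℕ) : Code :=
  if h : 256 ≤ C then (exists_Pcode_all (e0 := e0 p) h (le_max_left _ _)).choose
  else ⟨id, fun _ => 0, fun _ => 0, strictMono_id⟩

theorem pcode_beta {C : ℕ} (h : 256 ≤ C) (p : ℕ) :
    (pcode C p).β = lvlBeta (C ^ (e0 p - 5)) (C ^ 5) C := by
  unfold pcode
  rw [dif_pos h]
  exact (exists_Pcode_all (e0 := e0 p) h (le_max_left _ _)).choose_spec.1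

/-- ML2 for the code number `p`. -/
theorem pcode_ML2 {C : ℕ} (h : 256 ≤ C) {p j : ℕ} (hj : e0 p < j) : (pcode C p).ML2 C j := by
  unfold pcode
  rw [dif_pos h]
  exact (exists_Pcode_all (e0 := e0 p) h (le_max_left _ _)).choose_spec.2 j hj

theorem pcode_beta_one {C : ℕ} (h : 256 ≤ C) (p : ℕ) : (pcode C p).β 1 = C ^ e0 p :=
  beta_one_Pcode (le_trans (by norm_num) (le_max_left 9 (p + 7))) _ (pcode_beta h p)

theorem pcode_nb {C : ℕ} (h : 256 ≤ C) {p j l : ℕ} (hj : e0 p ≤ j) (hl : l ≤ C ^ j) :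
    (pcode C p).nb l ≤ (j - e0 p) * C ^ 6 + 1 :=
  nb_Pcode (by omega) (le_trans (by norm_num) (le_max_left 9 (p + 7))) hj _ (pcode_beta h p) hl

/-- No block boundary of the code of epoch `e` strictly inside a unit. -/
theorem pcode_gap {C : ℕ} (h : 256 ≤ C) {e L : ℕ} (hL : C ^ e ∣ L) (i : ℕ) :
    (pcode C (e + 1)).β i ≤ L ∨ L + C ^ e ≤ (pcode C (e + 1)).β i := by
  apply gap_Pcode _ _ (pcode_beta h (e + 1)) hL
  unfold e0
  omega

/-- No block boundary of the code of anchor 0 strictly inside a unit. -/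
theorem pcode_gap_zero {C : ℕ} (h : 256 ≤ C) {e L : ℕ} (hL : C ^ e ∣ L) (h3 : C ^ (3 * e) ≤ L)
    (i : ℕ) : (pcode C 0).β i ≤ L ∨ L + C ^ e ≤ (pcode C 0).β i :=
  gap_zero (by omega) _ (pcode_beta h 0) hL h3 i

open Classical in
/-- The local sets of epoch `e`. -/
noncomputable def loc (C e : ℕ) : Finset ℕ × Finset ℕ :=
  if h : 2 ^ 20 ≤ C ∧ 2 ∣ C ∧ 20 ≤ e then
    ((exists_local h.1 h.2.1 h.2.2).choose, (exists_local h.1 h.2.1 h.2.2).choose_spec.choose)
  else ({0}, {0})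

/-- The set `T` of epoch `e`. -/
noncomputable def locT (C e : ℕ) : Finset ℕ := (loc C e).1

/-- The set `Theta` of epoch `e`. -/
noncomputable def locTh (C e : ℕ) : Finset ℕ := (loc C e).2

theorem locGood {C e : ℕ} (hC : 2 ^ 20 ≤ C) (h2 : 2 ∣ C) (he : 20 ≤ e) :
    LocGood C e (locT C e) (locTh C e) := by
  have h : 2 ^ 20 ≤ C ∧ 2 ∣ C ∧ 20 ≤ e := ⟨hC, h2, he⟩
  unfold locT locTh loc
  rw [dif_pos h]
  exact (exists_local h.1 h.2.1 h.2.2).choose_spec.choose_spec

/-- **The codes.** -/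
noncomputable def mk (C : ℕ) (TK : ℕ → Finset ℕ) : Codes where
  W e := C ^ e
  X p l := (pcode C p).X l
  P p l x := (pcode C p).P l x
  Y l := RC.Yq (l / 2)
  E l y := RC.Rc l y % 2 ^ l
  T e := locT C e
  Th e := locTh C e
  TK := TK

variable {C : ℕ} {TK : ℕ → Finset ℕ}

@[simp] theorem mk_W (e : ℕ) : (mk C TK).W e = C ^ e := rfl
@[simp] theorem mk_X (p l : ℕ) : (mk C TK).X p l = (pcode C p).X l := rfl
@[simp] theorem mk_P (p l x : ℕ) : (mk C TK).P p l x = (pcode C p).P l x := rfl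
@[simp] theorem mk_Y (l : ℕ) : (mk C TK).Y l = RC.Yq (l / 2) := rfl
@[simp] theorem mk_E (l y : ℕ) : (mk C TK).E l y = RC.Rc l y % 2 ^ l := rfl
@[simp] theorem mk_T (e : ℕ) : (mk C TK).T e = locT C e := rfl
@[simp] theorem mk_Th (e : ℕ) : (mk C TK).Th e = locTh C e := rfl
@[simp] theorem mk_TK (K : ℕ) : (mk C TK).TK K = TK K := rfl

/-- helper5's interface. -/
theorem mk_pcode (p : ℕ) : PCode ((mk C TK).X p) ((mk C TK).P p) := (pcode C p).toPCode

theorem mk_X_zero (p : ℕ) : (mk C TK).X p 0 = {1} := (pcode C p).X_zero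

/-- Below the untwisted length the content is the logarithm. -/
theorem mk_P_eq_ind (h : 256 ≤ C) {p l : ℕ} (hl : l ≤ C ^ e0 p) (x : ℕ) :
    (mk C TK).P p l x = ind l x :=
  (pcode C p).P_eq_ind (by rw [pcode_beta_one h]; exact hl)

/-- helper5's sets `QP` are contained in those of the untwisted code. -/
theorem QP_sub (h : 256 ≤ C) {p W l q r : ℕ} (hl : l ≤ C ^ e0 p) :
    QP ((mk C TK).X p) ((mk C TK).P p) W l q r ⊆ QP VZ ind W l q r := by
  intro t ht
  rw [mem_QP] at ht ⊢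
  obtain ⟨h1, x, hx, h2⟩ := ht
  refine ⟨h1, x, (pcode C p).X_subset l hx, ?_⟩
  rw [← mk_P_eq_ind (TK := TK) h hl x]
  exact h2

theorem fifty_le (hC : 2 ^ 20 ≤ C) (e : ℕ) : 50 * C ^ (e + 1) ≤ C ^ e0 (e + 1) := by
  have hCn : 1048576 ≤ C := by
    have : (2 : ℕ) ^ 20 = 1048576 := by norm_num
    omega
  have h1 : e + 2 ≤ e0 (e + 1) := by
    unfold e0
    omega
  calc 50 * C ^ (e + 1) ≤ C * C ^ (e + 1) := Nat.mul_le_mul_right _ (by omega)
    _ = C ^ (e + 2) := by ring
    _ ≤ C ^ e0 (e + 1) := Nat.pow_le_pow_right (by omega) h1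

/-- The property of `T` for helper5's sets. -/
theorem T_QP (hC : 2 ^ 20 ≤ C) (h2 : 2 ∣ C) {e : ℕ} (he : 20 ≤ e) {l q : ℕ} (r : ℕ)
    (hq : q + C ^ e ≤ l) (hl : l ≤ 50 * C ^ (e + 1)) :
    ((mk C TK).T e ∩ QP ((mk C TK).X (e + 1)) ((mk C TK).P (e + 1)) (C ^ e) l q r).card ≤
      BT C e := by
  have hC256 : 256 ≤ C := le_trans (by norm_num) hC
  refine le_trans (Finset.card_le_card ?_) ((locGood hC h2 he).T_QP l q r hq hl)
  exact Finset.inter_subset_inter_left (QP_sub hC256 (hl.trans (fifty_le hC e)))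

/-- The property of `Theta` for helper5's sets. -/
theorem Th_QP (hC : 2 ^ 20 ≤ C) (h2 : 2 ∣ C) {e : ℕ} (he : 20 ≤ e) {l q : ℕ} (r : ℕ)
    (hq : q + C ^ e ≤ l) (hl : l ≤ 50 * C ^ (e + 1)) :
    ((mk C TK).Th e ∩ QP ((mk C TK).X (e + 1)) ((mk C TK).P (e + 1)) (C ^ e) l q r).card ≤
      BTh C e := by
  have hC256 : 256 ≤ C := le_trans (by norm_num) hC
  refine le_trans (Finset.card_le_card ?_) ((locGood hC h2 he).Th_QP l q r hq hl)
  exact Finset.inter_subset_inter_left (QP_sub hC256 (hl.trans (fifty_le hC e)))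

theorem BT_le_BTh (hC : 2 ^ 20 ≤ C) {e : ℕ} (he : 20 ≤ e) : BT C e ≤ BTh C e := by
  have hCn : 1048576 ≤ C := by
    have : (2 : ℕ) ^ 20 = 1048576 := by norm_num
    omega
  have hcube := cube_le hC he
  unfold BT BTh
  have h1 : C ^ (e + 1) ≤ 2 ^ (C * (e + 1)) := by
    rw [pow_mul]
    exact Nat.pow_le_pow_left (Nat.lt_two_pow_self).le _
  have h2 : 9 + C * (e + 1) ≤ C ^ (e - 5) / (e + 1) := by
    rw [Nat.le_div_iff_mul_le (by omega)]
    have e1 : C ^ (e - 5) = C ^ 13 * C ^ (e - 18) := by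
      rw [← pow_add]
      congr 1
      omega
    rw [e1]
    calc (9 + C * (e + 1)) * (e + 1) ≤ (2 * (C * (e + 1))) * (e + 1) := by
          apply Nat.mul_le_mul_right
          have : 1048576 * 21 ≤ C * (e + 1) := Nat.mul_le_mul hCn (by omega)
          omega
      _ = C * (2 * (e + 1) ^ 2) := by ring
      _ ≤ C ^ 13 * C ^ (e - 18) := by
          apply Nat.mul_le_mul
          · calc C = C ^ 1 := (pow_one C).symm
              _ ≤ C ^ 13 := Nat.pow_le_pow_right (by omega) (by norm_num)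
          · refine le_trans ?_ hcube
            have : (e + 1) ^ 2 ≤ (e + 1) ^ 3 := Nat.pow_le_pow_right (by omega) (by norm_num)
            omega
  calc 400 * C ^ (e + 1) ≤ 2 ^ 9 * 2 ^ (C * (e + 1)) := Nat.mul_le_mul (by norm_num) h1
    _ = 2 ^ (9 + C * (e + 1)) := by rw [pow_add]
    _ ≤ 2 ^ (C ^ (e - 5) / (e + 1)) := Nat.pow_le_pow_right (by norm_num) h2

theorem W_facts (hC : 2 ^ 20 ≤ C) (h2 : 2 ∣ C) {e : ℕ} (he : 20 ≤ e) :
    2 ∣ C ^ e ∧ 2 ^ 20 ≤ C ^ e := by
  refine ⟨h2.trans (dvd_pow_self C (by omega)), hC.trans ?_⟩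
  calc C = C ^ 1 := (pow_one C).symm
    _ ≤ C ^ e := Nat.pow_le_pow_right (by
      have : 0 < 2 ^ 20 := by positivity
      omega) (by omega)

/-- helper86's hypotheses. -/
theorem mk_RHyp (hC : 2 ^ 20 ≤ C) (h2 : 2 ∣ C) {e : ℕ} (he : 20 ≤ e) :
    RC.RHyp (mk C TK) e (BTh C e) (BT C e) := by
  have hg := locGood hC h2 he
  obtain ⟨hW2, hW20⟩ := W_facts hC h2 he
  have hBB := BT_le_BTh hC he
  have hBT1 : 2 ≤ BT C e := by
    unfold BT
    have : 0 < C ^ (e + 1) := by
      have : 0 < C := by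
        have : 0 < 2 ^ 20 := by positivity
        omega
      positivity
    omega
  exact
    { hY := fun l => rfl
      hE := fun l y => rfl
      hW := hW2
      hW8 := le_trans (by norm_num) hW20
      hT := hg.T_lt
      hTh := hg.Th_lt
      cT := by
        show (locT C e).card ≤ 2 ^ (C ^ e / 2)
        rw [hg.T_card]
        exact Nat.pow_le_pow_right (by norm_num) (by omega)
      cTh := hg.Th_card
      fT := fun j k hj hk => (hg.T_Qs j k hj hk).trans hBB
      fTh := hg.Th_Qs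
      gT := fun ν hν => (hg.T_QR ν hν).trans hBB
      gTh := hg.Th_QR
      mTT := hg.mTT
      mTTh := hg.mTTh
      mThT := hg.mThT
      mThTh := fun s => (hg.mThTh s).trans hBT1
      r1 := by omega
      rB := hBB }

/-- helper41's hypotheses, anchors of epoch `e`. -/
theorem mk_PTok (hC : 2 ^ 20 ≤ C) (h2 : 2 ∣ C) {e : ℕ} (he : 20 ≤ e) {L : ℕ}
    (hL : C ^ e ∣ L) : PTok (mk C TK) (pcode C (e + 1)) (BT C e) e L := by
  have hg := locGood hC h2 he
  obtain ⟨hW2, hW20⟩ := W_facts hC h2 he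
  have hC256 : 256 ≤ C := le_trans (by norm_num) hC
  exact
    { four_le := le_trans (by norm_num) hW20
      even := Nat.mod_eq_zero_of_dvd hW2
      lt := hg.T_lt
      card := by
        show (locT C e).card ≤ 2 ^ (C ^ e / 2)
        rw [hg.T_card]
        exact Nat.pow_le_pow_right (by norm_num) (by omega)
      f3 := hg.T_F3
      f4 := by
        intro _ ν
        have h1 := T_QP (TK := TK) hC h2 he (l := C ^ e) (q := 0) ν (by omega) (by
          calc C ^ e ≤ 50 * C ^ e := by omega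
            _ ≤ 50 * C ^ (e + 1) := Nat.mul_le_mul_left _
              (Nat.pow_le_pow_right (by omega) (by omega)))
        refine le_trans (Finset.card_le_card ?_) h1
        intro t ht
        obtain ⟨ht1, x, hx, hxt⟩ := Finset.mem_filter.mp ht
        rw [Finset.mem_inter, mem_QP]
        refine ⟨ht1, hg.T_lt t ht1, x, hx, ?_⟩
        show (pcode C (e + 1)).P (C ^ e) x + 2 ^ 0 * t ≡ ν [MOD 2 ^ (C ^ e)]
        rw [pow_zero, one_mul, Nat.ModEq]
        have h3 : ν < 2 ^ (C ^ e) := by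
          rw [← hxt]
          exact Nat.mod_lt _ (by positivity)
        rw [Nat.mod_eq_of_lt h3]
        exact hxt
      sum := hg.mTT
      pos := by
        intro hpos
        refine ⟨Nat.le_of_dvd hpos hL, fun i _ => pcode_gap hC256 hL i⟩ }

/-- helper41's hypotheses, anchor 0. -/
theorem mk_PTok_zero (hC : 2 ^ 20 ≤ C) (h2 : 2 ∣ C) {e : ℕ} (he : 20 ≤ e) {L : ℕ}
    (hL : C ^ e ∣ L) (h3 : C ^ (3 * e) ≤ L) : PTok (mk C TK) (pcode C 0) (BT C e) e L := by
  have hg := locGood hC h2 he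
  obtain ⟨hW2, hW20⟩ := W_facts hC h2 he
  have hC256 : 256 ≤ C := le_trans (by norm_num) hC
  have hpos : 0 < L := lt_of_lt_of_le (by positivity) h3
  exact
    { four_le := le_trans (by norm_num) hW20
      even := Nat.mod_eq_zero_of_dvd hW2
      lt := hg.T_lt
      card := by
        show (locT C e).card ≤ 2 ^ (C ^ e / 2)
        rw [hg.T_card]
        exact Nat.pow_le_pow_right (by norm_num) (by omega)
      f3 := hg.T_F3
      f4 := fun h => absurd h (by omega)
      sum := hg.mTT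
      pos := fun _ => ⟨Nat.le_of_dvd hpos hL, fun i _ => pcode_gap_zero hC256 hL h3 i⟩ }

end Pool.Agent.Helper83.ET
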