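import Pool.Agent.Helper83.ET.NearMk
import Pool.Agent.Helper5.ETP.CutR
import Pool.Agent.Helper5.ETP.CrossZ
import Pool.Agent.Helper82.ETN.Num3
import Pool.Agent.ETS.FarDefs

/-!
# Far pairs: an `R` zone of `K` against a `P` zone of `K'`
-/

namespace Pool.Agent.Helper83.ET

open Finset Pool.Agent.ETS Pool.Agent.Helper5.ETP Pool.Agent.Helper41.ETPP
open Pool.Agent.Helper29.ETK (Kid kid wb ep Wd av CC lg Hb gth epo kk Gq)
open Pool.Agent.ETP (isPT phiV)

variable {c K K' : ℕ} {TK : ℕ → Finset ℕ}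

/-! ### numbers -/

/-- The near threshold is large compared with the blocks. -/
theorem pow_le_gth (hc : 1 ≤ c) {b : ℕ} (hb : b ≤ K) (he : 1 ≤ ep c b) :
    CC c ^ (ep c b - 3) ≤ 2 ^ 14 * (3 * ep c b + 10) * gth c K := by
  have hC1 : 2 ≤ CC c := by
    unfold CC
    calc 2 = 2 ^ 1 := rfl
      _ ≤ 2 ^ c := Nat.pow_le_pow_right (by norm_num) hc
  set E := epo c K with hE
  have hlE : lg c K ≤ 3 * E + 3 := by rw [hE]; unfold epo; omega
  have hlb : lg c b ≤ lg c K := Nat.log_mono_right hb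
  have hep : ep c b ≤ E + 1 := by
    unfold ep
    omega
  have h2 : CC c ^ (E - 1 - 1) ≤ gth c K * 2 ^ (10 + kk (E - 1)) := by
    unfold gth Gq CC
    rw [← hE, ← pow_mul, ← pow_add]
    exact Nat.pow_le_pow_right two_pos (by omega)
  have h3 : 2 ^ (10 + kk (E - 1)) ≤ 2 ^ 14 * (3 * (E - 1) + 10) := by
    rw [pow_add]
    calc 2 ^ 10 * 2 ^ kk (E - 1) ≤ 2 ^ 10 * (16 * (3 * (E - 1) + 10)) :=
          Nat.mul_le_mul_left _ (Helper82.ETN.two_pow_kk_le (E - 1))
      _ = 2 ^ 14 * (3 * (E - 1) + 10) := by ring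
  have h4 : CC c ^ (E - 1 - 1) ≤ 2 ^ 14 * (3 * (E - 1) + 10) * gth c K := by
    calc CC c ^ (E - 1 - 1) ≤ gth c K * 2 ^ (10 + kk (E - 1)) := h2
      _ ≤ gth c K * (2 ^ 14 * (3 * (E - 1) + 10)) := Nat.mul_le_mul_left _ h3
      _ = _ := by ring
  -- the passage from `E - 1` to `ep c b`
  obtain ⟨k, hk⟩ : ∃ k, E - 1 - 1 = ep c b - 3 + k := ⟨E - 1 - 1 - (ep c b - 3), by omega⟩
  have h5 : 3 * (E - 1) + 10 ≤ (3 * ep c b + 10) * CC c ^ k := by
    have h6 : E - 1 ≤ ep c b + k := by omega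
    have h7 : k + 1 ≤ CC c ^ k := by
      calc k + 1 ≤ 2 ^ k := Nat.lt_two_pow_self
        _ ≤ CC c ^ k := Nat.pow_le_pow_left hC1 k
    calc 3 * (E - 1) + 10 ≤ 3 * (ep c b + k) + 10 := by omega
      _ ≤ (3 * ep c b + 10) * (k + 1) := by nlinarith
      _ ≤ _ := Nat.mul_le_mul_left _ h7
  rw [hk, pow_add] at h4
  have hpos : 0 < CC c ^ k := by positivity
  refine Nat.le_of_mul_le_mul_right ?_ hpos
  calc CC c ^ (ep c b - 3) * CC c ^ k ≤ 2 ^ 14 * (3 * (E - 1) + 10) * gth c K := h4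
    _ ≤ 2 ^ 14 * ((3 * ep c b + 10) * CC c ^ k) * gth c K := by
        apply Nat.mul_le_mul_right
        exact Nat.mul_le_mul_left _ h5
    _ = _ := by ring

/-- arithmetic of the next theorem -/
theorem bth_arith {C e g : ℕ} (hCn : 1048576 ≤ C) (he : 20 ≤ e)
    (hcube : 64 * (e + 1) ^ 3 ≤ C ^ (e - 18))
    (h1 : C ^ (e - 3) ≤ 2 ^ 14 * (3 * e + 10) * g) :
    C ^ (e - 5) / (e + 1) + 4 ≤ g / (4 * C) := by
  set q := C ^ (e - 5) / (e + 1) with hq
  have hq1 : q * (e + 1) ≤ C ^ (e - 5) := Nat.div_mul_le_self _ _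
  have hCpos : 0 < C := by omega
  have h4e : 4 * (e + 1) ≤ C ^ (e - 5) := by
    have e1 : C ^ (e - 5) = C ^ 13 * C ^ (e - 18) := by
      rw [← pow_add]
      congr 1
      omega
    rw [e1]
    have h13 : 4 ≤ C ^ 13 := by
      calc 4 ≤ C := by omega
        _ = C ^ 1 := (pow_one C).symm
        _ ≤ C ^ 13 := Nat.pow_le_pow_right hCpos (by norm_num)
    have h18 : e + 1 ≤ C ^ (e - 18) := by
      refine le_trans ?_ hcube
      calc e + 1 ≤ (e + 1) ^ 3 := Nat.le_self_pow (by norm_num) _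
        _ ≤ _ := by omega
    exact Nat.mul_le_mul h13 h18
  rw [Nat.le_div_iff_mul_le (by omega)]
  have h3e : 3 * e + 10 ≤ 4 * (e + 1) := by omega
  have hbig : 2 ^ 14 * (4 * (e + 1)) * ((q + 4) * (4 * C)) ≤ C ^ (e - 3) := by
    have e1 : C ^ (e - 3) = C * (C * C ^ (e - 5)) := by
      rw [← pow_succ', ← pow_succ']
      congr 1
      omega
    rw [e1]
    calc 2 ^ 14 * (4 * (e + 1)) * ((q + 4) * (4 * C))
        = 2 ^ 18 * (C * (q * (e + 1) + 4 * (e + 1))) := by ring
      _ ≤ 2 ^ 18 * (C * (C ^ (e - 5) + C ^ (e - 5))) := by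
          apply Nat.mul_le_mul_left
          apply Nat.mul_le_mul_left
          omega
      _ = 2 ^ 19 * (C * C ^ (e - 5)) := by ring
      _ ≤ C * (C * C ^ (e - 5)) := by
          apply Nat.mul_le_mul_right
          have : (2 : ℕ) ^ 19 = 524288 := by norm_num
          omega
  have hpos : 0 < 2 ^ 14 * (4 * (e + 1)) := by positivity
  refine Nat.le_of_mul_le_mul_left ?_ hpos
  calc 2 ^ 14 * (4 * (e + 1)) * ((q + 4) * (4 * C)) ≤ C ^ (e - 3) := hbig
    _ ≤ 2 ^ 14 * (3 * e + 10) * g := h1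
    _ ≤ 2 ^ 14 * (4 * (e + 1)) * g := by
        apply Nat.mul_le_mul_right
        exact Nat.mul_le_mul_left _ h3e

/-- The bound for `Theta` is absorbed by the near threshold. -/
theorem BTh_le (hc : 20 ≤ c) {b : ℕ} (hb : b ≤ K) (he : 20 ≤ ep c b) :
    16 * BTh (CC c) (ep c b) ≤ 2 ^ (gth c K / (4 * CC c)) := by
  have h1 := pow_le_gth (K := K) (show 1 ≤ c by omega) hb (by omega)
  have hC : 2 ^ 20 ≤ CC c := CC_ge hc
  have hcube := cube_le hC he
  have h2 := bth_arith (le_trans (by norm_num) hC) he hcube h1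
  unfold BTh
  calc 16 * 2 ^ (CC c ^ (ep c b - 5) / (ep c b + 1))
      = 2 ^ (CC c ^ (ep c b - 5) / (ep c b + 1) + 4) := by
        rw [pow_add]
        norm_num
        exact mul_comm _ _
    _ ≤ _ := Nat.pow_le_pow_right (by norm_num) h2

/-- Large distances: the trivial count is enough. -/
theorem arith_triv {C W z D : ℕ} (hC : 8 ≤ C) (h1 : (10 * C + 9) * z ≤ 10 * C * D)
    (h2 : 3 * C * W ≤ D) : (10 * C + 5) * (z + W) ≤ 10 * C * D := by
  rcases le_total ((10 * C + 5) * W) (4 * z) with h | h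
  · calc (10 * C + 5) * (z + W) = (10 * C + 5) * z + (10 * C + 5) * W := by ring
      _ ≤ (10 * C + 5) * z + 4 * z := Nat.add_le_add_left h _
      _ = (10 * C + 9) * z := by ring
      _ ≤ _ := h1
  · have h3 : 4 * ((10 * C + 5) * (z + W)) ≤ 4 * (10 * C * D) := by
      calc 4 * ((10 * C + 5) * (z + W)) = (10 * C + 5) * (4 * z + 4 * W) := by ring
        _ ≤ (10 * C + 5) * ((10 * C + 5) * W + 4 * W) := by
            apply Nat.mul_le_mul_left
            omega
        _ = ((10 * C + 5) * (10 * C + 9)) * W := by ring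
        _ ≤ (4 * (10 * C) * (3 * C)) * W := by
            apply Nat.mul_le_mul_right
            nlinarith
        _ = 4 * (10 * C) * (3 * C * W) := by ring
        _ ≤ 4 * (10 * C) * D := Nat.mul_le_mul_left _ h2
        _ = _ := by ring
    omega

/-! ### zones -/

theorem zone_notPT {C : Codes} {r0 r1 : Reg} {Z : Zone} (h0 : ¬ isPT r0) (h : ZoneOf C r0 r1 Z) :
    ∃ a κ, a < 2 ^ r1.bot ∧ Z = zreg C r1 a κ := by
  cases r0 with
  | PT p e f b => exact absurd trivial h0
  | P => exact h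
  | R => exact h
  | RT => exact h
  | RTh => exact h
  | win => exact h
  | winC => exact h

/-- What is needed about a zone of `P` type: its top, and modulo `2 ^ (f + l)` its values are the
contents of the variables of length `l`. -/
structure PZone (C : Codes) (p f l hi : ℕ) (Z : Zone) : Prop where
  top : Z.top = hi
  ok : Zone.Ok Z
  rep : ∃ G, PRep (C.X p) (C.P p) f l G Z.S
  le : f + l ≤ hi

theorem pzone_P {p f b : ℕ} {r0 : Reg} {Z : Zone} (h0 : ¬ isPT r0) (hfb : f ≤ b)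
    (h : ZoneOf (mk (CC c) TK) r0 (Reg.P p f b) Z) : PZone (mk (CC c) TK) p f (b - f) b Z := by
  obtain ⟨a, κ, ha, rfl⟩ := zone_notPT h0 h
  exact ⟨rfl, zreg_ok _ _ hfb ha, ⟨_, zP_rep _⟩, by omega⟩

theorem pzone_PT {p e f b : ℕ} {r0 : Reg} {Z : Zone} (h0 : ¬ isPT r0) (hfb : f ≤ b)
    (h : ZoneOf (mk (CC c) TK) r0 (Reg.PT p e f b) Z) :
    PZone (mk (CC c) TK) p f (b - f) (b + CC c ^ e) Z := by
  obtain ⟨a, κ, ha, rfl⟩ := zone_notPT h0 h
  refine ⟨rfl, zreg_ok _ _ ?_ ha, ⟨_, zPT_rep _ (mk_pcode p) hfb⟩, by omega⟩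
  show f ≤ b + CC c ^ e
  omega

/-- The zones of `R` type. -/
inductive RZ (C : Codes) : ℕ → ℕ → ℕ → Zone → Prop
  | RT (e b v a κ : ℕ) : RZ C e b v (zreg C (.RT e b v) a κ)
  | RTh (e b v a κ : ℕ) : RZ C e b v (zreg C (.RTh e b v) a κ)
  | RS (e b v a κ κ₂ : ℕ) : RZ C e b v (zRS C e b v a κ κ₂)

theorem RZ.top {C : Codes} {e b v : ℕ} {Z : Zone} (h : RZ C e b v Z) : Z.top = v := by
  cases h <;> rfl

theorem RZ.card {C : Codes} {e b v : ℕ} {Z : Zone} (h : RZ C e b v Z) (hR : RC.RBase C e)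
    (hbv : b + C.W e ≤ v) : Z.S.card ≤ 2 ^ ((v - b) / 2) := by
  cases h with
  | RT => exact zRT_card _ hR hbv
  | RTh => exact zRTh_card _ hR hbv
  | RS => exact zRS_card' _ hR hbv

/-- **The block inside the known range of the `P` zone.** -/
theorem RZ.cross {C : Codes} {e b v p f l q hi n B : ℕ} {Z Z' : Zone} (h : RZ C e b v Z)
    (hR : RC.RBase C e) (hZ' : PZone C p f l hi Z') (hq : q + C.W e ≤ l) (hb : b = f + q)
    (hv : hi ≤ v)
    (hB : QPB (C.X p) (C.P p) (C.W e) l q B (C.T e))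
    (hB' : QPB (C.X p) (C.P p) (C.W e) l q B (C.Th e)) :
    (pmod hi n Z'.S Z.S).card ≤ 2 * B * 2 ^ ((v - (b + C.W e)) / 2) := by
  obtain ⟨G, hG⟩ := hZ'.rep
  have hlt : ∀ s ∈ Z'.S, s < 2 ^ hi := by
    intro s hs
    have := hZ'.ok s hs
    rwa [hZ'.top] at this
  have hY : (C.Y (v - (b + C.W e))).card ≤ 2 ^ ((v - (b + C.W e)) / 2) := by
    rw [hR.hY]
    exact RC.card_Yq_le _
  have hsub : v - b - C.W e = v - (b + C.W e) := by omega
  cases h with
  | RT a κ =>
    have h1 := cross_RT (n := n) (a := a) (κ := κ) hG hlt hZ'.le hq hb hv hR.hT hB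
    rw [hsub] at h1
    refine h1.trans ?_
    calc (C.Y (v - (b + C.W e))).card * B ≤ 2 ^ ((v - (b + C.W e)) / 2) * (2 * B) :=
          Nat.mul_le_mul hY (by omega)
      _ = _ := by ring
  | RTh a κ =>
    have h1 := cross_RTh (n := n) (a := a) (κ := κ) hG hlt hZ'.le hq hb hv hR.hTh hB'
    rw [hsub] at h1
    refine h1.trans ?_
    calc (C.Y (v - (b + C.W e))).card * B ≤ 2 ^ ((v - (b + C.W e)) / 2) * (2 * B) :=
          Nat.mul_le_mul hY (by omega)
      _ = _ := by ring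
  | RS a κ κ₂ =>
    have h1 := cross_RS (n := n) (a := a) (κ := κ) (κ₂ := κ₂) hG hlt hZ'.le hq hb hv hR.hT hB
    refine h1.trans ?_
    calc (C.Y (v - (b + C.W e))).card * (2 * B) ≤ 2 ^ ((v - (b + C.W e)) / 2) * (2 * B) :=
          Nat.mul_le_mul_right _ hY
      _ = _ := by ring

/-- **The same block.** -/
theorem RZ.same {C : Codes} {e b v p f n r a' κ' : ℕ} {Z : Zone} (h : RZ C e b v Z)
    (hR : RC.RBase C e) (hP : PCode (C.X p) (C.P p)) (hfb : f ≤ b) (hv : b + C.W e ≤ v)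
    (ha' : a' < 2 ^ f)
    (h1 : SumB (C.W e) (C.T e) (C.T e) r) (h2 : SumB (C.W e) (C.T e) (C.Th e) r) :
    (pmod (b + C.W e) n (zreg C (.PT p e f b) a' κ').S Z.S).card ≤
      r * 2 ^ ((v - (b + C.W e)) / 2) := by
  have hY : (C.Y (v - (b + C.W e))).card ≤ 2 ^ ((v - (b + C.W e)) / 2) := by
    rw [hR.hY]
    exact RC.card_Yq_le _
  have hsub : v - b - C.W e = v - (b + C.W e) := by omega
  cases h with
  | RT a κ =>
    have h3 := same_RT (n := n) (a := a') (κ := κ') (a' := a) (κ' := κ) hP hfb hv ha' h1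
    rw [hsub] at h3
    refine h3.trans ?_
    rw [mul_comm]
    exact Nat.mul_le_mul_left _ hY
  | RTh a κ =>
    have h3 := same_RTh (n := n) (a := a') (κ := κ') (a' := a) (κ' := κ) hP hfb hv ha' h2
    rw [hsub] at h3
    refine h3.trans ?_
    rw [mul_comm]
    exact Nat.mul_le_mul_left _ hY
  | RS a κ κ₂ =>
    have h3 := same_RS (v := v) (n := n) (a := a') (κ := κ') (a' := a) (κ' := κ) (κ₂ := κ₂)
      hP hfb ha' h1
    refine h3.trans ?_
    rw [mul_comm]
    exact Nat.mul_le_mul_left _ hY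

/-! ### the bound for the block digits -/

theorem QPB_of (hc : 20 ≤ c) {b g l q : ℕ} (he : 20 ≤ ep c b) (hg : g = 0 ∨ ep c g = ep c b)
    (hb : b = g + q) (hq : q + Wd c b ≤ l) (hl : l - q ≤ Wd c b + 3 * CC c * Wd c b) :
    QPB ((mk (CC c) TK).X (pidx c g)) ((mk (CC c) TK).P (pidx c g)) (CC c ^ ep c b) l q
      (BTh (CC c) (ep c b)) ((mk (CC c) TK).T (ep c b)) ∧
    QPB ((mk (CC c) TK).X (pidx c g)) ((mk (CC c) TK).P (pidx c g)) (CC c ^ ep c b) l q
      (BTh (CC c) (ep c b)) ((mk (CC c) TK).Th (ep c b)) := by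
  have hC := CC_ge hc
  have h2 := CC_even hc
  have hCn : 1048576 ≤ CC c := by
    have : (2 : ℕ) ^ 20 = 1048576 := by norm_num
    omega
  have hWd : Wd c b = CC c ^ ep c b := rfl
  rw [hWd] at hq hl
  rcases le_or_gt l (2 * q) with h | h
  · -- the variable is unique
    have h1 : ∀ (Xs A : Finset ℕ) (r : ℕ), A ⊆ Xs → A ⊆ QP ((mk (CC c) TK).X (pidx c g))
        ((mk (CC c) TK).P (pidx c g)) (CC c ^ ep c b) l q r → A.card ≤ BTh (CC c) (ep c b) := by
      intro Xs A r _ hA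
      have h3 := (Finset.card_le_card hA).trans (card_QP_low (mk_pcode (pidx c g)) hq)
      have h4 : (l + 1) / 2 - q = 0 := by omega
      rw [h4] at h3
      refine h3.trans ?_
      have h5 := BT_le_BTh hC he
      have h6 : 2 ≤ BT (CC c) (ep c b) := by
        unfold BT
        have : 0 < CC c ^ (ep c b + 1) := by
          have : 0 < CC c := by omega
          positivity
        omega
      simpa using h6.trans h5
    exact ⟨fun r A hA hA' => h1 _ A r hA hA', fun r A hA hA' => h1 _ A r hA hA'⟩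
  · have hW0 : 0 < CC c ^ ep c b := by
      have : 0 < CC c := by omega
      positivity
    have hCW : CC c ^ (ep c b + 1) = CC c * CC c ^ ep c b := pow_succ' _ _
    have hW1 : CC c ^ ep c b ≤ CC c * CC c ^ ep c b := Nat.le_mul_of_pos_left _ (by omega)
    have hl2 : l ≤ 50 * CC c ^ (ep c b + 1) := by
      rw [hCW]
      have : 3 * CC c * CC c ^ ep c b = 3 * (CC c * CC c ^ ep c b) := by ring
      omega
    rcases Nat.eq_zero_or_pos g with h0 | h0
    · -- anchor `0`: the offset is large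
      exfalso
      subst h0
      have hb0 : b ≠ 0 := by
        intro hb0
        rw [hb0] at he
        unfold ep lg at he
        simp at he
      have h3 : CC c ^ (3 * ep c b) ≤ b := by
        calc CC c ^ (3 * ep c b) ≤ CC c ^ (lg c b) := by
              apply Nat.pow_le_pow_right (by omega)
              unfold ep
              omega
          _ ≤ b := Nat.pow_log_le_self _ hb0
      have h4 : CC c ^ (ep c b + 2) ≤ CC c ^ (3 * ep c b) :=
        Nat.pow_le_pow_right (by omega) (by omega)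
      have h5 : CC c ^ (ep c b + 2) = CC c * (CC c * CC c ^ ep c b) := by
        rw [← pow_succ', ← pow_succ']
      have h6 : 5 * (CC c * CC c ^ ep c b) ≤ CC c * (CC c * CC c ^ ep c b) :=
        Nat.mul_le_mul_right _ (by omega)
      have : 3 * CC c * CC c ^ ep c b = 3 * (CC c * CC c ^ ep c b) := by ring
      omega
    · have hp : pidx c g = ep c b + 1 := by
        unfold pidx
        rw [if_neg (by omega)]
        rcases hg with hg | hg
        · omega
        · rw [hg]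
      rw [hp]
      constructor
      · intro r A hA hA'
        refine (Finset.card_le_card (Finset.subset_inter hA hA')).trans ?_
        exact (T_QP (TK := TK) hC h2 he r hq hl2).trans (BT_le_BTh hC he)
      · intro r A hA hA'
        refine (Finset.card_le_card (Finset.subset_inter hA hA')).trans ?_
        exact Th_QP (TK := TK) hC h2 he r hq hl2

end Pool.Agent.Helper83.ET
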