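import Mathlib

/-!
# Random sets by counting

`N` points of `[0, M)`, chosen independently (all functions `Fin N → [0, M)`).
-/

namespace Pool.Agent.Helper83.ET

open Finset

/-- All choices of `N` points of `[0, M)`. -/
def Om (N M : ℕ) : Finset (Fin N → ℕ) := Fintype.piFinset (fun _ => Finset.range M)

theorem card_Om (N M : ℕ) : (Om N M).card = M ^ N := by
  unfold Om
  rw [Fintype.card_piFinset]
  simp

theorem mem_Om {N M : ℕ} {t : Fin N → ℕ} : t ∈ Om N M ↔ ∀ i, t i < M := by
  unfold Om
  rw [Fintype.mem_piFinset]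
  simp

/-- Many points in a fixed set. -/
theorem hits_card (N M m : ℕ) (Q : Finset ℕ) :
    ((Om N M).filter (fun t => m ≤ (Finset.univ.filter (fun i => t i ∈ Q)).card)).card * M ^ m ≤
      (N * Q.card) ^ m * M ^ N := by
  classical
  let D : Finset (Fin N) → Finset (Fin N → ℕ) := fun I =>
    Fintype.piFinset (fun i => if i ∈ I then Q else Finset.range M)
  have hsub : (Om N M).filter (fun t => m ≤ (Finset.univ.filter (fun i => t i ∈ Q)).card) ⊆
      (Finset.powersetCard m (Finset.univ : Finset (Fin N))).biUnion D := by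
    intro t ht
    rw [Finset.mem_filter, mem_Om] at ht
    obtain ⟨I, hI, hIc⟩ := Finset.exists_subset_card_eq ht.2
    rw [Finset.mem_biUnion]
    refine ⟨I, Finset.mem_powersetCard.mpr ⟨Finset.subset_univ _, hIc⟩, ?_⟩
    show t ∈ Fintype.piFinset (fun i => if i ∈ I then Q else Finset.range M)
    rw [Fintype.mem_piFinset]
    intro i
    split_ifs with h
    · exact (Finset.mem_filter.mp (hI h)).2
    · exact Finset.mem_range.mpr (ht.1 i)
  have hD : ∀ I ∈ Finset.powersetCard m (Finset.univ : Finset (Fin N)),
      (D I).card * M ^ m = Q.card ^ m * M ^ N := by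
    intro I hI
    have hIc := (Finset.mem_powersetCard.mp hI).2
    have hmN : m ≤ N := by
      rw [← hIc]
      exact (Finset.card_le_univ I).trans (by simp)
    show (Fintype.piFinset (fun i => if i ∈ I then Q else Finset.range M)).card * M ^ m = _
    rw [Fintype.card_piFinset]
    have h1 : ∀ i : Fin N, (if i ∈ I then Q else Finset.range M).card =
        if i ∈ I then Q.card else M := by
      intro i
      split_ifs
      · rfl
      · exact Finset.card_range M
    rw [Finset.prod_congr rfl (fun i _ => h1 i), Finset.prod_ite]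
    simp only [Finset.prod_const]
    have h2 : (Finset.univ.filter (fun i : Fin N => i ∈ I)).card = m := by
      rw [← hIc]
      congr 1
      ext i
      simp
    have h3 : (Finset.univ.filter (fun i : Fin N => i ∉ I)).card = N - m := by
      have := Finset.card_filter_add_card_filter_not (s := (Finset.univ : Finset (Fin N)))
        (fun i => i ∈ I)
      rw [h2] at this
      simp only [Finset.card_univ, Fintype.card_fin] at this
      omega
    rw [h2, h3, mul_assoc, ← pow_add]
    congr 2
    omega
  calc _ ≤ ((Finset.powersetCard m (Finset.univ : Finset (Fin N))).biUnion D).card * M ^ m :=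
        Nat.mul_le_mul_right _ (Finset.card_le_card hsub)
    _ ≤ (∑ I ∈ Finset.powersetCard m (Finset.univ : Finset (Fin N)), (D I).card) * M ^ m :=
        Nat.mul_le_mul_right _ Finset.card_biUnion_le
    _ = ∑ I ∈ Finset.powersetCard m (Finset.univ : Finset (Fin N)), Q.card ^ m * M ^ N := by
        rw [Finset.sum_mul]
        exact Finset.sum_congr rfl hD
    _ = N.choose m * (Q.card ^ m * M ^ N) := by
        rw [Finset.sum_const, Finset.card_powersetCard]
        simp
    _ ≤ N ^ m * (Q.card ^ m * M ^ N) := Nat.mul_le_mul_right _ (Nat.choose_le_pow N m)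
    _ = (N * Q.card) ^ m * M ^ N := by rw [mul_pow]; ring

/-- Functions determined outside of `m` coordinates. -/
theorem card_determined {N M m : ℕ} (S : Finset (Fin N → ℕ)) (hS : S ⊆ Om N M)
    (J : Finset (Fin N)) (hJ : J.card = m)
    (hdet : ∀ t ∈ S, ∀ t' ∈ S, (∀ i, i ∉ J → t i = t' i) → t = t') :
    S.card * M ^ m ≤ M ^ N := by
  classical
  have hmN : m ≤ N := by
    rw [← hJ]
    exact (Finset.card_le_univ J).trans (by simp)
  have h1 : S.card ≤ (Fintype.piFinset (fun _ : {i : Fin N // i ∉ J} => Finset.range M)).card := by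
    apply Finset.card_le_card_of_injOn (fun t => fun i : {i : Fin N // i ∉ J} => t i)
    · intro t ht
      rw [Finset.mem_coe, Fintype.mem_piFinset]
      intro i
      exact Finset.mem_range.mpr (mem_Om.mp (hS (Finset.mem_coe.mp ht)) i)
    · intro t ht t' ht' h
      apply hdet t (Finset.mem_coe.mp ht) t' (Finset.mem_coe.mp ht')
      intro i hi
      exact congrFun h ⟨i, hi⟩
  rw [Fintype.card_piFinset] at h1
  simp only [Finset.card_range, Finset.prod_const, Finset.card_univ] at h1
  have h2 : Fintype.card {i : Fin N // i ∉ J} = N - m := by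
    rw [Fintype.card_subtype_compl]
    simp [hJ]
  rw [h2] at h1
  calc S.card * M ^ m ≤ M ^ (N - m) * M ^ m := Nat.mul_le_mul_right _ h1
    _ = M ^ N := by
        rw [← pow_add]
        congr 1
        omega

open Classical in
/-- `m` disjoint pairs of points with a given sum. -/
theorem pairs_card (N M m s : ℕ) :
    ((Om N M).filter (fun t => ∃ q : Fin m → Fin N × Fin N,
      Function.Injective (Sum.elim (fun k => (q k).1) (fun k => (q k).2)) ∧
      ∀ k, (t (q k).1 + t (q k).2) % M = s)).card * M ^ m ≤ (N * N) ^ m * M ^ N := by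
  let D : (Fin m → Fin N × Fin N) → Finset (Fin N → ℕ) := fun q =>
    (Om N M).filter (fun t => Function.Injective (Sum.elim (fun k => (q k).1) (fun k => (q k).2)) ∧
      ∀ k, (t (q k).1 + t (q k).2) % M = s)
  have hsub : (Om N M).filter (fun t => ∃ q : Fin m → Fin N × Fin N,
      Function.Injective (Sum.elim (fun k => (q k).1) (fun k => (q k).2)) ∧
      ∀ k, (t (q k).1 + t (q k).2) % M = s) ⊆
      (Finset.univ : Finset (Fin m → Fin N × Fin N)).biUnion D := by
    intro t ht
    obtain ⟨h1, q, h2⟩ := Finset.mem_filter.mp ht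
    exact Finset.mem_biUnion.mpr ⟨q, Finset.mem_univ _, Finset.mem_filter.mpr ⟨h1, h2⟩⟩
  have hD : ∀ q, (D q).card * M ^ m ≤ M ^ N := by
    intro q
    by_cases hinj : Function.Injective (Sum.elim (fun k => (q k).1) (fun k => (q k).2))
    swap
    · have : D q = ∅ := by
        apply Finset.filter_eq_empty_iff.mpr
        intro t _ h
        exact hinj h.1
      rw [this]
      simp
    have h2inj : Function.Injective (fun k => (q k).2) := by
      intro a b hab
      have := @hinj (Sum.inr a) (Sum.inr b) hab
      exact Sum.inr_injective this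
    apply card_determined (D q) (Finset.filter_subset _ _)
      (Finset.univ.image (fun k => (q k).2))
    · rw [Finset.card_image_of_injective _ h2inj]
      simp
    · intro t ht t' ht' hag
      have h1 := Finset.mem_filter.mp ht
      have h1' := Finset.mem_filter.mp ht'
      funext i
      by_cases hi : i ∈ Finset.univ.image (fun k => (q k).2)
      · obtain ⟨k, -, hk⟩ := Finset.mem_image.mp hi
        have hne : (q k).1 ∉ Finset.univ.image (fun k => (q k).2) := by
          intro hmem
          obtain ⟨k', -, hk'⟩ := Finset.mem_image.mp hmem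
          have := @hinj (Sum.inl k) (Sum.inr k') hk'.symm
          simp at this
        have e1 := hag _ hne
        have e2 := h1.2.2 k
        have e3 := h1'.2.2 k
        have e4 : t (q k).2 ≡ t' (q k).2 [MOD M] := by
          have : t (q k).1 + t (q k).2 ≡ t (q k).1 + t' (q k).2 [MOD M] := by
            rw [Nat.ModEq, e2, e1]
            exact e3.symm
          exact Nat.ModEq.add_left_cancel' _ this
        have e5 := Nat.ModEq.eq_of_lt_of_lt e4 (mem_Om.mp h1.1 _) (mem_Om.mp h1'.1 _)
        rw [← hk]
        exact e5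
      · exact hag i hi
  calc _ ≤ ((Finset.univ : Finset (Fin m → Fin N × Fin N)).biUnion D).card * M ^ m :=
        Nat.mul_le_mul_right _ (Finset.card_le_card hsub)
    _ ≤ (∑ q : (Fin m → Fin N × Fin N), (D q).card) * M ^ m :=
        Nat.mul_le_mul_right _ Finset.card_biUnion_le
    _ = ∑ q : (Fin m → Fin N × Fin N), (D q).card * M ^ m := Finset.sum_mul _ _ _
    _ ≤ ∑ _q : (Fin m → Fin N × Fin N), M ^ N := Finset.sum_le_sum (fun q _ => hD q)
    _ = (N * N) ^ m * M ^ N := by
        rw [Finset.sum_const]
        simp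

open Classical in
/-- Coinciding points. -/
theorem not_inj_card (N M : ℕ) :
    ((Om N M).filter (fun t => ¬ Function.Injective t)).card * M ≤ N * N * M ^ N := by
  let D : Fin N × Fin N → Finset (Fin N → ℕ) := fun q =>
    (Om N M).filter (fun t => q.1 ≠ q.2 ∧ t q.1 = t q.2)
  have hsub : (Om N M).filter (fun t => ¬ Function.Injective t) ⊆
      (Finset.univ : Finset (Fin N × Fin N)).biUnion D := by
    intro t ht
    obtain ⟨h1, h2⟩ := Finset.mem_filter.mp ht
    unfold Function.Injective at h2
    push Not at h2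
    obtain ⟨a, b, hab, hne⟩ := h2
    exact Finset.mem_biUnion.mpr ⟨(a, b), Finset.mem_univ _,
      Finset.mem_filter.mpr ⟨h1, hne, hab⟩⟩
  have hD : ∀ q, (D q).card * M ^ 1 ≤ M ^ N := by
    intro q
    by_cases hne : q.1 = q.2
    · have : D q = ∅ := by
        apply Finset.filter_eq_empty_iff.mpr
        intro t _ h
        exact h.1 hne
      rw [this]
      simp
    apply card_determined (D q) (Finset.filter_subset _ _) {q.2}
    · simp
    · intro t ht t' ht' hag
      have h1 := Finset.mem_filter.mp ht
      have h1' := Finset.mem_filter.mp ht'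
      funext i
      by_cases hi : i ∈ ({q.2} : Finset (Fin N))
      · rw [Finset.mem_singleton] at hi
        have e1 := hag q.1 (by rw [Finset.mem_singleton]; exact hne)
        rw [hi, ← h1.2.2, ← h1'.2.2]
        exact e1
      · exact hag i hi
  calc _ ≤ ((Finset.univ : Finset (Fin N × Fin N)).biUnion D).card * M :=
        Nat.mul_le_mul_right _ (Finset.card_le_card hsub)
    _ ≤ (∑ q : (Fin N × Fin N), (D q).card) * M :=
        Nat.mul_le_mul_right _ Finset.card_biUnion_le
    _ = ∑ q : (Fin N × Fin N), (D q).card * M ^ 1 := by rw [Finset.sum_mul, pow_one]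
    _ ≤ ∑ _q : (Fin N × Fin N), M ^ N := Finset.sum_le_sum (fun q _ => hD q)
    _ = N * N * M ^ N := by
        rw [Finset.sum_const]
        simp

open Classical in
/-- Many pairs with a given sum contain many disjoint pairs of indices. -/
theorem exists_matching {N M m s : ℕ} {t : Fin N → ℕ} (ht : t ∈ Om N M) (hM : 0 < M)
    (hc : 2 * m + 2 < (((Finset.univ.image t) ×ˢ (Finset.univ.image t)).filter
      (fun q => (q.1 + q.2) % M = s)).card) :
    ∃ q : Fin m → Fin N × Fin N,
      Function.Injective (Sum.elim (fun k => (q k).1) (fun k => (q k).2)) ∧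
      ∀ k, (t (q k).1 + t (q k).2) % M = s := by
  set T := Finset.univ.image t with hT
  set S := (T ×ˢ T).filter (fun q => (q.1 + q.2) % M = s) with hS
  have hTlt : ∀ a ∈ T, a < M := by
    intro a ha
    obtain ⟨i, -, rfl⟩ := Finset.mem_image.mp ha
    exact mem_Om.mp ht i
  -- pairs with equal components
  have hdiag : (S.filter (fun q => q.1 = q.2)).card ≤ 2 := by
    by_contra hcon
    push Not at hcon
    obtain ⟨a, ha, b, hb, c, hc, hab, hac, hbc⟩ := Finset.two_lt_card.mp hcon
    have key : ∀ x ∈ S.filter (fun q => q.1 = q.2), ∀ y ∈ S.filter (fun q => q.1 = q.2),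
        x.1 < y.1 → 2 * y.1 = 2 * x.1 + M := by
      intro x hx y hy hxy
      have hx1 := Finset.mem_filter.mp hx
      have hy1 := Finset.mem_filter.mp hy
      have hx2 := Finset.mem_filter.mp hx1.1
      have hy2 := Finset.mem_filter.mp hy1.1
      have e1 : (x.1 + x.2) ≡ (y.1 + y.2) [MOD M] := by
        rw [Nat.ModEq, hx2.2, hy2.2]
      rw [← hx1.2, ← hy1.2] at e1
      have hle : x.1 + x.1 ≤ y.1 + y.1 := by omega
      obtain ⟨d, hd⟩ := (Nat.modEq_iff_dvd' hle).mp e1
      have hylt := hTlt y.1 (Finset.mem_product.mp hy2.1).1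
      have hd1 : d = 1 := by
        rcases Nat.lt_trichotomy d 1 with h | h | h
        · have : d = 0 := by omega
          rw [this] at hd
          omega
        · exact h
        · have : M * 2 ≤ M * d := Nat.mul_le_mul_left _ h
          omega
      rw [hd1] at hd
      omega
    have hne : ∀ x ∈ S.filter (fun q => q.1 = q.2), ∀ y ∈ S.filter (fun q => q.1 = q.2),
        x ≠ y → x.1 ≠ y.1 := by
      intro x hx y hy hxy h
      apply hxy
      have hx1 := Finset.mem_filter.mp hx
      have hy1 := Finset.mem_filter.mp hy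
      exact Prod.ext h (by rw [← hx1.2, ← hy1.2, h])
    have n1 := hne a ha b hb hab
    have n2 := hne a ha c hc hac
    have n3 := hne b hb c hc hbc
    rcases Nat.lt_or_gt_of_ne n1 with h1 | h1 <;> rcases Nat.lt_or_gt_of_ne n2 with h2 | h2 <;>
      rcases Nat.lt_or_gt_of_ne n3 with h3 | h3
    · have k1 := key a ha b hb h1
      have k2 := key b hb c hc h3
      have k3 := key a ha c hc h2
      omega
    · have k1 := key a ha b hb h1
      have k2 := key c hc b hb h3
      have k3 := key a ha c hc h2
      omega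
    · omega
    · have k1 := key a ha b hb h1
      have k2 := key c hc b hb h3
      have k3 := key c hc a ha h2
      omega
    · have k1 := key b hb a ha h1
      have k2 := key b hb c hc h3
      have k3 := key a ha c hc h2
      omega
    · omega
    · have k1 := key b hb a ha h1
      have k2 := key b hb c hc h3
      have k3 := key c hc a ha h2
      omega
    · have k1 := key b hb a ha h1
      have k2 := key c hc b hb h3
      have k3 := key c hc a ha h2
      omega
  -- the pairs with first component smaller, and greater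
  have hswap : (S.filter (fun q => q.2 < q.1)).card ≤ (S.filter (fun q => q.1 < q.2)).card := by
    apply Finset.card_le_card_of_injOn Prod.swap
    · intro q hq
      have h1 := Finset.mem_filter.mp (Finset.mem_coe.mp hq)
      have h2 := Finset.mem_filter.mp h1.1
      have h3 := Finset.mem_product.mp h2.1
      rw [Finset.mem_coe, Finset.mem_filter, hS, Finset.mem_filter, Finset.mem_product]
      refine ⟨⟨⟨h3.2, h3.1⟩, ?_⟩, h1.2⟩
      show (q.2 + q.1) % M = s
      rw [Nat.add_comm]
      exact h2.2
    · intro q _ q' _ h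
      exact Prod.swap_injective h
  have hcover : S.card ≤ (S.filter (fun q => q.1 < q.2)).card +
      (S.filter (fun q => q.2 < q.1)).card + (S.filter (fun q => q.1 = q.2)).card := by
    have hsub : S ⊆ (S.filter (fun q => q.1 < q.2)) ∪ (S.filter (fun q => q.2 < q.1)) ∪
        (S.filter (fun q => q.1 = q.2)) := by
      intro q hq
      rw [Finset.mem_union, Finset.mem_union]
      rcases Nat.lt_trichotomy q.1 q.2 with h | h | h
      · exact Or.inl (Or.inl (Finset.mem_filter.mpr ⟨hq, h⟩))
      · exact Or.inr (Finset.mem_filter.mpr ⟨hq, h⟩)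
      · exact Or.inl (Or.inr (Finset.mem_filter.mpr ⟨hq, h⟩))
    refine (Finset.card_le_card hsub).trans ?_
    refine (Finset.card_union_le _ _).trans ?_
    exact Nat.add_le_add_right (Finset.card_union_le _ _) _
  have hm : m ≤ (S.filter (fun q => q.1 < q.2)).card := by omega
  obtain ⟨R, hR, hRc⟩ := Finset.exists_subset_card_eq hm
  -- enumeration
  let g : Fin m → ℕ × ℕ := fun k => ((R.equivFinOfCardEq hRc).symm k : ℕ × ℕ)
  have hg : ∀ k, g k ∈ S ∧ (g k).1 < (g k).2 := by
    intro k
    have := hR ((R.equivFinOfCardEq hRc).symm k).2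
    exact Finset.mem_filter.mp this
  have hginj : Function.Injective g := by
    intro a b hab
    exact (R.equivFinOfCardEq hRc).symm.injective (Subtype.ext hab)
  -- indices
  have hidx : ∀ a ∈ T, ∃ i, t i = a := by
    intro a ha
    obtain ⟨i, -, h⟩ := Finset.mem_image.mp ha
    exact ⟨i, h⟩
  have hg1 : ∀ k, (g k).1 ∈ T := fun k => (Finset.mem_product.mp (Finset.mem_filter.mp (hg k).1).1).1
  have hg2 : ∀ k, (g k).2 ∈ T := fun k => (Finset.mem_product.mp (Finset.mem_filter.mp (hg k).1).1).2
  have hgs : ∀ k, ((g k).1 + (g k).2) % M = s := fun k => (Finset.mem_filter.mp (hg k).1).2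
  choose ι hι using hidx
  refine ⟨fun k => (ι _ (hg1 k), ι _ (hg2 k)), ?_, ?_⟩
  · -- the second component is determined by the first one
    have hdet : ∀ a b, (g a).1 = (g b).1 → g a = g b := by
      intro a b h
      have e1 : (g a).1 + (g a).2 ≡ (g b).1 + (g b).2 [MOD M] := by
        rw [Nat.ModEq, hgs, hgs]
      rw [h] at e1
      have e2 := Nat.ModEq.add_left_cancel' _ e1
      exact Prod.ext h (Nat.ModEq.eq_of_lt_of_lt e2 (hTlt _ (hg2 a)) (hTlt _ (hg2 b)))
    have hdet2 : ∀ a b, (g a).2 = (g b).2 → g a = g b := by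
      intro a b h
      have e1 : (g a).1 + (g a).2 ≡ (g b).1 + (g b).2 [MOD M] := by
        rw [Nat.ModEq, hgs, hgs]
      rw [h] at e1
      have e2 := Nat.ModEq.add_right_cancel' _ e1
      exact Prod.ext (Nat.ModEq.eq_of_lt_of_lt e2 (hTlt _ (hg1 a)) (hTlt _ (hg1 b))) h
    have hcross : ∀ a b, (g a).1 ≠ (g b).2 := by
      intro a b h
      have e1 : (g a).1 + (g a).2 ≡ (g b).1 + (g b).2 [MOD M] := by
        rw [Nat.ModEq, hgs, hgs]
      rw [h, Nat.add_comm] at e1
      have e2 := Nat.ModEq.add_right_cancel' _ e1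
      have e3 := Nat.ModEq.eq_of_lt_of_lt e2 (hTlt _ (hg2 a)) (hTlt _ (hg1 b))
      have h1 := (hg a).2
      have h2 := (hg b).2
      omega
    rintro (a | a) (b | b) hab
    · have h1 : ι _ (hg1 a) = ι _ (hg1 b) := hab
      have h2 : (g a).1 = (g b).1 := by
        rw [← hι _ (hg1 a), ← hι _ (hg1 b), h1]
      rw [hginj (hdet a b h2)]
    · exfalso
      have h1 : ι _ (hg1 a) = ι _ (hg2 b) := hab
      apply hcross a b
      rw [← hι _ (hg1 a), ← hι _ (hg2 b), h1]
    · exfalso
      have h1 : ι _ (hg2 a) = ι _ (hg1 b) := hab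
      apply hcross b a
      rw [← hι _ (hg1 b), ← hι _ (hg2 a), h1]
    · have h1 : ι _ (hg2 a) = ι _ (hg2 b) := hab
      have h2 : (g a).2 = (g b).2 := by
        rw [← hι _ (hg2 a), ← hι _ (hg2 b), h1]
      rw [hginj (hdet2 a b h2)]
  · intro k
    show (t (ι _ (hg1 k)) + t (ι _ (hg2 k))) % M = s
    rw [hι, hι]
    exact hgs k

open Classical in
/-- **Random sets.** -/
theorem exists_rand {N M m q : ℕ} (hM : 0 < M) (F : Finset (Finset ℕ))
    (hq : ∀ Q ∈ F, Q.card ≤ q) (h1 : 4 * F.card * (N * q) ^ m ≤ M ^ m)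
    (h2 : 4 * M * (N * N) ^ m ≤ M ^ m) (h3 : 4 * (N * N) ≤ M) :
    ∃ T : Finset ℕ, T.card = N ∧ (∀ t ∈ T, t < M) ∧ (∀ Q ∈ F, (T.filter (fun t => t ∈ Q)).card < m)
      ∧ ∀ s, ((T ×ˢ T).filter (fun q => (q.1 + q.2) % M = s)).card ≤ 2 * m + 2 := by
  let A : Finset (Fin N → ℕ) := F.biUnion (fun Q =>
    (Om N M).filter (fun t => m ≤ (Finset.univ.filter (fun i => t i ∈ Q)).card))
  let B : Finset (Fin N → ℕ) := (Finset.range M).biUnion (fun s =>
    (Om N M).filter (fun t => ∃ q : Fin m → Fin N × Fin N,
      Function.Injective (Sum.elim (fun k => (q k).1) (fun k => (q k).2)) ∧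
      ∀ k, (t (q k).1 + t (q k).2) % M = s))
  let D : Finset (Fin N → ℕ) := (Om N M).filter (fun t => ¬ Function.Injective t)
  have hMm : 0 < M ^ m := by positivity
  have hMN : 0 < M ^ N := by positivity
  have hA : 4 * A.card ≤ M ^ N := by
    have e1 : A.card * M ^ m ≤ F.card * ((N * q) ^ m * M ^ N) := by
      calc A.card * M ^ m ≤ (∑ Q ∈ F, ((Om N M).filter
            (fun t => m ≤ (Finset.univ.filter (fun i => t i ∈ Q)).card)).card) * M ^ m :=
            Nat.mul_le_mul_right _ Finset.card_biUnion_le
        _ = ∑ Q ∈ F, ((Om N M).filter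
            (fun t => m ≤ (Finset.univ.filter (fun i => t i ∈ Q)).card)).card * M ^ m :=
            Finset.sum_mul _ _ _
        _ ≤ ∑ _Q ∈ F, (N * q) ^ m * M ^ N := by
            apply Finset.sum_le_sum
            intro Q hQ
            refine (hits_card N M m Q).trans ?_
            exact Nat.mul_le_mul_right _ (Nat.pow_le_pow_left (Nat.mul_le_mul_left _ (hq Q hQ)) _)
        _ = F.card * ((N * q) ^ m * M ^ N) := by
            rw [Finset.sum_const]
            simp
    have e2 : 4 * A.card * M ^ m ≤ M ^ N * M ^ m := by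
      calc 4 * A.card * M ^ m = 4 * (A.card * M ^ m) := by ring
        _ ≤ 4 * (F.card * ((N * q) ^ m * M ^ N)) := Nat.mul_le_mul_left _ e1
        _ = (4 * F.card * (N * q) ^ m) * M ^ N := by ring
        _ ≤ M ^ m * M ^ N := Nat.mul_le_mul_right _ h1
        _ = M ^ N * M ^ m := Nat.mul_comm _ _
    exact Nat.le_of_mul_le_mul_right e2 hMm
  have hB : 4 * B.card ≤ M ^ N := by
    have e1 : B.card * M ^ m ≤ M * ((N * N) ^ m * M ^ N) := by
      calc B.card * M ^ m ≤ (∑ s ∈ Finset.range M, ((Om N M).filter
            (fun t => ∃ q : Fin m → Fin N × Fin N,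
              Function.Injective (Sum.elim (fun k => (q k).1) (fun k => (q k).2)) ∧
              ∀ k, (t (q k).1 + t (q k).2) % M = s)).card) * M ^ m :=
            Nat.mul_le_mul_right _ Finset.card_biUnion_le
        _ = ∑ s ∈ Finset.range M, ((Om N M).filter
            (fun t => ∃ q : Fin m → Fin N × Fin N,
              Function.Injective (Sum.elim (fun k => (q k).1) (fun k => (q k).2)) ∧
              ∀ k, (t (q k).1 + t (q k).2) % M = s)).card * M ^ m := Finset.sum_mul _ _ _
        _ ≤ ∑ _s ∈ Finset.range M, (N * N) ^ m * M ^ N :=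
            Finset.sum_le_sum (fun s _ => pairs_card N M m s)
        _ = M * ((N * N) ^ m * M ^ N) := by
            rw [Finset.sum_const]
            simp
    have e2 : 4 * B.card * M ^ m ≤ M ^ N * M ^ m := by
      calc 4 * B.card * M ^ m = 4 * (B.card * M ^ m) := by ring
        _ ≤ 4 * (M * ((N * N) ^ m * M ^ N)) := Nat.mul_le_mul_left _ e1
        _ = (4 * M * (N * N) ^ m) * M ^ N := by ring
        _ ≤ M ^ m * M ^ N := Nat.mul_le_mul_right _ h2
        _ = M ^ N * M ^ m := Nat.mul_comm _ _
    exact Nat.le_of_mul_le_mul_right e2 hMm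
  have hD : 4 * D.card ≤ M ^ N := by
    have e1 := not_inj_card N M
    have e2 : 4 * D.card * M ≤ M ^ N * M := by
      calc 4 * D.card * M = 4 * (D.card * M) := by ring
        _ ≤ 4 * (N * N * M ^ N) := Nat.mul_le_mul_left _ e1
        _ = 4 * (N * N) * M ^ N := by ring
        _ ≤ M * M ^ N := Nat.mul_le_mul_right _ h3
        _ = M ^ N * M := Nat.mul_comm _ _
    exact Nat.le_of_mul_le_mul_right e2 hM
  -- a good choice
  obtain ⟨t, ht, htn⟩ : ∃ t ∈ Om N M, t ∉ A ∪ B ∪ D := by
    by_contra hcon
    push Not at hcon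
    have hsub : Om N M ⊆ A ∪ B ∪ D := hcon
    have e1 := Finset.card_le_card hsub
    rw [card_Om] at e1
    have e2 := Finset.card_union_le (A ∪ B) D
    have e3 := Finset.card_union_le A B
    omega
  rw [Finset.mem_union, Finset.mem_union] at htn
  push Not at htn
  obtain ⟨⟨htA, htB⟩, htD⟩ := htn
  have hinj : Function.Injective t := by
    by_contra h
    exact htD (Finset.mem_filter.mpr ⟨ht, h⟩)
  refine ⟨Finset.univ.image t, ?_, ?_, ?_, ?_⟩
  · rw [Finset.card_image_of_injective _ hinj]
    simp
  · intro x hx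
    obtain ⟨i, -, rfl⟩ := Finset.mem_image.mp hx
    exact mem_Om.mp ht i
  · intro Q hQ
    by_contra hcon
    push Not at hcon
    apply htA
    refine Finset.mem_biUnion.mpr ⟨Q, hQ, Finset.mem_filter.mpr ⟨ht, ?_⟩⟩
    refine hcon.trans ?_
    have hsub : (Finset.univ.image t).filter (fun t => t ∈ Q) ⊆
        (Finset.univ.filter (fun i => t i ∈ Q)).image t := by
      intro x hx
      obtain ⟨hx1, hx2⟩ := Finset.mem_filter.mp hx
      obtain ⟨i, -, rfl⟩ := Finset.mem_image.mp hx1
      exact Finset.mem_image.mpr ⟨i, Finset.mem_filter.mpr ⟨Finset.mem_univ _, hx2⟩, rfl⟩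
    exact (Finset.card_le_card hsub).trans Finset.card_image_le
  · intro s
    by_contra hcon
    push Not at hcon
    apply htB
    have hs : s < M := by
      obtain ⟨q, hq⟩ := Finset.card_pos.mp (show 0 < (((Finset.univ.image t) ×ˢ
        (Finset.univ.image t)).filter (fun q => (q.1 + q.2) % M = s)).card by omega)
      rw [← (Finset.mem_filter.mp hq).2]
      exact Nat.mod_lt _ hM
    refine Finset.mem_biUnion.mpr ⟨s, Finset.mem_range.mpr hs, Finset.mem_filter.mpr ⟨ht, ?_⟩⟩
    exact exists_matching ht hM hcon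

end Pool.Agent.Helper83.ET
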