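import Pool.Agent.Helper83.ET.Pack

/-!
# The `P` codes of the project

`exists_Pcode`: the code with no twist below `C ^ e0` and twist blocks of width `C ^ (j - 6)` at
positions in `[C ^ (j - 1), C ^ j)`, with the moment lemma for the families `FA` and `FB`.
-/

namespace Pool.Agent.Helper83.ET

open Finset

open Classical in
/-- The variables with a prescribed product modulo `2 ^ (a + 2)` with some variable of
length `a`. -/
noncomputable def FA (l a G : ℕ) : Finset ℕ :=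
  (VZ l).filter (fun z => ∃ z' ∈ VZ a, z * z' % 2 ^ (a + 2) = G)

/-- The variables in a residue class. -/
def FB (l a ξ : ℕ) : Finset ℕ := (VZ l).filter (fun z => z % 2 ^ (a + 2) = ξ)

open Classical in
/-- All these families. -/
noncomputable def Fm (l : ℕ) : Finset (Finset ℕ) :=
  if l < 4 then ∅ else
    (((Finset.range (l + 1)).sigma (fun a => Finset.range (2 ^ (a + 2)))).image
      (fun q : (Σ _ : ℕ, ℕ) => FA l q.1 q.2)) ∪
    (((Finset.range (l + 1)).sigma (fun a => Finset.range (2 ^ (a + 2)))).image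
      (fun q : (Σ _ : ℕ, ℕ) => FB l q.1 q.2))

theorem card_Fm (l : ℕ) : (Fm l).card ≤ 2 ^ (2 * l) := by
  unfold Fm
  split_ifs with h
  · simp
  · have hsum : ∀ n, ∑ a ∈ Finset.range n, 2 ^ (a + 2) ≤ 2 ^ (n + 2) := by
      intro n
      induction n with
      | zero => simp
      | succ n ih =>
        rw [Finset.sum_range_succ]
        calc _ ≤ 2 ^ (n + 2) + 2 ^ (n + 2) := by omega
          _ = 2 ^ (n + 1 + 2) := by ring
    have hsig : (((Finset.range (l + 1)).sigma (fun a => Finset.range (2 ^ (a + 2))))).card ≤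
        2 ^ (l + 3) := by
      rw [Finset.card_sigma]
      simp only [Finset.card_range]
      exact hsum (l + 1)
    refine (Finset.card_union_le _ _).trans ?_
    have h1 := (Finset.card_image_le (s := ((Finset.range (l + 1)).sigma
      (fun a => Finset.range (2 ^ (a + 2))))) (f := fun q : (Σ _ : ℕ, ℕ) => FA l q.1 q.2)).trans
      hsig
    have h2 := (Finset.card_image_le (s := ((Finset.range (l + 1)).sigma
      (fun a => Finset.range (2 ^ (a + 2))))) (f := fun q : (Σ _ : ℕ, ℕ) => FB l q.1 q.2)).trans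
      hsig
    calc _ ≤ 2 ^ (l + 3) + 2 ^ (l + 3) := Nat.add_le_add h1 h2
      _ = 2 ^ (l + 4) := by ring
      _ ≤ 2 ^ (2 * l) := Nat.pow_le_pow_right (by norm_num) (by omega)

theorem Fm_sub {l : ℕ} {S : Finset ℕ} (h : S ∈ Fm l) : S ⊆ VZ l := by
  unfold Fm at h
  split_ifs at h with h4
  · simp at h
  · rw [Finset.mem_union, Finset.mem_image, Finset.mem_image] at h
    rcases h with ⟨q, -, rfl⟩ | ⟨q, -, rfl⟩
    · exact Finset.filter_subset _ _
    · exact Finset.filter_subset _ _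

theorem FA_mem {l a G : ℕ} (hl : 4 ≤ l) (ha : a ≤ l) (hG : G < 2 ^ (a + 2)) :
    FA l a G ∈ Fm l := by
  unfold Fm
  rw [if_neg (by omega), Finset.mem_union, Finset.mem_image]
  left
  exact ⟨⟨a, G⟩, Finset.mem_sigma.mpr ⟨Finset.mem_range.mpr (Nat.lt_succ_of_le ha),
    Finset.mem_range.mpr hG⟩, rfl⟩

theorem FB_mem {l a G : ℕ} (hl : 4 ≤ l) (ha : a ≤ l) (hG : G < 2 ^ (a + 2)) :
    FB l a G ∈ Fm l := by
  unfold Fm
  rw [if_neg (by omega), Finset.mem_union, Finset.mem_image, Finset.mem_image]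
  right
  exact ⟨⟨a, G⟩, Finset.mem_sigma.mpr ⟨Finset.mem_range.mpr (Nat.lt_succ_of_le ha),
    Finset.mem_range.mpr hG⟩, rfl⟩

theorem Code.X_zero (c : Code) : c.X 0 = {1} := by
  have h1 := c.X_subset 0
  have h2 := c.card_X 0
  rw [VZ_zero] at h1 h2
  rw [Finset.card_singleton] at h2
  rcases Finset.subset_singleton_iff.mp h1 with h | h
  · rw [h] at h2
    simp at h2
  · exact h

/-- **The `P` codes.** -/
theorem exists_Pcode {C e0 : ℕ} (hC : 256 ≤ C) (he0 : 9 ≤ e0) (J : ℕ) :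
    ∃ c : Code, c.β = lvlBeta (C ^ (e0 - 5)) (C ^ 5) C ∧
      ∀ j, e0 < j → j ≤ e0 + J → ∀ l, 2 * C ^ (j - 1) ≤ l → l ≤ C ^ j → ∀ a ≤ l, ∀ G,
        ∀ k ≤ l, ∀ t,
        ((FA l a G).filter (fun x => c.P l x / 2 ^ k = t)).card <
          2 ^ (C ^ (j - 2) / 64) * (1 + (FA l a G).card / 2 ^ (l - k)) ∧
        ((FB l a G).filter (fun x => c.P l x / 2 ^ k = t)).card <
          2 ^ (C ^ (j - 2) / 64) * (1 + (FB l a G).card / 2 ^ (l - k)) := by
  set w0 := C ^ (e0 - 5) with hw0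
  set r := C ^ 5 with hr
  set E0 := C ^ (e0 - 1) / 64 with hE0
  have hCpos : 0 < C := by omega
  -- numbers
  have hw0C : C ^ 4 ≤ w0 := Nat.pow_le_pow_right hCpos (by omega)
  have hC4 : 256 ^ 4 ≤ C ^ 4 := Nat.pow_le_pow_left hC 4
  have hwr : w0 * r = C ^ e0 := by
    rw [hw0, hr, ← pow_add]
    congr 1
    omega
  have hE0w : C ^ (e0 - 1) = w0 * C ^ 4 := by
    rw [hw0, ← pow_add]
    congr 1
    omega
  -- `C ^ 2 * C ^ 6 ≤ C ^ (e0 - 1)`
  have hE06 : C ^ 8 ≤ C ^ (e0 - 1) := Nat.pow_le_pow_right hCpos (by omega)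
  have hE01 : C ^ (e0 - 1) ≤ 64 * E0 + 63 := by
    rw [hE0]
    omega
  have hE02 : w0 * C ^ 4 ≤ 64 * E0 + 63 := by rw [← hE0w]; exact hE01
  have h2C : 65536 ≤ C ^ 2 := by
    calc 65536 = 256 ^ 2 := by norm_num
      _ ≤ C ^ 2 := Nat.pow_le_pow_left hC 2
  have hK1 : w0 * (768 * C ^ 2 + 64 + 1) + 1 ≤ E0 := by
    have e1 : 65536 * (w0 * C ^ 2) ≤ w0 * C ^ 4 := by
      calc 65536 * (w0 * C ^ 2) = w0 * C ^ 2 * 65536 := by ring
        _ ≤ w0 * C ^ 2 * C ^ 2 := Nat.mul_le_mul_left _ h2C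
        _ = w0 * C ^ 4 := by ring
    have e2 : w0 * (768 * C ^ 2 + 64 + 1) = 768 * (w0 * C ^ 2) + 65 * w0 := by ring
    have e3 : 65536 * w0 ≤ w0 * C ^ 2 := by
      calc 65536 * w0 = w0 * 65536 := by ring
        _ ≤ w0 * C ^ 2 := Nat.mul_le_mul_left _ h2C
    have e4 : 256 ^ 4 ≤ w0 := hC4.trans hw0C
    norm_num at e4
    omega
  have hK2 : 2 * (2 + 3 * (r * C) + 2 * w0) ≤ E0 := by
    have e1 : r * C = C ^ 6 := by rw [hr]; ring
    have e2 : C ^ 6 * 65536 ≤ C ^ 8 := by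
      calc C ^ 6 * 65536 ≤ C ^ 6 * C ^ 2 := Nat.mul_le_mul_left _ h2C
        _ = C ^ 8 := by ring
    have e3 : w0 * 256 ^ 4 ≤ w0 * C ^ 4 := Nat.mul_le_mul_left _ hC4
    have e4 : 256 ^ 4 ≤ w0 := hC4.trans hw0C
    norm_num at e3 e4
    rw [e1]
    omega
  have hK3 : 12 * (w0 * r * C) ≤ E0 * (768 * C ^ 2 + 64) := by
    have e1 : w0 * r * C = w0 * C ^ 4 * C ^ 2 := by rw [hr]; ring
    rw [e1]
    have e2 : w0 * C ^ 4 * C ^ 2 ≤ (64 * E0 + 63) * C ^ 2 := Nat.mul_le_mul_right _ hE02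
    have e3 : 1 ≤ E0 := by
      have := hK1
      omega
    have e4 : C ^ 2 ≤ E0 * C ^ 2 := by
      calc C ^ 2 = 1 * C ^ 2 := by ring
        _ ≤ E0 * C ^ 2 := Nat.mul_le_mul_right _ e3
    -- 12 * 64 * E0 * C^2 + 756 C^2 ≤ 768 * C^2 * E0 + 64 E0: need 756 C ^ 2 ≤ 64 E0
    have e5 : 756 * C ^ 2 ≤ 64 * E0 := by
      have e6 : C ^ 2 * 65536 ≤ C ^ 4 := by
        calc C ^ 2 * 65536 ≤ C ^ 2 * C ^ 2 := Nat.mul_le_mul_left _ h2C
          _ = C ^ 4 := by ring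
      have e7 : C ^ 4 * 1 ≤ C ^ 4 * C ^ 4 := Nat.mul_le_mul_left _ (Nat.one_le_pow _ _ hCpos)
      have e8 : C ^ 4 * C ^ 4 ≤ w0 * C ^ 4 := Nat.mul_le_mul_right _ hw0C
      omega
    have e9 : (64 * E0 + 63) * C ^ 2 = 64 * (E0 * C ^ 2) + 63 * C ^ 2 := by ring
    have e10 : E0 * (768 * C ^ 2 + 64) = 768 * (E0 * C ^ 2) + 64 * E0 := by ring
    rw [e9] at e2
    rw [e10]
    omega
  obtain ⟨m, f, hmf⟩ := exists_lvl_code (w0 := w0) (r := r) (C := C) (E0 := E0)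
    (K := 768 * C ^ 2 + 64) (by
      have e4 : 256 ^ 4 ≤ w0 := hC4.trans hw0C
      norm_num at e4
      omega) (Nat.one_le_pow _ _ hCpos) (by omega) hK1 hK2 hK3 Fm card_Fm
    (by
      intro l S hS
      have hsub := Fm_sub hS
      refine ⟨fun x hx => ⟨VZ_mod (hsub hx), VZ_lt (hsub hx)⟩, ?_⟩
      exact (Finset.card_le_card hsub).trans (VZ_card_le l)) J
  have hmono : StrictMono (lvlBeta w0 r C) := by
    apply lvlBeta_strictMono
    · rw [hw0]
      exact Nat.one_le_pow _ _ hCpos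
    · exact Nat.one_le_pow _ _ hCpos
    · omega
  refine ⟨⟨lvlBeta w0 r C, m, f, hmono⟩, rfl, ?_⟩
  intro j hj1 hj2 l hl1 hl2 a ha G k hk t
  obtain ⟨i, hi⟩ : ∃ i, j = e0 + i + 1 := ⟨j - e0 - 1, by omega⟩
  have hiJ : i < J := by omega
  have hjm : w0 * r * C ^ i = C ^ (j - 1) := by
    rw [hwr, ← pow_add]
    congr 1
    omega
  have hjp : w0 * r * C ^ (i + 1) = C ^ j := by
    rw [hwr, ← pow_add]
    congr 1
    omega
  have hEi : E0 * C ^ i ≤ C ^ (j - 2) / 64 := by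
    rw [Nat.le_div_iff_mul_le (by norm_num)]
    calc E0 * C ^ i * 64 = (E0 * 64) * C ^ i := by ring
      _ ≤ C ^ (e0 - 1) * C ^ i := Nat.mul_le_mul_right _ (by rw [hE0]; omega)
      _ = C ^ (j - 2) := by
          rw [← pow_add]
          congr 1
          omega
  have h4l : 4 ≤ l := by
    have h1 : 1 ≤ C ^ (j - 2) := Nat.one_le_pow _ _ hCpos
    have h2 : C ^ (j - 1) = C ^ (j - 2) * C := by
      rw [← pow_succ]
      congr 1
      omega
    have h3 : 1 * 256 ≤ C ^ (j - 2) * C := Nat.mul_le_mul h1 hC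
    omega
  have hmain : ∀ S ∈ Fm l, (S.filter (fun x => ET.P (lvlBeta w0 r C) m f l x / 2 ^ k = t)).card <
      2 ^ (C ^ (j - 2) / 64) * (1 + S.card / 2 ^ (l - k)) := by
    intro S hS
    refine lt_of_lt_of_le (hmf i hiJ l (by rw [hjm]; exact hl1) (by rw [hjp]; exact hl2) S hS
      k hk t) ?_
    exact Nat.mul_le_mul_right _ (Nat.pow_le_pow_right (by norm_num) hEi)
  rcases Nat.lt_or_ge G (2 ^ (a + 2)) with hG | hG
  · exact ⟨hmain _ (FA_mem h4l ha hG), hmain _ (FB_mem h4l ha hG)⟩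
  · have hA0 : FA l a G = ∅ := by
      unfold FA
      rw [Finset.filter_eq_empty_iff]
      rintro z _ ⟨z', _, h⟩
      have := Nat.mod_lt (z * z') (show 0 < 2 ^ (a + 2) by positivity)
      omega
    have hB0 : FB l a G = ∅ := by
      unfold FB
      rw [Finset.filter_eq_empty_iff]
      intro z _ h
      have := Nat.mod_lt z (show 0 < 2 ^ (a + 2) by positivity)
      omega
    rw [hA0, hB0]
    simp only [Finset.filter_empty, Finset.card_empty]
    constructor <;> positivity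

/-- The number of block boundaries up to `C ^ j`. -/
theorem nb_Pcode {C e0 j : ℕ} (hC : 2 ≤ C) (he0 : 5 ≤ e0) (hj : e0 ≤ j) (c : Code)
    (hc : c.β = lvlBeta (C ^ (e0 - 5)) (C ^ 5) C) {l : ℕ} (hl : l ≤ C ^ j) :
    c.nb l ≤ (j - e0) * C ^ 6 + 1 := by
  have hCpos : 0 < C := by omega
  unfold Code.nb
  have hsub : (Finset.range (l + 1)).filter (fun i => 1 ≤ i ∧ c.β i ≤ l) ⊆
      Finset.Icc 1 ((j - e0) * C ^ 6 + 1) := by
    intro i hi
    rw [Finset.mem_filter] at hi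
    rw [Finset.mem_Icc]
    refine ⟨hi.2.1, ?_⟩
    have h1 : lvlBeta (C ^ (e0 - 5)) (C ^ 5) C i ≤ C ^ (e0 - 5) * C ^ 5 * C ^ (j - e0) := by
      rw [← hc, ← pow_add, ← pow_add, show e0 - 5 + 5 + (j - e0) = j by omega]
      omega
    have h2 := le_of_lvlBeta_le (Nat.one_le_pow _ _ hCpos) (Nat.one_le_pow _ _ hCpos) hC h1
    refine h2.trans ?_
    apply Nat.add_le_add_right
    apply Nat.mul_le_mul_left
    calc (C - 1) * C ^ 5 ≤ C * C ^ 5 := Nat.mul_le_mul_right _ (by omega)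
      _ = C ^ 6 := by ring
  have h3 := Finset.card_le_card hsub
  rw [Nat.card_Icc, Nat.add_sub_cancel] at h3
  exact h3

/-- Block boundaries and multiples of `W`. -/
theorem gap_Pcode {C e0 e : ℕ} (he : e + 5 ≤ e0) (c : Code)
    (hc : c.β = lvlBeta (C ^ (e0 - 5)) (C ^ 5) C) {L : ℕ} (hL : C ^ e ∣ L) (i : ℕ) :
    c.β i ≤ L ∨ L + C ^ e ≤ c.β i := by
  rw [hc]
  exact lvlBeta_gap (pow_dvd_pow _ (by omega)) hL i

/-- The first boundary. -/
theorem beta_one_Pcode {C e0 : ℕ} (he0 : 5 ≤ e0) (c : Code)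
    (hc : c.β = lvlBeta (C ^ (e0 - 5)) (C ^ 5) C) : c.β 1 = C ^ e0 := by
  rw [hc, lvlBeta_one, ← pow_add]
  congr 1
  omega

end Pool.Agent.Helper83.ET
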