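import Pool.Agent.Helper83.ET.VarZ
import Pool.Agent.Helper83.ET.PCode

/-!
# The sets `Theta`
-/

namespace Pool.Agent.Helper83.ET

open Finset

/-- The sums of two contents of length `k` of variables of length `l`, `l ≤ k`. -/
theorem card_pairs_P (c : Code) {l k s : ℕ} (hlk : l ≤ k) :
    (((c.X l) ×ˢ (c.X l)).filter (fun q => (c.P k q.1 + c.P k q.2) % 2 ^ l = s)).card ≤ 2 := by
  set S := ((c.X l) ×ˢ (c.X l)).filter (fun q => (c.P k q.1 + c.P k q.2) % 2 ^ l = s) with hS
  rcases S.eq_empty_or_nonempty with h0 | ⟨q0, hq0⟩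
  · rw [h0]
    simp
  · have h1 := Finset.mem_filter.mp hq0
    have h2 := Finset.mem_product.mp h1.1
    refine le_trans (Finset.card_le_card ?_)
      (VZ_pairs_top l l l (q0.1 * q0.2 % 2 ^ (l + 2)) (by omega))
    intro q hq
    have h3 := Finset.mem_filter.mp hq
    have h4 := Finset.mem_product.mp h3.1
    rw [Finset.mem_filter, Finset.mem_product]
    refine ⟨⟨c.X_subset l h4.1, c.X_subset l h4.2⟩, ?_⟩
    apply c.mul_modEq h4.1 h2.1 h4.2 h2.2 (le_refl l) (le_refl l) hlk hlk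
    rw [Nat.ModEq, h3.2, h1.2]

/-- **Theta**, with free parameters. -/
theorem exists_Theta_gen {W U E K w : ℕ} (hw : 3 ≤ w) (hwE : w * (K + 1) + 1 ≤ E)
    (hww : 2 * w ≤ W) (hU : U + K * (9 + 3 * (W / 2 / w) + w) < K * E)
    (Q : Finset (Finset ℕ)) (hQU : Q.card ≤ 2 ^ U) (hQc : ∀ q ∈ Q, q.card ≤ 2 ^ (W / 2 + 8)) :
    ∃ Th : Finset ℕ, (∀ t ∈ Th, t < 2 ^ W) ∧
      (∀ s, ((Th ×ˢ Th).filter (fun q => (q.1 + q.2) % 2 ^ W = s)).card ≤ 2) ∧
      (∀ q ∈ Q, (Th.filter (fun t => t ∈ q)).card < 2 ^ E) ∧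
      (VZ W).card ≤ 4 ^ (W / 2 / w + 1) * Th.card ∧ Th.card ≤ 2 ^ ((W + 1) / 2) := by
  classical
  set n := W / 2 / w with hn
  have hnw : n * w ≤ W / 2 := Nat.div_mul_le_self _ _
  have hnw2 : W / 2 < n * w + w := by
    have := Nat.lt_div_mul_add (a := W / 2) (show 0 < w by omega)
    rwa [← hn] at this
  set a := W - n * w with ha
  have haW : a + n * w = W := by omega
  have ha2 : (W + 1) / 2 ≤ a := by omega
  obtain ⟨m, f, hmf⟩ := exists_theta (a := a) (w := w) (n := n) (W := W) (c := W / 2 + 8)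
    (U := U) (E := E) (K := K) hw (by omega) haW Q hQU hQc hwE (by
      have h1 : K * (W / 2 + 8 + 1 + 3 * n) ≤ K * (n * w) + K * (9 + 3 * n + w) := by
        rw [← mul_add]
        exact Nat.mul_le_mul_left _ (by omega)
      have h2 : K * (n * w + E) = K * (n * w) + K * E := by ring
      omega)
  let c : Code := ⟨thetaBeta a w, m, f, thetaBeta_strictMono (by omega) (by omega)⟩
  have hnb : c.nb W ≤ n + 1 := by
    unfold Code.nb
    have hsub : (Finset.range (W + 1)).filter (fun j => 1 ≤ j ∧ c.β j ≤ W) ⊆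
        Finset.Icc 1 (n + 1) := by
      intro j hj
      rw [Finset.mem_filter] at hj
      rw [Finset.mem_Icc]
      refine ⟨hj.2.1, ?_⟩
      obtain ⟨i, rfl⟩ : ∃ i, j = i + 1 := ⟨j - 1, by omega⟩
      have h1 : thetaBeta a w (i + 1) ≤ W := hj.2.2
      rw [thetaBeta_succ] at h1
      have h2 : i * w ≤ n * w := by omega
      have h3 := Nat.le_of_mul_le_mul_right h2 (show 0 < w by omega)
      omega
    have := Finset.card_le_card hsub
    rwa [Nat.card_Icc, Nat.add_sub_cancel] at this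
  have hinj : Set.InjOn (c.P W) (c.X W : Set ℕ) := by
    intro x hx y hy h
    exact c.eq_of_P (k := W) (l := W) (c.X_subset W hx) (c.X_subset W hy) (by omega)
      (le_refl _) (le_refl _) (by rw [h])
  have hcard : ((c.X W).image (c.P W)).card = (c.X W).card := Finset.card_image_of_injOn hinj
  refine ⟨(c.X W).image (c.P W), ?_, ?_, ?_, ?_, ?_⟩
  · intro t ht
    obtain ⟨x, -, rfl⟩ := Finset.mem_image.mp ht
    exact c.P_lt W x
  · intro s
    refine le_trans ?_ (card_pairs_P c (l := W) (k := W) (s := s) (le_refl _))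
    -- the pairs of contents come from pairs of variables
    have hsub : (((c.X W).image (c.P W) ×ˢ (c.X W).image (c.P W)).filter
        (fun q => (q.1 + q.2) % 2 ^ W = s)) ⊆
        (((c.X W ×ˢ c.X W).filter (fun q => (c.P W q.1 + c.P W q.2) % 2 ^ W = s)).image
          (fun q => (c.P W q.1, c.P W q.2))) := by
      intro q hq
      have h1 := Finset.mem_filter.mp hq
      have h2 := Finset.mem_product.mp h1.1
      obtain ⟨x, hx, hx'⟩ := Finset.mem_image.mp h2.1
      obtain ⟨y, hy, hy'⟩ := Finset.mem_image.mp h2.2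
      rw [Finset.mem_image]
      refine ⟨(x, y), ?_, ?_⟩
      · rw [Finset.mem_filter, Finset.mem_product]
        refine ⟨⟨hx, hy⟩, ?_⟩
        show (c.P W x + c.P W y) % 2 ^ W = s
        rw [hx', hy']
        exact h1.2
      · show (c.P W x, c.P W y) = q
        rw [hx', hy']
    exact (Finset.card_le_card hsub).trans Finset.card_image_le
  · intro q hq
    refine lt_of_le_of_lt ?_ (hmf q hq)
    have hsub : ((c.X W).image (c.P W)).filter (fun t => t ∈ q) ⊆
        ((Finset.range (2 ^ (a + 2))).filter (fun x => x % 4 = 1 ∧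
          ET.P (thetaBeta a w) m f W x ∈ q)).image (c.P W) := by
      intro t ht
      have h1 := Finset.mem_filter.mp ht
      obtain ⟨x, hx, rfl⟩ := Finset.mem_image.mp h1.1
      rw [Finset.mem_image]
      refine ⟨x, ?_, rfl⟩
      rw [Finset.mem_filter, Finset.mem_range]
      refine ⟨lt_of_lt_of_le (c.X_lt hx) (Nat.pow_le_pow_right (by norm_num) (by omega)),
        c.X_mod hx, h1.2⟩
    exact (Finset.card_le_card hsub).trans Finset.card_image_le
  · rw [hcard]
    refine (c.card_X W).trans (Nat.mul_le_mul_right _ ?_)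
    exact Nat.pow_le_pow_right (by norm_num) hnb
  · rw [hcard]
    exact (Finset.card_le_card (c.X_subset W)).trans (VZ_card_le W)

/-- `7 (e + 1) ^ 3 ≤ C ^ (e - 18)` with room. -/
theorem cube_le {C e : ℕ} (hC : 2 ^ 20 ≤ C) (he : 20 ≤ e) :
    64 * (e + 1) ^ 3 ≤ C ^ (e - 18) := by
  induction e, he using Nat.le_induction with
  | base =>
    calc 64 * (20 + 1) ^ 3 ≤ (2 ^ 20) ^ 2 := by norm_num
      _ ≤ C ^ 2 := Nat.pow_le_pow_left hC 2
  | succ e he ih =>
    have h1 : (e + 1 + 1) ^ 3 ≤ 8 * (e + 1) ^ 3 := by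
      calc (e + 1 + 1) ^ 3 ≤ (2 * (e + 1)) ^ 3 := Nat.pow_le_pow_left (by omega) 3
        _ = 8 * (e + 1) ^ 3 := by ring
    have h2 : C ^ (e + 1 - 18) = C ^ (e - 18) * C := by
      rw [← pow_succ]
      congr 1
      omega
    rw [h2]
    calc 64 * (e + 1 + 1) ^ 3 ≤ (64 * (e + 1) ^ 3) * 8 := by omega
      _ ≤ C ^ (e - 18) * C := Nat.mul_le_mul ih (by omega)

/-- **Theta** for the block length `W = C ^ e`. -/
theorem exists_Theta {C e : ℕ} (hC : 2 ^ 20 ≤ C) (he : 20 ≤ e) (Q : Finset (Finset ℕ))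
    (hQU : Q.card ≤ 2 ^ (200 * C ^ (e + 1))) (hQc : ∀ q ∈ Q, q.card ≤ 2 ^ (C ^ e / 2 + 8)) :
    ∃ Th : Finset ℕ, (∀ t ∈ Th, t < 2 ^ (C ^ e)) ∧
      (∀ s, ((Th ×ˢ Th).filter (fun q => (q.1 + q.2) % 2 ^ (C ^ e) = s)).card ≤ 2) ∧
      (∀ q ∈ Q, (Th.filter (fun t => t ∈ q)).card < 2 ^ (C ^ (e - 5) / (e + 1))) ∧
      (VZ (C ^ e)).card ≤ 4 ^ (C ^ 13 * (e + 1) ^ 2) * Th.card ∧
      Th.card ≤ 2 ^ ((C ^ e + 1) / 2) := by
  have hC0 : 0 < C := by
    have : 0 < 2 ^ 20 := by positivity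
    omega
  have hCn : 1048576 ≤ C := by
    have : (2 : ℕ) ^ 20 = 1048576 := by norm_num
    omega
  set E := C ^ (e - 5) / (e + 1) with hE
  set K := C ^ 7 * (e + 1) with hK
  set w := E / (K + 2) with hw
  have hcube := cube_le hC he
  -- basic facts: `D = C ^ (e - 18)`
  set D := C ^ (e - 18) with hD
  have hCe5 : C ^ (e - 5) = C ^ 13 * D := by
    rw [hD, ← pow_add]
    congr 1
    omega
  have hCe : C ^ e = C ^ 5 * C ^ (e - 5) := by
    rw [← pow_add]
    congr 1
    omega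
  have hE1 : C ^ (e - 5) < E * (e + 1) + (e + 1) := by
    have := Nat.lt_div_mul_add (a := C ^ (e - 5)) (show 0 < e + 1 by omega)
    rwa [← hE] at this
  have hE2 : E * (e + 1) ≤ C ^ (e - 5) := Nat.div_mul_le_self _ _
  have hw1 : E < w * (K + 2) + (K + 2) := by
    have := Nat.lt_div_mul_add (a := E) (show 0 < K + 2 by omega)
    rwa [← hw] at this
  have hw2 : w * (K + 2) ≤ E := Nat.div_mul_le_self _ _
  have he1 : 1 ≤ e + 1 := by omega
  -- `E ≥ 32 C ^ 13 (e + 1) ^ 2`
  have hEbig : 32 * (C ^ 13 * (e + 1) ^ 2) ≤ E := by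
    rw [hE, Nat.le_div_iff_mul_le (by omega)]
    calc 32 * (C ^ 13 * (e + 1) ^ 2) * (e + 1) = C ^ 13 * (32 * (e + 1) ^ 3) := by ring
      _ ≤ C ^ 13 * D := Nat.mul_le_mul_left _ (by omega)
      _ = C ^ (e - 5) := hCe5.symm
  have hC7 : 2 ≤ C ^ 7 := by
    calc 2 ≤ C ^ 1 := by rw [pow_one]; omega
      _ ≤ C ^ 7 := Nat.pow_le_pow_right hC0 (by norm_num)
  have hK2 : K + 2 ≤ 2 * K := by
    rw [hK]
    have : C ^ 7 * 1 ≤ C ^ 7 * (e + 1) := Nat.mul_le_mul_left _ he1
    omega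
  have hKpos : 0 < K := by
    rw [hK]
    positivity
  -- `w ≥ 8 C ^ 6 (e + 1)`
  have hwbig : 8 ≤ w := by
    rw [hw, Nat.le_div_iff_mul_le (by omega)]
    calc 8 * (K + 2) ≤ 8 * (2 * K) := Nat.mul_le_mul_left _ hK2
      _ = 16 * (C ^ 7 * (e + 1)) := by rw [hK]; ring
      _ ≤ 32 * (C ^ 13 * (e + 1) ^ 2) := by
          have h1 : C ^ 7 ≤ C ^ 13 := Nat.pow_le_pow_right hC0 (by norm_num)
          have h2 : (e + 1) ≤ (e + 1) ^ 2 := by nlinarith
          have h3 := Nat.mul_le_mul h1 h2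
          omega
      _ ≤ E := hEbig
  set n := C ^ e / 2 / w with hn
  have hnw : n * w ≤ C ^ e / 2 := Nat.div_mul_le_self _ _
  -- the bound for `n`
  have hnle : n + 1 ≤ C ^ 13 * (e + 1) ^ 2 := by
    -- `n * (C ^ (e - 5)) ≤ 8 * K * (e + 1) * C ^ e`
    have h1 : E ≤ w * (4 * K) := by
      have h11 : w * (K + 2) + (K + 2) ≤ 2 * (w * (K + 2)) := by
        have : 1 * (K + 2) ≤ w * (K + 2) := Nat.mul_le_mul_right _ (by omega)
        omega
      have h12 : 2 * (w * (K + 2)) ≤ 2 * (w * (2 * K)) :=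
        Nat.mul_le_mul_left _ (Nat.mul_le_mul_left _ hK2)
      have h13 : w * (4 * K) = 2 * (w * (2 * K)) := by ring
      omega
    have h2 : C ^ (e - 5) ≤ 2 * (E * (e + 1)) := by
      have : 1 * (e + 1) ≤ E * (e + 1) := by
        apply Nat.mul_le_mul_right
        have : 1 ≤ C ^ 13 * (e + 1) ^ 2 := Nat.mul_pos (by positivity) (by positivity)
        omega
      omega
    have h3 : n * C ^ (e - 5) ≤ 4 * K * (e + 1) * C ^ e := by
      calc n * C ^ (e - 5) ≤ n * (2 * (E * (e + 1))) := Nat.mul_le_mul_left _ h2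
        _ ≤ n * (2 * ((w * (4 * K)) * (e + 1))) :=
            Nat.mul_le_mul_left _ (Nat.mul_le_mul_left _ (Nat.mul_le_mul_right _ h1))
        _ = 8 * K * (e + 1) * (n * w) := by ring
        _ ≤ 8 * K * (e + 1) * (C ^ e / 2) := Nat.mul_le_mul_left _ hnw
        _ = 4 * K * (e + 1) * (2 * (C ^ e / 2)) := by ring
        _ ≤ 4 * K * (e + 1) * C ^ e := Nat.mul_le_mul_left _ (by omega)
    have h4 : n ≤ 4 * K * (e + 1) * C ^ 5 := by
      have h41 : n * C ^ (e - 5) ≤ 4 * K * (e + 1) * C ^ 5 * C ^ (e - 5) := by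
        calc n * C ^ (e - 5) ≤ 4 * K * (e + 1) * C ^ e := h3
          _ = 4 * K * (e + 1) * C ^ 5 * C ^ (e - 5) := by rw [hCe]; ring
      exact Nat.le_of_mul_le_mul_right h41 (by positivity)
    calc n + 1 ≤ 4 * K * (e + 1) * C ^ 5 + 1 := by omega
      _ = 4 * (C ^ 12 * (e + 1) ^ 2) + 1 := by rw [hK]; ring
      _ ≤ 8 * (C ^ 12 * (e + 1) ^ 2) := by
          have : 1 ≤ C ^ 12 * (e + 1) ^ 2 := Nat.mul_pos (by positivity) (by positivity)
          omega
      _ ≤ C * (C ^ 12 * (e + 1) ^ 2) := Nat.mul_le_mul_right _ (by omega)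
      _ = C ^ 13 * (e + 1) ^ 2 := by ring
  obtain ⟨Th, h1, h2, h3, h4, h5⟩ := exists_Theta_gen (W := C ^ e) (U := 200 * C ^ (e + 1)) (E := E)
    (K := K) (w := w) (by omega) (by
      have : w * (K + 2) = w * (K + 1) + w := by ring
      omega)
    (by
      -- `2 w ≤ C ^ e`
      have h1 : w ≤ E := by
        calc w = w * 1 := by ring
          _ ≤ w * (K + 2) := Nat.mul_le_mul_left _ (by omega)
          _ ≤ E := hw2
      have h2 : E ≤ C ^ (e - 5) := by
        rw [hE]
        exact Nat.div_le_self _ _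
      have h3 : 2 * C ^ (e - 5) ≤ C ^ e := by
        rw [hCe]
        apply Nat.mul_le_mul_right
        calc 2 ≤ C ^ 1 := by rw [pow_one]; omega
          _ ≤ C ^ 5 := Nat.pow_le_pow_right hC0 (by norm_num)
      omega)
    (by
      rw [← hn]
      -- `9 + 3 n + w ≤ E / 2`
      have h1 : 2 * (9 + 3 * n + w) ≤ E := by
        have a1 : 8 * w ≤ E := by
          calc 8 * w ≤ w * (K + 2) := by
                rw [mul_comm]
                apply Nat.mul_le_mul_left
                have : C ^ 7 * 1 ≤ K := Nat.mul_le_mul_left _ he1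
                have : C ^ 1 ≤ C ^ 7 := Nat.pow_le_pow_right hC0 (by norm_num)
                rw [pow_one] at this
                omega
            _ ≤ E := hw2
        have a2 : 32 * (n + 1) ≤ E := (Nat.mul_le_mul_left 32 hnle).trans hEbig
        omega
      have h2 : K * (2 * (9 + 3 * n + w)) ≤ K * E := Nat.mul_le_mul_left _ h1
      have h3 : K * (2 * (9 + 3 * n + w)) = 2 * (K * (9 + 3 * n + w)) := by ring
      -- `400 C ^ (e + 1) < K E`
      have h4 : 2 * (200 * C ^ (e + 1)) < K * E := by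
        have b1 : C ^ (e + 1) = C ^ 6 * C ^ (e - 5) := by
          rw [← pow_add]
          congr 1
          omega
        have b2 : K * E = C ^ 7 * (E * (e + 1)) := by rw [hK]; ring
        have b3 : C ^ (e - 5) ≤ 2 * (E * (e + 1)) := by
          have : 1 * (e + 1) ≤ E * (e + 1) := by
            apply Nat.mul_le_mul_right
            have : 1 ≤ C ^ 13 * (e + 1) ^ 2 := Nat.mul_pos (by positivity) (by positivity)
            omega
          omega
        have b4 : 0 < C ^ (e - 5) := by positivity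
        rw [b1, b2]
        have b5 : 2 * (200 * (C ^ 6 * C ^ (e - 5))) ≤ 800 * (C ^ 6 * (E * (e + 1))) := by
          have := Nat.mul_le_mul_left (C ^ 6) b3
          have e1 : C ^ 6 * (2 * (E * (e + 1))) = 2 * (C ^ 6 * (E * (e + 1))) := by ring
          omega
        have b6 : 0 < C ^ 6 * (E * (e + 1)) := by
          have : 0 < E * (e + 1) := by omega
          positivity
        have b7 : 801 * (C ^ 6 * (E * (e + 1))) ≤ C ^ 7 * (E * (e + 1)) := by
          have : C ^ 7 * (E * (e + 1)) = C * (C ^ 6 * (E * (e + 1))) := by ring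
          rw [this]
          exact Nat.mul_le_mul_right _ (by omega)
        omega
      omega)
    Q hQU hQc
  refine ⟨Th, h1, h2, h3, h4.trans (Nat.mul_le_mul_right _ ?_), h5⟩
  exact Nat.pow_le_pow_right (by norm_num) hnle

end Pool.Agent.Helper83.ET
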