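import Pool.Agent.Helper83.ET.AllLvl
import Pool.Agent.Helper83.ET.ThetaSet
import Pool.Agent.Helper83.ET.Rand
import Pool.Agent.Helper5.ETP.Cross
import Pool.Agent.Helper86.ET.Q7
import Pool.Agent.Helper99.ETS.ShortR
import Pool.Agent.Helper41.ETPR

/-!
# The local sets `Theta` and `T` of an epoch
-/

namespace Pool.Agent.Helper83.ET

open Finset Pool.Agent.ETS Pool.Agent.Helper5.ETP Pool.Agent.Helper41.ETPP

/-- The untwisted code with all variables. -/
theorem pcode_VZ : PCode VZ ind where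
  odd := by
    intro l x hx
    have := VZ_mod hx
    omega
  res := by
    intro l k l₀ h x hx
    exact ind_mod l k x h (VZ_mod hx)
  inj := by
    intro l x hx y hy h
    have h1 := Nat.ModEq.eq_of_lt_of_lt h (ind_lt _ _) (ind_lt _ _)
    have h2 := (ind_modEq_iff l x y (VZ_mod hx) (VZ_mod hy)).mp h1
    have hle : (l + 1) / 2 + 2 ≤ l + 2 := by omega
    exact Nat.ModEq.eq_of_lt_of_lt h2
      (lt_of_lt_of_le (VZ_lt hx) (Nat.pow_le_pow_right (by norm_num) hle))
      (lt_of_lt_of_le (VZ_lt hy) (Nat.pow_le_pow_right (by norm_num) hle))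
  dec := by
    intro l l' k h h' x hx y hy x' hx' y' hy' hP
    exact (mul_modEq_iff k x y x' y' (VZ_mod hx) (VZ_mod hy) (VZ_mod hx') (VZ_mod hy')).mp hP
  sid := by
    intro l x hx x' hx' y hy y' hy' hP
    exact VZ_sidon hx hx' hy hy'
      ((mul_modEq_iff l x y x' y' (VZ_mod hx) (VZ_mod hy) (VZ_mod hx') (VZ_mod hy')).mp hP)
  cls := fun l k r => VZ_cls l k r
  fst := fun l a ha G => VZ_first l a G ha

/-- The sets of the real progressions. -/
def fam1 (W : ℕ) : Finset (Finset ℕ) :=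
  ((Finset.range (2 ^ (4 * (W / 2)))) ×ˢ (Finset.range (2 ^ (4 * (W / 2))))).image
    (fun q => RC.Qs (W / 2) q.1 q.2)

open Classical in
/-- The sets from the code words up to the length `L`. -/
noncomputable def fam2 (W L : ℕ) : Finset (Finset ℕ) :=
  (((Finset.range (L + 1)) ×ˢ (Finset.range (L + 1)) ×ˢ (Finset.range (2 ^ L))).filter
    (fun q => q.2.1 + W ≤ q.1)).image (fun q => QP VZ ind W q.1 q.2.1 q.2.2)

/-- The progressions modulo `2 ^ W`. -/
def prog (W ν s : ℕ) : Finset ℕ :=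
  (Finset.range (2 ^ (W / 2 + 2))).image (fun j => (ν + s * j) % 2 ^ W)

def fam3 (W : ℕ) : Finset (Finset ℕ) :=
  ((Finset.range (2 ^ W)) ×ˢ (Finset.range (2 ^ W))).image (fun q => prog W q.1 q.2)

noncomputable def fam4 (W : ℕ) : Finset (Finset ℕ) :=
  (Finset.range (2 ^ W)).image (fun ν => SH.QR W (W / 2) ν)

open Classical in
/-- All families. -/
noncomputable def famAll (W L : ℕ) : Finset (Finset ℕ) := fam1 W ∪ fam2 W L ∪ fam3 W ∪ fam4 W

theorem card_fam1 (W : ℕ) : (fam1 W).card ≤ 2 ^ (4 * W) := by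
  unfold fam1
  refine Finset.card_image_le.trans ?_
  rw [Finset.card_product, Finset.card_range, ← pow_add]
  apply Nat.pow_le_pow_right (by norm_num)
  omega

theorem card_fam2 (W L : ℕ) : (fam2 W L).card ≤ 2 ^ (3 * L) := by
  unfold fam2
  refine Finset.card_image_le.trans ((Finset.card_filter_le _ _).trans ?_)
  rw [Finset.card_product, Finset.card_product, Finset.card_range, Finset.card_range]
  have h1 : L + 1 ≤ 2 ^ L := Nat.lt_two_pow_self
  calc (L + 1) * ((L + 1) * 2 ^ L) ≤ 2 ^ L * (2 ^ L * 2 ^ L) :=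
        Nat.mul_le_mul h1 (Nat.mul_le_mul_right _ h1)
    _ = 2 ^ (3 * L) := by
        rw [← pow_add, ← pow_add]
        congr 1
        ring

theorem card_fam3 (W : ℕ) : (fam3 W).card ≤ 2 ^ (2 * W) := by
  unfold fam3
  refine Finset.card_image_le.trans ?_
  rw [Finset.card_product, Finset.card_range, ← pow_add]
  apply Nat.pow_le_pow_right (by norm_num)
  omega

theorem card_fam4 (W : ℕ) : (fam4 W).card ≤ 2 ^ W := by
  unfold fam4
  refine Finset.card_image_le.trans ?_
  rw [Finset.card_range]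

theorem card_famAll {W L : ℕ} (hW : 20 ≤ W) (hL : 50 * W ≤ L) :
    (famAll W L).card ≤ 2 ^ (3 * L + 2) := by
  unfold famAll
  have h1 := card_fam1 W
  have h2 := card_fam2 W L
  have h3 := card_fam3 W
  have h4 := card_fam4 W
  have e1 : 2 ^ (4 * W) ≤ 2 ^ (3 * L) := Nat.pow_le_pow_right (by norm_num) (by omega)
  have e3 : 2 ^ (2 * W) ≤ 2 ^ (3 * L) := Nat.pow_le_pow_right (by norm_num) (by omega)
  have e4 : 2 ^ W ≤ 2 ^ (3 * L) := Nat.pow_le_pow_right (by norm_num) (by omega)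
  have u1 := Finset.card_union_le (fam1 W ∪ fam2 W L ∪ fam3 W) (fam4 W)
  have u2 := Finset.card_union_le (fam1 W ∪ fam2 W L) (fam3 W)
  have u3 := Finset.card_union_le (fam1 W) (fam2 W L)
  have e5 : 2 ^ (3 * L + 2) = 4 * 2 ^ (3 * L) := by
    rw [pow_add]
    ring
  omega

theorem mem_famAll_card {W L : ℕ} (hW : 2 ∣ W) {q : Finset ℕ} (hq : q ∈ famAll W L) :
    q.card ≤ 2 ^ (W / 2 + 2) := by
  obtain ⟨w, hw⟩ := hW
  have hw2 : W / 2 = w := by omega
  unfold famAll at hq
  rw [Finset.mem_union, Finset.mem_union, Finset.mem_union] at hq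
  rcases hq with ((hq | hq) | hq) | hq
  · obtain ⟨p, -, rfl⟩ := Finset.mem_image.mp hq
    exact (RC.card_Qs_le _ _ _).trans (Nat.pow_le_pow_right (by norm_num) (by omega))
  · obtain ⟨p, hp, rfl⟩ := Finset.mem_image.mp hq
    have hp' := (Finset.mem_filter.mp hp).2
    exact (card_QP pcode_VZ (w := w) hp' (by omega)).trans
      (Nat.pow_le_pow_right (by norm_num) (by omega))
  · obtain ⟨p, -, rfl⟩ := Finset.mem_image.mp hq
    unfold prog
    refine Finset.card_image_le.trans ?_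
    rw [Finset.card_range]
  · obtain ⟨p, -, rfl⟩ := Finset.mem_image.mp hq
    exact (SH.card_QR_le _ _ _).trans (Nat.pow_le_pow_right (by norm_num) (by omega))

/-- The multiplicity of `Theta`. -/
def BTh (C e : ℕ) : ℕ := 2 ^ (C ^ (e - 5) / (e + 1))

/-- The multiplicity of `T`. -/
def BT (C e : ℕ) : ℕ := 400 * C ^ (e + 1)

/-- The properties of the local sets of epoch `e`. -/
structure LocGood (C e : ℕ) (T Th : Finset ℕ) : Prop where
  Th_lt : ∀ t ∈ Th, t < 2 ^ (C ^ e)
  T_lt : ∀ t ∈ T, t < 2 ^ (C ^ e)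
  Th_card : Th.card ≤ 2 ^ (C ^ e / 2)
  T_card : T.card = 2 ^ (C ^ e / 2 - 10)
  Th_large : (VZ (C ^ e)).card ≤ 4 ^ (C ^ 13 * (e + 1) ^ 2) * Th.card
  Th_Qs : ∀ j k, j < 2 ^ (4 * (C ^ e / 2)) → k < 2 ^ (4 * (C ^ e / 2)) →
    (Th ∩ RC.Qs (C ^ e / 2) j k).card ≤ BTh C e
  T_Qs : ∀ j k, j < 2 ^ (4 * (C ^ e / 2)) → k < 2 ^ (4 * (C ^ e / 2)) →
    (T ∩ RC.Qs (C ^ e / 2) j k).card ≤ BT C e
  Th_QR : ∀ ν, ν < 2 ^ (C ^ e) → (Th ∩ SH.QR (C ^ e) (C ^ e / 2) ν).card ≤ BTh C e
  T_QR : ∀ ν, ν < 2 ^ (C ^ e) → (T ∩ SH.QR (C ^ e) (C ^ e / 2) ν).card ≤ BT C e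
  Th_QP : ∀ l q r, q + C ^ e ≤ l → l ≤ 50 * C ^ (e + 1) →
    (Th ∩ QP VZ ind (C ^ e) l q r).card ≤ BTh C e
  T_QP : ∀ l q r, q + C ^ e ≤ l → l ≤ 50 * C ^ (e + 1) →
    (T ∩ QP VZ ind (C ^ e) l q r).card ≤ BT C e
  T_F3 : F3 (C ^ e) T (BT C e)
  mTT : RC.Mult (C ^ e) (BT C e) T T
  mTTh : RC.Mult (C ^ e) (BT C e) T Th
  mThT : RC.Mult (C ^ e) (BT C e) Th T
  mThTh : RC.Mult (C ^ e) 2 Th Th

theorem fam1_mem {W j k : ℕ} (hj : j < 2 ^ (4 * (W / 2))) (hk : k < 2 ^ (4 * (W / 2))) (L : ℕ) :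
    RC.Qs (W / 2) j k ∈ famAll W L := by
  unfold famAll fam1
  rw [Finset.mem_union, Finset.mem_union, Finset.mem_union]
  exact Or.inl (Or.inl (Or.inl (Finset.mem_image.mpr ⟨(j, k), Finset.mem_product.mpr
    ⟨Finset.mem_range.mpr hj, Finset.mem_range.mpr hk⟩, rfl⟩)))

theorem fam4_mem {W ν : ℕ} (h : ν < 2 ^ W) (L : ℕ) : SH.QR W (W / 2) ν ∈ famAll W L := by
  unfold famAll fam4
  rw [Finset.mem_union]
  exact Or.inr (Finset.mem_image.mpr ⟨ν, Finset.mem_range.mpr h, rfl⟩)

theorem fam3_mem {W ν s : ℕ} (h : ν < 2 ^ W) (hs : s < 2 ^ W) (L : ℕ) :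
    prog W ν s ∈ famAll W L := by
  unfold famAll fam3
  rw [Finset.mem_union, Finset.mem_union]
  exact Or.inl (Or.inr (Finset.mem_image.mpr ⟨(ν, s), Finset.mem_product.mpr
    ⟨Finset.mem_range.mpr h, Finset.mem_range.mpr hs⟩, rfl⟩))

theorem QP_mod (X : ℕ → Finset ℕ) (P : ℕ → ℕ → ℕ) (W l q c : ℕ) :
    QP X P W l q c = QP X P W l q (c % 2 ^ l) := by
  ext t
  rw [mem_QP, mem_QP]
  constructor
  · rintro ⟨h1, x, hx, h2⟩
    exact ⟨h1, x, hx, h2.trans (Nat.mod_modEq _ _).symm⟩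
  · rintro ⟨h1, x, hx, h2⟩
    exact ⟨h1, x, hx, h2.trans (Nat.mod_modEq _ _)⟩

theorem fam2_mem {W l q L : ℕ} (c : ℕ) (h : q + W ≤ l) (hl : l ≤ L) :
    QP VZ ind W l q c ∈ famAll W L := by
  classical
  unfold famAll fam2
  rw [Finset.mem_union, Finset.mem_union, Finset.mem_union, QP_mod]
  refine Or.inl (Or.inl (Or.inr (Finset.mem_image.mpr ⟨(l, q, c % 2 ^ l), ?_, rfl⟩)))
  rw [Finset.mem_filter, Finset.mem_product, Finset.mem_product]
  refine ⟨⟨Finset.mem_range.mpr (Nat.lt_succ_of_le hl),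
    Finset.mem_range.mpr (show q < L + 1 by omega), Finset.mem_range.mpr ?_⟩, h⟩
  exact lt_of_lt_of_le (Nat.mod_lt _ (by positivity)) (Nat.pow_le_pow_right (by norm_num) hl)

theorem prog_mod (W ν s : ℕ) : prog W ν s = prog W (ν % 2 ^ W) (s % 2 ^ W) := by
  unfold prog
  apply Finset.image_congr
  intro j _
  show (ν + s * j) % 2 ^ W = (ν % 2 ^ W + s % 2 ^ W * j) % 2 ^ W
  exact ((Nat.mod_modEq ν _).add ((Nat.mod_modEq s _).mul_right j)).symm

open Classical in
/-- **The local sets exist.** -/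
theorem exists_local {C e : ℕ} (hC : 2 ^ 20 ≤ C) (h2 : 2 ∣ C) (he : 20 ≤ e) :
    ∃ T Th : Finset ℕ, LocGood C e T Th := by
  have hCn : 1048576 ≤ C := by
    have : (2 : ℕ) ^ 20 = 1048576 := by norm_num
    omega
  set W := C ^ e with hW
  set L := 50 * C ^ (e + 1) with hL
  have hCe : C ^ (e + 1) = C ^ e * C := pow_succ C e
  have hWC : C ≤ W := by
    calc C = C ^ 1 := (pow_one C).symm
      _ ≤ C ^ e := Nat.pow_le_pow_right (by omega) (by omega)
  have hWW : W * 1048576 ≤ C ^ (e + 1) := by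
    rw [hCe]
    exact Nat.mul_le_mul_left _ hCn
  have hW2 : 2 ∣ W := h2.trans (dvd_pow_self C (by omega))
  have hfam : (famAll W L).card ≤ 2 ^ (3 * L + 2) := card_famAll (by omega) (by omega)
  have hcardq : ∀ q ∈ famAll W L, q.card ≤ 2 ^ (W / 2 + 2) := fun q hq => mem_famAll_card hW2 hq
  obtain ⟨Th, t1, t2, t3, t4, t5⟩ := exists_Theta hC he (famAll W L)
    (hfam.trans (Nat.pow_le_pow_right (by norm_num) (by omega)))
    (by
      intro q hq
      exact (hcardq q hq).trans (Nat.pow_le_pow_right (by norm_num) (by omega)))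
  have hThc : Th.card ≤ 2 ^ (W / 2) := by
    have : (C ^ e + 1) / 2 = W / 2 := by
      rw [← hW]
      omega
    rwa [this] at t5
  -- the sets `s - Theta`
  let neg : ℕ → Finset ℕ := fun s => (Finset.range (2 ^ W)).filter
    (fun t => ∃ θ ∈ Th, (t + θ) % 2 ^ W = s)
  have hneg : ∀ s, (neg s).card ≤ 2 ^ (W / 2) := by
    intro s
    refine le_trans ?_ hThc
    -- `t` is determined by `θ`
    have hch : ∀ t ∈ neg s, ∃ θ ∈ Th, (t + θ) % 2 ^ W = s := fun t ht =>
      (Finset.mem_filter.mp ht).2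
    choose! g hg1 hg2 using hch
    apply Finset.card_le_card_of_injOn g
    · intro t ht
      exact hg1 t ht
    · intro t ht t' ht' h
      have e1 := hg2 t (Finset.mem_coe.mp ht)
      have e2 := hg2 t' (Finset.mem_coe.mp ht')
      rw [h] at e1
      have e3 : t + g t' ≡ t' + g t' [MOD 2 ^ W] := by
        rw [Nat.ModEq, e1, e2]
      have e4 := Nat.ModEq.add_right_cancel' _ e3
      exact Nat.ModEq.eq_of_lt_of_lt e4
        (Finset.mem_range.mp (Finset.mem_filter.mp (Finset.mem_coe.mp ht)).1)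
        (Finset.mem_range.mp (Finset.mem_filter.mp (Finset.mem_coe.mp ht')).1)
  let F : Finset (Finset ℕ) := famAll W L ∪ (Finset.range (2 ^ W)).image neg
  have hFc : F.card ≤ 2 ^ (3 * L + 3) := by
    have e1 : F.card ≤ (famAll W L).card + ((Finset.range (2 ^ W)).image neg).card :=
      Finset.card_union_le _ _
    have e2 : ((Finset.range (2 ^ W)).image neg).card ≤ 2 ^ W := by
      refine Finset.card_image_le.trans ?_
      rw [Finset.card_range]
    have e3 : 2 ^ W ≤ 2 ^ (3 * L + 2) := Nat.pow_le_pow_right (by norm_num) (by omega)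
    have e4 : 2 ^ (3 * L + 3) = 2 * 2 ^ (3 * L + 2) := by
      rw [show 3 * L + 3 = (3 * L + 2) + 1 by ring, pow_succ]
      ring
    omega
  have hFq : ∀ q ∈ F, q.card ≤ 2 ^ (W / 2 + 2) := by
    intro q hq
    rcases Finset.mem_union.mp hq with h | h
    · exact hcardq q h
    · obtain ⟨s, -, rfl⟩ := Finset.mem_image.mp h
      exact (hneg s).trans (Nat.pow_le_pow_right (by norm_num) (by omega))
  set m := 100 * C ^ (e + 1) with hm
  obtain ⟨w, hw⟩ := hW2
  have hwW : W / 2 = w := by omega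
  have hw20 : 500000 ≤ w := by omega
  obtain ⟨T, s1, s2, s3, s4⟩ := exists_rand (N := 2 ^ (w - 10)) (M := 2 ^ W) (m := m)
    (q := 2 ^ (w + 2)) (by positivity) F (by rw [hwW] at hFq; exact hFq)
    (by
      have e1 : 2 ^ (w - 10) * 2 ^ (w + 2) = 2 ^ (W - 8) := by
        rw [← pow_add]
        congr 1
        omega
      rw [e1, ← pow_mul, ← pow_mul]
      calc 4 * F.card * 2 ^ ((W - 8) * m) ≤ 4 * 2 ^ (3 * L + 3) * 2 ^ ((W - 8) * m) :=
            Nat.mul_le_mul_right _ (Nat.mul_le_mul_left _ hFc)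
        _ = 2 ^ (2 + (3 * L + 3) + (W - 8) * m) := by
            rw [pow_add 2 (2 + (3 * L + 3)), pow_add 2 2 (3 * L + 3)]
            norm_num
        _ ≤ 2 ^ (W * m) := by
            apply Nat.pow_le_pow_right (by norm_num)
            have e2 : W * m = (W - 8) * m + 8 * m := by
              rw [← Nat.add_mul]
              congr 1
              omega
            omega)
    (by
      have e1 : 2 ^ (w - 10) * 2 ^ (w - 10) = 2 ^ (W - 20) := by
        rw [← pow_add]
        congr 1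
        omega
      rw [e1, ← pow_mul, ← pow_mul]
      calc 4 * 2 ^ W * 2 ^ ((W - 20) * m) = 2 ^ (2 + W + (W - 20) * m) := by
            rw [pow_add 2 (2 + W), pow_add 2 2 W]
            norm_num
        _ ≤ 2 ^ (W * m) := by
            apply Nat.pow_le_pow_right (by norm_num)
            have e2 : W * m = (W - 20) * m + 20 * m := by
              rw [← Nat.add_mul]
              congr 1
              omega
            omega)
    (by
      have e1 : 2 ^ (w - 10) * 2 ^ (w - 10) = 2 ^ (W - 20) := by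
        rw [← pow_add]
        congr 1
        omega
      rw [e1]
      calc 4 * 2 ^ (W - 20) = 2 ^ (2 + (W - 20)) := by
            rw [pow_add]
            norm_num
        _ ≤ 2 ^ W := Nat.pow_le_pow_right (by norm_num) (by omega))
  have hmB : 2 * m + 2 ≤ BT C e := by
    show 2 * m + 2 ≤ 400 * C ^ (e + 1)
    omega
  have hTQ : ∀ q ∈ famAll W L, (T ∩ q).card ≤ BT C e := by
    intro q hq
    rw [← Finset.filter_mem_eq_inter]
    have := s3 q (Finset.mem_union_left _ hq)
    omega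
  have hThQ : ∀ q ∈ famAll W L, (Th ∩ q).card ≤ BTh C e := by
    intro q hq
    rw [← Finset.filter_mem_eq_inter]
    exact (t3 q hq).le
  have hmix : ∀ s, ((T ×ˢ Th).filter (fun q => (q.1 + q.2) % 2 ^ W = s)).card ≤ BT C e := by
    intro s
    rcases Nat.lt_or_ge s (2 ^ W) with hs | hs
    · have h1 : ((T ×ˢ Th).filter (fun q => (q.1 + q.2) % 2 ^ W = s)).card ≤
          (T.filter (fun t => t ∈ neg s)).card := by
        apply Finset.card_le_card_of_injOn Prod.fst
        · intro q hq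
          have a1 := Finset.mem_filter.mp (Finset.mem_coe.mp hq)
          have a2 := Finset.mem_product.mp a1.1
          rw [Finset.mem_coe, Finset.mem_filter]
          refine ⟨a2.1, ?_⟩
          exact Finset.mem_filter.mpr ⟨Finset.mem_range.mpr (s2 _ a2.1), q.2, a2.2, a1.2⟩
        · intro q hq q' hq' h
          have a1 := Finset.mem_filter.mp (Finset.mem_coe.mp hq)
          have a2 := Finset.mem_product.mp a1.1
          have b1 := Finset.mem_filter.mp (Finset.mem_coe.mp hq')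
          have b2 := Finset.mem_product.mp b1.1
          have e3 : q.1 + q.2 ≡ q'.1 + q'.2 [MOD 2 ^ W] := by
            rw [Nat.ModEq, a1.2, b1.2]
          have h' : q.1 = q'.1 := h
          rw [h'] at e3
          have e4 := Nat.ModEq.add_left_cancel' _ e3
          exact Prod.ext h' (Nat.ModEq.eq_of_lt_of_lt e4 (t1 _ a2.2) (t1 _ b2.2))
      have h2 := s3 (neg s) (Finset.mem_union_right _
        (Finset.mem_image.mpr ⟨s, Finset.mem_range.mpr hs, rfl⟩))
      omega
    · have : (T ×ˢ Th).filter (fun q => (q.1 + q.2) % 2 ^ W = s) = ∅ := by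
        rw [Finset.filter_eq_empty_iff]
        intro q _ h
        have := Nat.mod_lt (q.1 + q.2) (show 0 < 2 ^ W by positivity)
        omega
      rw [this]
      simp
  refine ⟨T, Th, ?_⟩
  refine
    { Th_lt := t1
      T_lt := s2
      Th_card := hThc
      T_card := by rw [s1, hwW]
      Th_large := t4
      Th_Qs := fun j k hj hk => hThQ _ (fam1_mem hj hk L)
      T_Qs := fun j k hj hk => hTQ _ (fam1_mem hj hk L)
      Th_QR := fun ν hν => hThQ _ (fam4_mem hν L)
      T_QR := fun ν hν => hTQ _ (fam4_mem hν L)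
      Th_QP := fun l q r h hl => hThQ _ (fam2_mem r h hl)
      T_QP := fun l q r h hl => hTQ _ (fam2_mem r h hl)
      T_F3 := ?_
      mTT := ?_
      mTTh := hmix
      mThT := ?_
      mThTh := t2 }
  · intro ν s _
    refine le_trans (Finset.card_le_card ?_) (hTQ (prog W (ν % 2 ^ W) (s % 2 ^ W))
      (fam3_mem (Nat.mod_lt _ (by positivity)) (Nat.mod_lt _ (by positivity)) L))
    intro t ht
    obtain ⟨h1, j, hj, h3⟩ := Finset.mem_filter.mp ht
    rw [Finset.mem_inter]
    refine ⟨h1, ?_⟩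
    rw [← prog_mod]
    exact Finset.mem_image.mpr ⟨j, Finset.mem_range.mpr hj, h3⟩
  · intro s
    exact (s4 s).trans hmB
  · intro s
    refine le_trans ?_ (hmix s)
    apply Finset.card_le_card_of_injOn Prod.swap
    · intro q hq
      have a1 := Finset.mem_filter.mp (Finset.mem_coe.mp hq)
      have a2 := Finset.mem_product.mp a1.1
      rw [Finset.mem_coe, Finset.mem_filter, Finset.mem_product]
      refine ⟨⟨a2.2, a2.1⟩, ?_⟩
      show (q.2 + q.1) % 2 ^ W = s
      rw [Nat.add_comm]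
      exact a1.2
    · intro q _ q' _ h
      exact Prod.swap_injective h

end Pool.Agent.Helper83.ET
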