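import Pool.Agent.Helper83.ET.AllNear
import Pool.Agent.Helper41.ETPN
import Pool.Agent.Helper16.ETL.Near4
import Pool.Agent.Helper16.ETL.Fields

/-!
# The codes satisfy the hypotheses of the near lemma and of the layout fields
-/

namespace Pool.Agent.Helper83.ET

open Finset Pool.Agent.ETS Pool.Agent.Helper41.ETPP
open Pool.Agent.Helper29.ETK (ep Wd CC lg)

variable {c : ℕ} {TK : ℕ → Finset ℕ}

theorem CC_ge (hc : 20 ≤ c) : 2 ^ 20 ≤ CC c := Nat.pow_le_pow_right (by norm_num) hc

theorem CC_even (hc : 20 ≤ c) : 2 ∣ CC c := dvd_pow_self 2 (by omega)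

/-- The constants of the near lemma. -/
noncomputable def betaMk (c e : ℕ) : ℕ := 153738 * BT (CC c) e

theorem one_le_BT (C e : ℕ) (hC : 1 ≤ C) : 1 ≤ BT C e := by
  unfold BT
  have : 0 < C ^ (e + 1) := by positivity
  omega

/-- The conditions of the `PT` regions that occur. -/
theorem mk_PTok' (hc : 20 ≤ c) {g b : ℕ} (he : 20 ≤ ep c b) (hWb : Wd c b ∣ b)
    (hWg : Wd c b ∣ g) (h : g = 0 ∨ ep c g = ep c b) :
    PTok (mk (CC c) TK) (pcode (CC c) (pidx c g)) (BT (CC c) (ep c b)) (ep c b) (b - g) := by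
  have hL : (CC c) ^ (ep c b) ∣ b - g := Nat.dvd_sub hWb hWg
  by_cases hg : g = 0
  · subst hg
    have hp : pidx c 0 = 0 := by
      unfold pidx
      simp
    rw [hp]
    apply mk_PTok_zero (CC_ge hc) (CC_even hc) he hL
    have hb : b ≠ 0 := by
      intro hb
      rw [hb] at he
      unfold ep lg at he
      simp at he
    rw [Nat.sub_zero]
    calc CC c ^ (3 * ep c b) ≤ CC c ^ (lg c b) := by
          apply Nat.pow_le_pow_right
          · unfold CC
            positivity
          · unfold ep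
            omega
      _ ≤ b := Nat.pow_log_le_self _ hb
  · have hp : pidx c g = ep c b + 1 := by
      unfold pidx
      rw [if_neg hg]
      rcases h with h | h
      · exact absurd h hg
      · rw [h]
    rw [hp]
    exact mk_PTok (CC_ge hc) (CC_even hc) he hL

/-- **helper16's `NearCodes`.** -/
theorem mk_NearCodes (hc : 20 ≤ c) : NearCodes c 20 (mk (CC c) TK) 132 (betaMk c) where
  W := fun _ => rfl
  one := by norm_num
  oneB := by
    intro e
    unfold betaMk
    have := one_le_BT (CC c) e (by unfold CC; exact Nat.one_le_two_pow)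
    omega
  X0 := by
    intro p
    rw [mk_X_zero]
    simp
  Y0 := (mk_RNear (CC_ge hc) (CC_even hc)).Y0
  res := by
    intro p l k x hx hlk
    have h1 := (pcode (CC c) p).P_mod hlk ((pcode (CC c) p).X_mod hx)
    show (pcode (CC c) p).P k x ≡ (pcode (CC c) p).P l x [MOD 2 ^ l]
    rw [Nat.ModEq, h1, Nat.mod_eq_of_lt ((pcode (CC c) p).P_lt l x)]
  PP := by
    intro p f b hfb
    exact (PB_PP (c := pcode (CC c) p) (fun _ => rfl) (fun _ _ => rfl) hfb.le).mono (by norm_num)
  RR := fun b v h => ((mk_RNear (CC_ge hc) (CC_even hc)).RR b v h).mono (by norm_num)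
  ThTh := (mk_RNear (CC_ge hc) (CC_even hc)).ThTh
  RTRT := (mk_RNear (CC_ge hc) (CC_even hc)).RTRT
  RRT := (mk_RNear (CC_ge hc) (CC_even hc)).RRT
  RTRTh := (mk_RNear (CC_ge hc) (CC_even hc)).RTRTh
  RS := (mk_RNear (CC_ge hc) (CC_even hc)).RS
  PTPT := by
    intro g b he hgb hWb hWg h
    refine (PB_PTPT (c := pcode (CC c) (pidx c g)) (fun _ => rfl) (fun _ _ => rfl) hgb
      (mk_PTok' hc he hWb hWg h)).mono ?_
    unfold betaMk
    exact Nat.mul_le_mul_right _ (by norm_num)
  PTP := by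
    intro g b he hgb hWb hWg h
    refine (PB_PTP (c := pcode (CC c) (pidx c g)) (fun _ => rfl) (fun _ _ => rfl) hgb
      (one_le_BT _ _ (by unfold CC; exact Nat.one_le_two_pow)) (mk_PTok' hc he hWb hWg h)
      (Nat.dvd_sub hWb hWg)).mono ?_
    unfold betaMk
    exact Nat.mul_le_mul_right _ (by norm_num)

/-- **helper16's `RegCodes`.** -/
theorem mk_RegCodes (hc : 20 ≤ c) : RegCodes c 20 (mk (CC c) TK) where
  W := fun _ => rfl
  P := by
    intro p f b hfb
    have hr : IsPr (mk (CC c) TK) (pcode (CC c) p) 1 p f (Reg.P p f b) := ⟨rfl, rfl, hfb⟩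
    exact ⟨hr.card_sq (fun _ => rfl) (fun _ _ => rfl), hr.inj (fun _ => rfl) (fun _ _ => rfl)⟩
  R := fun b v _ => RC.good_R (mk_RBase (CC_ge hc) (CC_even hc) (le_refl 20)) b v
  RT := fun _ _ _ he h _ => RC.good_RT (mk_RBase (CC_ge hc) (CC_even hc) he) h
  RTh := fun _ _ _ he h _ => RC.good_RTh (mk_RBase (CC_ge hc) (CC_even hc) he) h
  PT := by
    intro g b he hgb hWb hWg h
    have hr : IsPr (mk (CC c) TK) (pcode (CC c) (pidx c g)) (BT (CC c) (ep c b)) (pidx c g) g
        (Reg.PT (pidx c g) (ep c b) g b) := ⟨rfl, rfl, hgb, mk_PTok' hc he hWb hWg h⟩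
    exact ⟨hr.card_sq (fun _ => rfl) (fun _ _ => rfl), hr.inj (fun _ => rfl) (fun _ _ => rfl)⟩

end Pool.Agent.Helper83.ET
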