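import Pool.Agent.Helper5.ETP.CrossZ
import Pool.Agent.Helper84.ET.TKDefs
import Pool.Agent.ETS.Red
import Pool.Agent.Helper16.ETL.Near1

/-!
# Far pairs: an `RTh` zone of `K` inside the window of `K'`
-/

namespace Pool.Agent.Helper83.ET

open Finset Pool.Agent.ETS Pool.Agent.ETS.TKS Pool.Agent.Helper5.ETP

section abstract_part

variable {C : Codes} {w hc ew : ℕ → ℕ} {ok : ℕ → ℕ → Prop} {K1 : ℕ} {L : ℕ → ℕ}
  {M : ℕ → ℕ → ℕ}

/-- elements of a zone of kind `RTh` -/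
theorem mem_zRTh {e b l a κ s : ℕ} (h : s ∈ (zreg C (.RTh e b (b + l)) a κ).S) :
    ∃ z ∈ pairs (C.Y (l - C.W e)) (C.Th e),
      s = a + 2 ^ b * ((C.E l (Nat.unpair z).1 + (Nat.unpair z).2 + κ) % 2 ^ l) := by
  unfold zreg at h
  simp only [mem_image, Reg.V, Reg.bot, Reg.c, Reg.top, Nat.add_sub_cancel_left] at h
  obtain ⟨z, hz, rfl⟩ := h
  exact ⟨z, hz, rfl⟩

/-- **Core.**  Pairs whose second member is a random element above a known part. -/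
theorem win_core {TK : ℕ → Finset ℕ} (H : TKGood w hc ew (Rs C) ok K1 L M TK) {K' : ℕ}
    (hK1 : K1 ≤ K') {e b l : ℕ} (hok : ok e l) {w₂ : ℕ} (hw₂ : w₂ = w K' + hc K') (hb : w₂ ≤ b)
    (hv : b + l ≤ K') {a κ A' κ₂ n : ℕ} (P : Finset (ℕ × ℕ))
    (hP : ∀ s ∈ P, s.1 ∈ (zreg C (.RTh e b (b + l)) a κ).S ∧
      (∃ t ∈ TK K', s.2 = A' + 2 ^ w₂ * ((t + κ₂) % 2 ^ (K' - w₂))) ∧
      s.1 + s.2 ≡ n [MOD 2 ^ (b + l)]) :
    P.card ≤ 8 * ((Rs C e l).card * 2 ^ (K' - (b + l))) / 2 ^ (K' - w₂ - (K' - w₂) / 2) +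
      L K' := by
  classical
  rcases P.eq_empty_or_nonempty with h0 | ⟨s0, hs0⟩
  · rw [h0, card_empty]
    exact Nat.zero_le _
  have hrep : ∀ s ∈ P, ∃ q : ℕ × ℕ, q.1 ∈ Rs C e l ∧ q.2 ∈ TK K' ∧
      s.1 = a + 2 ^ b * ((q.1 + κ) % 2 ^ l) ∧
      s.2 = A' + 2 ^ w₂ * ((q.2 + κ₂) % 2 ^ (K' - w₂)) := by
    intro s hs
    obtain ⟨h1, ⟨t, ht, h2⟩, -⟩ := hP s hs
    obtain ⟨z, hz, h3⟩ := mem_zRTh h1
    refine ⟨((C.E l (Nat.unpair z).1 + (Nat.unpair z).2) % 2 ^ l, t), ?_, ht, ?_, h2⟩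
    · exact mem_image.mpr ⟨z, hz, rfl⟩
    · rw [h3]
      simp only [Nat.mod_add_mod]
  choose! f hf1 hf2 hf3 hf4 using hrep
  have hfar := H.far K' hK1 e b l hok (by rw [← hw₂]; exact hb) hv κ κ₂
    (2 ^ (b - w₂) * (((f s0).1 + κ) % 2 ^ l) + ((f s0).2 + κ₂) % 2 ^ (K' - w₂))
  rw [← hw₂] at hfar
  refine le_trans (Finset.card_le_card_of_injOn f (fun s hs => ?_) ?_) hfar
  · rw [mem_coe, mem_filter, mem_product]
    refine ⟨⟨hf1 s hs, hf2 s hs⟩, ?_⟩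
    have h1 := ((hP s hs).2.2).trans ((hP s0 hs0).2.2).symm
    rw [hf3 s hs, hf4 s hs, hf3 s0 hs0, hf4 s0 hs0] at h1
    have hbb : 2 ^ b = 2 ^ w₂ * 2 ^ (b - w₂) := by
      rw [← pow_add]
      congr 1
      omega
    have e1 : ∀ X Y : ℕ, (a + 2 ^ b * X) + (A' + 2 ^ w₂ * Y) =
        2 ^ w₂ * (2 ^ (b - w₂) * X + Y) + (a + A') := by
      intro X Y
      rw [hbb]
      ring
    rw [e1, e1] at h1
    have h2 := Nat.ModEq.add_right_cancel' _ h1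
    exact two_pow_dvd_cancel h2 (by omega)
  · intro s hs s' hs' he
    apply Prod.ext
    · rw [hf3 s hs, hf3 s' hs', he]
    · rw [hf4 s hs, hf4 s' hs', he]

/-- plain window -/
theorem win_plain {TK : ℕ → Finset ℕ} (H : TKGood w hc ew (Rs C) ok K1 L M TK)
    (hTK : C.TK = TK) {K K' : ℕ} (hK1 : K1 ≤ K') {e b l : ℕ} (hok : ok e l) (hh : hc K' = 0)
    (hb : w K' ≤ b) (hv : b + l ≤ K') (hvK : b + l ≤ K) {a κ a' κ' n : ℕ} :
    (zcons K K' n (zreg C (.RTh e b (b + l)) a κ) (zreg C (.win (w K') K') a' κ')).card ≤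
      8 * ((Rs C e l).card * 2 ^ (K' - (b + l))) /
        2 ^ (K' - (w K' + hc K') - (K' - (w K' + hc K')) / 2) + L K' := by
  have e0 : w K' + hc K' = w K' := by omega
  rw [e0]
  refine win_core (a := a) (κ := κ) (A' := a') (κ₂ := κ') (n := n) H hK1 hok e0.symm hb hv _ ?_
  intro s hs
  have h1 := mem_zcons.mp hs
  refine ⟨h1.1.1, ?_, ?_⟩
  · have h2 := h1.1.2
    unfold zreg at h2
    simp only [mem_image, Reg.V, Reg.bot, Reg.c, Reg.top] at h2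
    obtain ⟨t, ht, h3⟩ := h2
    rw [hTK] at ht
    exact ⟨t, ht, h3.symm⟩
  · exact zcons_modEq (Z := zreg C (.RTh e b (b + l)) a κ) (Z' := zreg C (.win (w K') K') a' κ')
      hvK le_rfl hs le_rfl hv

/-- elements of a composite window -/
theorem mem_zwinC {e w' h K' a' κ' s : ℕ} (hK' : w' + h ≤ K')
    (hs : s ∈ (zreg C (.winC e w' h K') a' κ').S) :
    ∃ z ∈ pairs (C.Y (h - C.W e)) (C.Th e), ∃ t ∈ C.TK K', ∃ R, R =
      (C.E h (Nat.unpair z).1 + (Nat.unpair z).2) % 2 ^ h ∧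
      s = a' + 2 ^ w' * ((R + κ') % 2 ^ h) +
        2 ^ (w' + h) * ((t + (R + κ') / 2 ^ h) % 2 ^ (K' - (w' + h))) := by
  unfold zreg at hs
  simp only [mem_image, Reg.V, Reg.bot, Reg.c, Reg.top] at hs
  obtain ⟨q, hq, h1⟩ := hs
  rw [mem_pairs] at hq
  refine ⟨(Nat.unpair q).1, hq.1, (Nat.unpair q).2, hq.2, _, rfl, ?_⟩
  rw [← h1]
  set R := (C.E h (Nat.unpair (Nat.unpair q).1).1 + (Nat.unpair (Nat.unpair q).1).2) % 2 ^ h
  have e1 : R + 2 ^ h * (Nat.unpair q).2 + κ' = (R + κ') + 2 ^ h * (Nat.unpair q).2 := by ring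
  have e2 : K' - w' = h + (K' - (w' + h)) := by omega
  rw [e1, e2, mod_split, mul_add, ← mul_assoc, ← pow_add, ← add_assoc]

/-- composite window, the region is above the composite part -/
theorem win_comp {TK : ℕ → Finset ℕ} (H : TKGood w hc ew (Rs C) ok K1 L M TK)
    (hTK : C.TK = TK) {K K' : ℕ} (hK1 : K1 ≤ K') {e b l : ℕ} (hok : ok e l)
    (hb : w K' + hc K' ≤ b) (hv : b + l ≤ K') (hvK : b + l ≤ K) {a κ a' κ' n : ℕ} :
    (zcons K K' n (zreg C (.RTh e b (b + l)) a κ)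
      (zreg C (.winC (ew K') (w K') (hc K') K') a' κ')).card ≤
      8 * ((Rs C e l).card * 2 ^ (K' - (b + l))) /
        2 ^ (K' - (w K' + hc K') - (K' - (w K' + hc K')) / 2) + L K' := by
  classical
  set P := zcons K K' n (zreg C (.RTh e b (b + l)) a κ)
      (zreg C (.winC (ew K') (w K') (hc K') K') a' κ') with hPdef
  rcases P.eq_empty_or_nonempty with h0 | ⟨s0, hs0⟩
  · rw [h0, card_empty]
    exact Nat.zero_le _
  set h := hc K' with hh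
  set w' := w K' with hw'
  have hmod : ∀ s ∈ P, s.1 + s.2 ≡ n [MOD 2 ^ (b + l)] := fun s hs =>
    zcons_modEq (Z := zreg C (.RTh e b (b + l)) a κ) (Z' := zreg C (.winC (ew K') w' h K') a' κ')
      hvK le_rfl hs le_rfl hv
  -- the value of the composite part
  have hR : ∀ s ∈ P, ∃ R, R < 2 ^ h ∧ ∃ t ∈ TK K', s.2 = a' + 2 ^ w' * ((R + κ') % 2 ^ h) +
      2 ^ (w' + h) * ((t + (R + κ') / 2 ^ h) % 2 ^ (K' - (w' + h))) := by
    intro s hs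
    obtain ⟨z, hz, t, ht, R, hR1, hR2⟩ := mem_zwinC (by omega) (mem_zcons.mp hs).1.2
    rw [hTK] at ht
    exact ⟨R, by rw [hR1]; exact Nat.mod_lt _ (by positivity), t, ht, hR2⟩
  obtain ⟨R0, hR0, t0, ht0, he0⟩ := hR s0 hs0
  refine win_core (a := a) (κ := κ) (A' := a' + 2 ^ w' * ((R0 + κ') % 2 ^ h)) (κ₂ := (R0 + κ') / 2 ^ h)
    (n := n) H hK1 hok rfl hb hv P ?_
  intro s hs
  refine ⟨(mem_zcons.mp hs).1.1, ?_, hmod s hs⟩
  obtain ⟨R, hR1, t, ht, he⟩ := hR s hs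
  have hlow : ∀ s ∈ P, s.1 ≡ a [MOD 2 ^ (w' + h)] := by
    intro s hs
    obtain ⟨z, -, h3⟩ := mem_zRTh (mem_zcons.mp hs).1.1
    rw [h3]
    have h4 : 2 ^ b * ((C.E l (Nat.unpair z).1 + (Nat.unpair z).2 + κ) % 2 ^ l) ≡ 0
        [MOD 2 ^ (w' + h)] :=
      Nat.modEq_zero_iff_dvd.mpr ((pow_dvd_pow 2 hb).mul_right _)
    exact h4.add_left a
  have hlow' : ∀ x R t : ℕ, x = a' + 2 ^ w' * ((R + κ') % 2 ^ h) +
      2 ^ (w' + h) * ((t + (R + κ') / 2 ^ h) % 2 ^ (K' - (w' + h))) →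
      x ≡ 2 ^ w' * R + (a' + 2 ^ w' * κ') [MOD 2 ^ (w' + h)] := by
    intro x R t hx
    rw [hx]
    have h4 : 2 ^ (w' + h) * ((t + (R + κ') / 2 ^ h) % 2 ^ (K' - (w' + h))) ≡ 0
        [MOD 2 ^ (w' + h)] := Nat.modEq_zero_iff_dvd.mpr (Dvd.intro _ rfl)
    have h5 : 2 ^ w' * ((R + κ') % 2 ^ h) ≡ 2 ^ w' * (R + κ') [MOD 2 ^ (w' + h)] :=
      mul_mod_pow_modEq
    have h6 := (h5.add_left a').add h4
    rw [add_zero] at h6
    have e1 : a' + 2 ^ w' * (R + κ') = 2 ^ w' * R + (a' + 2 ^ w' * κ') := by ring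
    rw [e1] at h6
    exact h6
  have hsum : 2 ^ w' * R + (a' + 2 ^ w' * κ') ≡ 2 ^ w' * R0 + (a' + 2 ^ w' * κ')
      [MOD 2 ^ (w' + h)] := by
    have h1 := (hmod s hs).of_dvd (pow_dvd_pow 2 (show w' + h ≤ b + l by omega))
    have h2 := (hmod s0 hs0).of_dvd (pow_dvd_pow 2 (show w' + h ≤ b + l by omega))
    have h3 : a + s.2 ≡ a + s0.2 [MOD 2 ^ (w' + h)] :=
      ((hlow s hs).symm.add_right s.2).trans ((h1.trans h2.symm).trans
        ((hlow s0 hs0).add_right s0.2))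
    have h4 := Nat.ModEq.add_left_cancel' _ h3
    exact (hlow' _ _ _ he).symm.trans (h4.trans (hlow' _ _ _ he0))
  have hRR : R ≡ R0 [MOD 2 ^ h] := by
    have h1 := two_pow_dvd_cancel (Nat.ModEq.add_right_cancel' _ hsum) (by omega)
    rwa [Nat.add_sub_cancel_left] at h1
  have hRe : R = R0 := hRR.eq_of_lt_of_lt hR1 hR0
  rw [hRe] at he
  exact ⟨t, ht, he⟩

/-- composite window, the region is its composite part -/
theorem win_same {K K' e b l mu : ℕ} (hv : b + l ≤ K') (hvK : b + l ≤ K)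
    (hPB : PB C (.RTh e b (b + l)) (.RTh e b (b + l)) mu) {a κ a' κ' n : ℕ} :
    (zcons K K' n (zreg C (.RTh e b (b + l)) a κ)
      (zreg C (.winC e b l K') a' κ')).card ≤ mu * (C.TK K').card := by
  classical
  set P := zcons K K' n (zreg C (.RTh e b (b + l)) a κ) (zreg C (.winC e b l K') a' κ') with hPdef
  rcases P.eq_empty_or_nonempty with h0 | ⟨s0, hs0⟩
  · rw [h0, card_empty]
    exact Nat.zero_le _
  have hmod : ∀ s ∈ P, s.1 + s.2 ≡ n [MOD 2 ^ (b + l)] := fun s hs =>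
    zcons_modEq (Z := zreg C (.RTh e b (b + l)) a κ) (Z' := zreg C (.winC e b l K') a' κ')
      hvK le_rfl hs le_rfl hv
  set V := pairs (C.Y (l - C.W e)) (C.Th e) with hV
  set F : ℕ → ℕ := fun z => C.E l (Nat.unpair z).1 + (Nat.unpair z).2 with hF
  have hrep : ∀ s ∈ P, ∃ q : (ℕ × ℕ) × ℕ, q.1.1 ∈ V ∧ q.1.2 ∈ V ∧ q.2 ∈ C.TK K' ∧
      s.1 = a + 2 ^ b * ((F q.1.1 + κ) % 2 ^ l) ∧
      s.2 = a' + 2 ^ b * ((F q.1.2 % 2 ^ l + κ') % 2 ^ l) +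
        2 ^ (b + l) * ((q.2 + (F q.1.2 % 2 ^ l + κ') / 2 ^ l) % 2 ^ (K' - (b + l))) := by
    intro s hs
    obtain ⟨z, hz, h3⟩ := mem_zRTh (mem_zcons.mp hs).1.1
    obtain ⟨z', hz', t, ht, R, hR1, hR2⟩ := mem_zwinC hv (mem_zcons.mp hs).1.2
    refine ⟨((z, z'), t), hz, hz', ht, h3, ?_⟩
    rw [hR2, hR1]
  choose! f hf1 hf2 hf3 hf4 hf5 using hrep
  have hfib : ∀ s ∈ P, F (f s).1.1 + F (f s).1.2 ≡ F (f s0).1.1 + F (f s0).1.2 [MOD 2 ^ l] := by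
    have h1 : ∀ s ∈ P, s.1 + s.2 ≡ 2 ^ b * (F (f s).1.1 + F (f s).1.2) +
        (a + a' + 2 ^ b * κ + 2 ^ b * κ') [MOD 2 ^ (b + l)] := by
      intro s hs
      rw [hf4 s hs, hf5 s hs]
      have h2 : 2 ^ b * ((F (f s).1.1 + κ) % 2 ^ l) ≡ 2 ^ b * (F (f s).1.1 + κ)
          [MOD 2 ^ (b + l)] := mul_mod_pow_modEq
      have h3 : 2 ^ b * ((F (f s).1.2 % 2 ^ l + κ') % 2 ^ l) ≡ 2 ^ b * (F (f s).1.2 + κ')
          [MOD 2 ^ (b + l)] := by
        rw [Nat.mod_add_mod]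
        exact mul_mod_pow_modEq
      have h4 : 2 ^ (b + l) * (((f s).2 + (F (f s).1.2 % 2 ^ l + κ') / 2 ^ l) %
          2 ^ (K' - (b + l))) ≡ 0 [MOD 2 ^ (b + l)] :=
        Nat.modEq_zero_iff_dvd.mpr (Dvd.intro _ rfl)
      have h5 := (h2.add_left a).add ((h3.add_left a').add h4)
      rw [add_zero] at h5
      have e1 : a + 2 ^ b * (F (f s).1.1 + κ) + (a' + 2 ^ b * (F (f s).1.2 + κ')) =
          2 ^ b * (F (f s).1.1 + F (f s).1.2) + (a + a' + 2 ^ b * κ + 2 ^ b * κ') := by ring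
      rw [e1] at h5
      exact h5
    intro s hs
    have h2 := (h1 s hs).symm.trans (((hmod s hs).trans (hmod s0 hs0).symm).trans (h1 s0 hs0))
    have h3 := two_pow_dvd_cancel (Nat.ModEq.add_right_cancel' _ h2) (by omega)
    rwa [Nat.add_sub_cancel_left] at h3
  have hpb := hPB (F (f s0).1.1 + F (f s0).1.2)
  refine le_trans (Finset.card_le_card_of_injOn f (t := ((V ×ˢ V).filter (fun q =>
    F q.1 + F q.2 ≡ F (f s0).1.1 + F (f s0).1.2 [MOD 2 ^ l])) ×ˢ C.TK K') (fun s hs => ?_) ?_) ?_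
  · rw [mem_coe, mem_product, mem_filter, mem_product]
    exact ⟨⟨⟨hf1 s hs, hf2 s hs⟩, hfib s hs⟩, hf3 s hs⟩
  · intro s hs s' hs' he
    apply Prod.ext
    · rw [hf4 s hs, hf4 s' hs', he]
    · rw [hf5 s hs, hf5 s' hs', he]
  · rw [card_product]
    refine Nat.mul_le_mul_right _ (le_trans (le_of_eq ?_) hpb)
    unfold Reg.len
    simp only [Reg.V, Reg.c, Reg.top, Reg.bot, Nat.add_sub_cancel_left]
    rfl

end abstract_part

end Pool.Agent.Helper83.ET
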