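import Pool.Agent.Helper83.ET.X2
import Pool.Agent.Helper83.ET.WinFar1
import Pool.Agent.Helper86.ET.Win

/-!
# Far pairs: an `RTh` zone of `K` inside the window of `K'`, final form
-/

namespace Pool.Agent.Helper83.ET

open Finset Pool.Agent.ETS Pool.Agent.ETS.TKS Pool.Agent.Helper5.ETP
open Pool.Agent.Helper29.ETK (ep CC lg gth)
open Pool.Agent.ETP (isPT phiV)

variable {c K K' : ℕ} {TK : ℕ → Finset ℕ}

theorem card_Rs_le {C : Codes} {e l : ℕ} (hR : RC.RBase C e) (hl : C.W e ≤ l) :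
    (Rs C e l).card ≤ 2 ^ (l / 2) := by
  unfold Rs
  refine card_image_le.trans ?_
  rw [card_pairs, hR.hY]
  have h1 : 2 ^ (l / 2) = 2 ^ ((l - C.W e) / 2) * 2 ^ (C.W e / 2) := by
    rw [← pow_add]
    congr 1
    have := hR.hW
    omega
  rw [h1]
  exact Nat.mul_le_mul (RC.card_Yq_le _) hR.cTh

/-- numbers -/
theorem farOK_win {C : Codes} {r0 r1 r0' r1' : Reg} {v B : ℕ}
    (hg : K' + gth c K ≤ K) (hv : r1.top C = v) (hv' : r1'.top C = K') (h1 : v ≤ K')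
    (hB : (B : ℝ) ≤ (2 : ℝ) ^ (((gth c K / 4 : ℕ) : ℝ) + ((K' : ℝ) - v) / 2))
    (hN : ∀ n Z Z', ZoneOf C r0 r1 Z → ZoneOf C r0' r1' Z' → (zcons K K' n Z Z').card ≤ B) :
    FarOK C c K K' r0 r1 r0' r1' := by
  have hKK : K' ≤ K := by omega
  refine ⟨B, hN, ?_⟩
  rw [hv, hv']
  refine fin_le hB (phiV_eq_of_le hKK h1 le_rfl) ?_
  set g := gth c K with hgdef
  have e1 : |(v : ℝ) - K'| = K' - v := by
    have : (v : ℝ) ≤ K' := by exact_mod_cast h1
    rw [abs_of_nonpos (by linarith)]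
    ring
  have e2 : ((g / (8 * CC c) : ℕ) : ℝ) ≤ (g : ℝ) / 4 := by
    have h2 : g / (8 * CC c) ≤ g / 4 := by
      apply Nat.div_le_div_left _ (by norm_num)
      have : 0 < CC c := Helper82.ETN.CC_pos c
      omega
    calc ((g / (8 * CC c) : ℕ) : ℝ) ≤ ((g / 4 : ℕ) : ℝ) := by exact_mod_cast h2
      _ ≤ _ := natdiv_le g 4
  have e3 : ((g / 4 : ℕ) : ℝ) ≤ (g : ℝ) / 4 := natdiv_le g 4
  have e4 : (K' : ℝ) + g ≤ K := by exact_mod_cast hg
  rw [e1]
  linarith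

/-- the count against a random set as a power of two -/
theorem B_random {R L v l w₂ q : ℕ} (hR : R ≤ 2 ^ (l / 2)) (hb : w₂ + l ≤ v) (hv : v ≤ K')
    (hL : 8 + L ≤ 2 ^ q) :
    ((8 * (R * 2 ^ (K' - v)) / 2 ^ (K' - w₂ - (K' - w₂) / 2) + L : ℕ) : ℝ) ≤
      (2 : ℝ) ^ ((q : ℝ) + ((K' : ℝ) - v) / 2) := by
  have hvr : (v : ℝ) ≤ K' := by exact_mod_cast hv
  have h1 : ((8 * (R * 2 ^ (K' - v)) / 2 ^ (K' - w₂ - (K' - w₂) / 2) : ℕ) : ℝ) ≤
      8 * (2 : ℝ) ^ (((K' : ℝ) - v) / 2) := by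
    have h2 : ((8 * (R * 2 ^ (K' - v)) / 2 ^ (K' - w₂ - (K' - w₂) / 2) : ℕ) : ℝ) ≤
        ((8 * (R * 2 ^ (K' - v)) : ℕ) : ℝ) / ((2 ^ (K' - w₂ - (K' - w₂) / 2) : ℕ) : ℝ) :=
      Nat.cast_div_le
    refine h2.trans ?_
    rw [div_le_iff₀ (by positivity)]
    have h3 : (R : ℝ) ≤ (2 : ℝ) ^ ((l : ℝ) / 2) := by
      have h4 : (R : ℝ) ≤ (2 : ℝ) ^ (l / 2 : ℕ) := by exact_mod_cast hR
      refine h4.trans ?_
      rw [← Real.rpow_natCast]
      exact Real.rpow_le_rpow_of_exponent_le (by norm_num) (natdiv_le l 2)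
    have h5 : ((2 ^ (K' - w₂ - (K' - w₂) / 2) : ℕ) : ℝ) =
        (2 : ℝ) ^ ((K' - w₂ - (K' - w₂) / 2 : ℕ) : ℝ) := by
      rw [Real.rpow_natCast]
      push_cast
      rfl
    have h6 : ((2 ^ (K' - v) : ℕ) : ℝ) = (2 : ℝ) ^ ((K' : ℝ) - v) := by
      rw [← Nat.cast_sub hv, Real.rpow_natCast]
      push_cast
      rfl
    have h7 : ((l : ℝ) / 2) + ((K' : ℝ) - v) ≤
        ((K' : ℝ) - v) / 2 + ((K' - w₂ - (K' - w₂) / 2 : ℕ) : ℝ) := by
      have h8 : (K' - w₂ : ℕ) ≤ 2 * (K' - w₂ - (K' - w₂) / 2) := by omega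
      have h9 : ((K' : ℝ) - w₂) ≤ 2 * ((K' - w₂ - (K' - w₂) / 2 : ℕ) : ℝ) := by
        have h10 : ((K' - w₂ : ℕ) : ℝ) ≤ ((2 * (K' - w₂ - (K' - w₂) / 2) : ℕ) : ℝ) := by
          exact_mod_cast h8
        rw [Nat.cast_sub (by omega)] at h10
        push_cast at h10
        exact h10
      have h10 : (w₂ : ℝ) + l ≤ v := by exact_mod_cast hb
      linarith
    push_cast
    push_cast at h5 h6
    rw [h5, h6]
    calc 8 * ((R : ℝ) * (2 : ℝ) ^ ((K' : ℝ) - v))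
        ≤ 8 * ((2 : ℝ) ^ ((l : ℝ) / 2) * (2 : ℝ) ^ ((K' : ℝ) - v)) := by gcongr
      _ = 8 * (2 : ℝ) ^ (((l : ℝ) / 2) + ((K' : ℝ) - v)) := by
          rw [← Real.rpow_add (by norm_num)]
      _ ≤ 8 * (2 : ℝ) ^ (((K' : ℝ) - v) / 2 + ((K' - w₂ - (K' - w₂) / 2 : ℕ) : ℝ)) := by
          have := Real.rpow_le_rpow_of_exponent_le (x := 2) (by norm_num) h7
          linarith
      _ = _ := by
          rw [Real.rpow_add (by norm_num)]
          ring
  have h2 : (1 : ℝ) ≤ (2 : ℝ) ^ (((K' : ℝ) - v) / 2) :=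
    Real.one_le_rpow (by norm_num) (by linarith)
  rw [Real.rpow_add (by norm_num), Real.rpow_natCast]
  have h3 : ((8 : ℝ) + L) ≤ 2 ^ q := by exact_mod_cast hL
  have h4 : (0 : ℝ) ≤ L := Nat.cast_nonneg L
  rw [Nat.cast_add]
  calc _ ≤ 8 * (2 : ℝ) ^ (((K' : ℝ) - v) / 2) + L * (2 : ℝ) ^ (((K' : ℝ) - v) / 2) := by
        refine add_le_add h1 ?_
        calc (L : ℝ) = L * 1 := (mul_one _).symm
          _ ≤ _ := mul_le_mul_of_nonneg_left h2 h4
    _ = (8 + L) * (2 : ℝ) ^ (((K' : ℝ) - v) / 2) := by ring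
    _ ≤ _ := mul_le_mul_of_nonneg_right h3 (by linarith)

/-- the count against the composite window with the same cell -/
theorem B_same {v q : ℕ} (hv : v ≤ K') (hq : 132 ≤ 2 ^ q) :
    ((132 * 2 ^ ((K' - v) / 2) : ℕ) : ℝ) ≤ (2 : ℝ) ^ ((q : ℝ) + ((K' : ℝ) - v) / 2) := by
  rw [Real.rpow_add (by norm_num), Real.rpow_natCast]
  push_cast
  have h1 : (132 : ℝ) ≤ 2 ^ q := by exact_mod_cast hq
  have h2 : (2 : ℝ) ^ ((K' - v) / 2 : ℕ) ≤ (2 : ℝ) ^ (((K' : ℝ) - v) / 2) := by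
    rw [← Real.rpow_natCast]
    apply Real.rpow_le_rpow_of_exponent_le (by norm_num)
    have := natdiv_le (K' - v) 2
    rw [Nat.cast_sub hv] at this
    exact_mod_cast this
  exact mul_le_mul h1 h2 (by positivity) (by positivity)

/-- **An `RTh` zone of `K` inside the window of `K'`.** -/
theorem far_win (hc : 20 ≤ c) {w hcw ew : ℕ → ℕ} {ok : ℕ → ℕ → Prop} {K1 : ℕ} {L : ℕ → ℕ}
    {M : ℕ → ℕ → ℕ} (H : TKGood w hcw ew (Rs (mk (CC c) TK)) ok K1 L M TK) (hK1 : K1 ≤ K')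
    (hg : K' + gth c K ≤ K) {e b l : ℕ} (he : 20 ≤ e) (hl : CC c ^ e ≤ l) (hd : CC c ^ e ∣ l)
    (hok : ok e l) (hb : w K' ≤ b) (hv : b + l ≤ K')
    (hsame : b = w K' → 0 < hcw K' → l = hcw K' ∧ e = ew K')
    (habove : w K' < b → w K' + hcw K' ≤ b) (hL : 132 + L K' ≤ 2 ^ (gth c K / 4))
    {r0 r0' : Reg} (h0 : ¬ isPT r0) (h0' : ¬ isPT r0') :
    FarOK (mk (CC c) TK) c K K' r0 (.RTh e b (b + l)) r0' (wreg w hcw ew K') := by
  have hC := CC_ge hc
  have hR : RC.RBase (mk (CC c) TK) e := mk_RBase hC (CC_even hc) he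
  have hWe : (mk (CC c) TK).W e = CC c ^ e := rfl
  have hRs := card_Rs_le hR hl
  have hvK : b + l ≤ K := by omega
  have hTK : (mk (CC c) TK).TK = TK := rfl
  have hrand : w K' + hcw K' ≤ b → FarOK (mk (CC c) TK) c K K' r0 (.RTh e b (b + l)) r0'
      (wreg w hcw ew K') := by
    intro hb2
    refine farOK_win (v := b + l) hg rfl wreg_top hv
      (B_random (R := (Rs (mk (CC c) TK) e l).card) (L := L K') (v := b + l) (l := l)
        (w₂ := w K' + hcw K') (q := gth c K / 4) hRs (by omega) hv (by omega)) ?_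
    intro n Z Z' hZ hZ'
    obtain ⟨a, κ, ha, rfl⟩ := zone_notPT h0 hZ
    obtain ⟨a', κ', ha', rfl⟩ := zone_notPT h0' hZ'
    unfold wreg
    split_ifs with hh
    · exact win_plain H hTK hK1 hok hh (by omega) hv hvK
    · exact win_comp H hTK hK1 hok hb2 hv hvK
  rcases Nat.eq_or_lt_of_le hb with h1 | h1
  · rcases Nat.eq_zero_or_pos (hcw K') with h2 | h2
    · exact hrand (by omega)
    · -- the same cell
      obtain ⟨h3, h4⟩ := hsame h1.symm h2
      have hcard := H.card K' hK1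
      have e1 : w K' + hcw K' = b + l := by omega
      rw [e1] at hcard
      refine farOK_win (v := b + l) hg rfl wreg_top hv
        (B_same (v := b + l) (q := gth c K / 4) hv (by omega)) ?_
      intro n Z Z' hZ hZ'
      obtain ⟨a, κ, ha, rfl⟩ := zone_notPT h0 hZ
      obtain ⟨a', κ', ha', rfl⟩ := zone_notPT h0' hZ'
      have hwr : wreg w hcw ew K' = .winC e b l K' := by
        unfold wreg
        rw [if_neg (by omega), ← h3, ← h4, h1]
      rw [hwr]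
      have hPB := (mk_NearCodes (TK := TK) hc).ThTh e b (b + l) he (by rw [hWe]; omega)
        (by rw [hWe, Nat.add_sub_cancel_left]; exact hd)
      have := win_same (n := n) (a := a) (κ := κ) (a' := a') (κ' := κ') hv hvK hPB
      rw [hTK, hcard] at this
      exact this
  · exact hrand (habove h1)

/-- arithmetic of the next theorem -/
theorem l_arith {C e g c : ℕ} (hCn : 1048576 ≤ C) (he : 20 ≤ e) (hcC : c ≤ C)
    (hcube : 64 * (e + 1) ^ 3 ≤ C ^ (e - 18))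
    (h1 : C ^ (e - 3) ≤ 2 ^ 14 * (3 * e + 10) * g) : c * (e + 11) ≤ g / 4 := by
  have h2 : 4 * (c * (e + 11)) ≤ g := by
    have hpos : 0 < 2 ^ 14 * (3 * e + 10) := by positivity
    refine Nat.le_of_mul_le_mul_left ?_ hpos
    refine le_trans ?_ h1
    have h3 : C ^ (e - 3) = C ^ 15 * C ^ (e - 18) := by
      rw [← pow_add]
      congr 1
      omega
    rw [h3]
    calc 2 ^ 14 * (3 * e + 10) * (4 * (c * (e + 11)))
        ≤ 2 ^ 14 * (4 * (e + 1)) * (4 * (C * (11 * (e + 1)))) := by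
          apply Nat.mul_le_mul
          · apply Nat.mul_le_mul_left
            omega
          · apply Nat.mul_le_mul_left
            apply Nat.mul_le_mul hcC
            omega
      _ = (2 ^ 14 * 176) * C * (e + 1) ^ 2 := by ring
      _ ≤ (C * C) * C * (e + 1) ^ 2 := by
          apply Nat.mul_le_mul_right
          apply Nat.mul_le_mul_right
          calc 2 ^ 14 * 176 ≤ 1048576 * 1048576 := by norm_num
            _ ≤ C * C := Nat.mul_le_mul hCn hCn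
      _ = C ^ 3 * (e + 1) ^ 2 := by ring
      _ ≤ C ^ 15 * C ^ (e - 18) := by
          apply Nat.mul_le_mul
          · exact Nat.pow_le_pow_right (by omega) (by norm_num)
          · refine le_trans ?_ hcube
            have : (e + 1) ^ 2 ≤ (e + 1) ^ 3 := Nat.pow_le_pow_right (by omega) (by norm_num)
            omega
  rw [Nat.le_div_iff_mul_le (by norm_num)]
  omega

theorem l_arith2 {C e c L : ℕ} (hCn : 1048576 ≤ C) (hC : C = 2 ^ c)
    (hL : L ≤ C ^ 10 * C ^ e) : 132 + L ≤ 2 ^ (c * (e + 11)) := by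
  have h4 : 2 ^ (c * (e + 11)) = C * (C ^ 10 * C ^ e) := by
    rw [pow_mul, ← hC, ← pow_add, ← pow_succ']
    congr 1
    ring
  rw [h4]
  have h5 : 0 < C ^ 10 * C ^ e := by positivity
  have h7 : 1048576 * (C ^ 10 * C ^ e) ≤ C * (C ^ 10 * C ^ e) := Nat.mul_le_mul_right _ hCn
  omega

/-- The condition on `L`. -/
theorem L_le (hc : 20 ≤ c) {L : ℕ} (hK' : CC c ^ 64 ≤ K') (hKK : K' ≤ K)
    (hL : L ≤ CC c ^ 10 * CC c ^ ep c K') : 132 + L ≤ 2 ^ (gth c K / 4) := by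
  have hC := CC_ge hc
  have he : 20 ≤ ep c K' := by
    apply e1_le (t := K') (e1 := 20) hK' ?_ (by omega)
    exact Nat.le_mul_of_pos_left _ (Nat.pow_pos (Helper82.ETN.CC_pos c))
  have h1 := pow_le_gth (K := K) (show 1 ≤ c by omega) hKK (by omega)
  have hcube := cube_le hC he
  have hCn : 1048576 ≤ CC c := le_trans (by norm_num) hC
  have hcC : c ≤ CC c := by
    unfold CC
    exact (Nat.lt_two_pow_self).le
  exact (l_arith2 hCn rfl hL).trans
    (Nat.pow_le_pow_right (by norm_num) (l_arith hCn he hcC hcube h1))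

end Pool.Agent.Helper83.ET
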