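import Pool.Agent.Helper83.ET.X2F
import Pool.Agent.Helper83.ET.WinFar2
import Pool.Agent.Helper29.ETK.Win
import Pool.Agent.Helper29.ETK.State

/-!
# Far pairs: newborn cells of `K` in the window of `K'`, for the schedule
-/

namespace Pool.Agent.Helper83.ET

open Finset Pool.Agent.ETS Pool.Agent.ETS.TKS Pool.Agent.Helper5.ETP
open Pool.Agent.Helper29.ETK (Kid kid wb ep Wd CC lg Hb nb jn gth epo wcomp un va lev gl)
open Pool.Agent.ETP (isPT phiV)

variable {c K K' : ℕ} {TK : ℕ → Finset ℕ}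

/-- length of the composite part of the window -/
def hcF (c K : ℕ) : ℕ := if wcomp c K then nb c (wb c K) else 0

/-- index of the block width of the window -/
def ewF (c K : ℕ) : ℕ := ep c (wb c K)

theorem nb_pos' (c s : ℕ) : 0 < nb c s := Helper29.ETK.nb_pos c s

theorem winReg_eq (K : ℕ) : winReg c K = wreg (wb c) (hcF c) (ewF c) K := by
  unfold winReg wreg hcF ewF
  by_cases h : wcomp c K
  · rw [if_pos h, if_pos h, if_neg (Nat.pos_iff_ne_zero.mp (nb_pos' c _))]
  · rw [if_neg h, if_neg h, if_pos rfl]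

/-- the anchor of an `RTh` region -/
theorem pow_dvd_of_RTh {t s v : ℕ} (h : kid c t s = .RTh v) :
    CC c ^ lev c t (un c s) ∣ v := by
  unfold kid Helper29.ETK.kidP Helper29.ETK.kidR at h
  split_ifs at h
  injection h with h
  rw [← h]
  unfold va gl
  exact dvd_add (Dvd.intro _ rfl) (dvd_refl _)

theorem nb_dvd_newborn {t b : ℕ} (hb : 12 ≤ lg c b) (hd : Wd c b ∣ b)
    (h : kid c t b = .RTh (b + nb c b)) : nb c b ∣ b := by
  have hun : un c b = b := by
    unfold un
    exact Nat.mul_div_cancel' hd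
  have h1 := pow_dvd_of_RTh h
  rw [hun] at h1
  have h2 : nb c b ∣ b + nb c b := by
    refine dvd_trans ?_ h1
    unfold nb
    exact pow_dvd_pow _ (Helper29.ETK.jn_le_lev t b hb)
  exact (Nat.dvd_add_left (dvd_refl _)).mp h2

/-- **The field `WIN` of `FarCases`.** -/
theorem WIN_mk (hc : 20 ≤ c) {K1 : ℕ} {L : ℕ → ℕ} {M : ℕ → ℕ → ℕ}
    (H : TKGood (wb c) (hcF c) (ewF c) (Rs (mk (CC c) TK))
      (fun e l => 20 ≤ e ∧ CC c ^ e ≤ l ∧ CC c ^ e ∣ l) K1 L M TK) (hK1 : K1 ≤ K')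
    (hK64 : CC c ^ 64 ≤ K') (hg : K' + gth c K ≤ K) (HS : KidSize c K) (hwK : wb c K ≤ K)
    (hL : L K' ≤ CC c ^ 10 * CC c ^ ep c K') :
    ∀ b v r0 r1 r0', IsDesc c K (.RTh b v) r0 r1 → ¬ isPT r0' → wb c K' ≤ b →
      v = b + nb c b → v ≤ K' → FarOK (mk (CC c) TK) c K K' r0 r1 r0' (winReg c K') := by
  intro b v r0 r1 r0' hd h0' hb hv hvK
  have hKK : K' ≤ K := by omega
  have hC2 : 2 ≤ CC c := le_trans (by norm_num) (CC_ge hc)
  rcases desc_R (TK := TK) hc (hK64.trans hKK) HS hd trivial hwK with ⟨b', v', he⟩ | ⟨b', v', B⟩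
  · cases he
  have hbb : b' = b := B.lo.symm
  subst hbb
  obtain ⟨rfl, h0, h1, h2, h3, h4⟩ := hd
  have hlgb : 60 ≤ lg c b' := by
    have := B.e20
    unfold ep at this
    omega
  have hnbd : nb c b' ∣ b' := by
    apply nb_dvd_newborn (t := K) (by omega) B.dvd
    rw [h3 b' le_rfl h1, hv]
  have hepo : 6 ≤ epo c K' := by
    have h5 : 64 ≤ lg c K' := by
      unfold lg
      exact (Nat.le_log_iff_pow_le (by omega) (by
        have : 0 < CC c ^ 64 := by positivity
        omega)).mpr hK64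
    unfold epo
    omega
  have hwd : nb c (wb c K') ∣ wb c K' := Helper29.ETK.nb_dvd_wb (by omega) hepo
  have hjn : ep c b' + 7 ≤ jn c b' := Helper29.ETK.ep_lt_jn c b'
  have hl1 : CC c ^ ep c b' ∣ nb c b' := by
    unfold nb
    exact pow_dvd_pow _ (by omega)
  have hl2 : CC c ^ ep c b' ≤ nb c b' := Nat.le_of_dvd (nb_pos' c b') hl1
  rw [winReg_eq]
  subst hv
  refine far_win hc H hK1 hg B.e20 hl2 hl1 ⟨B.e20, hl2, hl1⟩ hb hvK ?_ ?_
    (L_le hc hK64 hKK hL) h0 h0'
  · intro h5 h6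
    have h7 : wcomp c K' := by
      by_contra h7
      unfold hcF at h6
      rw [if_neg h7] at h6
      exact lt_irrefl _ h6
    refine ⟨?_, ?_⟩
    · unfold hcF
      rw [if_pos h7, h5]
    · unfold ewF
      rw [h5]
  · intro h5
    have h6 : hcF c K' ≤ nb c (wb c K') := by
      unfold hcF
      split_ifs
      · exact le_rfl
      · exact Nat.zero_le _
    have h7 := add_le_of_dvd h5 hwd
      ((Helper29.ETK.nb_dvd_of_le (by omega) (by omega)).trans hnbd)
    omega

end Pool.Agent.Helper83.ET
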