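import Pool.Agent.Helper83.ET.X2

/-!
# Far pairs: an `R` zone of `K` against a `P` zone of `K'`, final form
-/

namespace Pool.Agent.Helper83.ET

open Finset Pool.Agent.ETS Pool.Agent.Helper5.ETP Pool.Agent.Helper41.ETPP
open Pool.Agent.Helper29.ETK (Kid kid wb ep Wd av CC lg Hb gth epo kk Gq)
open Pool.Agent.ETP (isPT phiV)

variable {c K K' : ℕ} {TK : ℕ → Finset ℕ}

theorem sumB_of {W r : ℕ} {A A' : Finset ℕ} (h : RC.Mult W r A A') : SumB W A A' r := by
  intro s
  refine le_trans (Finset.card_le_card ?_) (h (s % 2 ^ W))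
  intro t ht
  rw [mem_filter] at ht ⊢
  exact ht

/-! ### numbers -/

/-- the trivial count, both tops below `K'`, the top at `K` is the larger one -/
theorem farOK_triv {C : Codes} {r0 r1 r0' r1' : Reg} {b v v' : ℕ} (hc : 20 ≤ c)
    (hg : K' + gth c K ≤ K) (hv : r1.top C = v) (hv' : r1'.top C = v') (h1 : v' ≤ v)
    (h2 : v ≤ K') (hbv : b ≤ v)
    (hx : (10 * CC c + 5) * (v' - b) ≤ 10 * CC c * (K - K'))
    (hN : ∀ n Z Z', ZoneOf C r0 r1 Z → ZoneOf C r0' r1' Z' →
      (zcons K K' n Z Z').card ≤ 2 ^ ((v - b) / 2)) : FarOK C c K K' r0 r1 r0' r1' := by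
  have hC := CC_ge hc
  have hKK : K' ≤ K := by omega
  refine ⟨1 * 2 ^ ((v - b) / 2), fun n Z Z' hZ hZ' => by
    rw [one_mul]; exact hN n Z Z' hZ hZ', ?_⟩
  rw [hv, hv']
  refine num_triv (C := CC c) (x := v' - b) (le_trans (by norm_num) hC) hg Nat.one_le_two_pow hx
    ?_ (phiV_eq_of_le hKK h2 (h1.trans h2))
  have e1 : (((v - b) / 2 : ℕ) : ℝ) ≤ ((v : ℝ) - b) / 2 := by
    have := natdiv_le (v - b) 2
    push_cast [Nat.cast_sub hbv] at this
    exact this
  have e2 : ((v' : ℝ) - b) ≤ ((v' - b : ℕ) : ℝ) := by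
    have : (v' : ℝ) ≤ ((v' - b : ℕ) : ℝ) + b := by
      have : v' ≤ (v' - b) + b := by omega
      exact_mod_cast this
    linarith
  have e3 : |(v : ℝ) - v'| = v - v' := by
    apply abs_of_nonneg
    have : (v' : ℝ) ≤ v := by exact_mod_cast h1
    linarith
  rw [e3]
  linarith

/-- the count with a block -/
theorem farOK_main {C : Codes} {r0 r1 r0' r1' : Reg} {i v v' M : ℕ} (hc : 20 ≤ c)
    (hg : K' + gth c K ≤ K) (hv : r1.top C = v) (hv' : r1'.top C = v') (h1 : v' ≤ v)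
    (h2 : v ≤ K') (hiv : i ≤ v) (hM : M ≤ 2 ^ (gth c K / (4 * CC c)))
    (hx : (10 * CC c + 9) * (v' - i) ≤ 10 * CC c * (K - K'))
    (hN : ∀ n Z Z', ZoneOf C r0 r1 Z → ZoneOf C r0' r1' Z' →
      (zcons K K' n Z Z').card ≤ M * 2 ^ ((v - i) / 2)) : FarOK C c K K' r0 r1 r0' r1' := by
  have hC := CC_ge hc
  have hKK : K' ≤ K := by omega
  refine ⟨M * 2 ^ ((v - i) / 2), hN, ?_⟩
  rw [hv, hv']
  refine num_main (C := CC c) (x := v' - i) (le_trans (by norm_num) hC) hg hM hx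
    ?_ (phiV_eq_of_le hKK h2 (h1.trans h2))
  have e1 : (((v - i) / 2 : ℕ) : ℝ) ≤ ((v : ℝ) - i) / 2 := by
    have := natdiv_le (v - i) 2
    push_cast [Nat.cast_sub hiv] at this
    exact this
  have e2 : ((v' : ℝ) - i) ≤ ((v' - i : ℕ) : ℝ) := by
    have : (v' : ℝ) ≤ ((v' - i : ℕ) : ℝ) + i := by
      have : v' ≤ (v' - i) + i := by omega
      exact_mod_cast this
    linarith
  have e3 : |(v : ℝ) - v'| = v - v' := by
    apply abs_of_nonneg
    have : (v' : ℝ) ≤ v := by exact_mod_cast h1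
    linarith
  rw [e3]
  linarith

/-! ### the descriptions -/

/-- an `R` zone with a block -/
structure RBlk (C : Codes) (c K : ℕ) (d : Desc) (r0 r1 : Reg) (b v : ℕ) : Prop where
  lo : d.lo = b
  hi : d.hi c = v
  ip : d.Ip c = b + Wd c b
  dvd : Wd c b ∣ b
  le : b + Wd c b ≤ v
  e20 : 20 ≤ ep c b
  leK : b ≤ K
  top : r1.top C = v
  zone : ∀ Z, ZoneOf C r0 r1 Z → RZ C (ep c b) b v Z

theorem desc_R (hc : 20 ≤ c) (hK : CC c ^ 64 ≤ K) (HS : KidSize c K) {d : Desc} {r0 r1 : Reg}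
    (hd : IsDesc c K d r0 r1) (hR : d.IsR) (hwK : wb c K ≤ K) :
    (∃ b v, d = .R b v) ∨ ∃ b v, RBlk (mk (CC c) TK) c K d r0 r1 b v := by
  cases d with
  | P g e => exact absurd hR (by simp [Desc.IsR])
  | PT g b => exact absurd hR (by simp [Desc.IsR])
  | R b v => exact Or.inl ⟨b, v, rfl⟩
  | RS g b v =>
    right
    obtain ⟨rfl, rfl, h1, h2, h3, h4, h5, h6⟩ := hd
    have hW := Wd_pos c b
    obtain ⟨d1, d2, d3, d4⟩ := HS.PT g b g (by omega) (h5 g le_rfl (by omega))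
    exact ⟨b, v, rfl, rfl, rfl, d1, h3, e1_le hK d4 (by omega), by omega, rfl, fun Z hZ => by
      obtain ⟨a, κ, κ₂, ha, rfl⟩ := hZ
      exact RZ.RS _ _ _ _ _ _⟩
  | RT b v =>
    right
    obtain ⟨rfl, h0, h1, h2, h3, h4⟩ := hd
    have hk := h3 b le_rfl h1
    have hb0 : b ≠ 0 := by
      intro hb
      subst hb
      exact (HS.z v).2 hk
    have hcut : KCut c K b := by
      rcases h4 with h4 | h4
      · exact Or.inl h4
      · exact Or.inr (Or.inr (by rw [hk]; exact h4))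
    obtain ⟨d1, d2⟩ := HS.RT v b (by omega) hk hcut
    have hle := Nat.le_of_dvd (by omega) (Nat.dvd_sub d2 d1)
    exact ⟨b, v, rfl, rfl, rfl, d1, by omega,
      e1_le hK (HS.low b (by omega) (by omega) hcut) (by omega), by omega, rfl, fun Z hZ => by
      obtain ⟨a, κ, ha, rfl⟩ := zone_notPT h0 hZ
      exact RZ.RT _ _ _ _ _⟩
  | RTh b v =>
    right
    obtain ⟨rfl, h0, h1, h2, h3, h4⟩ := hd
    have hk := h3 b le_rfl h1
    have hb0 : b ≠ 0 := by
      intro hb
      subst hb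
      exact (HS.z v).1 hk
    have hcut : KCut c K b := by
      rcases h4 with h4 | h4
      · exact Or.inl h4
      · exact Or.inr (Or.inr (by rw [hk]; exact h4))
    obtain ⟨d1, d2⟩ := HS.RTh v b (by omega) hk hcut
    have hle := Nat.le_of_dvd (by omega) (Nat.dvd_sub d2 d1)
    exact ⟨b, v, rfl, rfl, rfl, d1, by omega,
      e1_le hK (HS.low b (by omega) (by omega) hcut) (by omega), by omega, rfl, fun Z hZ => by
      obtain ⟨a, κ, ha, rfl⟩ := zone_notPT h0 hZ
      exact RZ.RTh _ _ _ _ _⟩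

theorem Wd_dvd_Wd {b b' : ℕ} (h : b ≤ b') : Wd c b ∣ Wd c b' := by
  unfold Wd
  exact pow_dvd_pow _ (Helper82.ETN.ep_mono h)

/-- two multiples of `W` -/
theorem add_le_of_dvd {W b e : ℕ} (h : b < e) (hb : W ∣ b) (he : W ∣ e) : b + W ≤ e := by
  obtain ⟨x, rfl⟩ := hb
  obtain ⟨y, rfl⟩ := he
  have h1 : x < y := Nat.lt_of_mul_lt_mul_left h
  calc W * x + W = W * (x + 1) := by ring
    _ ≤ W * y := Nat.mul_le_mul_left _ h1

/-- a zone of `P` type, for the positions `b` of the blocks inside it -/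
structure PDat (c K' : ℕ) (TK : ℕ → Finset ℕ) (d' : Desc) (r0' r1' : Reg) (g v' : ℕ) : Prop where
  lo : d'.lo = g
  hi : d'.hi c = v'
  top : r1'.top (mk (CC c) TK) = v'
  ok : ∀ Z, ZoneOf (mk (CC c) TK) r0' r1' Z → Zone.Ok Z ∧ Z.top = v'
  gv : g < v'
  cross : ∀ b, g ≤ b → b < v' → Wd c b ∣ b → (g = 0 ∨ ep c g = ep c b) ∧
    ((∃ l, (b - g) + Wd c b ≤ l ∧ l ≤ v' - g ∧
      ∀ Z, ZoneOf (mk (CC c) TK) r0' r1' Z → PZone (mk (CC c) TK) (pidx c g) g l v' Z) ∨
    (v' = b + Wd c b ∧ ∀ Z, ZoneOf (mk (CC c) TK) r0' r1' Z → ∃ a κ, a < 2 ^ g ∧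
      Z = zreg (mk (CC c) TK) (.PT (pidx c g) (ep c b) g b) a κ))

theorem desc_P (HS : KidSize c K') {d' : Desc} {r0' r1' : Reg}
    (hd : IsDesc c K' d' r0' r1') (hP : d'.IsP) : ∃ g v', PDat c K' TK d' r0' r1' g v' := by
  cases d' with
  | R b v => exact absurd hP (by simp [Desc.IsP])
  | RS g b v => exact absurd hP (by simp [Desc.IsP])
  | RT b v => exact absurd hP (by simp [Desc.IsP])
  | RTh b v => exact absurd hP (by simp [Desc.IsP])
  | P g e =>
    obtain ⟨rfl, h0, h1, h2, h3, h4⟩ := hd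
    have hcut : KCut c K' e := by
      rcases h4 with h4 | h4
      · exact Or.inr (Or.inl h4)
      · exact Or.inr (Or.inr (by
          rw [h3 (e - 1) (by omega) (by omega)]
          exact fun h => h4 h.symm))
    obtain ⟨d1, d2⟩ := HS.P g g (by omega) (h3 g le_rfl h1) e h1 h2 hcut h3
    refine ⟨g, e, rfl, rfl, rfl, fun Z hZ => ?_, h1, fun b hgb hbe hdb => ⟨?_, ?_⟩⟩
    · have := pzone_P (c := c) (TK := TK) h0 h1.le hZ
      exact ⟨this.ok, this.top⟩
    · exact HS.ep g b (by omega) (Or.inl (h3 b hgb hbe))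
    · left
      have h5 : Wd c b ∣ e := (Wd_dvd_Wd (by omega)).trans d1
      have h6 := add_le_of_dvd hbe hdb h5
      exact ⟨e - g, by omega, le_rfl, fun Z hZ => pzone_P h0 h1.le hZ⟩
  | PT g b' =>
    obtain ⟨rfl, h0, h1, h2, h3, h4, h5⟩ := hd
    have hW := Wd_pos c b'
    obtain ⟨d1, d2, d3, d4⟩ := HS.PT g b' g (by omega) (h4 g le_rfl (by omega))
    refine ⟨g, b' + Wd c b', rfl, rfl, rfl, fun Z hZ => ?_, by omega,
      fun b hgb hbe hdb => ⟨?_, ?_⟩⟩
    · have := pzone_PT (c := c) (TK := TK) h0 h1 hZ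
      exact ⟨this.ok, this.top⟩
    · exact HS.ep g b (by omega) (Or.inr ⟨b', h4 b hgb hbe⟩)
    · rcases lt_trichotomy b b' with h6 | h6 | h6
      · left
        have h7 : Wd c b ∣ b' := (Wd_dvd_Wd h6.le).trans d1
        have h8 := add_le_of_dvd h6 hdb h7
        exact ⟨b' - g, by omega, by omega, fun Z hZ => pzone_PT h0 h1 hZ⟩
      · right
        subst h6
        exact ⟨rfl, fun Z hZ => zone_notPT h0 hZ⟩
      · exfalso
        have h7 : Wd c b' ∣ b := (Wd_dvd_Wd h6.le).trans hdb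
        have h8 := add_le_of_dvd h6 d1 h7
        omega

/-! ### the theorem -/

/-- **X2**: `R` zone at `K`, `P` zone at `K'`, tops `≤ K'`, the top at `K` is not the smaller
one. -/
theorem far_X2 (hc : 20 ≤ c) (hK1 : CC c ^ 64 ≤ K') (hg : K' + gth c K ≤ K) (HS : KidSize c K)
    (HS' : KidSize c K') (hwK : wb c K ≤ K)
    (F2 : ∀ d d', Occ c K d → Occ c K' d' → d.IsR → d'.IsP → d'.hi c ≤ d.hi c →
      (10 * CC c + 9) * (d'.hi c - d.Ip c) ≤ 10 * CC c * (K - K'))
    (F2L : ∀ d d', Occ c K d → Occ c K' d' → d.IsR → d'.IsP → d.lo < d'.lo →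
      d'.hi c ≤ d.hi c → (10 * CC c + 5) * (d'.hi c - d.lo) ≤ 10 * CC c * (K - K'))
    {d d' : Desc} {r0 r1 r0' r1' : Reg} (hd : IsDesc c K d r0 r1) (hd' : IsDesc c K' d' r0' r1')
    (hR : d.IsR) (hP : d'.IsP) (h1 : d'.hi c ≤ d.hi c) (h2 : d.hi c ≤ K') :
    FarOK (mk (CC c) TK) c K K' r0 r1 r0' r1' := by
  have hC := CC_ge hc
  have hKK : K' ≤ K := by omega
  have hK2 : CC c ^ 64 ≤ K := hK1.trans hKK
  have f2 := F2 d d' ⟨r0, r1, hd⟩ ⟨r0', r1', hd'⟩ hR hP h1
  have f2L := F2L d d' ⟨r0, r1, hd⟩ ⟨r0', r1', hd'⟩ hR hP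
  obtain ⟨g, v', D⟩ := desc_P (TK := TK) HS' hd' hP
  have hRB : RC.RBase (mk (CC c) TK) 20 := mk_RBase hC (CC_even hc) le_rfl
  rw [D.hi] at f2 f2L h1
  rw [D.lo] at f2L
  rcases desc_R (TK := TK) hc hK2 HS hd hR hwK with ⟨b, v, rfl⟩ | ⟨b, v, B⟩
  · -- plain
    obtain ⟨rfl, h0, h3, h4, h5, h6⟩ := hd
    change v' ≤ v at h1
    change v ≤ K' at h2
    change (10 * CC c + 9) * (v' - b) ≤ 10 * CC c * (K - K') at f2
    refine farOK_triv (b := b) (v := v) (v' := v') hc hg rfl D.top h1 h2 h3.le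
      (le_trans (Nat.mul_le_mul_right _ (by omega)) f2) ?_
    intro n Z Z' hZ hZ'
    obtain ⟨a, κ, ha, rfl⟩ := zone_notPT h0 hZ
    obtain ⟨ok', top'⟩ := D.ok Z' hZ'
    refine (zcons_le_left ok' ?_ ?_ ?_).trans (zR_card _ hRB)
    · show v ≤ K
      omega
    · rw [top']
      omega
    · rw [top']
      exact h1
  · -- with a block
    rw [B.hi] at h1 h2 f2L
    rw [B.ip] at f2
    rw [B.lo] at f2L
    have hB20 := B.e20
    have hRe : RC.RBase (mk (CC c) TK) (ep c b) := mk_RBase hC (CC_even hc) B.e20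
    have hWe : (mk (CC c) TK).W (ep c b) = Wd c b := rfl
    have hle := B.le
    have htriv : (10 * CC c + 5) * (v' - b) ≤ 10 * CC c * (K - K') →
        FarOK (mk (CC c) TK) c K K' r0 r1 r0' r1' := by
      intro hx
      refine farOK_triv (b := b) (v := v) (v' := v') hc hg B.top D.top h1 h2
        (by omega) hx ?_
      intro n Z Z' hZ hZ'
      obtain ⟨ok', top'⟩ := D.ok Z' hZ'
      have hz := B.zone Z hZ
      refine (zcons_le_left ok' ?_ ?_ ?_).trans (hz.card hRe hle)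
      · rw [hz.top]
        omega
      · rw [top']
        omega
      · rw [top', hz.top]
        exact h1
    rcases le_or_gt v' b with h3 | h3
    · apply htriv
      rw [Nat.sub_eq_zero_of_le h3, mul_zero]
      exact Nat.zero_le _
    rcases lt_or_ge b g with h4 | h4
    · exact htriv (f2L h4 h1)
    obtain ⟨heg, hcase⟩ := D.cross b h4 h3 B.dvd
    rcases le_or_gt (3 * CC c * Wd c b) (K - K') with h5 | h5
    · -- far
      apply htriv
      have hWv : b + Wd c b ≤ v' := by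
        rcases hcase with ⟨l, hl1, hl2, -⟩ | ⟨hl, -⟩ <;> omega
      have h6 := arith_triv (C := CC c) (W := Wd c b) (z := v' - (b + Wd c b)) (D := K - K')
        (le_trans (by norm_num) hC) f2 h5
      have h7 : v' - (b + Wd c b) + Wd c b = v' - b := by omega
      rwa [h7] at h6
    · -- near enough for the block count
      have h6 : v' - (b + Wd c b) ≤ 3 * CC c * Wd c b := by
        have h7 : 10 * CC c * (v' - (b + Wd c b)) ≤ 10 * CC c * (K - K') :=
          (Nat.mul_le_mul_right _ (by omega)).trans f2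
        have h8 := Nat.le_of_mul_le_mul_left h7 (by omega)
        omega
      have hbth := BTh_le hc B.leK B.e20
      rcases hcase with ⟨l, hl1, hl2, hl3⟩ | ⟨hl, hl3⟩
      · -- crossing
        obtain ⟨q1, q2⟩ := QPB_of (TK := TK) hc (b := b) (g := g) (l := l) (q := b - g) B.e20 heg
          (by omega) hl1 (by omega)
        refine farOK_main (i := b + Wd c b) (M := 2 * BTh (CC c) (ep c b)) hc hg B.top D.top h1 h2
          hle (by omega) f2 ?_
        intro n Z Z' hZ hZ'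
        have hz := B.zone Z hZ
        have hz' := hl3 Z' hZ'
        have h9 := hz.cross (n := n) hRe hz' hl1 (show b = g + (b - g) by omega) h1 q1 q2
        rw [hWe] at h9
        refine le_trans ?_ h9
        rw [pmod_swap]
        refine zcons_card_le_pmod ?_ ?_ ?_ ?_
        · rw [hz.top]
          omega
        · rw [hz'.top]
          omega
        · rw [hz.top]
          exact h1
        · rw [hz'.top]
      · -- the same block
        have hLG := locGood hC (CC_even hc) B.e20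
        have hBB := BT_le_BTh hC B.e20
        refine farOK_main (i := b + Wd c b) (M := BT (CC c) (ep c b)) hc hg B.top D.top h1 h2
          hle (by omega) f2 ?_
        intro n Z Z' hZ hZ'
        have hz := B.zone Z hZ
        obtain ⟨a', κ', ha', rfl⟩ := hl3 Z' hZ'
        have h9 := hz.same (n := n) (κ' := κ') hRe (mk_pcode (pidx c g)) h4 hle ha'
          (sumB_of hLG.mTT) (sumB_of hLG.mTTh)
        rw [hWe] at h9
        refine le_trans ?_ h9
        rw [pmod_swap]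
        refine zcons_card_le_pmod ?_ ?_ ?_ ?_
        · rw [hz.top]
          omega
        · show b + Wd c b ≤ K'
          omega
        · rw [hz.top]
          omega
        · exact le_rfl

/-- the field `X2` of `FarCases` -/
theorem X2_mk (hc : 20 ≤ c) (hK1 : CC c ^ 64 ≤ K') (hg : K' + gth c K ≤ K) (HS : KidSize c K)
    (HS' : KidSize c K') (hwK : wb c K ≤ K) (hk : FarKin c K K') :
    ∀ d d' r0 r1 r0' r1', IsDesc c K d r0 r1 → IsDesc c K' d' r0' r1' → d.IsR → d'.IsP →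
      d.hi c ≤ K' → d'.hi c ≤ d.hi c → FarOK (mk (CC c) TK) c K K' r0 r1 r0' r1' :=
  fun _ _ _ _ _ _ hd hd' hR hP h2 h1 => far_X2 hc hK1 hg HS HS' hwK hk.F2 hk.F2L hd hd' hR hP h1 h2

end Pool.Agent.Helper83.ET
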