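import Pool.Agent.Helper83.ET.AllCodes
import Pool.Agent.Helper86.ET.Q11

/-!
# The R side of the near lemma for the codes `mk C TK`
-/

namespace Pool.Agent.Helper83.ET

open Finset Pool.Agent.ETS

variable {C : ℕ} {TK : ℕ → Finset ℕ}

theorem mk_RBase (hC : 2 ^ 20 ≤ C) (h2 : 2 ∣ C) {e : ℕ} (he : 20 ≤ e) :
    RC.RBase (mk C TK) e := (mk_RHyp hC h2 he).toRBase

/-- **helper86's `RNear`.** -/
theorem mk_RNear (hC : 2 ^ 20 ≤ C) (h2 : 2 ∣ C) : RC.RNear (mk C TK) 20 (BT C) where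
  base := fun _ he => mk_RBase hC h2 he
  fT := fun _ he j k hj hk => (locGood hC h2 he).T_Qs j k hj hk
  gT := fun _ he ν hν => (locGood hC h2 he).T_QR ν hν
  mTT := fun _ he => (locGood hC h2 he).mTT
  mTTh := fun _ he => (locGood hC h2 he).mTTh
  mThTh := fun _ he => (locGood hC h2 he).mThTh

end Pool.Agent.Helper83.ET
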