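import Pool.Agent.Helper41.ETV

/-!
# Counting lemmas for the variables `VZ` (with `VZ l = {1}` for `l ≤ 4`)
-/

namespace Pool.Agent.Helper83.ET

open Finset Pool.Agent.Helper41.ETV

theorem VZ_card (l : ℕ) : 2 ^ (l / 2) ≤ 16 * (l + 1) * (VZ l).card := by
  rcases Nat.lt_or_ge l 8 with h | h
  · have h1 := Finset.card_pos.mpr (VZ_nonempty l)
    have h2 : 2 ^ (l / 2) ≤ 2 ^ 3 := Nat.pow_le_pow_right (by norm_num) (by omega)
    have h3 : 16 * 1 * 1 ≤ 16 * (l + 1) * (VZ l).card :=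
      Nat.mul_le_mul (Nat.mul_le_mul_left _ (by omega)) h1
    norm_num at h2 h3
    omega
  · rw [VZ_pos (by omega)]
    exact V_card l h

theorem VZ_cls (l k c : ℕ) :
    ((VZ l).filter (fun z => z % 2 ^ (k + 2) = c)).card ≤ 2 ^ ((l + 1) / 2 - k) + 1 := by
  unfold VZ
  split_ifs with h
  · refine (Finset.card_filter_le _ _).trans ?_
    rw [Finset.card_singleton]
    exact Nat.le_add_left 1 _
  · exact V_cls l k c

/-- Pairs with a short first component. -/
theorem VZ_pairs_left {l : ℕ} (l' : ℕ) (h : l ≤ 4) (p : ℕ → Prop) [DecidablePred p] :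
    ((VZ l ×ˢ VZ l').filter (fun q => p (q.1 * q.2))).card ≤
      ((VZ l').filter (fun z => p z)).card := by
  apply Finset.card_le_card_of_injOn Prod.snd
  · intro q hq
    have hq' := Finset.mem_filter.mp (Finset.mem_coe.mp hq)
    have h2 := Finset.mem_product.mp hq'.1
    have h3 : q.1 = 1 := by
      have := h2.1
      rw [VZ_small h, Finset.mem_singleton] at this
      exact this
    rw [Finset.mem_coe, Finset.mem_filter]
    refine ⟨h2.2, ?_⟩
    have := hq'.2
    rwa [h3, one_mul] at this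
  · intro q hq q' hq' he
    have h2 := (Finset.mem_product.mp (Finset.mem_filter.mp (Finset.mem_coe.mp hq)).1).1
    have h3 := (Finset.mem_product.mp (Finset.mem_filter.mp (Finset.mem_coe.mp hq')).1).1
    rw [VZ_small h, Finset.mem_singleton] at h2 h3
    exact Prod.ext (h2.trans h3.symm) he

theorem VZ_pairs_right {l' : ℕ} (l : ℕ) (h : l' ≤ 4) (p : ℕ → Prop) [DecidablePred p] :
    ((VZ l ×ˢ VZ l').filter (fun q => p (q.1 * q.2))).card ≤
      ((VZ l).filter (fun z => p z)).card := by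
  apply Finset.card_le_card_of_injOn Prod.fst
  · intro q hq
    have hq' := Finset.mem_filter.mp (Finset.mem_coe.mp hq)
    have h2 := Finset.mem_product.mp hq'.1
    have h3 : q.2 = 1 := by
      have := h2.2
      rw [VZ_small h, Finset.mem_singleton] at this
      exact this
    rw [Finset.mem_coe, Finset.mem_filter]
    refine ⟨h2.1, ?_⟩
    have := hq'.2
    rwa [h3, mul_one] at this
  · intro q hq q' hq' he
    have h2 := (Finset.mem_product.mp (Finset.mem_filter.mp (Finset.mem_coe.mp hq)).1).2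
    have h3 := (Finset.mem_product.mp (Finset.mem_filter.mp (Finset.mem_coe.mp hq')).1).2
    rw [VZ_small h, Finset.mem_singleton] at h2 h3
    exact Prod.ext he (h2.trans h3.symm)

theorem VZ_pairs (l l' k c : ℕ) :
    ((VZ l ×ˢ VZ l').filter (fun q => q.1 * q.2 % 2 ^ (k + 2) = c)).card
      ≤ 2 * (2 ^ ((l + l' + 1) / 2 - k) + 1) := by
  rcases Nat.lt_or_ge 4 l with h | h
  swap
  · have h1 := VZ_pairs_left l' h (fun z => z % 2 ^ (k + 2) = c)
    have h2 := VZ_cls l' k c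
    have h3 : 2 ^ ((l' + 1) / 2 - k) ≤ 2 ^ ((l + l' + 1) / 2 - k) :=
      Nat.pow_le_pow_right (by norm_num) (by omega)
    omega
  rcases Nat.lt_or_ge 4 l' with h' | h'
  swap
  · have h1 := VZ_pairs_right l h' (fun z => z % 2 ^ (k + 2) = c)
    have h2 := VZ_cls l k c
    have h3 : 2 ^ ((l + 1) / 2 - k) ≤ 2 ^ ((l + l' + 1) / 2 - k) :=
      Nat.pow_le_pow_right (by norm_num) (by omega)
    omega
  rw [VZ_pos h, VZ_pos h']
  exact V_pairs l l' k c

theorem VZ_pairs_top (l l' k c : ℕ) (hk : l + l' ≤ 2 * k) :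
    ((VZ l ×ˢ VZ l').filter (fun q => q.1 * q.2 % 2 ^ (k + 2) = c)).card ≤ 2 := by
  rcases Nat.lt_or_ge 4 l with h | h
  swap
  · have h1 := VZ_pairs_left l' h (fun z => z % 2 ^ (k + 2) = c)
    have h2 := VZ_cls l' k c
    have h3 : (l' + 1) / 2 - k = 0 := by omega
    rw [h3] at h2
    omega
  rcases Nat.lt_or_ge 4 l' with h' | h'
  swap
  · have h1 := VZ_pairs_right l h' (fun z => z % 2 ^ (k + 2) = c)
    have h2 := VZ_cls l k c
    have h3 : (l + 1) / 2 - k = 0 := by omega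
    rw [h3] at h2
    omega
  rw [VZ_pos h, VZ_pos h']
  exact V_pairs_top l l' k c hk

theorem VZ_mul_lt {l l' z z' : ℕ} (h : z ∈ VZ l) (h' : z' ∈ VZ l') :
    (z * z') * (z * z') < 81 * 2 ^ (l + l') := by
  have h1 := VZ_sq_lt h
  have h2 := VZ_sq_lt h'
  calc (z * z') * (z * z') = (z * z) * (z' * z') := by ring
    _ < (9 * 2 ^ l) * (9 * 2 ^ l') := Nat.mul_lt_mul'' h1 h2
    _ = 81 * 2 ^ (l + l') := by rw [pow_add]; ring

/-- The family `FA` of the moment lemma. -/
theorem VZ_first (l a G : ℕ) (ha : a ≤ l) :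
    ((VZ l).filter (fun z => ∃ z' ∈ VZ a, z * z' % 2 ^ (a + 2) = G)).card ≤
      2 ^ ((l - a) / 2 + 4) := by
  rcases Nat.lt_or_ge 4 l with h | h
  swap
  · refine (Finset.card_filter_le _ _).trans ?_
    rw [VZ_small h, Finset.card_singleton]
    exact Nat.one_le_two_pow
  rcases Nat.lt_or_ge 4 a with h' | h'
  swap
  · refine (Finset.card_filter_le _ _).trans ((VZ_card_le l).trans ?_)
    apply Nat.pow_le_pow_right (by norm_num)
    omega
  rw [VZ_pos h, VZ_pos h']
  exact V_first l a G ha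

/-- Products of two variables of the same length determine the pair. -/
theorem VZ_sidon {l x x' y y' : ℕ} (hx : x ∈ VZ l) (hx' : x' ∈ VZ l) (hy : y ∈ VZ l)
    (hy' : y' ∈ VZ l) (h : x * x' ≡ y * y' [MOD 2 ^ (l + 2)]) :
    (x = y ∧ x' = y') ∨ (x = y' ∧ x' = y) := by
  rcases Nat.lt_or_ge 4 l with h4 | h4
  swap
  · rw [VZ_small h4, Finset.mem_singleton] at hx hx' hy hy'
    left
    exact ⟨hx.trans hy.symm, hx'.trans hy'.symm⟩
  rw [VZ_pos h4] at hx hx' hy hy'
  obtain ⟨p, hp, -, hpl, -, rfl⟩ := mem_V.mp hx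
  obtain ⟨p', hp', -, hpl', -, rfl⟩ := mem_V.mp hx'
  obtain ⟨q, hq, -, hql, -, rfl⟩ := mem_V.mp hy
  obtain ⟨q', hq', -, hql', -, rfl⟩ := mem_V.mp hy'
  have hr := rr_odd l
  have h1 : (rr l * rr l) * (p * p') % 2 ^ (l + 2) = (rr l * rr l) * (q * q') % 2 ^ (l + 2) := by
    have e1 : rr l * p * (rr l * p') = (rr l * rr l) * (p * p') := by ring
    have e2 : rr l * q * (rr l * q') = (rr l * rr l) * (q * q') := by ring
    rw [Nat.ModEq, e1, e2] at h
    exact h
  have h2 := cancel_mod (l + 2) (rr l * rr l) (p * p') (q * q')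
    (by rw [Nat.mul_mod, hr]) h1
  have hlt : ∀ a b : ℕ, a * a < 2 ^ l → b * b < 2 ^ l → a * b < 2 ^ (l + 2) := by
    intro a b ha hb
    have : a * b < 2 ^ l := by
      rcases le_total a b with hab | hab
      · exact lt_of_le_of_lt (Nat.mul_le_mul_right _ hab) hb
      · exact lt_of_le_of_lt (Nat.mul_le_mul_left _ hab) ha
    exact lt_of_lt_of_le this (Nat.pow_le_pow_right (by norm_num) (by omega))
  rw [Nat.mod_eq_of_lt (hlt _ _ hpl hpl'), Nat.mod_eq_of_lt (hlt _ _ hql hql')] at h2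
  rcases prime_pair hp hp' hq hq' h2 with ⟨rfl, rfl⟩ | ⟨rfl, rfl⟩
  · left
    exact ⟨rfl, rfl⟩
  · right
    exact ⟨rfl, rfl⟩

end Pool.Agent.Helper83.ET
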