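import Pool.Agent.Helper83.ET.VarZ
import Pool.Agent.Helper83.ET.PCode
import Pool.Agent.ETS.PCode

/-!
# The packaged codes satisfy the interface `PCode` of the pair bounds
-/

namespace Pool.Agent.Helper83.ET

open Finset

theorem Code.toPCode (c : Code) : Pool.Agent.ETS.PCode c.X c.P where
  odd := by
    intro l x hx
    have := c.X_mod hx
    omega
  res := by
    intro l k l₀ h x hx
    exact c.P_mod h (c.X_mod hx)
  inj := by
    intro l x hx y hy h
    exact c.eq_of_P (c.X_subset l hx) (c.X_subset l hy) (by omega) (le_refl l) (le_refl l) h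
  dec := by
    intro l l' k h h' x hx y hy x' hx' y' hy' hP
    exact c.mul_modEq hx hy hx' hy' h h' (le_refl k) (le_refl k) hP
  sid := by
    intro l x hx x' hx' y hy y' hy' hP
    exact VZ_sidon (c.X_subset l hx) (c.X_subset l hx') (c.X_subset l hy) (c.X_subset l hy')
      (c.mul_modEq hx hy hx' hy' (le_refl l) (le_refl l) (le_refl l) (le_refl l) hP)
  cls := by
    intro l k r
    refine le_trans (Finset.card_le_card ?_) (VZ_cls l k r)
    exact Finset.filter_subset_filter _ (c.X_subset l)
  fst := by
    intro l a ha G
    refine le_trans (Finset.card_le_card ?_) (VZ_first l a G ha)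
    intro x hx
    have h1 := Finset.mem_filter.mp hx
    rw [Finset.mem_filter]
    refine ⟨c.X_subset l h1.1, ?_⟩
    obtain ⟨x', hx', h⟩ := h1.2
    exact ⟨x', c.X_subset a hx', h⟩

end Pool.Agent.Helper83.ET
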