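import Pool.Agent.Helper83.ET.Gap
import Pool.Agent.Helper83.ET.ToPCode

/-!
# The `P` codes, all levels at once (compactness)
-/

namespace Pool.Agent.Helper83.ET

open Finset

/-- Dependence of the code on finitely many twists. -/
theorem P_congr_le {β m f m' f' : ℕ → ℕ} {l N : ℕ} (hl : l ≤ N)
    (hm : ∀ j ≤ N, m j = m' j) (hf : ∀ j ≤ N, f j = f' j) (x : ℕ) :
    P β m f l x = P β m' f' l x := by
  unfold P
  congr 2
  apply Finset.sum_congr rfl
  intro i hi
  rw [Finset.mem_range] at hi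
  congr 1
  exact tau_congr (hm _ (by omega)) (hf _ (by omega)) x

/-- The twists matter modulo `2 ^ (β j)` only. -/
theorem P_mod_twist (β m f : ℕ → ℕ) (l x : ℕ) :
    P β (fun j => m j % 2 ^ (β j)) (fun j => f j % 2 ^ (β j)) l x = P β m f l x := by
  unfold P
  congr 2
  apply Finset.sum_congr rfl
  intro i _
  congr 1
  unfold tau
  congr 1
  unfold T
  have h1 : m (i + 1) % 2 ^ (β (i + 1)) * ind (β (i + 1)) x + f (i + 1) % 2 ^ (β (i + 1)) ≡
      m (i + 1) * ind (β (i + 1)) x + f (i + 1) [MOD 2 ^ (β (i + 1))] :=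
    ((Nat.mod_modEq _ _).mul_right _).add (Nat.mod_modEq _ _)
  exact h1

/-- Compactness: if for every `J` there are twists with the property `Q J`, `Q J` depends on
finitely many contents and is monotone in `J`, then there are twists with all properties. -/
theorem exists_all (β : ℕ → ℕ) (Q : ℕ → (ℕ → ℕ) → (ℕ → ℕ) → Prop)
    (hmono : ∀ J m f, Q (J + 1) m f → Q J m f)
    (hdep : ∀ J, ∃ N, ∀ m f m' f', (∀ j ≤ N, m j = m' j) → (∀ j ≤ N, f j = f' j) →
      Q J m f → Q J m' f')
    (hmod : ∀ J m f, Q J m f → Q J (fun j => m j % 2 ^ (β j)) (fun j => f j % 2 ^ (β j)))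
    (hex : ∀ J, ∃ m f, Q J m f) : ∃ m f, ∀ J, Q J m f := by
  let X := (j : ℕ) → Fin (2 ^ (β j)) × Fin (2 ^ (β j))
  let mm : X → ℕ → ℕ := fun x j => (x j).1
  let ff : X → ℕ → ℕ := fun x j => (x j).2
  let t : ℕ → Set X := fun J => {x | Q J (mm x) (ff x)}
  have hne : (⋂ J, t J).Nonempty := by
    apply IsCompact.nonempty_iInter_of_sequence_nonempty_isCompact_isClosed t
    · intro J x hx
      exact hmono J _ _ hx
    · intro J
      obtain ⟨m, f, hmf⟩ := hex J
      have h := hmod J m f hmf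
      exact ⟨fun j => (⟨m j % 2 ^ (β j), Nat.mod_lt _ (by positivity)⟩,
        ⟨f j % 2 ^ (β j), Nat.mod_lt _ (by positivity)⟩), h⟩
    · apply IsClosed.isCompact
      rw [← isOpen_compl_iff, isOpen_iff_forall_mem_open]
      intro x hx
      obtain ⟨N, hN⟩ := hdep 0
      refine ⟨Set.pi (Finset.range (N + 1) : Finset ℕ) (fun j => {x j}), ?_, ?_, ?_⟩
      · intro y hy hyt
        apply hx
        have hyx : ∀ j ≤ N, y j = x j := by
          intro j hj
          exact hy j (Finset.mem_coe.mpr (Finset.mem_range.mpr (by omega)))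
        exact hN (mm y) (ff y) (mm x) (ff x) (fun j hj => by show ((y j).1 : ℕ) = (x j).1; rw [hyx j hj])
          (fun j hj => by show ((y j).2 : ℕ) = (x j).2; rw [hyx j hj]) hyt
      · exact isOpen_set_pi (Finset.finite_toSet _) (fun j _ => isOpen_discrete _)
      · intro j _
        exact Set.mem_singleton _
    · intro J
      rw [← isOpen_compl_iff, isOpen_iff_forall_mem_open]
      intro x hx
      obtain ⟨N, hN⟩ := hdep J
      refine ⟨Set.pi (Finset.range (N + 1) : Finset ℕ) (fun j => {x j}), ?_, ?_, ?_⟩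
      · intro y hy hyt
        apply hx
        have hyx : ∀ j ≤ N, y j = x j := by
          intro j hj
          exact hy j (Finset.mem_coe.mpr (Finset.mem_range.mpr (by omega)))
        exact hN (mm y) (ff y) (mm x) (ff x) (fun j hj => by show ((y j).1 : ℕ) = (x j).1; rw [hyx j hj])
          (fun j hj => by show ((y j).2 : ℕ) = (x j).2; rw [hyx j hj]) hyt
      · exact isOpen_set_pi (Finset.finite_toSet _) (fun j _ => isOpen_discrete _)
      · intro j _
        exact Set.mem_singleton _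
  obtain ⟨x, hx⟩ := hne
  refine ⟨mm x, ff x, ?_⟩
  intro J
  exact Set.mem_iInter.mp hx J

/-- The moment lemma at level `j`. -/
def Code.ML2 (c : Code) (C j : ℕ) : Prop :=
  ∀ l, 2 * C ^ (j - 1) ≤ l → l ≤ C ^ j → ∀ a ≤ l, ∀ G, ∀ k ≤ l, ∀ t,
    ((FA l a G).filter (fun x => c.P l x / 2 ^ k = t)).card <
      2 ^ (C ^ (j - 2) / 64) * (1 + (FA l a G).card / 2 ^ (l - k)) ∧
    ((FB l a G).filter (fun x => c.P l x / 2 ^ k = t)).card <
      2 ^ (C ^ (j - 2) / 64) * (1 + (FB l a G).card / 2 ^ (l - k))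

/-- **The `P` codes, all levels.** -/
theorem exists_Pcode_all {C e0 : ℕ} (hC : 256 ≤ C) (he0 : 9 ≤ e0) :
    ∃ c : Code, c.β = lvlBeta (C ^ (e0 - 5)) (C ^ 5) C ∧ ∀ j, e0 < j → c.ML2 C j := by
  have hCpos : 0 < C := by omega
  set β := lvlBeta (C ^ (e0 - 5)) (C ^ 5) C with hβ
  have hmono : StrictMono β := by
    apply lvlBeta_strictMono
    · exact Nat.one_le_pow _ _ hCpos
    · exact Nat.one_le_pow _ _ hCpos
    · omega
  let Q : ℕ → (ℕ → ℕ) → (ℕ → ℕ) → Prop := fun J m f =>
    ∀ j, e0 < j → j ≤ e0 + J → (⟨β, m, f, hmono⟩ : Code).ML2 C j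
  obtain ⟨m, f, hmf⟩ := exists_all β Q
    (by
      intro J m f h j hj1 hj2
      exact h j hj1 (by omega))
    (by
      intro J
      refine ⟨C ^ (e0 + J), ?_⟩
      intro m f m' f' hm hf h j hj1 hj2 l hl1 hl2 a ha G k hk t
      have hlN : l ≤ C ^ (e0 + J) := hl2.trans (Nat.pow_le_pow_right hCpos hj2)
      have hP : ∀ x, (⟨β, m, f, hmono⟩ : Code).P l x = (⟨β, m', f', hmono⟩ : Code).P l x :=
        fun x => P_congr_le hlN hm hf x
      have h1 := h j hj1 hj2 l hl1 hl2 a ha G k hk t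
      simp only [hP] at h1
      exact h1)
    (by
      intro J m f h j hj1 hj2 l hl1 hl2 a ha G k hk t
      have hP : ∀ x, (⟨β, fun j => m j % 2 ^ (β j), fun j => f j % 2 ^ (β j), hmono⟩ : Code).P l x =
          (⟨β, m, f, hmono⟩ : Code).P l x := fun x => P_mod_twist β m f l x
      have h1 := h j hj1 hj2 l hl1 hl2 a ha G k hk t
      simp only [hP]
      exact h1)
    (by
      intro J
      obtain ⟨c, hc, hJ⟩ := exists_Pcode hC he0 J
      refine ⟨c.m, c.f, ?_⟩
      intro j hj1 hj2 l hl1 hl2 a ha G k hk t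
      have h1 := hJ j hj1 hj2 l hl1 hl2 a ha G k hk t
      have hP : ∀ x, (⟨β, c.m, c.f, hmono⟩ : Code).P l x = c.P l x := by
        intro x
        show ET.P β c.m c.f l x = ET.P c.β c.m c.f l x
        rw [hc]
      simp only [hP]
      exact h1)
  exact ⟨⟨β, m, f, hmono⟩, rfl, fun j hj => hmf (j - e0) j hj (by omega)⟩

end Pool.Agent.Helper83.ET
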