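import Mathlib

/-!
# Joint distribution of the top digits of several linear phases

Counting lemma: for `t_1, …, t_K` without small relations modulo `M = 4 N q` and arbitrary
`v_1, …, v_K`, at most `(2 / N) ^ K * M ^ 2` pairs `(m, f)` modulo `M` satisfy
`((m t_k + f) mod M) / q = v_k` for all `k`.
-/

namespace Pool.Agent.Helper83.ET

open Finset Complex

/-- The additive character modulo `M`. -/
noncomputable def ee (M : ℕ) (n : ℤ) : ℂ := Complex.exp (2 * Real.pi * Complex.I * n / M)

theorem ee_add (M : ℕ) (a b : ℤ) : ee M (a + b) = ee M a * ee M b := by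
  unfold ee
  rw [← Complex.exp_add]
  congr 1
  push_cast
  ring

theorem ee_zero (M : ℕ) : ee M 0 = 1 := by
  unfold ee
  simp

theorem ee_conj (M : ℕ) (a : ℤ) : (starRingEnd ℂ) (ee M a) = ee M (-a) := by
  unfold ee
  rw [← Complex.exp_conj]
  congr 1
  simp only [map_div₀, map_mul, Complex.conj_I, Complex.conj_ofReal, map_ofNat,
    Complex.conj_natCast, map_intCast]
  push_cast
  ring

theorem norm_ee (M : ℕ) (a : ℤ) : ‖ee M a‖ = 1 := by
  unfold ee
  have : (2 * Real.pi * Complex.I * a / M : ℂ) = ((2 * Real.pi * a / M : ℝ) : ℂ) * Complex.I := by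
    push_cast
    ring
  rw [this, Complex.norm_exp_ofReal_mul_I]

theorem ee_of_dvd (M : ℕ) (hM : 0 < M) (a : ℤ) (h : (M : ℤ) ∣ a) : ee M a = 1 := by
  obtain ⟨c, rfl⟩ := h
  unfold ee
  have hM' : (M : ℂ) ≠ 0 := by exact_mod_cast hM.ne'
  rw [Complex.exp_eq_one_iff]
  refine ⟨c, ?_⟩
  push_cast
  field_simp

theorem ee_eq_one_iff (M : ℕ) (hM : 0 < M) (a : ℤ) : ee M a = 1 ↔ (M : ℤ) ∣ a := by
  refine ⟨?_, ee_of_dvd M hM a⟩
  intro h
  unfold ee at h
  have hM' : (M : ℂ) ≠ 0 := by exact_mod_cast hM.ne'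
  rw [Complex.exp_eq_one_iff] at h
  obtain ⟨n, hn⟩ := h
  refine ⟨n, ?_⟩
  have hpi : (2 * Real.pi * Complex.I : ℂ) ≠ 0 := by
    simp [Real.pi_ne_zero, Complex.I_ne_zero]
  have h1 : (a : ℂ) / M = n := by
    have : (2 * Real.pi * Complex.I : ℂ) * ((a : ℂ) / M) = (2 * Real.pi * Complex.I) * n := by
      rw [← mul_div_assoc, hn]
      ring
    exact mul_left_cancel₀ hpi this
  have h2 : (a : ℂ) = M * n := by
    field_simp at h1
    rw [h1]
  exact_mod_cast h2

theorem ee_congr (M : ℕ) (hM : 0 < M) (a b : ℤ) (h : a ≡ b [ZMOD M]) : ee M a = ee M b := by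
  have hd : (M : ℤ) ∣ a - b := (Int.modEq_iff_dvd.mp h.symm)
  have : a = (a - b) + b := by ring
  rw [this, ee_add, ee_of_dvd M hM _ hd, one_mul]

/-- Orthogonality. -/
theorem sum_ee (M : ℕ) (hM : 0 < M) (a : ℤ) :
    ∑ i ∈ Finset.range M, ee M (a * i) = if (M : ℤ) ∣ a then (M : ℂ) else 0 := by
  split_ifs with h
  · have : ∀ i ∈ Finset.range M, ee M (a * i) = 1 := by
      intro i _
      exact ee_of_dvd M hM _ (Dvd.dvd.mul_right h _)
    rw [Finset.sum_congr rfl this]
    simp
  · have hpow : ∀ i : ℕ, ee M (a * i) = (ee M a) ^ i := by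
      intro i
      induction i with
      | zero => simp [ee_zero]
      | succ i ih =>
        rw [pow_succ, ← ih, ← ee_add]
        congr 1
        push_cast
        ring
    simp_rw [hpow]
    have h1 : ee M a ≠ 1 := fun hc => h ((ee_eq_one_iff M hM a).mp hc)
    rw [geom_sum_eq h1]
    have h2 : (ee M a) ^ M = 1 := by
      rw [← hpow M]
      exact ee_of_dvd M hM _ (Dvd.intro_left a rfl)
    rw [h2]
    simp

/-- The partial geometric sum. -/
noncomputable def SS (M N : ℕ) (u : ℤ) : ℂ := ∑ a ∈ Finset.range N, ee M (a * u)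

/-- Lower bound for the Fejer type kernel near zero. -/
theorem norm_SS_sq_ge (M N q : ℕ) (hM : M = 4 * N * q) (hq : 0 < q) (hN : 0 < N) (u : ℤ)
    (hu0 : 0 ≤ u) (huq : u < q) : (N : ℝ) ^ 2 / 2 ≤ ‖SS M N u‖ ^ 2 := by
  have hMpos : 0 < M := by rw [hM]; positivity
  have hMr : (0 : ℝ) < M := by exact_mod_cast hMpos
  -- rotate by `pi / 4`
  set ρ : ℂ := Complex.exp (-(Real.pi / 4 : ℝ) * Complex.I) with hρ
  have hρn : ‖ρ‖ = 1 := by
    have : (-(Real.pi / 4 : ℝ) * Complex.I : ℂ) = ((-(Real.pi / 4) : ℝ) : ℂ) * Complex.I := by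
      push_cast
      ring
    rw [hρ, this, Complex.norm_exp_ofReal_mul_I]
  have hre : ∀ a ∈ Finset.range N, Real.sqrt 2 / 2 ≤ (ρ * ee M (a * u)).re := by
    intro a ha
    have haN : a < N := Finset.mem_range.mp ha
    have e1 : ρ * ee M (a * u) =
        Complex.exp (((2 * Real.pi * (a * u : ℤ) / M - Real.pi / 4 : ℝ) : ℂ) * Complex.I) := by
      rw [hρ]
      unfold ee
      rw [← Complex.exp_add]
      congr 1
      push_cast
      ring
    rw [e1, Complex.exp_ofReal_mul_I_re, ← Real.cos_pi_div_four]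
    have hang0 : (0 : ℝ) ≤ 2 * Real.pi * (a * u : ℤ) / M := by
      have : (0 : ℝ) ≤ ((a * u : ℤ) : ℝ) := by
        exact_mod_cast mul_nonneg (by positivity) hu0
      positivity
    have hang1 : 2 * Real.pi * (a * u : ℤ) / M ≤ Real.pi / 2 := by
      rw [div_le_iff₀ hMr]
      have hau : ((a * u : ℤ) : ℝ) ≤ N * q := by
        have : (a * u : ℤ) ≤ N * q := by
          have h1 : (a : ℤ) ≤ N := by exact_mod_cast haN.le
          have h2 : u ≤ q := huq.le
          exact mul_le_mul h1 h2 hu0 (by positivity)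
        exact_mod_cast this
      have hMe : (M : ℝ) = 4 * N * q := by rw [hM]; push_cast; ring
      rw [hMe]
      have : 2 * Real.pi * (a * u : ℤ) ≤ 2 * Real.pi * (N * q) :=
        mul_le_mul_of_nonneg_left hau (by positivity)
      calc 2 * Real.pi * ((a * u : ℤ) : ℝ) ≤ 2 * Real.pi * (N * q) := this
        _ = Real.pi / 2 * (4 * N * q) := by ring
    -- cos is at least cos (pi/4) on [-pi/4, pi/4]
    rw [← Real.cos_abs (2 * Real.pi * (a * u : ℤ) / M - Real.pi / 4)]
    apply Real.cos_le_cos_of_nonneg_of_le_pi (abs_nonneg _)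
    · linarith [Real.pi_pos]
    · rw [abs_le]
      constructor <;> linarith
  have hsum : (N : ℝ) * (Real.sqrt 2 / 2) ≤ (ρ * SS M N u).re := by
    unfold SS
    rw [Finset.mul_sum, Complex.re_sum]
    calc (N : ℝ) * (Real.sqrt 2 / 2) = ∑ _a ∈ Finset.range N, (Real.sqrt 2 / 2) := by simp
      _ ≤ _ := Finset.sum_le_sum hre
  have hnorm : (N : ℝ) * (Real.sqrt 2 / 2) ≤ ‖SS M N u‖ := by
    calc (N : ℝ) * (Real.sqrt 2 / 2) ≤ (ρ * SS M N u).re := hsum
      _ ≤ ‖ρ * SS M N u‖ := Complex.re_le_norm _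
      _ = ‖SS M N u‖ := by rw [norm_mul, hρn, one_mul]
  have hpos : 0 ≤ (N : ℝ) * (Real.sqrt 2 / 2) := by positivity
  calc (N : ℝ) ^ 2 / 2 = ((N : ℝ) * (Real.sqrt 2 / 2)) ^ 2 := by
        rw [mul_pow, div_pow, Real.sq_sqrt (by norm_num)]
        ring
    _ ≤ ‖SS M N u‖ ^ 2 := by
        apply pow_le_pow_left₀ hpos hnorm

theorem norm_SS_sq (M N : ℕ) (u : ℤ) : ((‖SS M N u‖ ^ 2 : ℝ) : ℂ) =
    ∑ p ∈ Finset.range N ×ˢ Finset.range N, ee M (((p.1 : ℤ) - p.2) * u) := by
  have h1 : ((‖SS M N u‖ ^ 2 : ℝ) : ℂ) = SS M N u * (starRingEnd ℂ) (SS M N u) := by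
    rw [Complex.mul_conj, Complex.normSq_eq_norm_sq]
  rw [h1]
  unfold SS
  rw [map_sum, Finset.sum_mul_sum, ← Finset.sum_product']
  apply Finset.sum_congr rfl
  intro p _
  rw [ee_conj, ← ee_add]
  congr 1
  ring

/-- The main count of this file. -/
theorem count_phases (M N q K : ℕ) (hM : M = 4 * N * q) (hq : 0 < q) (hN : 0 < N)
    (t : Fin K → ℤ) (v : Fin K → ℤ)
    (hNR : ∀ h : Fin K → ℤ, (∀ k, |h k| < N) → (M : ℤ) ∣ ∑ k, h k →
      (M : ℤ) ∣ ∑ k, h k * t k → h = 0) :
    ((((Finset.range M ×ˢ Finset.range M).filter (fun p : ℕ × ℕ =>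
      ∀ k, (((p.1 : ℤ) * t k + p.2) % M) / q = v k)).card : ℕ) : ℝ) ≤
      (2 / N : ℝ) ^ K * (M : ℝ) ^ 2 := by
  classical
  have hMpos : 0 < M := by rw [hM]; positivity
  have hNr : (0 : ℝ) < N := by exact_mod_cast hN
  -- the majorant
  let G : ℕ × ℕ → ℝ := fun p => ∏ k, ‖SS M N ((p.1 : ℤ) * t k + p.2 - v k * q)‖ ^ 2
  have hGnn : ∀ p, 0 ≤ G p := fun p => Finset.prod_nonneg (fun k _ => by positivity)
  -- lower bound
  have hlow : ∀ p ∈ (Finset.range M ×ˢ Finset.range M).filter (fun p : ℕ × ℕ =>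
      ∀ k, (((p.1 : ℤ) * t k + p.2) % M) / q = v k), ((N : ℝ) ^ 2 / 2) ^ K ≤ G p := by
    intro p hp
    have hp2 := (Finset.mem_filter.mp hp).2
    have : ((N : ℝ) ^ 2 / 2) ^ K = ∏ _k : Fin K, ((N : ℝ) ^ 2 / 2) := by
      rw [Finset.prod_const, Finset.card_univ, Fintype.card_fin]
    rw [this]
    apply Finset.prod_le_prod
    · intro k _
      positivity
    · intro k _
      set z := ((p.1 : ℤ) * t k + p.2) with hz
      have hdiv := hp2 k
      rw [← hz] at hdiv
      have hu := Int.emod_add_mul_ediv (z % M) q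
      rw [hdiv] at hu
      -- `z % M - v k * q` lies in `[0, q)`
      have hb0 : 0 ≤ (z % M) % q := Int.emod_nonneg _ (by exact_mod_cast hq.ne')
      have hb1 : (z % M) % q < q := Int.emod_lt_of_pos _ (by exact_mod_cast hq)
      have heq : z % M - v k * q = (z % M) % q := by linarith [mul_comm (q : ℤ) (v k)]
      have hSS : SS M N (z - v k * q) = SS M N (z % M - v k * q) := by
        unfold SS
        apply Finset.sum_congr rfl
        intro a _
        apply ee_congr M hMpos
        apply Int.ModEq.mul_left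
        apply Int.ModEq.sub_right
        exact (Int.mod_modEq z M).symm
      rw [hSS, heq]
      exact norm_SS_sq_ge M N q hM hq hN _ hb0 hb1
  -- the exact value of the sum of the majorant
  have hsum : ∑ p ∈ Finset.range M ×ˢ Finset.range M, G p = (N : ℝ) ^ K * (M : ℝ) ^ 2 := by
    have hC : ((∑ p ∈ Finset.range M ×ˢ Finset.range M, G p : ℝ) : ℂ) =
        (((N : ℝ) ^ K * (M : ℝ) ^ 2 : ℝ) : ℂ) := by
      push_cast
      have h1 : ∀ p : ℕ × ℕ, ((G p : ℝ) : ℂ) =
          ∑ φ ∈ Fintype.piFinset (fun _ : Fin K => Finset.range N ×ˢ Finset.range N),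
            ∏ k, ee M ((((φ k).1 : ℤ) - (φ k).2) * ((p.1 : ℤ) * t k + p.2 - v k * q)) := by
        intro p
        show ((∏ k, ‖SS M N ((p.1 : ℤ) * t k + p.2 - v k * q)‖ ^ 2 : ℝ) : ℂ) = _
        rw [Complex.ofReal_prod]
        simp_rw [norm_SS_sq]
        rw [Finset.prod_univ_sum]
      simp_rw [h1]
      rw [Finset.sum_comm]
      have hprod : ∀ (φ : Fin K → ℕ × ℕ) (p : ℕ × ℕ),
          ∏ k, ee M ((((φ k).1 : ℤ) - (φ k).2) * ((p.1 : ℤ) * t k + p.2 - v k * q)) =
          ee M (-(∑ k, (((φ k).1 : ℤ) - (φ k).2) * (v k * q))) *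
          (ee M ((∑ k, (((φ k).1 : ℤ) - (φ k).2) * t k) * p.1) *
           ee M ((∑ k, (((φ k).1 : ℤ) - (φ k).2)) * p.2)) := by
        intro φ p
        have hprodee : ∀ g : Fin K → ℤ, ∏ k, ee M (g k) = ee M (∑ k, g k) := by
          intro g
          have : ∀ s : Finset (Fin K), ∏ k ∈ s, ee M (g k) = ee M (∑ k ∈ s, g k) := by
            intro s
            induction s using Finset.induction_on with
            | empty => simp [ee_zero]
            | insert a s ha ih => rw [Finset.prod_insert ha, Finset.sum_insert ha, ee_add, ih]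
          exact this _
        rw [hprodee, ← ee_add, ← ee_add]
        congr 1
        rw [Finset.sum_mul, Finset.sum_mul, ← Finset.sum_neg_distrib, ← Finset.sum_add_distrib,
          ← Finset.sum_add_distrib]
        apply Finset.sum_congr rfl
        intro k _
        ring
      have hinner : ∀ φ : Fin K → ℕ × ℕ,
          φ ∈ Fintype.piFinset (fun _ : Fin K => Finset.range N ×ˢ Finset.range N) →
          ∑ p ∈ Finset.range M ×ˢ Finset.range M,
            ∏ k, ee M ((((φ k).1 : ℤ) - (φ k).2) * ((p.1 : ℤ) * t k + p.2 - v k * q)) =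
          if (∀ k, (φ k).1 = (φ k).2) then (M : ℂ) ^ 2 else 0 := by
        intro φ hφ
        simp_rw [hprod φ]
        rw [← Finset.mul_sum, Finset.sum_product]
        simp only
        simp_rw [← Finset.mul_sum]
        rw [← Finset.sum_mul, sum_ee M hMpos, sum_ee M hMpos]
        by_cases c3 : ∀ k, (φ k).1 = (φ k).2
        · have hz : ∀ k, (((φ k).1 : ℤ) - (φ k).2) = 0 := fun k => by rw [c3 k]; ring
          simp only [hz, zero_mul, Finset.sum_const_zero, neg_zero, ee_zero, dvd_zero, if_true,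
            one_mul]
          rw [if_pos c3]
          ring
        · rw [if_neg c3]
          by_cases c1 : (M : ℤ) ∣ ∑ k, (((φ k).1 : ℤ) - (φ k).2) * t k
          · by_cases c2 : (M : ℤ) ∣ ∑ k, (((φ k).1 : ℤ) - (φ k).2)
            · exfalso
              apply c3
              have hh := hNR (fun k => ((φ k).1 : ℤ) - (φ k).2) (by
                intro k
                have := Fintype.mem_piFinset.mp hφ k
                rw [Finset.mem_product, Finset.mem_range, Finset.mem_range] at this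
                rw [abs_lt]
                constructor <;> omega) c2 c1
              intro k
              have := congrFun hh k
              simp only [Pi.zero_apply] at this
              omega
            · rw [if_neg c2]
              ring
          · rw [if_neg c1]
            ring
      rw [Finset.sum_congr rfl hinner, ← Finset.sum_filter, Finset.sum_const]
      have hcard : ((Fintype.piFinset (fun _ : Fin K => Finset.range N ×ˢ Finset.range N)).filter
          (fun φ => ∀ k, (φ k).1 = (φ k).2)).card = N ^ K := by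
        have : ((Fintype.piFinset (fun _ : Fin K => Finset.range N ×ˢ Finset.range N)).filter
          (fun φ => ∀ k, (φ k).1 = (φ k).2)) =
          (Fintype.piFinset (fun _ : Fin K => (Finset.range N).image (fun a => (a, a)))) := by
          ext φ
          simp only [Finset.mem_filter, Fintype.mem_piFinset, Finset.mem_product,
            Finset.mem_range, Finset.mem_image]
          constructor
          · rintro ⟨h1, h2⟩ k
            exact ⟨(φ k).1, (h1 k).1, Prod.ext rfl (h2 k)⟩
          · intro h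
            constructor
            · intro k
              obtain ⟨a, ha, hak⟩ := h k
              rw [← hak]
              exact ⟨ha, ha⟩
            · intro k
              obtain ⟨a, ha, hak⟩ := h k
              rw [← hak]
        rw [this, Fintype.card_piFinset]
        simp only [Finset.prod_const, Finset.card_univ, Fintype.card_fin]
        congr 1
        rw [Finset.card_image_of_injective, Finset.card_range]
        intro a b hab
        exact (Prod.ext_iff.mp hab).1
      rw [hcard]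
      push_cast
      ring
    exact_mod_cast hC
  -- conclusion
  set E := (Finset.range M ×ˢ Finset.range M).filter (fun p : ℕ × ℕ =>
      ∀ k, (((p.1 : ℤ) * t k + p.2) % M) / q = v k) with hE
  have h1 : (E.card : ℝ) * ((N : ℝ) ^ 2 / 2) ^ K ≤ (N : ℝ) ^ K * (M : ℝ) ^ 2 := by
    rw [← hsum]
    calc (E.card : ℝ) * ((N : ℝ) ^ 2 / 2) ^ K = ∑ _p ∈ E, ((N : ℝ) ^ 2 / 2) ^ K := by
          rw [Finset.sum_const, nsmul_eq_mul]
      _ ≤ ∑ p ∈ E, G p := Finset.sum_le_sum hlow
      _ ≤ ∑ p ∈ Finset.range M ×ˢ Finset.range M, G p :=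
          Finset.sum_le_sum_of_subset_of_nonneg (Finset.filter_subset _ _)
            (fun p _ _ => hGnn p)
  have hpos : (0 : ℝ) < ((N : ℝ) ^ 2 / 2) ^ K := by positivity
  have h2 : (2 / N : ℝ) ^ K * (M : ℝ) ^ 2 * ((N : ℝ) ^ 2 / 2) ^ K = (N : ℝ) ^ K * (M : ℝ) ^ 2 := by
    have : (2 / N : ℝ) ^ K * ((N : ℝ) ^ 2 / 2) ^ K = (N : ℝ) ^ K := by
      rw [← mul_pow]
      congr 1
      field_simp
    calc (2 / N : ℝ) ^ K * (M : ℝ) ^ 2 * ((N : ℝ) ^ 2 / 2) ^ K =
        ((2 / N : ℝ) ^ K * ((N : ℝ) ^ 2 / 2) ^ K) * (M : ℝ) ^ 2 := by ring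
      _ = _ := by rw [this]
  rw [← h2] at h1
  exact le_of_mul_le_mul_right h1 hpos

end Pool.Agent.Helper83.ET
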