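import Pool.Agent.Helper83.ET.Code
import Pool.Agent.Helper83.ET.Fejer

/-!
# Choosing the twists block by block

`NR v b x`: the tuple `x` has no relation modulo `2 ^ b` with coefficients less than
`2 ^ (v - 2)`.
`exists_twist`: for every finite weighted family of tuples with prescribed blocks there are
twist parameters for which the total weight of the satisfied prescriptions is at most the
expected one, `8 / 2 ^ (wd β j)` for every variable and every prescribed block `j`.
-/

namespace Pool.Agent.Helper83.ET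

open Finset

/-- No relation with coefficients less than `2 ^ (v - 2)` modulo `2 ^ b`. -/
def NR (v b : ℕ) {K : ℕ} (x : Fin K → ℕ) : Prop :=
  ∀ h : Fin K → ℤ, (∀ k, |h k| < ((2 ^ (v - 2) : ℕ) : ℤ)) →
    ((2 ^ b : ℕ) : ℤ) ∣ ∑ k, h k →
    ((2 ^ b : ℕ) : ℤ) ∣ ∑ k, h k * (ind b (x k) : ℤ) → h = 0

theorem NR_mono {v v' b b' K : ℕ} (hv : v' ≤ v) (hb : b ≤ b') {x : Fin K → ℕ}
    (hx : ∀ k, x k % 4 = 1) (h : NR v b x) : NR v' b' x := by
  intro c hc h1 h2
  have hdvd : ((2 ^ b : ℕ) : ℤ) ∣ ((2 ^ b' : ℕ) : ℤ) := by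
    exact_mod_cast pow_dvd_pow 2 hb
  have hcv : ∀ k, |c k| < ((2 ^ (v - 2) : ℕ) : ℤ) := by
    intro k
    refine lt_of_lt_of_le (hc k) ?_
    exact_mod_cast Nat.pow_le_pow_right (by norm_num) (by omega)
  apply h c hcv (hdvd.trans h1)
  have h3 := hdvd.trans h2
  have h4 : ∑ k, c k * (ind b (x k) : ℤ) ≡ ∑ k, c k * (ind b' (x k) : ℤ)
      [ZMOD ((2 ^ b : ℕ) : ℤ)] := by
    have hs : ∀ s : Finset (Fin K), ∑ k ∈ s, c k * (ind b (x k) : ℤ) ≡
        ∑ k ∈ s, c k * (ind b' (x k) : ℤ) [ZMOD ((2 ^ b : ℕ) : ℤ)] := by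
      intro s
      induction s using Finset.induction_on with
      | empty => simp
      | insert a s ha ih =>
        rw [Finset.sum_insert ha, Finset.sum_insert ha]
        refine Int.ModEq.add ?_ ih
        apply Int.ModEq.mul_left
        have := ind_modEq_ind b' b (x a) hb (hx a)
        exact (Int.natCast_modEq_iff.mpr this).symm
    exact hs _
  exact Int.modEq_zero_iff_dvd.mp (h4.trans (Int.modEq_zero_iff_dvd.mpr h3))

/-- The code restricted to the first `j + 1` blocks. -/
theorem P_block {β : ℕ → ℕ} (m f : ℕ → ℕ) (hβ : StrictMono β) (j x : ℕ) :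
    P β m f (β (j + 1)) x =
      (ind (β (j + 1)) x + ∑ i ∈ Finset.range j, 2 ^ (β (i + 1)) * tau β m f (i + 1) x) %
        2 ^ (β (j + 1)) := by
  have hle : j ≤ β (j + 1) := by
    have := hβ.le_apply (x := j + 1)
    omega
  unfold P
  have : (∑ i ∈ Finset.range (β (j + 1)), 2 ^ (β (i + 1)) * tau β m f (i + 1) x) ≡
      (∑ i ∈ Finset.range j, 2 ^ (β (i + 1)) * tau β m f (i + 1) x)
      [MOD 2 ^ (β (j + 1))] := by
    rw [← Finset.sum_range_add_sum_Ico _ hle]
    have h0 : (∑ i ∈ Finset.Ico j (β (j + 1)), 2 ^ (β (i + 1)) * tau β m f (i + 1) x) ≡ 0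
        [MOD 2 ^ (β (j + 1))] := by
      rw [Nat.modEq_zero_iff_dvd]
      apply Finset.dvd_sum
      intro i hi
      rw [Finset.mem_Ico] at hi
      apply Dvd.dvd.mul_right
      apply pow_dvd_pow
      exact hβ.monotone (by omega)
    simpa using h0.add_left
      (∑ i ∈ Finset.range j, 2 ^ (β (i + 1)) * tau β m f (i + 1) x)
  exact this.add_left _

/-- Dependence of the twists on the parameters. -/
theorem tau_congr {β m f m' f' : ℕ → ℕ} {j : ℕ} (hm : m j = m' j) (hf : f j = f' j)
    (x : ℕ) : tau β m f j x = tau β m' f' j x := by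
  unfold tau T
  rw [hm, hf]

/-- The lower part of the code word, before the twist of block `j` is added. -/
noncomputable def low (β m f : ℕ → ℕ) (j x : ℕ) : ℕ :=
  ind (β (j + 1)) x + ∑ i ∈ Finset.range (j - 1), 2 ^ (β (i + 1)) * tau β m f (i + 1) x

theorem P_block' {β : ℕ → ℕ} (m f : ℕ → ℕ) (hβ : StrictMono β) (j x : ℕ) (hj : 1 ≤ j) :
    P β m f (β (j + 1)) x = (low β m f j x + 2 ^ (β j) * tau β m f j x) %
      2 ^ (β (j + 1)) := by
  rw [P_block m f hβ]
  unfold low
  obtain ⟨j', rfl⟩ : ∃ j', j = j' + 1 := ⟨j - 1, by omega⟩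
  rw [Finset.sum_range_succ]
  simp only [Nat.add_sub_cancel]
  congr 1
  ring

/-- The number of parameters of block `j` for which `K` variables have prescribed blocks. -/
theorem block_count {β : ℕ → ℕ} (hβ : StrictMono β) (m f : ℕ → ℕ) (j : ℕ) (hj : 1 ≤ j)
    (hw : 3 ≤ wd β j) (hwβ : wd β j ≤ β j) {K : ℕ}
    (x : Fin K → ℕ) (hNR : NR (wd β j) (β j) x) (tgt : Fin K → ℕ) :
    ((((Finset.range (2 ^ (β j)) ×ˢ Finset.range (2 ^ (β j))).filter (fun p : ℕ × ℕ =>
      ∀ k, P β (Function.update m j p.1) (Function.update f j p.2) (β (j + 1)) (x k) /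
        2 ^ (β j) = tgt k)).card : ℕ) : ℝ) ≤
      (8 / 2 ^ (wd β j) : ℝ) ^ K * ((2 ^ (β j) : ℕ) : ℝ) ^ 2 := by
  classical
  set w := wd β j with hwdef
  set M := 2 ^ (β j) with hM
  set q := 2 ^ (β j - w) with hq
  have hβj : β (j + 1) = β j + w := by
    have := hβ (Nat.lt_succ_self j)
    rw [hwdef]
    unfold wd
    have h2 : β j < β (j + 1) := this
    omega
  have hMq : M = 4 * 2 ^ (w - 2) * q := by
    rw [hM, hq, show (4 : ℕ) = 2 ^ 2 by norm_num, ← pow_add, ← pow_add]
    congr 1
    omega
  -- the prescribed value of the twist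
  let R : Fin K → ℕ := fun k => low β m f j (x k)
  let v : Fin K → ℤ := fun k => ((tgt k : ℤ) - (R k / M : ℕ)) % (2 ^ w : ℕ)
  have hcount := count_phases M (2 ^ (w - 2)) q K hMq (by positivity) (by positivity)
    (fun k => (ind (β j) (x k) : ℤ)) v hNR
  have hconst : (2 / ((2 ^ (w - 2) : ℕ) : ℝ)) = (8 / 2 ^ w : ℝ) := by
    have : (2 : ℝ) ^ w = 2 ^ (w - 2) * 4 := by
      rw [show (4 : ℝ) = 2 ^ 2 by norm_num, ← pow_add]
      congr 1
      omega
    rw [this]
    push_cast
    field_simp
    norm_num
  rw [hconst] at hcount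
  refine le_trans ?_ hcount
  have : ((Finset.range M ×ˢ Finset.range M).filter (fun p : ℕ × ℕ =>
      ∀ k, P β (Function.update m j p.1) (Function.update f j p.2) (β (j + 1)) (x k) /
        M = tgt k)) ⊆ ((Finset.range M ×ˢ Finset.range M).filter (fun p : ℕ × ℕ =>
      ∀ k, (((p.1 : ℤ) * (ind (β j) (x k) : ℤ) + p.2) % M) / q = v k)) := by
    intro p hp
    rw [Finset.mem_filter] at hp ⊢
    refine ⟨hp.1, ?_⟩
    intro k
    have hpk := hp.2 k
    rw [P_block' _ _ hβ j (x k) hj] at hpk
    have hlow : low β (Function.update m j p.1) (Function.update f j p.2) j (x k) = R k := by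
      show _ = low β m f j (x k)
      unfold low
      congr 1
      apply Finset.sum_congr rfl
      intro i hi
      rw [Finset.mem_range] at hi
      congr 1
      apply tau_congr
      · rw [Function.update_of_ne (by omega)]
      · rw [Function.update_of_ne (by omega)]
    rw [hlow] at hpk
    set t := tau β (Function.update m j p.1) (Function.update f j p.2) j (x k) with ht
    -- `t` is the quotient of the phase
    have htval : (t : ℤ) = (((p.1 : ℤ) * (ind (β j) (x k) : ℤ) + p.2) % M) / q := by
      rw [ht]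
      unfold tau T
      rw [Function.update_self, Function.update_self]
      push_cast
      rw [hM, hq, hwdef]
      push_cast
      rfl
    rw [← htval]
    have htlt : t < 2 ^ w := by
      rw [ht]
      unfold tau
      have h1 := T_lt (β := β) (m := Function.update m j p.1) (f := Function.update f j p.2)
        j (x k)
      rw [Nat.div_lt_iff_lt_mul (by positivity), ← pow_add]
      have : w + (β j - wd β j) = β j := by
        rw [hwdef]
        omega
      rw [this]
      exact h1
    -- compute the block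
    have hpow : 2 ^ (β (j + 1)) = M * 2 ^ w := by
      rw [hM, ← pow_add, hβj]
    have hblk : (R k + M * t) % (M * 2 ^ w) / M = (R k / M + t) % 2 ^ w := by
      rw [Nat.mod_mul_right_div_self, Nat.add_mul_div_left _ _ (by positivity)]
    rw [hpow, hblk] at hpk
    -- conclude
    show (t : ℤ) = ((tgt k : ℤ) - (R k / M : ℕ)) % (2 ^ w : ℕ)
    have h2 : ((tgt k : ℕ) : ℤ) ≡ ((R k / M + t : ℕ) : ℤ) [ZMOD ((2 ^ w : ℕ) : ℤ)] := by
      rw [← hpk]
      exact Int.natCast_modEq_iff.mpr (Nat.mod_modEq _ _)
    have h3 : ((tgt k : ℤ) - (R k / M : ℕ)) ≡ (t : ℤ) [ZMOD ((2 ^ w : ℕ) : ℤ)] := by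
      have := h2.sub_right ((R k / M : ℕ) : ℤ)
      refine this.trans ?_
      push_cast
      rw [show ((R k : ℤ) / (M : ℤ) + (t : ℤ) - (R k : ℤ) / (M : ℤ)) = t by ring]
    have h4 := h3
    unfold Int.ModEq at h4
    rw [h4]
    rw [Int.emod_eq_of_lt (by positivity) (by exact_mod_cast htlt)]
  exact_mod_cast Finset.card_le_card this

/-- A prescription: a tuple of variables, a set of blocks, and the values of these blocks. -/
structure Presc where
  K : ℕ
  x : Fin K → ℕ
  J : Finset ℕ
  tgt : ℕ → Fin K → ℕ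

/-- The prescription is satisfied in all blocks below `n`. -/
def Presc.Sat (β m f : ℕ → ℕ) (n : ℕ) (c : Presc) : Prop :=
  ∀ j ∈ c.J, j < n → ∀ k, P β m f (β (j + 1)) (c.x k) / 2 ^ (β j) = c.tgt j k

/-- The expected proportion: `8 / 2 ^ (wd β j)` for every prescribed block. -/
noncomputable def rho (β : ℕ → ℕ) (J : Finset ℕ) : ℝ := ∏ j ∈ J, (8 / 2 ^ (wd β j) : ℝ)

theorem rho_nonneg (β : ℕ → ℕ) (J : Finset ℕ) : 0 ≤ rho β J :=
  Finset.prod_nonneg (fun _ _ => by positivity)

theorem P_congr {β : ℕ → ℕ} (hβ : StrictMono β) {m f m' f' : ℕ → ℕ} {j : ℕ}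
    (hm : ∀ i ≤ j, m i = m' i) (hf : ∀ i ≤ j, f i = f' i) (x : ℕ) :
    P β m f (β (j + 1)) x = P β m' f' (β (j + 1)) x := by
  rw [P_block m f hβ, P_block m' f' hβ]
  congr 2
  apply Finset.sum_congr rfl
  intro i hi
  rw [Finset.mem_range] at hi
  congr 1
  exact tau_congr (hm _ (by omega)) (hf _ (by omega)) x

open Classical in
/-- Derandomised choice of the twists.  The blocks that do not occur in any prescription are
not twisted. -/
theorem exists_twist {β : ℕ → ℕ} (hβ : StrictMono β) {ι : Type*} (I : Finset ι)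
    (c : ι → Presc)
    (hJ : ∀ i ∈ I, ∀ j ∈ (c i).J, 1 ≤ j ∧ 3 ≤ wd β j ∧ wd β j ≤ β j ∧
      NR (wd β j) (β j) (c i).x) (n : ℕ) :
    ∀ W : ι → ℝ, (∀ i ∈ I, 0 ≤ W i) → ∃ m f : ℕ → ℕ,
      (∀ j, (n ≤ j ∨ ∀ i ∈ I, j ∉ (c i).J) → m j = 0 ∧ f j = 0) ∧
      ∑ i ∈ I.filter (fun i => (c i).Sat β m f n), W i ≤
        ∑ i ∈ I, W i * rho β ((c i).J.filter (· < n)) ^ (c i).K := by
  induction n with
  | zero =>
    intro W hW
    refine ⟨fun _ => 0, fun _ => 0, fun j _ => ⟨rfl, rfl⟩, ?_⟩
    have h1 : ∀ i ∈ I, W i * rho β ((c i).J.filter (· < 0)) ^ (c i).K = W i := by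
      intro i _
      simp [rho]
    rw [Finset.sum_congr rfl h1]
    exact Finset.sum_le_sum_of_subset_of_nonneg (Finset.filter_subset _ _)
      (fun i hi _ => hW i hi)
  | succ n ih =>
    intro W hW
    set ρ : ℝ := 8 / 2 ^ (wd β n) with hρ
    have hρ0 : 0 ≤ ρ := by rw [hρ]; positivity
    -- the weights of the previous step
    let W' : ι → ℝ := fun i => W i * (if n ∈ (c i).J then ρ ^ (c i).K else 1)
    have hW' : ∀ i ∈ I, 0 ≤ W' i := by
      intro i hi
      apply mul_nonneg (hW i hi)
      split_ifs <;> positivity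
    obtain ⟨m, f, hz, hmf⟩ := ih W' hW'
    set M := 2 ^ (β n) with hM
    have hMpos : (0 : ℝ) < M := by exact_mod_cast Nat.pos_of_ne_zero (by positivity)
    -- average over the parameters of block `n`
    let Ω := Finset.range M ×ˢ Finset.range M
    have hΩcard : (Ω.card : ℝ) = (M : ℝ) ^ 2 := by
      show (((Finset.range M ×ˢ Finset.range M).card : ℕ) : ℝ) = _
      rw [Finset.card_product, Finset.card_range]
      push_cast
      ring
    have hΩne : Ω.Nonempty := by
      have : 0 < M := by positivity
      exact ⟨(0, 0), Finset.mem_product.mpr ⟨Finset.mem_range.mpr this, Finset.mem_range.mpr this⟩⟩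
    let F : ℕ × ℕ → ℝ := fun p => ∑ i ∈ I.filter (fun i =>
      (c i).Sat β (Function.update m n p.1) (Function.update f n p.2) (n + 1)), W i
    have hsatn : ∀ (p : ℕ × ℕ) (i : ι),
        (c i).Sat β (Function.update m n p.1) (Function.update f n p.2) (n + 1) →
        (c i).Sat β m f n ∧ (n ∈ (c i).J → ∀ k,
          P β (Function.update m n p.1) (Function.update f n p.2) (β (n + 1)) ((c i).x k) /
            2 ^ (β n) = (c i).tgt n k) := by
      intro p i hs
      constructor
      · intro j hj hjn k
        have := hs j hj (by omega) k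
        rw [← this]
        congr 1
        apply P_congr hβ
        · intro i' hi'
          rw [Function.update_of_ne (by omega)]
        · intro i' hi'
          rw [Function.update_of_ne (by omega)]
      · intro hn k
        exact hs n hn (by omega) k
    have havg : ∑ p ∈ Ω, F p ≤ (M : ℝ) ^ 2 *
        ∑ i ∈ I.filter (fun i => (c i).Sat β m f n), W' i := by
      have h1 : ∀ p ∈ Ω, F p ≤ ∑ i ∈ I.filter (fun i => (c i).Sat β m f n),
          (if (n ∈ (c i).J → ∀ k,
          P β (Function.update m n p.1) (Function.update f n p.2) (β (n + 1)) ((c i).x k) /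
            2 ^ (β n) = (c i).tgt n k) then W i else 0) := by
        intro p _
        rw [← Finset.sum_filter, Finset.filter_filter]
        apply Finset.sum_le_sum_of_subset_of_nonneg
        · intro i hi
          rw [Finset.mem_filter] at hi ⊢
          exact ⟨hi.1, hsatn p i hi.2⟩
        · intro i hi _
          exact hW i (Finset.mem_filter.mp hi).1
      refine (Finset.sum_le_sum h1).trans ?_
      rw [Finset.sum_comm, Finset.mul_sum]
      apply Finset.sum_le_sum
      intro i hi
      have hiI := (Finset.mem_filter.mp hi).1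
      by_cases hn : n ∈ (c i).J
      · obtain ⟨hn1, hn2, hn3, hNR⟩ := hJ i hiI n hn
        have hcnt := block_count hβ m f n hn1 hn2 hn3 (c i).x hNR ((c i).tgt n)
        rw [← Finset.sum_filter, Finset.sum_const, nsmul_eq_mul]
        show _ ≤ (M : ℝ) ^ 2 * (W i * (if n ∈ (c i).J then ρ ^ (c i).K else 1))
        rw [if_pos hn]
        have hset : (Ω.filter (fun p => (n ∈ (c i).J → ∀ k,
          P β (Function.update m n p.1) (Function.update f n p.2) (β (n + 1)) ((c i).x k) /
            2 ^ (β n) = (c i).tgt n k))) = (Ω.filter (fun p => (∀ k,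
          P β (Function.update m n p.1) (Function.update f n p.2) (β (n + 1)) ((c i).x k) /
            2 ^ (β n) = (c i).tgt n k))) := by
          apply Finset.filter_congr
          intro p _
          simp [hn]
        rw [hset]
        calc _ ≤ (ρ ^ (c i).K * (M : ℝ) ^ 2) * W i :=
              mul_le_mul_of_nonneg_right hcnt (hW i hiI)
          _ = _ := by ring
      · show _ ≤ (M : ℝ) ^ 2 * (W i * (if n ∈ (c i).J then ρ ^ (c i).K else 1))
        rw [if_neg hn]
        have : ∀ p ∈ Ω, (if (n ∈ (c i).J → ∀ k,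
          P β (Function.update m n p.1) (Function.update f n p.2) (β (n + 1)) ((c i).x k) /
            2 ^ (β n) = (c i).tgt n k) then W i else 0) = W i := by
          intro p _
          rw [if_pos]
          intro h
          exact absurd h hn
        rw [Finset.sum_congr rfl this, Finset.sum_const, nsmul_eq_mul, hΩcard]
        ring_nf
        exact le_refl _
    -- choose the best parameters
    obtain ⟨p, hp, hple, hpz⟩ : ∃ p ∈ Ω, F p ≤
        ∑ i ∈ I.filter (fun i => (c i).Sat β m f n), W' i ∧
        ((∀ i ∈ I, n ∉ (c i).J) → p = (0, 0)) := by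
      by_cases hall : ∀ i ∈ I, n ∉ (c i).J
      · refine ⟨(0, 0), ?_, ?_, fun _ => rfl⟩
        · have : 0 < M := by positivity
          exact Finset.mem_product.mpr ⟨Finset.mem_range.mpr this, Finset.mem_range.mpr this⟩
        · have e : ∀ i ∈ I, W' i = W i := by
            intro i hi
            show W i * (if n ∈ (c i).J then ρ ^ (c i).K else 1) = W i
            rw [if_neg (hall i hi), mul_one]
          have e2 : ∑ i ∈ I.filter (fun i => (c i).Sat β m f n), W' i =
              ∑ i ∈ I.filter (fun i => (c i).Sat β m f n), W i :=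
            Finset.sum_congr rfl (fun i hi => e i (Finset.mem_filter.mp hi).1)
          rw [e2]
          apply Finset.sum_le_sum_of_subset_of_nonneg
          · intro i hi
            rw [Finset.mem_filter] at hi ⊢
            exact ⟨hi.1, (hsatn (0, 0) i hi.2).1⟩
          · intro i hi _
            exact hW i (Finset.mem_filter.mp hi).1
      · by_contra hcon
        push Not at hcon
        have hcon' : ∀ p ∈ Ω, ∑ i ∈ I.filter (fun i => (c i).Sat β m f n), W' i < F p := by
          intro p hp
          by_contra hlt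
          push Not at hlt
          exact hall (hcon p hp hlt).1
        have : ∑ _p ∈ Ω, (∑ i ∈ I.filter (fun i => (c i).Sat β m f n), W' i) < ∑ p ∈ Ω, F p :=
          Finset.sum_lt_sum_of_nonempty hΩne hcon'
        rw [Finset.sum_const, nsmul_eq_mul, hΩcard] at this
        linarith
    refine ⟨Function.update m n p.1, Function.update f n p.2, ?_, ?_⟩
    · intro j hj
      by_cases hjn : j = n
      · subst hjn
        rcases hj with hj | hj
        · omega
        · rw [Function.update_self, Function.update_self, hpz hj]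
          exact ⟨rfl, rfl⟩
      · rw [Function.update_of_ne hjn, Function.update_of_ne hjn]
        apply hz
        rcases hj with hj | hj
        · exact Or.inl (by omega)
        · exact Or.inr hj
    refine (hple.trans hmf).trans ?_
    apply Finset.sum_le_sum
    intro i hi
    show W i * (if n ∈ (c i).J then ρ ^ (c i).K else 1) *
      rho β ((c i).J.filter (· < n)) ^ (c i).K ≤ _
    by_cases hn : n ∈ (c i).J
    · rw [if_pos hn]
      have hc : rho β ((c i).J.filter (· < n + 1)) = ρ * rho β ((c i).J.filter (· < n)) := by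
        have : (c i).J.filter (· < n + 1) = insert n ((c i).J.filter (· < n)) := by
          ext a
          simp only [Finset.mem_filter, Finset.mem_insert]
          constructor
          · rintro ⟨h1, h2⟩
            rcases Nat.lt_succ_iff_lt_or_eq.mp h2 with h3 | h3
            · exact Or.inr ⟨h1, h3⟩
            · exact Or.inl h3
          · rintro (h | ⟨h1, h2⟩)
            · exact ⟨h ▸ hn, by omega⟩
            · exact ⟨h1, by omega⟩
        unfold rho
        rw [this, Finset.prod_insert (by simp)]
      rw [hc, mul_pow]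
      apply le_of_eq
      ring
    · rw [if_neg hn]
      have hc : (c i).J.filter (· < n + 1) = (c i).J.filter (· < n) := by
        ext a
        simp only [Finset.mem_filter]
        constructor
        · rintro ⟨h1, h2⟩
          refine ⟨h1, ?_⟩
          rcases Nat.lt_succ_iff_lt_or_eq.mp h2 with h3 | h3
          · exact h3
          · exact absurd (h3 ▸ h1) hn
        · rintro ⟨h1, h2⟩
          exact ⟨h1, by omega⟩
      rw [hc]
      apply le_of_eq
      ring

end Pool.Agent.Helper83.ET
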