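import Pool.Agent.Helper83.ET.Ind

/-!
# The block-twisted 2-adic logarithm code

Parameters: block boundaries `β 1 < β 2 < …` (block `j` consists of the digits
`[β j, β (j + 1))`, of width `wd β j`), and for every block `j ≥ 1` a pair of natural numbers
`m j`, `f j`.  The phase of block `j` is `T j x / 2 ^ (β j)`, where
`T j x = (m j * ind (β j) x + f j) mod 2 ^ (β j)`, its top `wd β j` digits are `tau j x`.
The code is `P l x = (ind l x + ∑_{j ≥ 1} 2 ^ (β j) * tau j x) mod 2 ^ l`.
-/

namespace Pool.Agent.Helper83.ET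

open Finset

section defs

variable (β m f : ℕ → ℕ)

/-- The width of block `j`. -/
def wd (j : ℕ) : ℕ := β (j + 1) - β j

/-- The (integer) phase of block `j`. -/
noncomputable def T (j x : ℕ) : ℕ := (m j * ind (β j) x + f j) % 2 ^ (β j)

/-- The top `wd β j` digits of the phase of block `j`. -/
noncomputable def tau (j x : ℕ) : ℕ := T β m f j x / 2 ^ (β j - wd β j)

/-- The twisted code. -/
noncomputable def P (l x : ℕ) : ℕ :=
  (ind l x + ∑ i ∈ Finset.range l, 2 ^ (β (i + 1)) * tau β m f (i + 1) x) % 2 ^ l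

/-- The class of `x` at block `j`: the top bit of the phase and the top bit of its part below
the top block. -/
noncomputable def cls (j x : ℕ) : Bool × Bool :=
  (decide (2 ^ (β j - 1) ≤ T β m f j x),
   decide (2 ^ (β j - wd β j - 1) ≤ T β m f j x % 2 ^ (β j - wd β j)))

end defs

variable {β m f : ℕ → ℕ}

theorem T_lt (j x : ℕ) : T β m f j x < 2 ^ (β j) := Nat.mod_lt _ (by positivity)

theorem P_lt (l x : ℕ) : P β m f l x < 2 ^ l := Nat.mod_lt _ (by positivity)

/-- Two pairs of numbers below `M` that lie in the same halves and have congruent sums have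
equal sums. -/
theorem add_eq_of_halves {L a a' b b' : ℕ} (ha : a < 2 ^ L) (ha' : a' < 2 ^ L)
    (hb : b < 2 ^ L) (hb' : b' < 2 ^ L)
    (hab : (2 ^ (L - 1) ≤ a) ↔ (2 ^ (L - 1) ≤ b))
    (hab' : (2 ^ (L - 1) ≤ a') ↔ (2 ^ (L - 1) ≤ b'))
    (h : a + a' ≡ b + b' [MOD 2 ^ L]) : a + a' = b + b' := by
  rcases Nat.eq_zero_or_pos L with hL | hL
  · subst hL
    simp only [pow_zero] at *
    omega
  have h2 : 2 ^ L = 2 * 2 ^ (L - 1) := by
    rw [← pow_succ']
    congr 1
    omega
  rw [h2] at ha ha' hb hb' h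
  set H := 2 ^ (L - 1) with hH
  have hHpos : 0 < H := by positivity
  -- the difference of the sums is less than `2 * H` in absolute value
  have h1 : a + a' < b + b' + 2 * H := by
    by_cases c1 : H ≤ a
    · have := hab.mp c1
      by_cases c2 : H ≤ a'
      · have := hab'.mp c2
        omega
      · omega
    · by_cases c2 : H ≤ a'
      · have := hab'.mp c2
        omega
      · omega
  have h1' : b + b' < a + a' + 2 * H := by
    by_cases c1 : H ≤ b
    · have := hab.mpr c1
      by_cases c2 : H ≤ b'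
      · have := hab'.mpr c2
        omega
      · omega
    · by_cases c2 : H ≤ b'
      · have := hab'.mpr c2
        omega
      · omega
  rcases le_total (a + a') (b + b') with hle | hle
  · have hd := (Nat.modEq_iff_dvd' hle).mp h
    obtain ⟨c, hc⟩ := hd
    have hc0 : c = 0 := by
      by_contra hne
      have : 1 ≤ c := Nat.one_le_iff_ne_zero.mpr hne
      have : 2 * H ≤ 2 * H * c := Nat.le_mul_of_pos_right _ this
      omega
    rw [hc0] at hc
    omega
  · have hd := (Nat.modEq_iff_dvd' hle).mp h.symm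
    obtain ⟨c, hc⟩ := hd
    have hc0 : c = 0 := by
      by_contra hne
      have : 1 ≤ c := Nat.one_le_iff_ne_zero.mpr hne
      have : 2 * H ≤ 2 * H * c := Nat.le_mul_of_pos_right _ this
      omega
    rw [hc0] at hc
    omega

/-- The sum of the phases is determined by the sum of the logarithms. -/
theorem T_add_eq {j x x' y y' : ℕ}
    (hc : cls β m f j x = cls β m f j y) (hc' : cls β m f j x' = cls β m f j y')
    (h : ind (β j) x + ind (β j) x' ≡ ind (β j) y + ind (β j) y' [MOD 2 ^ (β j)]) :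
    T β m f j x + T β m f j x' = T β m f j y + T β m f j y' := by
  have e1 : T β m f j x + T β m f j x' ≡
      m j * (ind (β j) x + ind (β j) x') + 2 * f j [MOD 2 ^ (β j)] := by
    have a1 : T β m f j x ≡ m j * ind (β j) x + f j [MOD 2 ^ (β j)] := Nat.mod_modEq _ _
    have a2 : T β m f j x' ≡ m j * ind (β j) x' + f j [MOD 2 ^ (β j)] := Nat.mod_modEq _ _
    have := a1.add a2
    refine this.trans ?_
    rw [show m j * ind (β j) x + f j + (m j * ind (β j) x' + f j) =
      m j * (ind (β j) x + ind (β j) x') + 2 * f j by ring]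
  have e2 : T β m f j y + T β m f j y' ≡
      m j * (ind (β j) y + ind (β j) y') + 2 * f j [MOD 2 ^ (β j)] := by
    have a1 : T β m f j y ≡ m j * ind (β j) y + f j [MOD 2 ^ (β j)] := Nat.mod_modEq _ _
    have a2 : T β m f j y' ≡ m j * ind (β j) y' + f j [MOD 2 ^ (β j)] := Nat.mod_modEq _ _
    have := a1.add a2
    refine this.trans ?_
    rw [show m j * ind (β j) y + f j + (m j * ind (β j) y' + f j) =
      m j * (ind (β j) y + ind (β j) y') + 2 * f j by ring]
  have e3 := (e1.trans ((h.mul_left (m j)).add_right (2 * f j))).trans e2.symm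
  have hc1 := congrArg Prod.fst hc
  have hc2 := congrArg Prod.fst hc'
  simp only [cls, decide_eq_decide] at hc1 hc2
  exact add_eq_of_halves (T_lt _ _) (T_lt _ _) (T_lt _ _) (T_lt _ _) hc1 hc2 e3

/-- The sum of the twists is determined by the sum of the logarithms. -/
theorem tau_add_eq {j x x' y y' : ℕ}
    (hc : cls β m f j x = cls β m f j y) (hc' : cls β m f j x' = cls β m f j y')
    (h : ind (β j) x + ind (β j) x' ≡ ind (β j) y + ind (β j) y' [MOD 2 ^ (β j)]) :
    tau β m f j x + tau β m f j x' = tau β m f j y + tau β m f j y' := by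
  have hT := T_add_eq hc hc' h
  set q := 2 ^ (β j - wd β j) with hq
  have hqpos : 0 < q := by positivity
  have hc1 := congrArg Prod.snd hc
  have hc2 := congrArg Prod.snd hc'
  simp only [cls, decide_eq_decide] at hc1 hc2
  have hlow : T β m f j x % q + T β m f j x' % q = T β m f j y % q + T β m f j y' % q := by
    refine add_eq_of_halves (Nat.mod_lt _ hqpos) (Nat.mod_lt _ hqpos) (Nat.mod_lt _ hqpos)
      (Nat.mod_lt _ hqpos) hc1 hc2 ?_
    have a1 : T β m f j x % q + T β m f j x' % q ≡ T β m f j x + T β m f j x' [MOD q] :=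
      (Nat.mod_modEq _ _).add (Nat.mod_modEq _ _)
    have a2 : T β m f j y % q + T β m f j y' % q ≡ T β m f j y + T β m f j y' [MOD q] :=
      (Nat.mod_modEq _ _).add (Nat.mod_modEq _ _)
    exact (a1.trans (by rw [hT])).trans a2.symm
  have d1 := Nat.div_add_mod (T β m f j x) q
  have d2 := Nat.div_add_mod (T β m f j x') q
  have d3 := Nat.div_add_mod (T β m f j y) q
  have d4 := Nat.div_add_mod (T β m f j y') q
  have key : q * (T β m f j x / q + T β m f j x' / q) =
      q * (T β m f j y / q + T β m f j y' / q) := by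
    rw [mul_add, mul_add]
    omega
  exact Nat.eq_of_mul_eq_mul_left hqpos key

theorem P_modEq (l x : ℕ) : P β m f l x ≡
    ind l x + ∑ i ∈ Finset.range l, 2 ^ (β (i + 1)) * tau β m f (i + 1) x [MOD 2 ^ l] :=
  Nat.mod_modEq _ _

theorem ind_modEq_ind (l k x : ℕ) (h : k ≤ l) (hx : x % 4 = 1) :
    ind l x ≡ ind k x [MOD 2 ^ k] := by
  have := ind_mod l k x h hx
  rw [Nat.ModEq, this, Nat.mod_eq_of_lt (ind_lt _ _)]

/-- The twist part modulo `2 ^ k`, with the number of terms normalised. -/
theorem sum_tau_modEq (hβ : StrictMono β) (l k x : ℕ) (h : k ≤ l) :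
    ∑ i ∈ Finset.range l, 2 ^ (β (i + 1)) * tau β m f (i + 1) x ≡
      ∑ i ∈ Finset.range k, 2 ^ (β (i + 1)) * tau β m f (i + 1) x [MOD 2 ^ k] := by
  rw [← Finset.sum_range_add_sum_Ico _ h]
  have : (∑ i ∈ Finset.Ico k l, 2 ^ (β (i + 1)) * tau β m f (i + 1) x) ≡ 0 [MOD 2 ^ k] := by
    rw [Nat.modEq_zero_iff_dvd]
    apply Finset.dvd_sum
    intro i hi
    rw [Finset.mem_Ico] at hi
    apply Dvd.dvd.mul_right
    apply pow_dvd_pow
    have := hβ.le_apply (x := i + 1)
    omega
  simpa using this.add_left (∑ i ∈ Finset.range k, 2 ^ (β (i + 1)) * tau β m f (i + 1) x)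

/-- Restriction of the code. -/
theorem P_mod (hβ : StrictMono β) (l k x : ℕ) (h : k ≤ l) (hx : x % 4 = 1) :
    P β m f l x % 2 ^ k = P β m f k x := by
  have h1 : P β m f l x ≡ ind l x +
      ∑ i ∈ Finset.range l, 2 ^ (β (i + 1)) * tau β m f (i + 1) x [MOD 2 ^ k] :=
    (P_modEq l x).of_dvd (pow_dvd_pow _ h)
  have h2 := (ind_modEq_ind l k x h hx).add (sum_tau_modEq (m := m) (f := f) hβ l k x h)
  have h3 := (h1.trans h2).trans (P_modEq k x).symm
  rw [h3, Nat.mod_eq_of_lt (P_lt _ _)]

/-- Decoding of sums of two code words (of possibly different lengths and classes). -/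
theorem decode (hβ : StrictMono β) (k : ℕ) : ∀ (l l' x x' y y' : ℕ), k ≤ l → k ≤ l' →
    x % 4 = 1 → x' % 4 = 1 → y % 4 = 1 → y' % 4 = 1 →
    (∀ j, 1 ≤ j → β j < k → cls β m f j x = cls β m f j y) →
    (∀ j, 1 ≤ j → β j < k → cls β m f j x' = cls β m f j y') →
    P β m f l x + P β m f l' x' ≡ P β m f l y + P β m f l' y' [MOD 2 ^ k] →
    ind k x + ind k x' ≡ ind k y + ind k y' [MOD 2 ^ k] := by
  induction k using Nat.strong_induction_on with
  | _ k ih =>
    intro l l' x x' y y' hl hl' hx hx' hy hy' hc hc' hP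
    rcases Nat.eq_zero_or_pos k with hk0 | hkpos
    · subst hk0
      simp [Nat.modEq_one]
    -- the last block boundary below `k`
    obtain ⟨k', hk'lt, hblock⟩ : ∃ k', k' < k ∧ ∀ j, β j < k → β j ≤ k' := by
      refine ⟨((Finset.range k).filter (fun j => β j < k)).sup β, ?_, ?_⟩
      · rw [Finset.sup_lt_iff (by simpa using hkpos)]
        intro j hj
        exact (Finset.mem_filter.mp hj).2
      · intro j hj
        apply Finset.le_sup (f := β)
        rw [Finset.mem_filter, Finset.mem_range]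
        have := hβ.le_apply (x := j)
        exact ⟨by omega, hj⟩
    have hih := ih k' hk'lt l l' x x' y y' (by omega) (by omega) hx hx' hy hy'
      (fun j h1 h2 => hc j h1 (by omega)) (fun j h1 h2 => hc' j h1 (by omega))
      (hP.of_dvd (pow_dvd_pow _ hk'lt.le))
    -- equality of the twist sums
    have hterm : ∀ i, 2 ^ (β (i + 1)) * tau β m f (i + 1) x +
        2 ^ (β (i + 1)) * tau β m f (i + 1) x' ≡
        2 ^ (β (i + 1)) * tau β m f (i + 1) y +
        2 ^ (β (i + 1)) * tau β m f (i + 1) y' [MOD 2 ^ k] := by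
      intro i
      by_cases hi : β (i + 1) < k
      · have hle := hblock _ hi
        have h0 : ind (β (i + 1)) x + ind (β (i + 1)) x' ≡
            ind (β (i + 1)) y + ind (β (i + 1)) y' [MOD 2 ^ (β (i + 1))] := by
          have b1 := ind_modEq_ind k' (β (i + 1)) x hle hx
          have b2 := ind_modEq_ind k' (β (i + 1)) x' hle hx'
          have b3 := ind_modEq_ind k' (β (i + 1)) y hle hy
          have b4 := ind_modEq_ind k' (β (i + 1)) y' hle hy'
          exact ((b1.add b2).symm.trans (hih.of_dvd (pow_dvd_pow _ hle))).trans (b3.add b4)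
        have := tau_add_eq (hc _ (by omega) hi) (hc' _ (by omega) hi) h0
        rw [← mul_add, ← mul_add, this]
      · have hz : ∀ z, 2 ^ (β (i + 1)) * tau β m f (i + 1) z ≡ 0 [MOD 2 ^ k] := by
          intro z
          rw [Nat.modEq_zero_iff_dvd]
          exact Dvd.dvd.mul_right (pow_dvd_pow _ (by omega)) _
        exact ((hz x).add (hz x')).trans ((hz y).add (hz y')).symm
    have hsum : ∀ n, (∑ i ∈ Finset.range n, 2 ^ (β (i + 1)) * tau β m f (i + 1) x) +
        (∑ i ∈ Finset.range n, 2 ^ (β (i + 1)) * tau β m f (i + 1) x') ≡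
        (∑ i ∈ Finset.range n, 2 ^ (β (i + 1)) * tau β m f (i + 1) y) +
        (∑ i ∈ Finset.range n, 2 ^ (β (i + 1)) * tau β m f (i + 1) y') [MOD 2 ^ k] := by
      intro n
      rw [← Finset.sum_add_distrib, ← Finset.sum_add_distrib]
      induction n with
      | zero => rfl
      | succ n ihn =>
        rw [Finset.sum_range_succ, Finset.sum_range_succ]
        exact ihn.add (hterm n)
    have hPk : ∀ (L z : ℕ), k ≤ L → z % 4 = 1 → P β m f L z ≡ ind k z +
        ∑ i ∈ Finset.range k, 2 ^ (β (i + 1)) * tau β m f (i + 1) z [MOD 2 ^ k] := by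
      intro L z hL hz
      have h1 : P β m f L z ≡ ind L z +
          ∑ i ∈ Finset.range L, 2 ^ (β (i + 1)) * tau β m f (i + 1) z [MOD 2 ^ k] :=
        (P_modEq L z).of_dvd (pow_dvd_pow _ hL)
      exact h1.trans ((ind_modEq_ind L k z hL hz).add
        (sum_tau_modEq (m := m) (f := f) hβ L k z hL))
    have h1 := (hPk l x hl hx).add (hPk l' x' hl' hx')
    have h2 := (hPk l y hl hy).add (hPk l' y' hl' hy')
    have h3 := (h1.symm.trans hP).trans h2
    have h4 := hsum k
    -- cancel
    set Sx := ∑ i ∈ Finset.range k, 2 ^ (β (i + 1)) * tau β m f (i + 1) x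
    set Sx' := ∑ i ∈ Finset.range k, 2 ^ (β (i + 1)) * tau β m f (i + 1) x'
    set Sy := ∑ i ∈ Finset.range k, 2 ^ (β (i + 1)) * tau β m f (i + 1) y
    set Sy' := ∑ i ∈ Finset.range k, 2 ^ (β (i + 1)) * tau β m f (i + 1) y'
    have h5 : (ind k x + ind k x') + (Sx + Sx') ≡ (ind k y + ind k y') + (Sx + Sx')
        [MOD 2 ^ k] := by
      have e1 : (ind k x + ind k x') + (Sx + Sx') = ind k x + Sx + (ind k x' + Sx') := by ring
      have e2 : (ind k y + ind k y') + (Sy + Sy') = ind k y + Sy + (ind k y' + Sy') := by ring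
      have e3 : (ind k y + ind k y') + (Sx + Sx') ≡ (ind k y + ind k y') + (Sy + Sy')
          [MOD 2 ^ k] := h4.add_left _
      rw [e1]
      exact (h3.trans (by rw [e2])).trans e3.symm
    exact Nat.ModEq.add_right_cancel' _ h5

/-- The code is injective modulo `2 ^ (k + 2)`. -/
theorem P_inj (hβ : StrictMono β) (k : ℕ) : ∀ (l l' x y : ℕ), k ≤ l → k ≤ l' →
    x % 4 = 1 → y % 4 = 1 → P β m f l x ≡ P β m f l' y [MOD 2 ^ k] →
    ind k x = ind k y := by
  induction k using Nat.strong_induction_on with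
  | _ k ih =>
    intro l l' x y hl hl' hx hy hP
    rcases Nat.eq_zero_or_pos k with hk0 | hkpos
    · subst hk0
      have := ind_lt 0 x
      have := ind_lt 0 y
      omega
    obtain ⟨k', hk'lt, hblock⟩ : ∃ k', k' < k ∧ ∀ j, β j < k → β j ≤ k' := by
      refine ⟨((Finset.range k).filter (fun j => β j < k)).sup β, ?_, ?_⟩
      · rw [Finset.sup_lt_iff (by simpa using hkpos)]
        intro j hj
        exact (Finset.mem_filter.mp hj).2
      · intro j hj
        apply Finset.le_sup (f := β)
        rw [Finset.mem_filter, Finset.mem_range]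
        have := hβ.le_apply (x := j)
        exact ⟨by omega, hj⟩
    have hih := ih k' hk'lt l l' x y (by omega) (by omega) hx hy
      (hP.of_dvd (pow_dvd_pow _ hk'lt.le))
    have hterm : ∀ i, 2 ^ (β (i + 1)) * tau β m f (i + 1) x ≡
        2 ^ (β (i + 1)) * tau β m f (i + 1) y [MOD 2 ^ k] := by
      intro i
      by_cases hi : β (i + 1) < k
      · have hle := hblock _ hi
        have : ind (β (i + 1)) x = ind (β (i + 1)) y := by
          rw [← ind_mod k' _ x hle hx, ← ind_mod k' _ y hle hy, hih]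
        have ht : tau β m f (i + 1) x = tau β m f (i + 1) y := by
          unfold tau T
          rw [this]
        rw [ht]
      · have hz : ∀ z, 2 ^ (β (i + 1)) * tau β m f (i + 1) z ≡ 0 [MOD 2 ^ k] := by
          intro z
          rw [Nat.modEq_zero_iff_dvd]
          exact Dvd.dvd.mul_right (pow_dvd_pow _ (by omega)) _
        exact (hz x).trans (hz y).symm
    have hsum : ∀ n, (∑ i ∈ Finset.range n, 2 ^ (β (i + 1)) * tau β m f (i + 1) x) ≡
        (∑ i ∈ Finset.range n, 2 ^ (β (i + 1)) * tau β m f (i + 1) y) [MOD 2 ^ k] := by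
      intro n
      induction n with
      | zero => rfl
      | succ n ihn =>
        rw [Finset.sum_range_succ, Finset.sum_range_succ]
        exact ihn.add (hterm n)
    have hPk : ∀ (L z : ℕ), k ≤ L → z % 4 = 1 → P β m f L z ≡ ind k z +
        ∑ i ∈ Finset.range k, 2 ^ (β (i + 1)) * tau β m f (i + 1) z [MOD 2 ^ k] := by
      intro L z hL hz
      have h1 : P β m f L z ≡ ind L z +
          ∑ i ∈ Finset.range L, 2 ^ (β (i + 1)) * tau β m f (i + 1) z [MOD 2 ^ k] :=
        (P_modEq L z).of_dvd (pow_dvd_pow _ hL)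
      exact h1.trans ((ind_modEq_ind L k z hL hz).add
        (sum_tau_modEq (m := m) (f := f) hβ L k z hL))
    have h3 := ((hPk l x hl hx).symm.trans hP).trans (hPk l' y hl' hy)
    have h4 := hsum k
    have h5 := (h3.trans (h4.symm.add_left _))
    have h6 := Nat.ModEq.add_right_cancel' _ h5
    exact Nat.ModEq.eq_of_lt_of_lt h6 (ind_lt _ _) (ind_lt _ _)

/-- Equal products of primes. -/
theorem eq_or_swap_of_mul_eq {x x' y y' : ℕ} (hx : x.Prime) (hx' : x'.Prime) (hy : y.Prime)
    (hy' : y'.Prime) (h : x * x' = y * y') : (x = y ∧ x' = y') ∨ (x = y' ∧ x' = y) := by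
  have hd : x ∣ y * y' := ⟨x', h.symm⟩
  rcases (Nat.Prime.dvd_mul hx).mp hd with h1 | h1
  · left
    have e := (Nat.prime_dvd_prime_iff_eq hx hy).mp h1
    subst e
    exact ⟨rfl, Nat.eq_of_mul_eq_mul_left hx.pos h⟩
  · right
    have e := (Nat.prime_dvd_prime_iff_eq hx hy').mp h1
    subst e
    refine ⟨rfl, Nat.eq_of_mul_eq_mul_left hx.pos ?_⟩
    rw [h]
    ring

/-- Sums of two code words determine the products of the variables modulo `2 ^ (k + 2)`. -/
theorem decode_mul (hβ : StrictMono β) {k l l' x x' y y' : ℕ} (hl : k ≤ l) (hl' : k ≤ l')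
    (hx : x % 4 = 1) (hx' : x' % 4 = 1) (hy : y % 4 = 1) (hy' : y' % 4 = 1)
    (hc : ∀ j, 1 ≤ j → β j < k → cls β m f j x = cls β m f j y)
    (hc' : ∀ j, 1 ≤ j → β j < k → cls β m f j x' = cls β m f j y')
    (hP : P β m f l x + P β m f l' x' ≡ P β m f l y + P β m f l' y' [MOD 2 ^ k]) :
    x * x' ≡ y * y' [MOD 2 ^ (k + 2)] :=
  (mul_modEq_iff k x y x' y' hx hy hx' hy').mp
    (decode hβ k l l' x x' y y' hl hl' hx hx' hy hy' hc hc' hP)

end Pool.Agent.Helper83.ET
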