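import Pool.Agent.Helper83.ET.Theta

/-!
# ML2: regions cut by a scale

For a finite collection of cuts `(l, k, t, S)` there are twists for which the number of
`x ∈ S` whose code word of length `l` has the digits `[k, l)` of `t` is less than
`2 ^ E * (1 + |S| / 2 ^ (l - k))`.
-/

namespace Pool.Agent.Helper83.ET

open Finset

/-- The blocks `j ≥ 1` with `c ≤ β j` and `β (j + 1) ≤ l`. -/
def blocks (β : ℕ → ℕ) (c l : ℕ) : Finset ℕ :=
  (Finset.range l).filter (fun j => 1 ≤ j ∧ c ≤ β j ∧ β (j + 1) ≤ l)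

theorem mem_blocks {β : ℕ → ℕ} (hβ : StrictMono β) {c l j : ℕ} :
    j ∈ blocks β c l ↔ 1 ≤ j ∧ c ≤ β j ∧ β (j + 1) ≤ l := by
  unfold blocks
  rw [Finset.mem_filter, Finset.mem_range]
  constructor
  · exact fun h => h.2
  · intro h
    refine ⟨?_, h⟩
    have := hβ.le_apply (x := j + 1)
    omega

/-- The blocks cover almost all of `[c, l)`. -/
theorem sum_wd_blocks {β : ℕ → ℕ} (hβ : StrictMono β) {c l v : ℕ} (h1 : β 1 ≤ c)
    (hv : ∀ j, 1 ≤ j → c < β (j + 1) → β j < l → wd β j ≤ v) :
    l ≤ c + 2 * v + ∑ j ∈ blocks β c l, wd β j := by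
  classical
  by_cases hcl : l ≤ c
  · omega
  push Not at hcl
  -- the first block
  have hex : ∃ j, 1 ≤ j ∧ c ≤ β j := by
    refine ⟨c + 1, by omega, ?_⟩
    have := hβ.le_apply (x := c + 1)
    omega
  set j0 := Nat.find hex with hj0
  obtain ⟨hj0a, hj0b⟩ := Nat.find_spec hex
  rw [← hj0] at hj0a hj0b
  have hj0min : ∀ j, 1 ≤ j → j < j0 → β j < c := by
    intro j h2 h3
    by_contra h4
    push Not at h4
    exact Nat.find_min hex h3 ⟨h2, h4⟩
  -- `β j0 ≤ c + v`, if `β j0 > c`
  have hstart : β j0 ≤ c + v ∨ l ≤ c + v := by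
    rcases Nat.lt_or_ge 1 j0 with h2 | h2
    · obtain ⟨i, hi⟩ : ∃ i, j0 = i + 1 := ⟨j0 - 1, by omega⟩
      have h3 := hj0min i (by omega) (by omega)
      rcases Nat.eq_or_lt_of_le hj0b with h4 | h4
      · left
        omega
      · rw [hi] at h4
        have h5 := hv i (by omega) h4 (by omega)
        left
        unfold wd at h5
        rw [hi]
        omega
    · have h3 : j0 = 1 := by omega
      left
      rw [h3]
      omega
  rcases hstart with hstart | hstart
  swap
  · omega
  -- the last block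
  rcases Nat.lt_or_ge l (β j0) with h5 | h5
  · omega
  · have hex2 : ∃ j, j0 ≤ j ∧ l < β (j + 1) := by
      refine ⟨j0 + l, by omega, ?_⟩
      have := hβ.le_apply (x := j0 + l + 1)
      omega
    set j1 := Nat.find hex2 with hj1
    obtain ⟨hj1a, hj1b⟩ := Nat.find_spec hex2
    rw [← hj1] at hj1a hj1b
    have hj1min : ∀ j, j0 ≤ j → j < j1 → β (j + 1) ≤ l := by
      intro j h2 h3
      by_contra h4
      push Not at h4
      exact Nat.find_min hex2 h3 ⟨h2, h4⟩
    have hj1le : β j1 ≤ l := by
      rcases Nat.eq_or_lt_of_le hj1a with h6 | h6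
      · rw [← h6]
        exact h5
      · obtain ⟨i, hi⟩ : ∃ i, j1 = i + 1 := ⟨j1 - 1, by omega⟩
        rw [hi]
        exact hj1min i (by omega) (by omega)
    have hend : l ≤ β j1 + v := by
      rcases Nat.eq_or_lt_of_le hj1le with h6 | h6
      · omega
      · have h7 := hv j1 (by omega) (by omega) h6
        unfold wd at h7
        omega
    have hsub : Finset.Ico j0 j1 ⊆ blocks β c l := by
      intro j hj
      rw [Finset.mem_Ico] at hj
      rw [mem_blocks hβ]
      refine ⟨by omega, ?_, hj1min j hj.1 hj.2⟩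
      exact hj0b.trans (hβ.monotone hj.1)
    have hsum : ∑ j ∈ Finset.Ico j0 j1, wd β j = β j1 - β j0 := by
      have : ∀ n, j0 ≤ n → ∑ j ∈ Finset.Ico j0 n, wd β j = β n - β j0 := by
        intro n hn
        induction n, hn using Nat.le_induction with
        | base => simp
        | succ n hn ih =>
          rw [Finset.sum_Ico_succ_top hn, ih]
          unfold wd
          have a1 := hβ (Nat.lt_succ_self n)
          have a2 := hβ.monotone hn
          have a3 : β n < β (n + 1) := a1
          omega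
      exact this j1 hj1a
    have hle := Finset.sum_le_sum_of_subset (f := fun j => wd β j) hsub
    have hmono := hβ.monotone hj1a
    omega

/-- The blocks lie in `[c, l)`. -/
theorem sum_wd_blocks_le {β : ℕ → ℕ} (hβ : StrictMono β) (c l : ℕ) :
    ∑ j ∈ blocks β c l, wd β j ≤ l - c := by
  classical
  -- disjoint intervals
  have h1 : ∑ j ∈ blocks β c l, wd β j =
      ((blocks β c l).biUnion (fun j => Finset.Ico (β j) (β (j + 1)))).card := by
    rw [Finset.card_biUnion]
    · apply Finset.sum_congr rfl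
      intro j _
      rw [Nat.card_Ico]
      rfl
    · intro i _ j _ hij
      rw [Function.onFun, Finset.disjoint_left]
      intro a ha hb
      rw [Finset.mem_Ico] at ha hb
      rcases Nat.lt_or_ge i j with h | h
      · have := hβ.monotone (show i + 1 ≤ j by omega)
        omega
      · have := hβ.monotone (show j + 1 ≤ i by omega)
        omega
  rw [h1]
  calc _ ≤ (Finset.Ico c l).card := by
        apply Finset.card_le_card
        intro a ha
        rw [Finset.mem_biUnion] at ha
        obtain ⟨j, hj, hja⟩ := ha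
        rw [mem_blocks hβ] at hj
        rw [Finset.mem_Ico] at hja ⊢
        omega
    _ = l - c := Nat.card_Ico c l

/-- Data of a cut. -/
structure Cut where
  l : ℕ
  /-- the digits `[k, l)` are prescribed -/
  k : ℕ
  /-- the prescribed digits -/
  t : ℕ
  S : Finset ℕ
  b : ℕ
  v : ℕ
  w : ℕ
  B : ℕ
  s : ℕ
  K : ℕ
  E : ℕ

/-- The conditions on a cut. -/
structure Cut.Good (β : ℕ → ℕ) (φ : Cut) : Prop where
  hS : ∀ x ∈ φ.S, x % 4 = 1 ∧ x < 2 ^ (φ.b + 2)
  hcard : φ.S.card ≤ 2 ^ (φ.l - φ.b + φ.s)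
  hw : 3 ≤ φ.w
  hwv : φ.w ≤ φ.v
  hvb : φ.v ≤ φ.b
  h1 : β 1 ≤ φ.b
  hv : ∀ j, 1 ≤ j → φ.b < β (j + 1) → β j < φ.l → φ.w ≤ wd β j ∧ wd β j ≤ φ.v
  hB : φ.l - φ.b ≤ φ.B * φ.w
  hE : φ.v * (φ.K + 1) + 1 ≤ φ.E
  hE' : 1 + φ.s + 3 * φ.B + 2 * φ.v ≤ φ.E

/-- **ML2.** -/
theorem cut_lemma {β : ℕ → ℕ} (hβ : StrictMono β) {κ : Type*} (Φ : Finset κ) (F : κ → Cut)
    (hgood : ∀ φ ∈ Φ, (F φ).Good β)
    (hsum : ∑ φ ∈ Φ, (1 / 2 : ℝ) ^
      (((F φ).E - (1 + (F φ).s + 3 * (F φ).B + 2 * (F φ).v)) * (F φ).K) < 1) :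
    ∃ m f : ℕ → ℕ, ∀ φ ∈ Φ,
      ((F φ).S.filter (fun x => P β m f (F φ).l x / 2 ^ (F φ).k =
        (F φ).t / 2 ^ (F φ).k)).card <
        2 ^ (F φ).E * (1 + (F φ).S.card / 2 ^ ((F φ).l - (F φ).k)) := by
  classical
  let G : κ → Fam := fun φ =>
    { K := (F φ).K
      v := (F φ).v
      b := (F φ).b
      J := blocks β (max (F φ).k (F φ).b) (F φ).l
      G := (F φ).S ×ˢ {(F φ).t}
      A := 2 ^ (F φ).E * (1 + (F φ).S.card / 2 ^ ((F φ).l - (F φ).k)) }
  obtain ⟨m, f, -, hmf⟩ := moment_lemma hβ Φ G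
    (by
      intro φ hφ
      have hg := hgood φ hφ
      exact ⟨hg.hw.trans hg.hwv, hg.hvb⟩)
    (by
      intro φ hφ j hj
      have hg := hgood φ hφ
      have hj' := (mem_blocks hβ).mp hj
      have h2 : (F φ).b ≤ β j := (le_max_right _ _).trans hj'.2.1
      have h3 : β j < β (j + 1) := hβ (Nat.lt_succ_self j)
      have h4 := hg.hv j hj'.1 (by omega) (by omega)
      have h5 := hg.hw
      exact ⟨hj'.1, h2, by omega, h4.2⟩)
    (by
      intro φ hφ p hp
      exact ((hgood φ hφ).hS _ (Finset.mem_product.mp hp).1).1)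
    (by
      intro φ hφ p hp p' hp' h
      have h1 := (hgood φ hφ).hS _ (Finset.mem_product.mp hp).1
      have h2 := (hgood φ hφ).hS _ (Finset.mem_product.mp hp').1
      exact Nat.ModEq.eq_of_lt_of_lt ((ind_modEq_iff _ _ _ h1.1 h2.1).mp h) h1.2 h2.2)
    (by
      intro φ hφ
      have hg := hgood φ hφ
      calc 2 ^ ((F φ).v * ((F φ).K + 1) + 1) ≤ 2 ^ (F φ).E * 1 := by
            rw [mul_one]
            exact Nat.pow_le_pow_right (by norm_num) hg.hE
        _ ≤ 2 ^ (F φ).E * (1 + (F φ).S.card / 2 ^ ((F φ).l - (F φ).k)) :=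
            Nat.mul_le_mul_left _ (Nat.le_add_right 1 _))
    (by
      refine lt_of_le_of_lt ?_ hsum
      apply Finset.sum_le_sum
      intro φ hφ
      have hg := hgood φ hφ
      rw [pow_mul]
      have hnn : 0 ≤ 2 * ((G φ).G.card : ℝ) * rho β (G φ).J / (G φ).A := by
        have := rho_nonneg β (G φ).J
        positivity
      apply pow_le_pow_left₀ hnn
      -- notation
      set E := (F φ).E with hEdef
      set s := (F φ).s
      set B := (F φ).B
      set v := (F φ).v
      set w := (F φ).w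
      set b := (F φ).b
      set l := (F φ).l
      set k := (F φ).k
      set S := (F φ).S
      set c := max k b with hc
      set J := blocks β c l with hJ
      have hGcard : (G φ).G.card = S.card := by
        show (S ×ˢ {(F φ).t}).card = S.card
        rw [Finset.card_product, Finset.card_singleton, mul_one]
      have hAdef : (G φ).A = 2 ^ E * (1 + S.card / 2 ^ (l - k)) := rfl
      -- the number of blocks
      have hJB : J.card ≤ B := by
        have e1 : J.card * w ≤ ∑ j ∈ J, wd β j := by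
          rw [← smul_eq_mul, ← Finset.sum_const]
          apply Finset.sum_le_sum
          intro j hj
          have hj' := (mem_blocks hβ).mp hj
          have h2 : b ≤ β j := (le_max_right _ _).trans hj'.2.1
          have h3 : β j < β (j + 1) := hβ (Nat.lt_succ_self j)
          exact (hg.hv j hj'.1 (by omega) (by omega)).1
        have e2 := sum_wd_blocks_le hβ c l
        have e3 : l - c ≤ l - b := Nat.sub_le_sub_left (le_max_right _ _) _
        have e4 : J.card * w ≤ B * w := e1.trans (e2.trans (e3.trans hg.hB))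
        have hwpos : 0 < w := by
          have := hg.hw
          omega
        exact Nat.le_of_mul_le_mul_right e4 hwpos
      -- the proportion
      have hrho : rho β J ≤ 2 ^ (3 * B + 2 * v) / 2 ^ (l - c) := by
        have e1 : rho β J = 2 ^ (3 * J.card) / 2 ^ (∑ j ∈ J, wd β j) := by
          unfold rho
          rw [Finset.prod_div_distrib, Finset.prod_const, Finset.prod_pow_eq_pow_sum,
            show (8 : ℝ) = 2 ^ 3 by norm_num, ← pow_mul]
        rw [e1, div_le_div_iff₀ (by positivity) (by positivity), ← pow_add, ← pow_add]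
        apply pow_le_pow_right₀ (by norm_num)
        have e2 : l ≤ c + 2 * v + ∑ j ∈ J, wd β j := sum_wd_blocks hβ (c := c) (l := l) (v := v)
          (hg.h1.trans (le_max_right _ _)) (by
            intro j h1 h2 h3
            have : b ≤ c := le_max_right _ _
            exact (hg.hv j h1 (by omega) h3).2)
        have e3 : l - c ≤ 2 * v + ∑ j ∈ J, wd β j := by omega
        omega
      -- the cardinality
      have hSA : (S.card : ℝ) / 2 ^ (l - c) ≤ 2 ^ s * (1 + S.card / 2 ^ (l - k) : ℕ) := by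
        rcases le_total b k with hbk | hbk
        · have hck : c = k := max_eq_left hbk
          rw [hck]
          have e1 : (S.card : ℝ) / 2 ^ (l - k) ≤ (1 + S.card / 2 ^ (l - k) : ℕ) := by
            rw [div_le_iff₀ (by positivity)]
            have e2 := Nat.div_add_mod S.card (2 ^ (l - k))
            have e3 := Nat.mod_lt S.card (show 0 < 2 ^ (l - k) by positivity)
            have e4 : S.card ≤ (1 + S.card / 2 ^ (l - k)) * 2 ^ (l - k) := by
              calc S.card = 2 ^ (l - k) * (S.card / 2 ^ (l - k)) + S.card % 2 ^ (l - k) :=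
                    e2.symm
                _ ≤ 2 ^ (l - k) * (S.card / 2 ^ (l - k)) + 2 ^ (l - k) := by omega
                _ = (1 + S.card / 2 ^ (l - k)) * 2 ^ (l - k) := by ring
            exact_mod_cast e4
          have e5 : (1 : ℝ) ≤ 2 ^ s := one_le_pow₀ (by norm_num)
          have e6 : (0 : ℝ) ≤ ((1 + S.card / 2 ^ (l - k) : ℕ) : ℝ) := by positivity
          nlinarith
        · have hcb : c = b := max_eq_right hbk
          rw [hcb]
          have e1 : (S.card : ℝ) ≤ 2 ^ (l - b + s) := by exact_mod_cast hg.hcard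
          have e2 : (S.card : ℝ) / 2 ^ (l - b) ≤ 2 ^ s := by
            rw [div_le_iff₀ (by positivity), ← pow_add, add_comm s]
            exact e1
          have e3 : (1 : ℝ) ≤ ((1 + S.card / 2 ^ (l - k) : ℕ) : ℝ) := by
            push_cast
            have : (0 : ℝ) ≤ ((S.card / 2 ^ (l - k) : ℕ) : ℝ) := by positivity
            linarith
          have e4 : (0 : ℝ) ≤ 2 ^ s := by positivity
          nlinarith
      rw [hGcard, hAdef]
      set A' : ℕ := 1 + S.card / 2 ^ (l - k) with hA'
      have hA'pos : (0 : ℝ) < (A' : ℝ) := by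
        rw [hA']
        push_cast
        positivity
      have hfin : 2 * (S.card : ℝ) * rho β J ≤ 2 ^ (1 + s + 3 * B + 2 * v) * A' := by
        have hr := rho_nonneg β J
        calc 2 * (S.card : ℝ) * rho β J ≤ 2 * (S.card : ℝ) * (2 ^ (3 * B + 2 * v) / 2 ^ (l - c)) :=
              mul_le_mul_of_nonneg_left hrho (by positivity)
          _ = 2 * 2 ^ (3 * B + 2 * v) * ((S.card : ℝ) / 2 ^ (l - c)) := by ring
          _ ≤ 2 * 2 ^ (3 * B + 2 * v) * (2 ^ s * A') :=
              mul_le_mul_of_nonneg_left hSA (by positivity)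
          _ = 2 ^ (1 + s + 3 * B + 2 * v) * A' := by
              rw [show 1 + s + 3 * B + 2 * v = 1 + s + (3 * B + 2 * v) by ring, pow_add, pow_add]
              ring
      have hfin2 : 2 * (S.card : ℝ) * rho β J / ((2 ^ E * A' : ℕ) : ℝ) ≤
          (1 / 2) ^ (E - (1 + s + 3 * B + 2 * v)) := by
        rw [div_le_iff₀ (by push_cast; positivity)]
        refine hfin.trans (le_of_eq ?_)
        push_cast
        have hE' := hg.hE'
        rw [one_div, inv_pow]
        have h2 : (2 : ℝ) ^ E = 2 ^ (E - (1 + s + 3 * B + 2 * v)) * 2 ^ (1 + s + 3 * B + 2 * v) := by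
          rw [← pow_add]
          congr 1
          omega
        rw [h2]
        field_simp
      exact hfin2)
  refine ⟨m, f, ?_⟩
  intro φ hφ
  refine lt_of_le_of_lt ?_ (hmf φ hφ)
  apply Finset.card_le_card
  intro x hx
  have hx' := Finset.mem_filter.mp hx
  have hg := hgood φ hφ
  refine Finset.mem_image.mpr ⟨(x, (F φ).t), ?_, rfl⟩
  rw [Finset.mem_filter]
  refine ⟨?_, ?_⟩
  · show (x, (F φ).t) ∈ (F φ).S ×ˢ {(F φ).t}
    rw [Finset.mem_product, Finset.mem_singleton]
    exact ⟨hx'.1, rfl⟩
  · intro j hj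
    have hj' := (mem_blocks hβ).mp hj
    show P β m f (β (j + 1)) x / 2 ^ (β j) = (F φ).t / 2 ^ (β j) % 2 ^ (wd β j)
    rw [P_div_eq hβ hj'.2.2 (hg.hS x hx'.1).1]
    have hk : (F φ).k ≤ β j := (le_max_left _ _).trans hj'.2.1
    have h2 : 2 ^ (β j) = 2 ^ (F φ).k * 2 ^ (β j - (F φ).k) := by
      rw [← pow_add]
      congr 1
      omega
    rw [h2, ← Nat.div_div_eq_div_mul, ← Nat.div_div_eq_div_mul, hx'.2]

end Pool.Agent.Helper83.ET
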