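import Pool.Agent.Helper83.ET.PCode

/-!
# Block boundaries of the code of anchor 0 and the grid of the positions
-/

namespace Pool.Agent.Helper83.ET

open Finset

/-- Divisibility of the boundaries. -/
theorem dvd_lvlBeta_succ (w0 r C n : ℕ) :
    w0 * C ^ (n / ((C - 1) * r)) ∣ lvlBeta w0 r C (n + 1) := by
  rw [lvlBeta_succ]
  exact Dvd.intro _ rfl

theorem lvlBeta_succ_lt {w0 r C : ℕ} (hw : 1 ≤ w0) (hr : 1 ≤ r) (hC : 2 ≤ C) (n : ℕ) :
    lvlBeta w0 r C (n + 1) < w0 * r * C ^ (n / ((C - 1) * r) + 1) := by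
  rw [lvlBeta_succ]
  set N := (C - 1) * r with hN
  have hNpos : 0 < N := by
    rw [hN]
    apply Nat.mul_pos <;> omega
  have hm := Nat.mod_lt n hNpos
  have e4 : r + N = C * r := by
    rw [hN]
    obtain ⟨D, rfl⟩ : ∃ D, C = D + 1 := ⟨C - 1, by omega⟩
    simp only [Nat.add_sub_cancel]
    ring
  calc w0 * C ^ (n / N) * (r + n % N) < w0 * C ^ (n / N) * (C * r) := by
        apply Nat.mul_lt_mul_of_pos_left (by omega)
        have : 0 < C ^ (n / N) := Nat.pow_pos (by omega)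
        exact Nat.mul_pos hw this
    _ = w0 * r * C ^ (n / N + 1) := by ring

/-- The grid of the positions and the boundaries of the code of anchor 0. -/
theorem gap_zero {C e L : ℕ} (hC : 2 ≤ C) (c : Code)
    (hc : c.β = lvlBeta (C ^ (9 - 5)) (C ^ 5) C) (hL : C ^ e ∣ L) (h : C ^ (3 * e) ≤ L) (i : ℕ) :
    c.β i ≤ L ∨ L + C ^ e ≤ c.β i := by
  have hCpos : 0 < C := by omega
  rcases Nat.lt_or_ge L (c.β i) with hLi | hLi
  swap
  · exact Or.inl hLi
  right
  rcases Nat.eq_zero_or_pos i with h0 | h0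
  · rw [h0, hc, lvlBeta_zero] at hLi
    omega
  obtain ⟨n, rfl⟩ : ∃ n, i = n + 1 := ⟨i - 1, by omega⟩
  have hdvd : C ^ e ∣ c.β (n + 1) := by
    rw [hc]
    refine dvd_trans ?_ (dvd_lvlBeta_succ _ _ _ _)
    rw [← pow_add]
    apply pow_dvd_pow
    have h1 := lvlBeta_succ_lt (w0 := C ^ (9 - 5)) (r := C ^ 5) (C := C)
      (Nat.one_le_pow _ _ hCpos) (Nat.one_le_pow _ _ hCpos) hC n
    rw [← hc, ← pow_add, ← pow_add] at h1
    have h2 : C ^ (3 * e) < C ^ (9 - 5 + 5 + (n / ((C - 1) * C ^ 5) + 1)) :=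
      lt_of_le_of_lt h (lt_trans hLi h1)
    have h3 := (Nat.pow_lt_pow_iff_right (show 1 < C by omega)).mp h2
    generalize n / ((C - 1) * C ^ 5) = q at h3 ⊢
    omega
  obtain ⟨a, ha⟩ := hdvd
  obtain ⟨b, hb⟩ := hL
  rw [ha, hb] at hLi ⊢
  have h2 : b < a := by
    by_contra hcon
    push Not at hcon
    have := Nat.mul_le_mul_left (C ^ e) hcon
    omega
  calc C ^ e * b + C ^ e = C ^ e * (b + 1) := by ring
    _ ≤ C ^ e * a := Nat.mul_le_mul_left _ h2

end Pool.Agent.Helper83.ET
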