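import Pool.Agent.Helper83.ET.Block

/-!
# Many tuples without small relations
-/

namespace Pool.Agent.Helper83.ET

open Finset

open Classical in
/-- Few extensions of a tuple without relations have a relation. -/
theorem bad_card {v b : ℕ} (hw : 3 ≤ v) (hvb : v ≤ b) (S : Finset ℕ)
    (hinj : ∀ x ∈ S, ∀ y ∈ S, ind b x = ind b y → x = y)
    {K : ℕ} (x : Fin K → ℕ) (hx : NR v b x) :
    (S.filter (fun y => ¬ NR v b (Fin.snoc (α := fun _ => ℕ) x y))).card ≤ 2 ^ (v * (K + 2)) := by
  set N : ℤ := ((2 ^ (v - 2) : ℕ) : ℤ) with hN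
  set M : ℤ := ((2 ^ b : ℕ) : ℤ) with hM
  set D : ℕ := 2 ^ (b - (v - 2)) with hD
  have hND : N * (D : ℤ) = M := by
    rw [hN, hD, hM]
    push_cast
    rw [← pow_add]
    congr 1
    omega
  have hchoice : ∀ y, ¬ NR v b (Fin.snoc (α := fun _ => ℕ) x y) → ∃ h : Fin (K + 1) → ℤ,
      (∀ k, |h k| < N) ∧ M ∣ ∑ k, h k ∧
      M ∣ ∑ k, h k * (ind b (Fin.snoc (α := fun _ => ℕ) x y k) : ℤ) ∧ h ≠ 0 := by
    intro y hy
    unfold NR at hy
    push Not at hy
    obtain ⟨h, h1, h2, h3, h4⟩ := hy
    exact ⟨h, h1, h2, h3, h4⟩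
  let hh : ℕ → Fin (K + 1) → ℤ := fun y =>
    if hy : ¬ NR v b (Fin.snoc (α := fun _ => ℕ) x y) then (hchoice y hy).choose else 0
  have hspec : ∀ y, ¬ NR v b (Fin.snoc (α := fun _ => ℕ) x y) →
      (∀ k, |hh y k| < N) ∧ M ∣ ∑ k, hh y k ∧
      M ∣ ∑ k, hh y k * (ind b (Fin.snoc (α := fun _ => ℕ) x y k) : ℤ) ∧ hh y ≠ 0 := by
    intro y hy
    have : hh y = (hchoice y hy).choose := by
      show (if hy : ¬ NR v b (Fin.snoc (α := fun _ => ℕ) x y) then (hchoice y hy).choose
        else 0) = _
      rw [dif_pos hy]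
    rw [this]
    exact (hchoice y hy).choose_spec
  -- the last coefficient is nonzero
  have hlast : ∀ y, ¬ NR v b (Fin.snoc (α := fun _ => ℕ) x y) → hh y (Fin.last K) ≠ 0 := by
    intro y hy h0
    obtain ⟨s1, s2, s3, s4⟩ := hspec y hy
    apply s4
    rw [Fin.sum_univ_castSucc] at s2 s3
    rw [h0] at s2 s3
    simp only [Fin.snoc_castSucc, zero_mul, add_zero] at s2 s3
    have := hx (fun k => hh y k.castSucc) (fun k => s1 _) s2 s3
    funext k
    refine Fin.lastCases ?_ ?_ k
    · exact h0
    · intro i
      exact congrFun this i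
  -- the injection
  let T := (Fintype.piFinset (fun _ : Fin (K + 1) => Finset.Ioo (-N) N)) ×ˢ
    Finset.range (2 ^ (v - 2))
  have hmap : (S.filter (fun y => ¬ NR v b (Fin.snoc (α := fun _ => ℕ) x y))).card ≤ T.card := by
    apply Finset.card_le_card_of_injOn (fun y => (hh y, ind b y / D))
    · intro y hy
      have hy' : ¬ NR v b (Fin.snoc (α := fun _ => ℕ) x y) :=
        (Finset.mem_filter.mp (Finset.mem_coe.mp hy)).2
      obtain ⟨s1, -, -, -⟩ := hspec y hy'
      rw [Finset.mem_coe]
      refine Finset.mem_product.mpr ⟨?_, ?_⟩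
      · rw [Fintype.mem_piFinset]
        intro k
        rw [Finset.mem_Ioo]
        exact abs_lt.mp (s1 k)
      · rw [Finset.mem_range]
        show ind b y / D < 2 ^ (v - 2)
        rw [Nat.div_lt_iff_lt_mul (by positivity)]
        have h1 := ind_lt b y
        have h2 : 2 ^ (v - 2) * D = 2 ^ b := by
          rw [hD, ← pow_add]
          congr 1
          omega
        rw [h2]
        exact h1
    · intro y hy y' hy' heq
      have hyS := (Finset.mem_filter.mp (Finset.mem_coe.mp hy))
      have hyS' := (Finset.mem_filter.mp (Finset.mem_coe.mp hy'))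
      obtain ⟨s1, s2, s3, s4⟩ := hspec y hyS.2
      obtain ⟨s1', s2', s3', s4'⟩ := hspec y' hyS'.2
      have e1 : hh y = hh y' := (Prod.ext_iff.mp heq).1
      have e2 : ind b y / D = ind b y' / D := (Prod.ext_iff.mp heq).2
      rw [← e1] at s3'
      have hdiff := dvd_sub s3 s3'
      rw [Fin.sum_univ_castSucc, Fin.sum_univ_castSucc] at hdiff
      simp only [Fin.snoc_castSucc, Fin.snoc_last] at hdiff
      set d : ℤ := (ind b y : ℤ) - ind b y' with hd
      have hdv : M ∣ hh y (Fin.last K) * d := by
        have : (∑ i : Fin K, hh y i.castSucc * (ind b (x i) : ℤ) +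
            hh y (Fin.last K) * (ind b y : ℤ)) -
            (∑ i : Fin K, hh y i.castSucc * (ind b (x i) : ℤ) +
            hh y (Fin.last K) * (ind b y' : ℤ)) = hh y (Fin.last K) * d := by
          rw [hd]
          ring
        rw [this] at hdiff
        exact hdiff
      have hDpos : 0 < D := by positivity
      have hdabs : |d| < (D : ℤ) := by
        have a1 := Nat.div_add_mod (ind b y) D
        have a2 := Nat.div_add_mod (ind b y') D
        have b1 := Nat.mod_lt (ind b y) hDpos
        have b2 := Nat.mod_lt (ind b y') hDpos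
        rw [e2] at a1
        rw [abs_lt, hd]
        constructor
        · have : (ind b y' : ℤ) < ind b y + D := by
            have : ind b y' < ind b y + D := by omega
            exact_mod_cast this
          linarith
        · have : (ind b y : ℤ) < ind b y' + D := by
            have : ind b y < ind b y' + D := by omega
            exact_mod_cast this
          linarith
      have hne := hlast y hyS.2
      have hprod : |hh y (Fin.last K) * d| < M := by
        rw [abs_mul, ← hND]
        have h1 : |hh y (Fin.last K)| < N := s1 _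
        have h0 : 0 < |hh y (Fin.last K)| := abs_pos.mpr hne
        calc |hh y (Fin.last K)| * |d| ≤ |hh y (Fin.last K)| * D :=
              mul_le_mul_of_nonneg_left hdabs.le h0.le
          _ < N * D := mul_lt_mul_of_pos_right h1 (by exact_mod_cast hDpos)
      have hz := Int.eq_zero_of_abs_lt_dvd hdv hprod
      have hd0 : d = 0 := by
        rcases mul_eq_zero.mp hz with h | h
        · exact absurd h hne
        · exact h
      apply hinj y hyS.1 y' hyS'.1
      have : (ind b y : ℤ) = ind b y' := by
        rw [hd] at hd0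
        linarith
      exact_mod_cast this
  refine hmap.trans ?_
  show ((Fintype.piFinset (fun _ : Fin (K + 1) => Finset.Ioo (-N) N)) ×ˢ
    Finset.range (2 ^ (v - 2))).card ≤ _
  rw [Finset.card_product, Fintype.card_piFinset, Finset.card_range]
  simp only [Int.card_Ioo, Finset.prod_const, Finset.card_univ, Fintype.card_fin]
  have h1 : (N - -N - 1).toNat ≤ 2 ^ (v - 1) := by
    have : (N - -N - 1) ≤ ((2 ^ (v - 1) : ℕ) : ℤ) := by
      have e : ((2 ^ (v - 1) : ℕ) : ℤ) = 2 * N := by
        rw [hN]
        push_cast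
        rw [← pow_succ']
        congr 1
        omega
      rw [e]
      linarith
    rw [Int.toNat_le]
    exact this
  calc (N - -N - 1).toNat ^ (K + 1) * 2 ^ (v - 2) ≤ (2 ^ (v - 1)) ^ (K + 1) * 2 ^ (v - 2) :=
        Nat.mul_le_mul_right _ (Nat.pow_le_pow_left h1 _)
    _ = 2 ^ ((v - 1) * (K + 1) + (v - 2)) := by rw [← pow_mul, ← pow_add]
    _ ≤ 2 ^ (v * (K + 2)) := by
        apply Nat.pow_le_pow_right (by norm_num)
        have : (v - 1) * (K + 1) ≤ v * (K + 1) := Nat.mul_le_mul_right _ (by omega)
        have e : v * (K + 2) = v * (K + 1) + v := by ring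
        omega

open Classical in
/-- A large set contains many tuples without relations. -/
theorem many_NR {v b : ℕ} (hw : 3 ≤ v) (hvb : v ≤ b) (S : Finset ℕ)
    (hinj : ∀ x ∈ S, ∀ y ∈ S, ind b x = ind b y → x = y) (K : ℕ)
    (hcard : 2 ^ (v * (K + 1) + 1) ≤ S.card) :
    ((S.card : ℝ) / 2) ^ K ≤
      (((Fintype.piFinset (fun _ : Fin K => S)).filter (fun x => NR v b x)).card : ℝ) := by
  induction K with
  | zero =>
    have : ((Fintype.piFinset (fun _ : Fin 0 => S)).filter (fun x => NR v b x)).Nonempty := by
      refine ⟨Fin.elim0, ?_⟩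
      rw [Finset.mem_filter]
      refine ⟨?_, ?_⟩
      · rw [Fintype.mem_piFinset]
        intro k
        exact k.elim0
      · intro h _ _ _
        funext k
        exact k.elim0
    have h1 := Finset.card_pos.mpr this
    simp only [pow_zero]
    exact_mod_cast h1
  | succ K ih =>
    have hmono : 2 ^ (v * (K + 1) + 1) ≤ S.card := by
      refine le_trans (Nat.pow_le_pow_right (by norm_num) ?_) hcard
      have : v * (K + 1) ≤ v * (K + 1 + 1) := Nat.mul_le_mul_left _ (by omega)
      omega
    have ihK := ih hmono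
    set G := (Fintype.piFinset (fun _ : Fin K => S)).filter (fun x => NR v b x) with hG
    set G' := (Fintype.piFinset (fun _ : Fin (K + 1) => S)).filter (fun x => NR v b x) with hG'
    -- good extensions
    have hext : ∀ x ∈ G, (S.card : ℝ) / 2 ≤
        ((S.filter (fun y => NR v b (Fin.snoc (α := fun _ => ℕ) x y))).card : ℝ) := by
      intro x hx
      have hxNR := (Finset.mem_filter.mp hx).2
      have hb := bad_card hw hvb S hinj x hxNR
      have hsum := Finset.card_filter_add_card_filter_not (s := S)
        (fun y => NR v b (Fin.snoc (α := fun _ => ℕ) x y))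
      have hb' : 2 * 2 ^ (v * (K + 2)) ≤ S.card := by
        calc 2 * 2 ^ (v * (K + 2)) = 2 ^ (v * (K + 1 + 1) + 1) := by
              rw [pow_succ]
              ring
          _ ≤ S.card := hcard
      have : S.card ≤ 2 * (S.filter (fun y => NR v b (Fin.snoc (α := fun _ => ℕ) x y))).card := by
        omega
      have h2 : (S.card : ℝ) ≤ 2 *
          ((S.filter (fun y => NR v b (Fin.snoc (α := fun _ => ℕ) x y))).card : ℝ) := by
        exact_mod_cast this
      linarith
    -- the injection
    have hcardle : (∑ x ∈ G, (S.filter (fun y => NR v b (Fin.snoc (α := fun _ => ℕ) x y))).card) ≤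
        G'.card := by
      rw [← Finset.card_sigma]
      apply Finset.card_le_card_of_injOn
        (fun p : (Σ _ : (Fin K → ℕ), ℕ) => (Fin.snoc (α := fun _ => ℕ) p.1 p.2 : Fin (K + 1) → ℕ))
      · intro p hp
        have hp' := Finset.mem_sigma.mp (Finset.mem_coe.mp hp)
        have hp1 := Finset.mem_filter.mp hp'.1
        have hp2 := Finset.mem_filter.mp hp'.2
        rw [Finset.mem_coe, hG', Finset.mem_filter]
        refine ⟨?_, hp2.2⟩
        rw [Fintype.mem_piFinset]
        intro k
        refine Fin.lastCases ?_ ?_ k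
        · show (Fin.snoc (α := fun _ => ℕ) p.fst p.snd : Fin (K + 1) → ℕ) (Fin.last K) ∈ S
          rw [Fin.snoc_last]
          exact hp2.1
        · intro i
          show (Fin.snoc (α := fun _ => ℕ) p.fst p.snd : Fin (K + 1) → ℕ) i.castSucc ∈ S
          rw [Fin.snoc_castSucc]
          exact Fintype.mem_piFinset.mp hp1.1 i
      · rintro ⟨x, y⟩ _ ⟨x', y'⟩ _ heq
        simp only at heq
        have h1 : x = x' := by
          funext k
          have := congrFun heq k.castSucc
          rwa [Fin.snoc_castSucc, Fin.snoc_castSucc] at this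
        have h2 : y = y' := by
          have := congrFun heq (Fin.last K)
          rwa [Fin.snoc_last, Fin.snoc_last] at this
        subst h1 h2
        rfl
    calc ((S.card : ℝ) / 2) ^ (K + 1) = ((S.card : ℝ) / 2) ^ K * ((S.card : ℝ) / 2) := pow_succ _ _
      _ ≤ (G.card : ℝ) * ((S.card : ℝ) / 2) :=
          mul_le_mul_of_nonneg_right ihK (by positivity)
      _ = ∑ _x ∈ G, ((S.card : ℝ) / 2) := by rw [Finset.sum_const, nsmul_eq_mul]
      _ ≤ ∑ x ∈ G, ((S.filter (fun y => NR v b (Fin.snoc (α := fun _ => ℕ) x y))).card : ℝ) :=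
          Finset.sum_le_sum hext
      _ ≤ (G'.card : ℝ) := by exact_mod_cast hcardle

end Pool.Agent.Helper83.ET
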