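import Mathlib

/-!
# The discrete logarithm to base 5 modulo powers of 2

`ind l x` is the exponent `k < 2 ^ l` with `5 ^ k = x` modulo `2 ^ (l + 2)`
(for `x` congruent to 1 modulo 4).
-/

namespace Pool.Agent.Helper83.ET

open Finset

/-- Existence of the discrete logarithm. -/
theorem exists_ind (l x : ℕ) (hx : x % 4 = 1) :
    ∃ k, k < 2 ^ l ∧ 5 ^ k ≡ x [MOD 2 ^ (l + 2)] := by
  classical
  set M := 2 ^ (l + 2) with hM
  have : NeZero M := ⟨by positivity⟩
  -- the powers of 5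
  let f : Fin (2 ^ l) → ZMod M := fun k => 5 ^ (k : ℕ)
  have hord : orderOf (5 : ZMod M) = 2 ^ l := ZMod.orderOf_five l
  have hinj : Function.Injective f := by
    intro a b hab
    have h := pow_injOn_Iio_orderOf (x := (5 : ZMod M))
      (show (a : ℕ) ∈ Set.Iio (orderOf (5 : ZMod M)) by rw [hord]; exact a.2)
      (show (b : ℕ) ∈ Set.Iio (orderOf (5 : ZMod M)) by rw [hord]; exact b.2) hab
    exact Fin.ext h
  -- the residues congruent to 1 modulo 4
  let S : Finset (ZMod M) := (Finset.range (2 ^ l)).image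
    (fun k => ((4 * k + 1 : ℕ) : ZMod M))
  have hcardS : S.card ≤ 2 ^ l := by
    calc S.card ≤ (Finset.range (2 ^ l)).card := Finset.card_image_le
      _ = 2 ^ l := by simp
  have hfS : ∀ k, f k ∈ S := by
    intro k
    have h4 : (5 ^ (k : ℕ)) % 4 = 1 := by
      rw [Nat.pow_mod]; simp
    have h4M : 4 ∣ M := ⟨2 ^ l, by rw [hM, pow_add]; ring⟩
    set r := (5 ^ (k : ℕ)) % M with hr
    have hr4 : r % 4 = 1 := by
      rw [hr, Nat.mod_mod_of_dvd _ h4M, h4]
    have hrM : r < M := Nat.mod_lt _ (NeZero.pos M)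
    have hq : r / 4 < 2 ^ l := by
      have : M = 4 * 2 ^ l := by rw [hM, pow_add]; ring
      omega
    refine Finset.mem_image.mpr ⟨r / 4, Finset.mem_range.mpr hq, ?_⟩
    have e : 4 * (r / 4) + 1 = r := by omega
    show ((4 * (r / 4) + 1 : ℕ) : ZMod M) = 5 ^ (k : ℕ)
    rw [e, hr, ZMod.natCast_mod]
    push_cast
    rfl
  have himg : (Finset.univ.image f) = S := by
    apply Finset.eq_of_subset_of_card_le
    · intro y hy
      obtain ⟨k, -, rfl⟩ := Finset.mem_image.mp hy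
      exact hfS k
    · rw [Finset.card_image_of_injective _ hinj]
      simpa using hcardS
  have hxS : ((x : ℕ) : ZMod M) ∈ S := by
    have h4M : 4 ∣ M := ⟨2 ^ l, by rw [hM, pow_add]; ring⟩
    set r := x % M with hr
    have hr4 : r % 4 = 1 := by
      rw [hr, Nat.mod_mod_of_dvd _ h4M, hx]
    have hrM : r < M := Nat.mod_lt _ (NeZero.pos M)
    have hq : r / 4 < 2 ^ l := by
      have : M = 4 * 2 ^ l := by rw [hM, pow_add]; ring
      omega
    refine Finset.mem_image.mpr ⟨r / 4, Finset.mem_range.mpr hq, ?_⟩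
    have e : 4 * (r / 4) + 1 = r := by omega
    show ((4 * (r / 4) + 1 : ℕ) : ZMod M) = _
    rw [e, hr, ZMod.natCast_mod]
  rw [← himg] at hxS
  obtain ⟨k, -, hk⟩ := Finset.mem_image.mp hxS
  refine ⟨k, k.2, ?_⟩
  rw [← ZMod.natCast_eq_natCast_iff]
  push_cast
  exact hk

open Classical in
/-- The discrete logarithm of `x` to base 5 modulo `2 ^ (l + 2)`. -/
noncomputable def ind (l x : ℕ) : ℕ :=
  if h : ∃ k, k < 2 ^ l ∧ 5 ^ k ≡ x [MOD 2 ^ (l + 2)] then Nat.find h else 0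

theorem ind_lt (l x : ℕ) : ind l x < 2 ^ l := by
  classical
  unfold ind
  split_ifs with h
  · exact (Nat.find_spec h).1
  · positivity

theorem ind_spec (l x : ℕ) (hx : x % 4 = 1) :
    5 ^ ind l x ≡ x [MOD 2 ^ (l + 2)] := by
  classical
  unfold ind
  rw [dif_pos (exists_ind l x hx)]
  exact (Nat.find_spec (exists_ind l x hx)).2

/-- Powers of 5 are equal modulo `2 ^ (l + 2)` iff the exponents are equal modulo `2 ^ l`. -/
theorem five_pow_modEq_iff (l a b : ℕ) :
    5 ^ a ≡ 5 ^ b [MOD 2 ^ (l + 2)] ↔ a ≡ b [MOD 2 ^ l] := by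
  have h1 : 5 ^ a ≡ 5 ^ b [MOD 2 ^ (l + 2)] ↔
      ((5 : ZMod (2 ^ (l + 2))) ^ a = 5 ^ b) := by
    rw [← ZMod.natCast_eq_natCast_iff]
    push_cast
    rfl
  rw [h1]
  have hu : IsUnit (5 : ZMod (2 ^ (l + 2))) := by
    have : ((5 : ℕ) : ZMod (2 ^ (l + 2))) = 5 := by norm_num
    rw [← this, ZMod.isUnit_iff_coprime]
    exact Nat.Coprime.pow_right _ (by norm_num)
  obtain ⟨u, hu⟩ := hu
  have hou : orderOf u = 2 ^ l := by
    rw [← orderOf_units, hu]
    exact ZMod.orderOf_five l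
  rw [← hu, ← Units.val_pow_eq_pow_val, ← Units.val_pow_eq_pow_val, Units.val_inj,
    pow_eq_pow_iff_modEq, hou]

theorem ind_modEq_iff (l x y : ℕ) (hx : x % 4 = 1) (hy : y % 4 = 1) :
    ind l x = ind l y ↔ x ≡ y [MOD 2 ^ (l + 2)] := by
  constructor
  · intro h
    have h1 := ind_spec l x hx
    have h2 := ind_spec l y hy
    rw [h] at h1
    exact h1.symm.trans h2
  · intro h
    have h1 := ind_spec l x hx
    have h2 := ind_spec l y hy
    have h3 : 5 ^ ind l x ≡ 5 ^ ind l y [MOD 2 ^ (l + 2)] := (h1.trans h).trans h2.symm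
    rw [five_pow_modEq_iff] at h3
    exact Nat.ModEq.eq_of_lt_of_lt h3 (ind_lt _ _) (ind_lt _ _)

/-- Coherence: the discrete logarithms at different levels agree. -/
theorem ind_mod (l l' x : ℕ) (h : l' ≤ l) (hx : x % 4 = 1) :
    ind l x % 2 ^ l' = ind l' x := by
  have h1 := ind_spec l x hx
  have h2 := ind_spec l' x hx
  have h1' : 5 ^ ind l x ≡ x [MOD 2 ^ (l' + 2)] := h1.of_dvd (pow_dvd_pow _ (by omega))
  have h3 : 5 ^ ind l x ≡ 5 ^ ind l' x [MOD 2 ^ (l' + 2)] := h1'.trans h2.symm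
  rw [five_pow_modEq_iff] at h3
  rw [h3, Nat.mod_eq_of_lt (ind_lt _ _)]

/-- The logarithm of a product. -/
theorem ind_mul (l x y : ℕ) (hx : x % 4 = 1) (hy : y % 4 = 1) :
    ind l (x * y) ≡ ind l x + ind l y [MOD 2 ^ l] := by
  have hxy : (x * y) % 4 = 1 := by rw [Nat.mul_mod, hx, hy]
  have h1 := ind_spec l x hx
  have h2 := ind_spec l y hy
  have h3 := ind_spec l (x * y) hxy
  have h4 : 5 ^ ind l (x * y) ≡ 5 ^ (ind l x + ind l y) [MOD 2 ^ (l + 2)] := by
    rw [pow_add 5]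
    exact h3.trans (h1.mul h2).symm
  rwa [five_pow_modEq_iff] at h4

/-- Sums of logarithms determine products. -/
theorem mul_modEq_iff (l x y x' y' : ℕ) (hx : x % 4 = 1) (hy : y % 4 = 1)
    (hx' : x' % 4 = 1) (hy' : y' % 4 = 1) :
    ind l x + ind l x' ≡ ind l y + ind l y' [MOD 2 ^ l] ↔
      x * x' ≡ y * y' [MOD 2 ^ (l + 2)] := by
  have a1 : (x * x') % 4 = 1 := by rw [Nat.mul_mod, hx, hx']
  have a2 : (y * y') % 4 = 1 := by rw [Nat.mul_mod, hy, hy']
  rw [← ind_modEq_iff l _ _ a1 a2]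
  have b1 := ind_mul l x x' hx hx'
  have b2 := ind_mul l y y' hy hy'
  constructor
  · intro h
    exact Nat.ModEq.eq_of_lt_of_lt ((b1.trans h).trans b2.symm) (ind_lt _ _) (ind_lt _ _)
  · intro h
    exact (b1.symm.trans (by rw [h])).trans b2

end Pool.Agent.Helper83.ET
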