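import Pool.Agent.Helper83.ET.Code

/-!
# Linearity of the code on a short block above a known part
-/

namespace Pool.Agent.Helper83.ET

open Finset

/-- The logarithm of `1 + 2 ^ (L + 2) * j`. -/
theorem ind_one_add {L W : ℕ} (hWL : W ≤ L) (j : ℕ) :
    ind (L + W) (1 + 2 ^ (L + 2) * j) ≡ j * ind (L + W) (1 + 2 ^ (L + 2)) [MOD 2 ^ (L + W)] := by
  have h4 : ∀ i : ℕ, (1 + 2 ^ (L + 2) * i) % 4 = 1 := by
    intro i
    have : 2 ^ (L + 2) * i = 4 * (2 ^ L * i) := by rw [pow_add]; ring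
    rw [this]
    omega
  have h4' : (1 + 2 ^ (L + 2)) % 4 = 1 := by
    have := h4 1
    rwa [mul_one] at this
  induction j with
  | zero =>
    have h1 : ind (L + W) (1 + 2 ^ (L + 2) * 0) = 0 := by
      have h2 := (ind_mul (L + W) 1 1 (by norm_num) (by norm_num))
      rw [mul_one] at h2
      have h3 : 0 ≡ ind (L + W) 1 [MOD 2 ^ (L + W)] := by
        have : 0 + ind (L + W) 1 ≡ ind (L + W) 1 + ind (L + W) 1 [MOD 2 ^ (L + W)] := by
          rw [zero_add]
          exact h2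
        exact Nat.ModEq.add_right_cancel' _ this
      rw [mul_zero, add_zero]
      exact (Nat.ModEq.eq_of_lt_of_lt h3 (by positivity) (ind_lt _ _)).symm
    rw [h1, zero_mul]
  | succ j ih =>
    have e1 : (1 + 2 ^ (L + 2) * (j + 1)) ≡ (1 + 2 ^ (L + 2) * j) * (1 + 2 ^ (L + 2))
        [MOD 2 ^ (L + W + 2)] := by
      have : (1 + 2 ^ (L + 2) * j) * (1 + 2 ^ (L + 2)) =
          (1 + 2 ^ (L + 2) * (j + 1)) + 2 ^ (L + 2) * 2 ^ (L + 2) * j := by ring
      rw [this]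
      have h0 : 2 ^ (L + 2) * 2 ^ (L + 2) * j ≡ 0 [MOD 2 ^ (L + W + 2)] := by
        rw [Nat.modEq_zero_iff_dvd, ← pow_add]
        exact Dvd.dvd.mul_right (pow_dvd_pow _ (by omega)) _
      simpa using (h0.symm.add_left (1 + 2 ^ (L + 2) * (j + 1)))
    have e2 := (ind_modEq_iff (L + W) _ _ (h4 (j + 1)) (by
      rw [Nat.mul_mod, h4 j, h4'])).mpr e1
    rw [e2]
    refine (ind_mul (L + W) _ _ (h4 j) h4').trans ?_
    rw [add_mul, one_mul]
    exact ih.add_right _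

/-- `ind (1 + 2 ^ (L + 2))` is `2 ^ L` times an odd number. -/
theorem ind_one_add_pow {L W : ℕ} (hW : 1 ≤ W) :
    ∃ c, c % 2 = 1 ∧ ind (L + W) (1 + 2 ^ (L + 2)) = 2 ^ L * c := by
  have h4 : (1 + 2 ^ (L + 2)) % 4 = 1 := by
    have : 2 ^ (L + 2) = 4 * 2 ^ L := by rw [pow_add]; ring
    rw [this]
    omega
  have hone : ∀ l, ind l 1 = 0 := by
    intro l
    have h2 := (ind_mul l 1 1 (by norm_num) (by norm_num))
    rw [mul_one] at h2
    have h3 : 0 ≡ ind l 1 [MOD 2 ^ l] := by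
      have : 0 + ind l 1 ≡ ind l 1 + ind l 1 [MOD 2 ^ l] := by
        rw [zero_add]
        exact h2
      exact Nat.ModEq.add_right_cancel' _ this
    exact (Nat.ModEq.eq_of_lt_of_lt h3 (by positivity) (ind_lt _ _)).symm
  have h1 : ind (L + W) (1 + 2 ^ (L + 2)) % 2 ^ L = 0 := by
    rw [ind_mod (L + W) L _ (by omega) h4]
    have : ind L (1 + 2 ^ (L + 2)) = ind L 1 := by
      rw [ind_modEq_iff L _ _ h4 (by norm_num)]
      simp [Nat.ModEq]
    rw [this, hone]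
  obtain ⟨c, hc⟩ := Nat.dvd_of_mod_eq_zero h1
  refine ⟨c, ?_, hc⟩
  by_contra hodd
  have hc2 : c % 2 = 0 := by omega
  obtain ⟨d, hd⟩ := Nat.dvd_of_mod_eq_zero hc2
  have h3 : ind (L + W) (1 + 2 ^ (L + 2)) % 2 ^ (L + 1) = 0 := by
    rw [hc, hd]
    apply Nat.mod_eq_zero_of_dvd
    refine ⟨d, ?_⟩
    rw [pow_succ]
    ring
  rw [ind_mod (L + W) (L + 1) _ (by omega) h4] at h3
  have h5 : ind (L + 1) (1 + 2 ^ (L + 2)) = ind (L + 1) 1 := by rw [h3, hone]
  rw [ind_modEq_iff (L + 1) _ _ h4 (by norm_num)] at h5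
  have h6 : 1 + 2 ^ (L + 2) < 2 ^ (L + 1 + 2) := by
    have h7 : 2 ^ (L + 1 + 2) = 2 * 2 ^ (L + 2) := by
      rw [show L + 1 + 2 = (L + 2) + 1 by ring, pow_succ]
      ring
    have h8 : 4 ≤ 2 ^ (L + 2) := by
      rw [pow_add]
      have : 1 ≤ 2 ^ L := Nat.one_le_two_pow
      omega
    omega
  have h7 := Nat.ModEq.eq_of_lt_of_lt h5 h6 (by
    calc 1 < 2 ^ 1 := by norm_num
      _ ≤ 2 ^ (L + 1 + 2) := Nat.pow_le_pow_right (by norm_num) (by omega))
  have : 0 < 2 ^ (L + 2) := by positivity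
  omega

/-- The logarithm is affine on progressions of difference `2 ^ (L + 2)`. -/
theorem ind_affine {L W : ℕ} (hWL : W ≤ L) (hW : 1 ≤ W) (G : ℕ) (hG : G % 4 = 1) :
    ∃ c, c % 2 = 1 ∧ ∀ j, ind (L + W) (G + 2 ^ (L + 2) * j) ≡
      ind (L + W) G + 2 ^ L * (c * j) [MOD 2 ^ (L + W)] := by
  obtain ⟨c0, hc0, hc0'⟩ := ind_one_add_pow (L := L) (W := W) hW
  -- an inverse of `G`
  obtain ⟨u, hu⟩ : ∃ u, G * u ≡ 1 [MOD 2 ^ (L + W + 2)] := by
    have hcop : Nat.Coprime G (2 ^ (L + W + 2)) := by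
      apply Nat.Coprime.pow_right
      rw [Nat.coprime_two_right, Nat.odd_iff]
      omega
    obtain ⟨u, hu⟩ := Nat.exists_mul_mod_eq_one_of_coprime hcop (by
      calc 1 < 2 ^ 1 := by norm_num
        _ ≤ 2 ^ (L + W + 2) := Nat.pow_le_pow_right (by norm_num) (by omega))
    refine ⟨u, ?_⟩
    rw [Nat.ModEq, hu.2, Nat.mod_eq_of_lt]
    calc 1 < 2 ^ 1 := by norm_num
      _ ≤ 2 ^ (L + W + 2) := Nat.pow_le_pow_right (by norm_num) (by omega)
  have huodd : u % 2 = 1 := by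
    have h1 : G * u ≡ 1 [MOD 2] := hu.of_dvd (dvd_pow_self 2 (by omega))
    have h2 : G * u % 2 = 1 := h1
    rw [Nat.mul_mod] at h2
    have h3 : G % 2 = 1 := by omega
    rw [h3] at h2
    omega
  refine ⟨u * c0, by rw [Nat.mul_mod, huodd, hc0], ?_⟩
  intro j
  have h4 : ∀ i : ℕ, (1 + 2 ^ (L + 2) * i) % 4 = 1 := by
    intro i
    have : 2 ^ (L + 2) * i = 4 * (2 ^ L * i) := by rw [pow_add]; ring
    rw [this]
    omega
  have e1 : G + 2 ^ (L + 2) * j ≡ G * (1 + 2 ^ (L + 2) * (u * j)) [MOD 2 ^ (L + W + 2)] := by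
    have : G * (1 + 2 ^ (L + 2) * (u * j)) = G + 2 ^ (L + 2) * j * (G * u) := by ring
    rw [this]
    have h5 := (hu.symm.mul_left (2 ^ (L + 2) * j)).add_left G
    rw [mul_one] at h5
    exact h5
  have hGj : (G + 2 ^ (L + 2) * j) % 4 = 1 := by
    have : 2 ^ (L + 2) * j = 4 * (2 ^ L * j) := by rw [pow_add]; ring
    rw [this]
    omega
  have e2 := (ind_modEq_iff (L + W) _ _ hGj (by rw [Nat.mul_mod, hG, h4])).mpr e1
  rw [e2]
  refine (ind_mul (L + W) _ _ hG (h4 _)).trans ?_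
  have e3 := (ind_one_add (W := W) hWL (u * j)).add_left (ind (L + W) G)
  refine e3.trans ?_
  rw [hc0', show u * j * (2 ^ L * c0) = 2 ^ L * (u * c0 * j) by ring]

variable {β m f : ℕ → ℕ}

/-- The difference between code and logarithm, in sums of two, depends only on classes and the
low part of the product. -/
theorem P_add_sub_ind (hβ : StrictMono β) {L N l l' x x' y y' : ℕ}
    (hgap : ∀ i, 1 ≤ i → β i ≤ L ∨ N ≤ β i) (hl : N ≤ l) (hl' : N ≤ l')
    (hx : x % 4 = 1) (hx' : x' % 4 = 1) (hy : y % 4 = 1) (hy' : y' % 4 = 1)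
    (hc : ∀ j, 1 ≤ j → β j ≤ L → cls β m f j x = cls β m f j y)
    (hc' : ∀ j, 1 ≤ j → β j ≤ L → cls β m f j x' = cls β m f j y')
    (h : x * x' ≡ y * y' [MOD 2 ^ (L + 2)]) :
    P β m f l x + P β m f l' x' + ind N (y * y') ≡
      P β m f l y + P β m f l' y' + ind N (x * x') [MOD 2 ^ N] := by
  have hind : ind L x + ind L x' ≡ ind L y + ind L y' [MOD 2 ^ L] :=
    (mul_modEq_iff L x y x' y' hx hy hx' hy').mpr h
  have hterm : ∀ i, 2 ^ (β (i + 1)) * tau β m f (i + 1) x +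
      2 ^ (β (i + 1)) * tau β m f (i + 1) x' ≡
      2 ^ (β (i + 1)) * tau β m f (i + 1) y +
      2 ^ (β (i + 1)) * tau β m f (i + 1) y' [MOD 2 ^ N] := by
    intro i
    rcases hgap (i + 1) (by omega) with hi | hi
    · have h0 : ind (β (i + 1)) x + ind (β (i + 1)) x' ≡
          ind (β (i + 1)) y + ind (β (i + 1)) y' [MOD 2 ^ (β (i + 1))] := by
        have b1 := ind_modEq_ind L (β (i + 1)) x hi hx
        have b2 := ind_modEq_ind L (β (i + 1)) x' hi hx'
        have b3 := ind_modEq_ind L (β (i + 1)) y hi hy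
        have b4 := ind_modEq_ind L (β (i + 1)) y' hi hy'
        exact ((b1.add b2).symm.trans (hind.of_dvd (pow_dvd_pow _ hi))).trans (b3.add b4)
      have := tau_add_eq (hc _ (by omega) hi) (hc' _ (by omega) hi) h0
      rw [← mul_add, ← mul_add, this]
    · have hz : ∀ z, 2 ^ (β (i + 1)) * tau β m f (i + 1) z ≡ 0 [MOD 2 ^ N] := by
        intro z
        rw [Nat.modEq_zero_iff_dvd]
        exact Dvd.dvd.mul_right (pow_dvd_pow _ hi) _
      exact ((hz x).add (hz x')).trans ((hz y).add (hz y')).symm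
  have hsum : ∀ n, (∑ i ∈ Finset.range n, 2 ^ (β (i + 1)) * tau β m f (i + 1) x) +
      (∑ i ∈ Finset.range n, 2 ^ (β (i + 1)) * tau β m f (i + 1) x') ≡
      (∑ i ∈ Finset.range n, 2 ^ (β (i + 1)) * tau β m f (i + 1) y) +
      (∑ i ∈ Finset.range n, 2 ^ (β (i + 1)) * tau β m f (i + 1) y') [MOD 2 ^ N] := by
    intro n
    rw [← Finset.sum_add_distrib, ← Finset.sum_add_distrib]
    induction n with
    | zero => rfl
    | succ n ihn =>
      rw [Finset.sum_range_succ, Finset.sum_range_succ]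
      exact ihn.add (hterm n)
  have hPk : ∀ (M z : ℕ), N ≤ M → z % 4 = 1 → P β m f M z ≡ ind N z +
      ∑ i ∈ Finset.range N, 2 ^ (β (i + 1)) * tau β m f (i + 1) z [MOD 2 ^ N] := by
    intro M z hM hz
    have h1 : P β m f M z ≡ ind M z +
        ∑ i ∈ Finset.range M, 2 ^ (β (i + 1)) * tau β m f (i + 1) z [MOD 2 ^ N] :=
      (P_modEq M z).of_dvd (pow_dvd_pow _ hM)
    exact h1.trans ((ind_modEq_ind M N z hM hz).add
      (sum_tau_modEq (m := m) (f := f) hβ M N z hM))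
  have h1 := (hPk l x hl hx).add (hPk l' x' hl' hx')
  have h2 := (hPk l y hl hy).add (hPk l' y' hl' hy')
  have h3 := ind_mul N x x' hx hx'
  have h4 := ind_mul N y y' hy hy'
  set Sx := ∑ i ∈ Finset.range N, 2 ^ (β (i + 1)) * tau β m f (i + 1) x
  set Sx' := ∑ i ∈ Finset.range N, 2 ^ (β (i + 1)) * tau β m f (i + 1) x'
  set Sy := ∑ i ∈ Finset.range N, 2 ^ (β (i + 1)) * tau β m f (i + 1) y
  set Sy' := ∑ i ∈ Finset.range N, 2 ^ (β (i + 1)) * tau β m f (i + 1) y'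
  have e1 : P β m f l x + P β m f l' x' + ind N (y * y') ≡
      (ind N x + Sx + (ind N x' + Sx')) + (ind N y + ind N y') [MOD 2 ^ N] := h1.add h4
  have e2 : P β m f l y + P β m f l' y' + ind N (x * x') ≡
      (ind N y + Sy + (ind N y' + Sy')) + (ind N x + ind N x') [MOD 2 ^ N] := h2.add h3
  have e3 : (ind N x + Sx + (ind N x' + Sx')) + (ind N y + ind N y') ≡
      (ind N y + Sy + (ind N y' + Sy')) + (ind N x + ind N x') [MOD 2 ^ N] := by
    have h5 := (hsum N).add_left (ind N x + ind N x' + (ind N y + ind N y'))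
    have a1 : (ind N x + Sx + (ind N x' + Sx')) + (ind N y + ind N y') =
        ind N x + ind N x' + (ind N y + ind N y') + (Sx + Sx') := by ring
    have a2 : (ind N y + Sy + (ind N y' + Sy')) + (ind N x + ind N x') =
        ind N x + ind N x' + (ind N y + ind N y') + (Sy + Sy') := by ring
    rw [a1, a2]
    exact h5
  exact (e1.trans e3).trans e2.symm

/-- **LIN.**  On pairs of variables with a given product modulo `2 ^ (L + 2)` the sum of the
code words modulo `2 ^ (L + W)` is an affine function, with odd slope, of the remaining part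
of the product. -/
theorem P_add_affine (hβ : StrictMono β) {L W l l' : ℕ} (hWL : W ≤ L) (hW : 1 ≤ W)
    (hgap : ∀ i, 1 ≤ i → β i ≤ L ∨ L + W ≤ β i) (hl : L + W ≤ l) (hl' : L + W ≤ l')
    (X X' : Finset ℕ) (hX : ∀ x ∈ X, x % 4 = 1) (hX' : ∀ x ∈ X', x % 4 = 1)
    (hc : ∀ x ∈ X, ∀ y ∈ X, ∀ j, 1 ≤ j → β j ≤ L → cls β m f j x = cls β m f j y)
    (hc' : ∀ x ∈ X', ∀ y ∈ X', ∀ j, 1 ≤ j → β j ≤ L → cls β m f j x = cls β m f j y)
    (G : ℕ) :
    ∃ c ν, c % 2 = 1 ∧ ∀ x ∈ X, ∀ x' ∈ X', x * x' % 2 ^ (L + 2) = G →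
      P β m f l x + P β m f l' x' ≡ ν + 2 ^ L * (c * (x * x' / 2 ^ (L + 2)))
        [MOD 2 ^ (L + W)] := by
  by_cases hex : ∃ y ∈ X, ∃ y' ∈ X', y * y' % 2 ^ (L + 2) = G
  swap
  · refine ⟨1, 0, by norm_num, ?_⟩
    intro x hx x' hx' h
    exact absurd ⟨x, hx, x', hx', h⟩ hex
  obtain ⟨y, hy, y', hy', hyG⟩ := hex
  have hy4 : (y * y') % 4 = 1 := by rw [Nat.mul_mod, hX y hy, hX' y' hy']
  have h4 : 4 ∣ 2 ^ (L + 2) := ⟨2 ^ L, by rw [pow_add]; ring⟩
  have hG4 : G % 4 = 1 := by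
    rw [← hyG, Nat.mod_mod_of_dvd _ h4, hy4]
  obtain ⟨c, hc1, hcG⟩ := ind_affine (W := W) hWL hW G hG4
  set M := 2 ^ (L + W) with hM
  -- the constant: `P y + P y' + (M - 1) * (ind (y y')) + ind G`
  refine ⟨c, P β m f l y + P β m f l' y' + (M - 1) * ind (L + W) (y * y') +
    ind (L + W) G, hc1, ?_⟩
  intro x hx x' hx' hxG
  have hprod : x * x' ≡ y * y' [MOD 2 ^ (L + 2)] := by
    rw [Nat.ModEq, hxG, hyG]
  have e1 := P_add_sub_ind hβ hgap hl hl' (hX x hx) (hX' x' hx') (hX y hy)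
    (hX' y' hy') (hc x hx y hy) (hc' x' hx' y' hy') hprod
  have e2 : ind (L + W) (x * x') ≡ ind (L + W) G +
      2 ^ L * (c * (x * x' / 2 ^ (L + 2))) [MOD M] := by
    have h5 := hcG (x * x' / 2 ^ (L + 2))
    have h6 : G + 2 ^ (L + 2) * (x * x' / 2 ^ (L + 2)) = x * x' := by
      rw [← hxG]
      exact Nat.mod_add_div _ _
    rwa [h6] at h5
  have hMpos : 0 < M := by positivity
  -- add `(M - 1) * ind (y y')` to both sides
  have e3 := e1.add_right ((M - 1) * ind (L + W) (y * y'))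
  have e4 : P β m f l x + P β m f l' x' + ind (L + W) (y * y') +
      (M - 1) * ind (L + W) (y * y') = P β m f l x + P β m f l' x' +
      M * ind (L + W) (y * y') := by
    obtain ⟨M', hM'⟩ : ∃ M', M = M' + 1 := ⟨M - 1, by omega⟩
    rw [hM']
    simp only [Nat.add_sub_cancel]
    ring
  rw [e4] at e3
  have e5 : P β m f l x + P β m f l' x' ≡ P β m f l x + P β m f l' x' +
      M * ind (L + W) (y * y') [MOD M] := by
    have h0 : M * ind (L + W) (y * y') ≡ 0 [MOD M] := by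
      rw [Nat.modEq_zero_iff_dvd]
      exact Dvd.intro _ rfl
    have h1 := h0.symm.add_left (P β m f l x + P β m f l' x')
    rwa [add_zero] at h1
  refine (e5.trans e3).trans ?_
  have e6 := (e2.add_left (P β m f l y + P β m f l' y')).add_right
    ((M - 1) * ind (L + W) (y * y'))
  refine e6.trans ?_
  have : P β m f l y + P β m f l' y' + (ind (L + W) G + 2 ^ L * (c * (x * x' / 2 ^ (L + 2)))) +
      (M - 1) * ind (L + W) (y * y') = P β m f l y + P β m f l' y' +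
      (M - 1) * ind (L + W) (y * y') + ind (L + W) G +
      2 ^ L * (c * (x * x' / 2 ^ (L + 2))) := by ring
  rw [this]

end Pool.Agent.Helper83.ET
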