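import Pool.Agent.Helper83.ET.Cut

/-!
# Hierarchical block boundaries

`lvlBeta w0 r C`: no twist on `[0, w0 * r)`; on `[w0 * r * C ^ i, w0 * r * C ^ (i + 1))` there
are `(C - 1) * r` blocks of width `w0 * C ^ i`.
-/

namespace Pool.Agent.Helper83.ET

open Finset

/-- The block boundaries. -/
def lvlBeta (w0 r C : ℕ) : ℕ → ℕ := fun n =>
  if n = 0 then 0 else w0 * C ^ ((n - 1) / ((C - 1) * r)) * (r + (n - 1) % ((C - 1) * r))

theorem lvlBeta_zero (w0 r C : ℕ) : lvlBeta w0 r C 0 = 0 := by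
  unfold lvlBeta
  simp

theorem lvlBeta_succ (w0 r C n : ℕ) : lvlBeta w0 r C (n + 1) =
    w0 * C ^ (n / ((C - 1) * r)) * (r + n % ((C - 1) * r)) := by
  unfold lvlBeta
  rw [if_neg (by omega), Nat.add_sub_cancel]

theorem lvlBeta_one (w0 r C : ℕ) : lvlBeta w0 r C 1 = w0 * r := by
  rw [lvlBeta_succ]
  simp

theorem lvlBeta_step {w0 r C : ℕ} (hr : 1 ≤ r) (hC : 2 ≤ C) (n : ℕ) :
    lvlBeta w0 r C (n + 2) = lvlBeta w0 r C (n + 1) + w0 * C ^ (n / ((C - 1) * r)) := by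
  have h1 := lvlBeta_succ w0 r C (n + 1)
  rw [show n + 1 + 1 = n + 2 by ring] at h1
  rw [h1, lvlBeta_succ]
  set N := (C - 1) * r with hN
  have hNpos : 0 < N := by
    rw [hN]
    apply Nat.mul_pos <;> omega
  have hm := Nat.mod_lt n hNpos
  have hdm := Nat.div_add_mod n N
  rcases Nat.lt_or_ge (n % N + 1) N with h | h
  · have e1 : (n + 1) / N = n / N := by
      rw [Nat.div_eq_iff hNpos]
      constructor
      · calc n / N * N = N * (n / N) := Nat.mul_comm _ _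
          _ ≤ n + 1 := by omega
      · have : n / N * N = N * (n / N) := Nat.mul_comm _ _
        omega
    have e2 : (n + 1) % N = n % N + 1 := by
      rw [Nat.add_mod, Nat.mod_eq_of_lt (show 1 < N by omega), Nat.mod_eq_of_lt h]
    rw [e1, e2]
    ring
  · have hm' : n % N = N - 1 := by omega
    have e1 : (n + 1) = N * (n / N + 1) := by
      rw [Nat.mul_add, Nat.mul_one]
      omega
    have e2 : (n + 1) / N = n / N + 1 := by
      rw [e1, Nat.mul_div_cancel_left _ hNpos]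
    have e3 : (n + 1) % N = 0 := by
      rw [e1, Nat.mul_mod_right]
    rw [e2, e3, hm']
    have e4 : r + (N - 1) + 1 = C * r := by
      have : r + N = C * r := by
        rw [hN]
        obtain ⟨D, rfl⟩ : ∃ D, C = D + 1 := ⟨C - 1, by omega⟩
        simp only [Nat.add_sub_cancel]
        ring
      omega
    calc w0 * C ^ (n / N + 1) * (r + 0) = w0 * C ^ (n / N) * (C * r) := by ring
      _ = w0 * C ^ (n / N) * (r + (N - 1) + 1) := by rw [e4]
      _ = _ := by ring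

theorem lvlBeta_strictMono {w0 r C : ℕ} (hw : 1 ≤ w0) (hr : 1 ≤ r) (hC : 2 ≤ C) :
    StrictMono (lvlBeta w0 r C) := by
  apply strictMono_nat_of_lt_succ
  intro n
  rcases Nat.eq_zero_or_pos n with h | h
  · subst h
    rw [lvlBeta_zero, lvlBeta_one]
    exact Nat.mul_pos (by omega) (by omega)
  · obtain ⟨n', rfl⟩ : ∃ n', n = n' + 1 := ⟨n - 1, by omega⟩
    rw [lvlBeta_step hr hC]
    have : 0 < w0 * C ^ (n' / ((C - 1) * r)) := by positivity
    omega

theorem wd_lvlBeta {w0 r C : ℕ} (hr : 1 ≤ r) (hC : 2 ≤ C) (n : ℕ) :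
    wd (lvlBeta w0 r C) (n + 1) = w0 * C ^ (n / ((C - 1) * r)) := by
  unfold wd
  rw [show n + 1 + 1 = n + 2 by ring, lvlBeta_step hr hC]
  omega

/-- All boundaries are multiples of `w0`. -/
theorem dvd_lvlBeta (w0 r C n : ℕ) : w0 ∣ lvlBeta w0 r C n := by
  unfold lvlBeta
  split_ifs
  · exact dvd_zero _
  · rw [mul_assoc]
    exact Dvd.intro _ rfl

theorem lvlBeta_gap {w0 r C W L : ℕ} (hW : W ∣ w0) (hL : W ∣ L) (n : ℕ) :
    lvlBeta w0 r C n ≤ L ∨ L + W ≤ lvlBeta w0 r C n := by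
  rcases Nat.lt_or_ge L (lvlBeta w0 r C n) with h | h
  · right
    obtain ⟨c, hc⟩ := hW.trans (dvd_lvlBeta w0 r C n)
    obtain ⟨d, hd⟩ := hL
    rw [hc, hd] at h ⊢
    have h2 : d < c := by
      by_contra hcon
      push Not at hcon
      have := Nat.mul_le_mul_left W hcon
      omega
    calc W * d + W = W * (d + 1) := by ring
      _ ≤ W * c := Nat.mul_le_mul_left _ h2
  · exact Or.inl h

/-- The blocks around `[w0 r C ^ i, w0 r C ^ (i + 1)]`. -/
theorem wd_lvlBeta_of {w0 r C i : ℕ} (hr : 1 ≤ r) (hC : 2 ≤ C) {j : ℕ} (hj : 1 ≤ j)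
    (h1 : w0 * r * C ^ i < lvlBeta w0 r C (j + 1))
    (h2 : lvlBeta w0 r C j < w0 * r * C ^ (i + 1)) :
    wd (lvlBeta w0 r C) j = w0 * C ^ i := by
  obtain ⟨n, rfl⟩ : ∃ n, j = n + 1 := ⟨j - 1, by omega⟩
  rw [wd_lvlBeta hr hC]
  set N := (C - 1) * r with hN
  have hNpos : 0 < N := by
    rw [hN]
    apply Nat.mul_pos <;> omega
  have hm := Nat.mod_lt n hNpos
  have e4 : r + N = C * r := by
    rw [hN]
    obtain ⟨D, rfl⟩ : ∃ D, C = D + 1 := ⟨C - 1, by omega⟩
    simp only [Nat.add_sub_cancel]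
    ring
  have hge : i ≤ n / N := by
    by_contra hcon
    push Not at hcon
    rw [show n + 1 + 1 = n + 2 by ring, lvlBeta_step hr hC, lvlBeta_succ, ← hN] at h1
    have h3 : w0 * C ^ (n / N) * (r + n % N) + w0 * C ^ (n / N) ≤ w0 * r * C ^ i := by
      calc w0 * C ^ (n / N) * (r + n % N) + w0 * C ^ (n / N)
          = w0 * C ^ (n / N) * (r + n % N + 1) := by ring
        _ ≤ w0 * C ^ (n / N) * (C * r) := Nat.mul_le_mul_left _ (by omega)
        _ = w0 * r * C ^ (n / N + 1) := by ring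
        _ ≤ w0 * r * C ^ i := Nat.mul_le_mul_left _ (Nat.pow_le_pow_right (by omega) hcon)
    omega
  have hle : n / N ≤ i := by
    by_contra hcon
    push Not at hcon
    rw [lvlBeta_succ, ← hN] at h2
    have h3 : w0 * r * C ^ (i + 1) ≤ w0 * C ^ (n / N) * (r + n % N) := by
      calc w0 * r * C ^ (i + 1) ≤ w0 * r * C ^ (n / N) :=
            Nat.mul_le_mul_left _ (Nat.pow_le_pow_right (by omega) hcon)
        _ = w0 * C ^ (n / N) * r := by ring
        _ ≤ w0 * C ^ (n / N) * (r + n % N) := Nat.mul_le_mul_left _ (by omega)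
    omega
  rw [le_antisymm hle hge]

/-- The number of boundaries up to `w0 r C ^ i`. -/
theorem le_of_lvlBeta_le {w0 r C i : ℕ} (hw : 1 ≤ w0) (hr : 1 ≤ r) (hC : 2 ≤ C) {j : ℕ}
    (h : lvlBeta w0 r C j ≤ w0 * r * C ^ i) : j ≤ i * ((C - 1) * r) + 1 := by
  by_contra hcon
  push Not at hcon
  have hmono := lvlBeta_strictMono hw hr hC hcon
  rw [lvlBeta_succ] at hmono
  have hNpos : 0 < (C - 1) * r := by
    apply Nat.mul_pos <;> omega
  rw [Nat.mul_div_cancel _ hNpos, Nat.mul_mod_left, add_zero] at hmono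
  have : w0 * C ^ i * r = w0 * r * C ^ i := by ring
  omega

open Classical in
/-- **ML2 for the hierarchical code.** -/
theorem exists_lvl_code {w0 r C E0 K : ℕ} (hw : 3 ≤ w0) (hr : 1 ≤ r) (hC : 2 ≤ C)
    (hE : w0 * (K + 1) + 1 ≤ E0) (hE' : 2 * (2 + 3 * (r * C) + 2 * w0) ≤ E0)
    (hK : 12 * (w0 * r * C) ≤ E0 * K) (Fm : ℕ → Finset (Finset ℕ))
    (hFm : ∀ l, (Fm l).card ≤ 2 ^ (2 * l))
    (hS : ∀ l, ∀ S ∈ Fm l, (∀ x ∈ S, x % 4 = 1 ∧ x < 2 ^ ((l + 1) / 2 + 2)) ∧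
      S.card ≤ 2 ^ ((l + 1) / 2)) (J : ℕ) :
    ∃ m f : ℕ → ℕ, ∀ i < J, ∀ l, 2 * (w0 * r * C ^ i) ≤ l → l ≤ w0 * r * C ^ (i + 1) →
      ∀ S ∈ Fm l, ∀ k ≤ l, ∀ t,
        (S.filter (fun x => P (lvlBeta w0 r C) m f l x / 2 ^ k = t)).card <
          2 ^ (E0 * C ^ i) * (1 + S.card / 2 ^ (l - k)) := by
  set β := lvlBeta w0 r C with hβdef
  have hβ : StrictMono β := lvlBeta_strictMono (by omega) hr hC
  -- the admissible lengths
  let Ok : ℕ → ℕ → Prop := fun l i => i < J ∧ 2 * (w0 * r * C ^ i) ≤ l ∧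
    l ≤ w0 * r * C ^ (i + 1)
  let Ls : Finset ℕ := (Finset.range (w0 * r * C ^ J + 1)).filter (fun l => ∃ i, Ok l i)
  let lev : ℕ → ℕ := fun l => if h : ∃ i, Ok l i then h.choose else 0
  have hlev : ∀ l ∈ Ls, Ok l (lev l) := by
    intro l hl
    have h := (Finset.mem_filter.mp hl).2
    show Ok l (if h : ∃ i, Ok l i then h.choose else 0)
    rw [dif_pos h]
    exact h.choose_spec
  have huniq : ∀ l i, l ∈ Ls → Ok l i → lev l = i := by
    intro l i hl h1
    have h2 := hlev l hl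
    obtain ⟨-, a2, a3⟩ := h1
    obtain ⟨-, b2, b3⟩ := h2
    have hpos : ∀ n, 0 < w0 * r * C ^ n := by
      intro n
      positivity
    rcases Nat.lt_trichotomy (lev l) i with h | h | h
    · have c1 : w0 * r * C ^ (lev l + 1) ≤ w0 * r * C ^ i :=
        Nat.mul_le_mul_left (w0 * r) (Nat.pow_le_pow_right (show 0 < C by omega) h)
      have c2 := hpos i
      omega
    · exact h
    · have c1 : w0 * r * C ^ (i + 1) ≤ w0 * r * C ^ (lev l) :=
        Nat.mul_le_mul_left (w0 * r) (Nat.pow_le_pow_right (show 0 < C by omega) h)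
      have c2 := hpos (lev l)
      omega
  let Φ : Finset (Σ _ : ℕ, (Finset ℕ × ℕ × ℕ)) :=
    Ls.sigma (fun l => Fm l ×ˢ (Finset.range (l + 1) ×ˢ Finset.range (2 ^ l)))
  let F : (Σ _ : ℕ, (Finset ℕ × ℕ × ℕ)) → Cut := fun φ =>
    { l := φ.1
      k := φ.2.2.1
      t := φ.2.2.2
      S := φ.2.1
      b := (φ.1 + 1) / 2
      v := w0 * C ^ (lev φ.1)
      w := w0 * C ^ (lev φ.1)
      B := r * C
      s := 1
      K := K
      E := E0 * C ^ (lev φ.1) }
  have hCpos : ∀ n, 1 ≤ C ^ n := fun n => Nat.one_le_pow _ _ (by omega)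
  have hgood : ∀ φ ∈ Φ, (F φ).Good β := by
    rintro ⟨l, S, k, t⟩ hφ
    have hφ' := Finset.mem_sigma.mp hφ
    have hl : l ∈ Ls := hφ'.1
    have hprod := Finset.mem_product.mp hφ'.2
    have hSF : S ∈ Fm l := hprod.1
    obtain ⟨hiJ, hl1, hl2⟩ := hlev l hl
    set i := lev l with hi
    obtain ⟨hS1, hS2⟩ := hS l S hSF
    have hCi := hCpos i
    have hble : w0 * r * C ^ i ≤ (l + 1) / 2 := by omega
    have hwr : w0 * C ^ i ≤ w0 * r * C ^ i := by
      calc w0 * C ^ i = w0 * 1 * C ^ i := by ring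
        _ ≤ w0 * r * C ^ i := Nat.mul_le_mul_right _ (Nat.mul_le_mul_left _ hr)
    refine ⟨hS1, ?_, ?_, le_refl _, ?_, ?_, ?_, ?_, ?_, ?_⟩
    · show S.card ≤ 2 ^ (l - (l + 1) / 2 + 1)
      exact hS2.trans (Nat.pow_le_pow_right (by norm_num) (by omega))
    · show 3 ≤ w0 * C ^ i
      calc 3 ≤ w0 * 1 := by omega
        _ ≤ w0 * C ^ i := Nat.mul_le_mul_left _ hCi
    · show w0 * C ^ i ≤ (l + 1) / 2
      omega
    · show β 1 ≤ (l + 1) / 2
      rw [hβdef, lvlBeta_one]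
      calc w0 * r = w0 * r * 1 := by ring
        _ ≤ w0 * r * C ^ i := Nat.mul_le_mul_left _ hCi
        _ ≤ _ := hble
    · intro j hj h1 h2
      have h1' : (l + 1) / 2 < β (j + 1) := h1
      have h2' : β j < l := h2
      have := wd_lvlBeta_of (i := i) hr hC hj
        (lt_of_le_of_lt hble h1') (lt_of_lt_of_le h2' hl2)
      show w0 * C ^ i ≤ wd β j ∧ wd β j ≤ w0 * C ^ i
      rw [hβdef, this]
      exact ⟨le_refl _, le_refl _⟩
    · show l - (l + 1) / 2 ≤ r * C * (w0 * C ^ i)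
      have : r * C * (w0 * C ^ i) = w0 * r * C ^ (i + 1) := by ring
      omega
    · show w0 * C ^ i * (K + 1) + 1 ≤ E0 * C ^ i
      calc w0 * C ^ i * (K + 1) + 1 ≤ w0 * C ^ i * (K + 1) + C ^ i := by omega
        _ = (w0 * (K + 1) + 1) * C ^ i := by ring
        _ ≤ E0 * C ^ i := Nat.mul_le_mul_right _ hE
    · show 1 + 1 + 3 * (r * C) + 2 * (w0 * C ^ i) ≤ E0 * C ^ i
      calc 1 + 1 + 3 * (r * C) + 2 * (w0 * C ^ i)
          ≤ (2 + 3 * (r * C)) * C ^ i + 2 * (w0 * C ^ i) := by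
            have := Nat.mul_le_mul_left (2 + 3 * (r * C)) hCi
            omega
        _ = (2 + 3 * (r * C) + 2 * w0) * C ^ i := by ring
        _ ≤ E0 * C ^ i := Nat.mul_le_mul_right _ (by omega)
  have hsum : ∑ φ ∈ Φ, (1 / 2 : ℝ) ^
      (((F φ).E - (1 + (F φ).s + 3 * (F φ).B + 2 * (F φ).v)) * (F φ).K) < 1 := by
    rw [Finset.sum_sigma]
    have hterm : ∀ l ∈ Ls, ∑ q ∈ Fm l ×ˢ (Finset.range (l + 1) ×ˢ Finset.range (2 ^ l)),
        (1 / 2 : ℝ) ^ (((F ⟨l, q⟩).E - (1 + (F ⟨l, q⟩).s + 3 * (F ⟨l, q⟩).B +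
          2 * (F ⟨l, q⟩).v)) * (F ⟨l, q⟩).K) ≤ (1 / 2 : ℝ) ^ (l + 1) := by
      intro l hl
      obtain ⟨hiJ, hl1, hl2⟩ := hlev l hl
      set i := lev l with hi
      have hCi := hCpos i
      have hexp : 4 * l + (l + 1) ≤
          (E0 * C ^ i - (1 + 1 + 3 * (r * C) + 2 * (w0 * C ^ i))) * K := by
        have h1 : 2 * (1 + 1 + 3 * (r * C) + 2 * (w0 * C ^ i)) ≤ E0 * C ^ i := by
          calc 2 * (1 + 1 + 3 * (r * C) + 2 * (w0 * C ^ i))
              ≤ 2 * ((2 + 3 * (r * C)) * C ^ i + 2 * (w0 * C ^ i)) := by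
                have := Nat.mul_le_mul_left (2 + 3 * (r * C)) hCi
                omega
            _ = 2 * (2 + 3 * (r * C) + 2 * w0) * C ^ i := by ring
            _ ≤ E0 * C ^ i := Nat.mul_le_mul_right _ hE'
        have h2 : E0 * C ^ i ≤ 2 * (E0 * C ^ i - (1 + 1 + 3 * (r * C) + 2 * (w0 * C ^ i))) := by
          omega
        have h3 : 12 * l ≤ E0 * C ^ i * K := by
          calc 12 * l ≤ 12 * (w0 * r * C ^ (i + 1)) := by omega
            _ = 12 * (w0 * r * C) * C ^ i := by ring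
            _ ≤ E0 * K * C ^ i := Nat.mul_le_mul_right _ hK
            _ = E0 * C ^ i * K := by ring
        have h4 := Nat.mul_le_mul_right K h2
        have h5 : 2 * (E0 * C ^ i - (1 + 1 + 3 * (r * C) + 2 * (w0 * C ^ i))) * K =
            2 * ((E0 * C ^ i - (1 + 1 + 3 * (r * C) + 2 * (w0 * C ^ i))) * K) := by ring
        have h6 : 1 ≤ l := by
          have : 0 < w0 * r * C ^ i := by positivity
          omega
        omega
      have hconst : ∀ q ∈ Fm l ×ˢ (Finset.range (l + 1) ×ˢ Finset.range (2 ^ l)),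
          (1 / 2 : ℝ) ^ (((F ⟨l, q⟩).E - (1 + (F ⟨l, q⟩).s + 3 * (F ⟨l, q⟩).B +
          2 * (F ⟨l, q⟩).v)) * (F ⟨l, q⟩).K) ≤ (1 / 2 : ℝ) ^ (4 * l + (l + 1)) := by
        intro q _
        exact pow_le_pow_of_le_one (by norm_num) (by norm_num) hexp
      refine (Finset.sum_le_sum hconst).trans ?_
      rw [Finset.sum_const, nsmul_eq_mul, Finset.card_product, Finset.card_product,
        Finset.card_range, Finset.card_range]
      have hcard : ((Fm l).card * ((l + 1) * 2 ^ l) : ℕ) ≤ 2 ^ (4 * l) := by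
        calc (Fm l).card * ((l + 1) * 2 ^ l) ≤ 2 ^ (2 * l) * (2 ^ l * 2 ^ l) := by
              apply Nat.mul_le_mul (hFm l)
              apply Nat.mul_le_mul_right
              exact Nat.lt_two_pow_self
          _ = 2 ^ (4 * l) := by
              rw [← pow_add, ← pow_add]
              congr 1
              ring
      have hcard' : (((Fm l).card * ((l + 1) * 2 ^ l) : ℕ) : ℝ) ≤ 2 ^ (4 * l) := by
        exact_mod_cast hcard
      calc (((Fm l).card * ((l + 1) * 2 ^ l) : ℕ) : ℝ) * (1 / 2) ^ (4 * l + (l + 1))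
          ≤ 2 ^ (4 * l) * (1 / 2) ^ (4 * l + (l + 1)) :=
            mul_le_mul_of_nonneg_right hcard' (by positivity)
        _ = (1 / 2) ^ (l + 1) := by
            rw [pow_add, ← mul_assoc, ← mul_pow]
            norm_num
    refine lt_of_le_of_lt (Finset.sum_le_sum hterm) ?_
    have hgeo : ∀ n, ∑ l ∈ Finset.range n, (1 / 2 : ℝ) ^ (l + 1) < 1 := by
      intro n
      have : ∑ l ∈ Finset.range n, (1 / 2 : ℝ) ^ (l + 1) = 1 - (1 / 2) ^ n := by
        induction n with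
        | zero => simp
        | succ n ih =>
          rw [Finset.sum_range_succ, ih]
          ring
      rw [this]
      have : (0 : ℝ) < (1 / 2) ^ n := by positivity
      linarith
    refine lt_of_le_of_lt ?_ (hgeo (w0 * r * C ^ J + 1))
    exact Finset.sum_le_sum_of_subset_of_nonneg (Finset.filter_subset _ _)
      (fun _ _ _ => by positivity)
  obtain ⟨m, f, hmf⟩ := cut_lemma hβ Φ F hgood hsum
  refine ⟨m, f, ?_⟩
  intro i hiJ l hl1 hl2 S hSF k hk t
  have hok : Ok l i := ⟨hiJ, hl1, hl2⟩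
  have hlL : l ∈ Ls := by
    rw [Finset.mem_filter, Finset.mem_range]
    refine ⟨?_, ⟨i, hok⟩⟩
    have := Nat.mul_le_mul_left (w0 * r) (Nat.pow_le_pow_right (show 0 < C by omega)
      (show i + 1 ≤ J by omega))
    omega
  have hli := huniq l i hlL hok
  rcases Nat.lt_or_ge (t * 2 ^ k) (2 ^ l) with ht | ht
  · have hφ : (⟨l, S, k, t * 2 ^ k⟩ : Σ _ : ℕ, (Finset ℕ × ℕ × ℕ)) ∈ Φ := by
      refine Finset.mem_sigma.mpr ⟨hlL, ?_⟩
      rw [Finset.mem_product, Finset.mem_product, Finset.mem_range, Finset.mem_range]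
      exact ⟨hSF, Nat.lt_succ_of_le hk, ht⟩
    have h := hmf _ hφ
    have e1 : (F ⟨l, S, k, t * 2 ^ k⟩).E = E0 * C ^ i := by
      show E0 * C ^ (lev l) = _
      rw [hli]
    have e2 : (F ⟨l, S, k, t * 2 ^ k⟩).S = S := rfl
    have e3 : (F ⟨l, S, k, t * 2 ^ k⟩).l = l := rfl
    have e4 : (F ⟨l, S, k, t * 2 ^ k⟩).k = k := rfl
    have e5 : (F ⟨l, S, k, t * 2 ^ k⟩).t = t * 2 ^ k := rfl
    rw [e1, e2, e3, e4, e5, Nat.mul_div_cancel _ (by positivity)] at h
    exact h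
  · have hempty : S.filter (fun x => P β m f l x / 2 ^ k = t) = ∅ := by
      rw [Finset.filter_eq_empty_iff]
      intro x _ hx
      have h1 := P_lt (β := β) (m := m) (f := f) l x
      have h2 : P β m f l x / 2 ^ k * 2 ^ k ≤ P β m f l x := Nat.div_mul_le_self _ _
      rw [hx] at h2
      omega
    rw [hempty, Finset.card_empty]
    positivity

end Pool.Agent.Helper83.ET
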