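import Pool.Agent.Helper83.ET.Greedy

/-!
# The moment lemma, abstract form

A finite collection of families; every family has a set `G` of pairs (variable, target), a set
`J` of prescribed blocks and a threshold `A`.  If `∑ (2 |G| rho β J / A)^K < 1` there are
twists such that in every family fewer than `A` variables meet one of their targets.
-/

namespace Pool.Agent.Helper83.ET

open Finset

/-- Data of a family. -/
structure Fam where
  K : ℕ
  /-- the bound for the widths of the prescribed blocks -/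
  v : ℕ
  /-- the logarithms modulo `2 ^ b` are distinct -/
  b : ℕ
  J : Finset ℕ
  G : Finset (ℕ × ℕ)
  A : ℕ

/-- The variables of the family that meet one of their targets. -/
noncomputable def Fam.hits (β m f : ℕ → ℕ) (φ : Fam) : Finset ℕ :=
  (φ.G.filter (fun p => ∀ j ∈ φ.J,
    P β m f (β (j + 1)) p.1 / 2 ^ (β j) = p.2 / 2 ^ (β j) % 2 ^ (wd β j))).image Prod.fst

open Classical in
theorem moment_lemma {β : ℕ → ℕ} (hβ : StrictMono β) {κ : Type*} (Φ : Finset κ) (F : κ → Fam)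
    (hv : ∀ φ ∈ Φ, 3 ≤ (F φ).v ∧ (F φ).v ≤ (F φ).b)
    (hJ : ∀ φ ∈ Φ, ∀ j ∈ (F φ).J, 1 ≤ j ∧ (F φ).b ≤ β j ∧ 3 ≤ wd β j ∧ wd β j ≤ (F φ).v)
    (h4 : ∀ φ ∈ Φ, ∀ p ∈ (F φ).G, p.1 % 4 = 1)
    (hinj : ∀ φ ∈ Φ, ∀ p ∈ (F φ).G, ∀ p' ∈ (F φ).G,
      ind (F φ).b p.1 = ind (F φ).b p'.1 → p.1 = p'.1)
    (hA : ∀ φ ∈ Φ, 2 ^ ((F φ).v * ((F φ).K + 1) + 1) ≤ (F φ).A)
    (hsum : ∑ φ ∈ Φ, (2 * ((F φ).G.card : ℝ) * rho β (F φ).J / (F φ).A) ^ (F φ).K < 1) :
    ∃ m f : ℕ → ℕ, (∀ j, (∀ φ ∈ Φ, j ∉ (F φ).J) → m j = 0 ∧ f j = 0) ∧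
      ∀ φ ∈ Φ, ((F φ).hits β m f).card < (F φ).A := by
  have hApos : ∀ φ ∈ Φ, (0 : ℝ) < (F φ).A := by
    intro φ hφ
    have := hA φ hφ
    have h1 : 0 < (F φ).A := lt_of_lt_of_le (by positivity) this
    exact_mod_cast h1
  -- the index set
  let I : Finset (Σ φ : κ, (Fin (F φ).K → ℕ × ℕ)) := Φ.sigma (fun φ =>
    (Fintype.piFinset (fun _ : Fin (F φ).K => (F φ).G)).filter
      (fun y => NR (F φ).v (F φ).b (fun k => (y k).1)))
  let c : (Σ φ : κ, (Fin (F φ).K → ℕ × ℕ)) → Presc := fun i =>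
    { K := (F i.1).K
      x := fun k => (i.2 k).1
      J := (F i.1).J
      tgt := fun j k => (i.2 k).2 / 2 ^ (β j) % 2 ^ (wd β j) }
  let W : (Σ φ : κ, (Fin (F φ).K → ℕ × ℕ)) → ℝ := fun i => (2 / ((F i.1).A : ℝ)) ^ (F i.1).K
  have hcJ : ∀ i ∈ I, ∀ j ∈ (c i).J, 1 ≤ j ∧ 3 ≤ wd β j ∧ wd β j ≤ β j ∧
      NR (wd β j) (β j) (c i).x := by
    rintro ⟨φ, y⟩ hi j hj
    have hi' := Finset.mem_sigma.mp hi
    have hφ : φ ∈ Φ := hi'.1
    have hy := Finset.mem_filter.mp hi'.2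
    obtain ⟨g1, g2, g3, g4⟩ := hJ φ hφ j hj
    have g5 := (hv φ hφ).2
    refine ⟨g1, g3, by omega, ?_⟩
    apply NR_mono g4 g2 _ hy.2
    intro k
    exact h4 φ hφ _ (Fintype.mem_piFinset.mp hy.1 k)
  have hWnn : ∀ i ∈ I, 0 ≤ W i := by
    rintro ⟨φ, y⟩ hi
    have := hApos φ (Finset.mem_sigma.mp hi).1
    show 0 ≤ (2 / ((F φ).A : ℝ)) ^ (F φ).K
    positivity
  -- the number of blocks
  obtain ⟨n, hn⟩ : ∃ n, ∀ φ ∈ Φ, ∀ j ∈ (F φ).J, j < n := by
    refine ⟨(Φ.sup (fun φ => (F φ).J.sup id)) + 1, ?_⟩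
    intro φ hφ j hj
    have h1 : j ≤ (F φ).J.sup id := Finset.le_sup (f := id) hj
    have h2 : (F φ).J.sup id ≤ Φ.sup (fun φ => (F φ).J.sup id) :=
      Finset.le_sup (f := fun φ => (F φ).J.sup id) hφ
    omega
  obtain ⟨m, f, hz, hmf⟩ := exists_twist hβ I c hcJ n W hWnn
  refine ⟨m, f, ?_, ?_⟩
  · intro j hj
    apply hz
    right
    rintro ⟨φ, y⟩ hi
    exact hj φ (Finset.mem_sigma.mp hi).1
  -- the total expected weight is less than one
  have htot : ∑ i ∈ I, W i * rho β ((c i).J.filter (· < n)) ^ (c i).K < 1 := by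
    refine lt_of_le_of_lt ?_ hsum
    rw [Finset.sum_sigma]
    apply Finset.sum_le_sum
    intro φ hφ
    have hfil : (F φ).J.filter (· < n) = (F φ).J := by
      apply Finset.filter_true_of_mem
      intro j hj
      exact hn φ hφ j hj
    have hterm : ∀ y ∈ (Fintype.piFinset (fun _ : Fin (F φ).K => (F φ).G)).filter
        (fun y => NR (F φ).v (F φ).b (fun k => (y k).1)),
        W ⟨φ, y⟩ * rho β ((c ⟨φ, y⟩).J.filter (· < n)) ^ (c ⟨φ, y⟩).K =
        (2 / ((F φ).A : ℝ)) ^ (F φ).K * rho β (F φ).J ^ (F φ).K := by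
      intro y _
      show (2 / ((F φ).A : ℝ)) ^ (F φ).K * rho β ((F φ).J.filter (· < n)) ^ (F φ).K = _
      rw [hfil]
    rw [Finset.sum_congr rfl hterm, Finset.sum_const, nsmul_eq_mul]
    have hcard : ((((Fintype.piFinset (fun _ : Fin (F φ).K => (F φ).G)).filter
        (fun y => NR (F φ).v (F φ).b (fun k => (y k).1))).card : ℕ) : ℝ) ≤
        ((F φ).G.card : ℝ) ^ (F φ).K := by
      have h1 := Finset.card_filter_le (Fintype.piFinset (fun _ : Fin (F φ).K => (F φ).G))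
        (fun y => NR (F φ).v (F φ).b (fun k => (y k).1))
      rw [Fintype.card_piFinset] at h1
      simp only [Finset.prod_const, Finset.card_univ, Fintype.card_fin] at h1
      exact_mod_cast h1
    have hpos := hApos φ hφ
    have hr := rho_nonneg β (F φ).J
    calc _ ≤ ((F φ).G.card : ℝ) ^ (F φ).K *
          ((2 / ((F φ).A : ℝ)) ^ (F φ).K * rho β (F φ).J ^ (F φ).K) :=
          mul_le_mul_of_nonneg_right hcard (by positivity)
      _ = (2 * ((F φ).G.card : ℝ) * rho β (F φ).J / (F φ).A) ^ (F φ).K := by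
          rw [← mul_pow, ← mul_pow]
          congr 1
          ring
  -- contradiction if a family has too many hits
  intro φ hφ
  by_contra hcon
  push Not at hcon
  set S := (F φ).hits β m f with hS
  have hApos' := hApos φ hφ
  have hSG : ∀ x ∈ S, ∃ q, (x, q) ∈ (F φ).G ∧ ∀ j ∈ (F φ).J,
      P β m f (β (j + 1)) x / 2 ^ (β j) = q / 2 ^ (β j) % 2 ^ (wd β j) := by
    intro x hx
    obtain ⟨p, hp, hpx⟩ := Finset.mem_image.mp hx
    have hp' := Finset.mem_filter.mp hp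
    subst hpx
    exact ⟨p.2, hp'.1, hp'.2⟩
  let qq : ℕ → ℕ := fun x => if hx : x ∈ S then (hSG x hx).choose else 0
  have hqq : ∀ x ∈ S, (x, qq x) ∈ (F φ).G ∧ ∀ j ∈ (F φ).J,
      P β m f (β (j + 1)) x / 2 ^ (β j) = qq x / 2 ^ (β j) % 2 ^ (wd β j) := by
    intro x hx
    have : qq x = (hSG x hx).choose := by
      show (if hx : x ∈ S then (hSG x hx).choose else 0) = _
      rw [dif_pos hx]
    rw [this]
    exact (hSG x hx).choose_spec
  have hinjS : ∀ x ∈ S, ∀ y ∈ S, ind (F φ).b x = ind (F φ).b y → x = y := by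
    intro x hx y hy hxy
    exact hinj φ hφ _ (hqq x hx).1 _ (hqq y hy).1 hxy
  have hmany := many_NR (hv φ hφ).1 (hv φ hφ).2 S hinjS (F φ).K ((hA φ hφ).trans hcon)
  -- inject the tuples into the satisfied prescriptions
  set Tup := (Fintype.piFinset (fun _ : Fin (F φ).K => S)).filter
    (fun x => NR (F φ).v (F φ).b x) with hTup
  have hle : (Tup.card : ℝ) * (2 / ((F φ).A : ℝ)) ^ (F φ).K ≤
      ∑ i ∈ I.filter (fun i => (c i).Sat β m f n), W i := by
    let emb : (Fin (F φ).K → ℕ) → (Σ φ : κ, (Fin (F φ).K → ℕ × ℕ)) :=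
      fun x => ⟨φ, fun k => (x k, qq (x k))⟩
    have hembinj : ∀ x ∈ Tup, ∀ y ∈ Tup, emb x = emb y → x = y := by
      intro x _ y _ hxy
      have h1 : (fun k => (x k, qq (x k))) = (fun k => (y k, qq (y k))) := by
        have := (Sigma.mk.inj_iff.mp hxy).2
        exact eq_of_heq this
      funext k
      have := congrFun h1 k
      exact (Prod.ext_iff.mp this).1
    have hembmem : ∀ x ∈ Tup, emb x ∈ I.filter (fun i => (c i).Sat β m f n) := by
      intro x hx
      have hx' := Finset.mem_filter.mp hx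
      have hxS : ∀ k, x k ∈ S := fun k => Fintype.mem_piFinset.mp hx'.1 k
      rw [Finset.mem_filter]
      refine ⟨?_, ?_⟩
      · refine Finset.mem_sigma.mpr ⟨hφ, ?_⟩
        rw [Finset.mem_filter]
        refine ⟨?_, hx'.2⟩
        rw [Fintype.mem_piFinset]
        intro k
        exact (hqq _ (hxS k)).1
      · intro j hj _ k
        exact (hqq _ (hxS k)).2 j hj
    calc (Tup.card : ℝ) * (2 / ((F φ).A : ℝ)) ^ (F φ).K = ∑ x ∈ Tup, W (emb x) := by
          rw [← nsmul_eq_mul, ← Finset.sum_const]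
      _ = ∑ i ∈ Tup.image emb, W i := by
          rw [Finset.sum_image hembinj]
      _ ≤ _ := by
          apply Finset.sum_le_sum_of_subset_of_nonneg
          · intro i hi
            obtain ⟨x, hx, rfl⟩ := Finset.mem_image.mp hi
            exact hembmem x hx
          · intro i hi _
            exact hWnn i (Finset.mem_filter.mp hi).1
  have hone : (1 : ℝ) ≤ (Tup.card : ℝ) * (2 / ((F φ).A : ℝ)) ^ (F φ).K := by
    have h1 : ((F φ).A : ℝ) ≤ S.card := by exact_mod_cast hcon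
    have h2 : (((F φ).A : ℝ) / 2) ^ (F φ).K ≤ Tup.card :=
      (pow_le_pow_left₀ (by positivity) (by linarith) _).trans hmany
    calc (1 : ℝ) = (((F φ).A : ℝ) / 2) ^ (F φ).K * (2 / ((F φ).A : ℝ)) ^ (F φ).K := by
          rw [← mul_pow]
          have : ((F φ).A : ℝ) / 2 * (2 / ((F φ).A : ℝ)) = 1 := by
            field_simp
          rw [this, one_pow]
      _ ≤ _ := mul_le_mul_of_nonneg_right h2 (by positivity)
  have := lt_of_le_of_lt ((hone.trans hle).trans hmf) htot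
  exact lt_irrefl _ this

end Pool.Agent.Helper83.ET
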