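import Mathlib

/-!
# The variables

`V l`: the numbers `rr l * p`, `p` a prime greater than 3 with `p ^ 2 < 2 ^ l`, congruent to
`rr l` modulo 4, where `rr l` is 1 or 3, whichever gives more numbers.
-/

namespace Pool.Agent.Helper83.ET

open Finset

/-- The primes greater than 3 with `p ^ 2 < 2 ^ l`. -/
def prs (l : ℕ) : Finset ℕ := (Finset.range (2 ^ l)).filter (fun p => p.Prime ∧ 3 < p ∧ p * p < 2 ^ l)

/-- The popular residue modulo 4. -/
def rr (l : ℕ) : ℕ :=
  if ((prs l).filter (fun p => p % 4 = 3)).card ≤ ((prs l).filter (fun p => p % 4 = 1)).card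
  then 1 else 3

/-- The variables of length `l`. -/
def V (l : ℕ) : Finset ℕ := ((prs l).filter (fun p => p % 4 = rr l)).image (fun p => rr l * p)

theorem rr_eq (l : ℕ) : rr l = 1 ∨ rr l = 3 := by
  unfold rr
  split_ifs
  · exact Or.inl rfl
  · exact Or.inr rfl

theorem mem_prs {l p : ℕ} : p ∈ prs l ↔ p.Prime ∧ 3 < p ∧ p * p < 2 ^ l := by
  unfold prs
  rw [Finset.mem_filter, Finset.mem_range]
  constructor
  · exact fun h => h.2
  · intro h
    refine ⟨?_, h⟩
    nlinarith [h.2.1, h.2.2]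

theorem mem_V {l z : ℕ} : z ∈ V l ↔ ∃ p, p.Prime ∧ 3 < p ∧ p * p < 2 ^ l ∧ p % 4 = rr l ∧
    z = rr l * p := by
  unfold V
  rw [Finset.mem_image]
  constructor
  · rintro ⟨p, hp, rfl⟩
    rw [Finset.mem_filter, mem_prs] at hp
    exact ⟨p, hp.1.1, hp.1.2.1, hp.1.2.2, hp.2, rfl⟩
  · rintro ⟨p, h1, h2, h3, h4, rfl⟩
    exact ⟨p, Finset.mem_filter.mpr ⟨mem_prs.mpr ⟨h1, h2, h3⟩, h4⟩, rfl⟩

theorem V_mod {l z : ℕ} (h : z ∈ V l) : z % 4 = 1 := by
  obtain ⟨p, -, -, -, h4, rfl⟩ := mem_V.mp h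
  rw [Nat.mul_mod, h4]
  rcases rr_eq l with h | h <;> rw [h]

theorem V_sq_lt {l z : ℕ} (h : z ∈ V l) : z * z < 9 * 2 ^ l := by
  obtain ⟨p, -, -, h3, -, rfl⟩ := mem_V.mp h
  have h5 : rr l * rr l ≤ 9 := by
    rcases rr_eq l with h | h <;> rw [h] <;> norm_num
  calc rr l * p * (rr l * p) = (rr l * rr l) * (p * p) := by ring
    _ ≤ 9 * (p * p) := Nat.mul_le_mul_right _ h5
    _ < 9 * 2 ^ l := by omega

theorem V_lt {l z : ℕ} (h : z ∈ V l) : z < 2 ^ ((l + 1) / 2 + 2) := by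
  have h1 := V_sq_lt h
  by_contra hcon
  push Not at hcon
  have h2 : 2 ^ ((l + 1) / 2 + 2) * 2 ^ ((l + 1) / 2 + 2) ≤ z * z := Nat.mul_le_mul hcon hcon
  have h3 : 16 * 2 ^ l ≤ 2 ^ ((l + 1) / 2 + 2) * 2 ^ ((l + 1) / 2 + 2) := by
    rw [← pow_add, show (16 : ℕ) = 2 ^ 4 by norm_num, ← pow_add]
    apply Nat.pow_le_pow_right (by norm_num)
    omega
  have h4 : 0 < 2 ^ l := by positivity
  omega

/-- The number of variables. -/
theorem V_card_le (l : ℕ) : (V l).card ≤ 2 ^ ((l + 1) / 2) := by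
  have hsub : V l ⊆ (Finset.range (2 ^ ((l + 1) / 2))).image (fun p => rr l * p) := by
    intro z hz
    obtain ⟨p, -, -, h3, -, rfl⟩ := mem_V.mp hz
    rw [Finset.mem_image]
    refine ⟨p, ?_, rfl⟩
    rw [Finset.mem_range]
    by_contra hcon
    push Not at hcon
    have h2 := Nat.mul_le_mul hcon hcon
    rw [← pow_add] at h2
    have h4 : 2 ^ l ≤ 2 ^ ((l + 1) / 2 + (l + 1) / 2) :=
      Nat.pow_le_pow_right (by norm_num) (by omega)
    omega
  calc (V l).card ≤ _ := Finset.card_le_card hsub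
    _ ≤ _ := Finset.card_image_le
    _ = _ := Finset.card_range _

/-- The variables, with `1` as the only variable of length at most 4. -/
def VZ (l : ℕ) : Finset ℕ := if l ≤ 4 then {1} else V l

theorem VZ_zero : VZ 0 = {1} := rfl

theorem VZ_small {l : ℕ} (h : l ≤ 4) : VZ l = {1} := if_pos h

theorem VZ_pos {l : ℕ} (h : 4 < l) : VZ l = V l := if_neg (by omega)

theorem VZ_mod {l z : ℕ} (h : z ∈ VZ l) : z % 4 = 1 := by
  unfold VZ at h
  split_ifs at h
  · rw [Finset.mem_singleton] at h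
    rw [h]
  · exact V_mod h

theorem VZ_sq_lt {l z : ℕ} (h : z ∈ VZ l) : z * z < 9 * 2 ^ l := by
  unfold VZ at h
  split_ifs at h with h0
  · rw [Finset.mem_singleton] at h
    rw [h]
    have : 0 < 2 ^ l := by positivity
    omega
  · exact V_sq_lt h

theorem VZ_lt {l z : ℕ} (h : z ∈ VZ l) : z < 2 ^ ((l + 1) / 2 + 2) := by
  unfold VZ at h
  split_ifs at h with h0
  · rw [Finset.mem_singleton] at h
    rw [h]
    calc 1 < 2 ^ 1 := by norm_num
      _ ≤ 2 ^ ((l + 1) / 2 + 2) := Nat.pow_le_pow_right (by norm_num) (by omega)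
  · exact V_lt h

theorem VZ_card_le (l : ℕ) : (VZ l).card ≤ 2 ^ ((l + 1) / 2) := by
  unfold VZ
  split_ifs with h0
  · rw [Finset.card_singleton]
    exact Nat.one_le_two_pow
  · exact V_card_le l

theorem VZ_nonempty (l : ℕ) : (VZ l).Nonempty := by
  unfold VZ
  split_ifs with h0
  · exact Finset.singleton_nonempty 1
  · have h5 : 5 ∈ (prs l).filter (fun p => p % 4 = 1) := by
      rw [Finset.mem_filter, mem_prs]
      refine ⟨⟨by norm_num, by norm_num, ?_⟩, by norm_num⟩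
      calc 5 * 5 < 2 ^ 5 := by norm_num
        _ ≤ 2 ^ l := Nat.pow_le_pow_right (by norm_num) (by omega)
    have hne : ((prs l).filter (fun p => p % 4 = rr l)).Nonempty := by
      unfold rr
      split_ifs with h1
      · exact ⟨5, h5⟩
      · rw [← Finset.card_pos]
        have := Finset.card_pos.mpr ⟨5, h5⟩
        omega
    unfold V
    exact hne.image _

end Pool.Agent.Helper83.ET
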