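import Pool.Agent.Helper83.ET.Lvl
import Pool.Agent.Helper83.ET.Lin
import Pool.Agent.Helper83.ET.Var

/-!
# The packaged code: variables `X l`, content `P l x`
-/

namespace Pool.Agent.Helper83.ET

open Finset

/-- A block-twisted code. -/
structure Code where
  β : ℕ → ℕ
  m : ℕ → ℕ
  f : ℕ → ℕ
  mono : StrictMono β

namespace Code

variable (c : Code)

/-- The content of length `l` of the variable `x`. -/
noncomputable def P (l x : ℕ) : ℕ := ET.P c.β c.m c.f l x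

/-- The number of blocks starting at most at `l`. -/
def nb (l : ℕ) : ℕ := ((Finset.range (l + 1)).filter (fun j => 1 ≤ j ∧ c.β j ≤ l)).card

theorem le_nb {l j : ℕ} (h : c.β j ≤ l) : j ≤ c.nb l := by
  have hsub : Finset.Icc 1 j ⊆ (Finset.range (l + 1)).filter (fun j => 1 ≤ j ∧ c.β j ≤ l) := by
    intro i hi
    rw [Finset.mem_Icc] at hi
    rw [Finset.mem_filter, Finset.mem_range]
    have h1 := c.mono.monotone hi.2
    have h2 := c.mono.le_apply (x := i)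
    exact ⟨by omega, hi.1, by omega⟩
  have := Finset.card_le_card hsub
  rw [Nat.card_Icc, Nat.add_sub_cancel] at this
  exact this

/-- The variables of length `l`: a large subset of `VZ l` on which the classes of all blocks
starting at most at `l` are constant. -/
noncomputable def X (l : ℕ) : Finset ℕ :=
  (exists_class c.β c.m c.f (c.nb l) (VZ l)).choose

theorem X_subset (l : ℕ) : c.X l ⊆ VZ l :=
  (exists_class c.β c.m c.f (c.nb l) (VZ l)).choose_spec.1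

theorem card_X (l : ℕ) : (VZ l).card ≤ 4 ^ (c.nb l) * (c.X l).card :=
  (exists_class c.β c.m c.f (c.nb l) (VZ l)).choose_spec.2.1

theorem X_cls {l x y j : ℕ} (hx : x ∈ c.X l) (hy : y ∈ c.X l) (hj : 1 ≤ j) (h : c.β j ≤ l) :
    cls c.β c.m c.f j x = cls c.β c.m c.f j y :=
  (exists_class c.β c.m c.f (c.nb l) (VZ l)).choose_spec.2.2 x hx y hy j hj (c.le_nb h)

theorem X_mod {l x : ℕ} (h : x ∈ c.X l) : x % 4 = 1 := VZ_mod (c.X_subset l h)

theorem X_lt {l x : ℕ} (h : x ∈ c.X l) : x < 2 ^ ((l + 1) / 2 + 2) := VZ_lt (c.X_subset l h)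

theorem P_lt (l x : ℕ) : c.P l x < 2 ^ l := ET.P_lt l x

/-- Restriction. -/
theorem P_mod {l k x : ℕ} (h : k ≤ l) (hx : x % 4 = 1) : c.P l x % 2 ^ k = c.P k x :=
  ET.P_mod c.mono l k x h hx

/-- Below the first boundary the code is the logarithm. -/
theorem P_eq_ind {l x : ℕ} (h : l ≤ c.β 1) : c.P l x = ind l x := by
  unfold P ET.P
  have h0 : ind l x + ∑ i ∈ Finset.range l, 2 ^ (c.β (i + 1)) * tau c.β c.m c.f (i + 1) x ≡
      ind l x + 0 [MOD 2 ^ l] := by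
    apply Nat.ModEq.add_left
    rw [Nat.modEq_zero_iff_dvd]
    apply Finset.dvd_sum
    intro i _
    apply Dvd.dvd.mul_right
    apply pow_dvd_pow
    have := c.mono.monotone (show 1 ≤ i + 1 by omega)
    omega
  rw [h0, add_zero, Nat.mod_eq_of_lt (ind_lt _ _)]

/-- The low digits of the content determine the variable modulo `2 ^ (k + 2)`. -/
theorem modEq_of_P {l l' k x y : ℕ} (hl : k ≤ l) (hl' : k ≤ l') (hx : x % 4 = 1)
    (hy : y % 4 = 1) (h : c.P l x ≡ c.P l' y [MOD 2 ^ k]) : x ≡ y [MOD 2 ^ (k + 2)] :=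
  (ind_modEq_iff k x y hx hy).mp (P_inj c.mono k l l' x y hl hl' hx hy h)

theorem P_modEq_of {l l' k x y : ℕ} (hl : k ≤ l) (hl' : k ≤ l') (hx : x % 4 = 1)
    (hy : y % 4 = 1) (h : x ≡ y [MOD 2 ^ (k + 2)]) : c.P l x ≡ c.P l' y [MOD 2 ^ k] := by
  have h1 := c.P_mod hl hx
  have h2 := c.P_mod hl' hy
  rw [Nat.ModEq, h1, h2]
  -- both are determined by the logarithm modulo `2 ^ k`
  have h3 : ind k x = ind k y := (ind_modEq_iff k x y hx hy).mpr h
  have hterm : ∀ i, 2 ^ (c.β (i + 1)) * tau c.β c.m c.f (i + 1) x ≡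
      2 ^ (c.β (i + 1)) * tau c.β c.m c.f (i + 1) y [MOD 2 ^ k] := by
    intro i
    by_cases hi : c.β (i + 1) ≤ k
    · have h5 : ind (c.β (i + 1)) x = ind (c.β (i + 1)) y := by
        rw [← ind_mod k _ x hi hx, ← ind_mod k _ y hi hy, h3]
      have ht : tau c.β c.m c.f (i + 1) x = tau c.β c.m c.f (i + 1) y := by
        unfold tau T
        rw [h5]
      rw [ht]
    · have hz : ∀ z, 2 ^ (c.β (i + 1)) * tau c.β c.m c.f (i + 1) z ≡ 0 [MOD 2 ^ k] := by
        intro z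
        rw [Nat.modEq_zero_iff_dvd]
        exact Dvd.dvd.mul_right (pow_dvd_pow _ (by omega)) _
      exact (hz x).trans (hz y).symm
  have hsum : ∀ n, (∑ i ∈ Finset.range n, 2 ^ (c.β (i + 1)) * tau c.β c.m c.f (i + 1) x) ≡
      (∑ i ∈ Finset.range n, 2 ^ (c.β (i + 1)) * tau c.β c.m c.f (i + 1) y) [MOD 2 ^ k] := by
    intro n
    induction n with
    | zero => rfl
    | succ n ihn =>
      rw [Finset.sum_range_succ, Finset.sum_range_succ]
      exact ihn.add (hterm n)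
  unfold P ET.P
  rw [h3]
  exact (hsum k).add_left _

/-- The variable is determined by half of the digits of its content. -/
theorem eq_of_P {l l' l1 k x y : ℕ} (hx : x ∈ VZ l) (hy : y ∈ VZ l) (hk : l ≤ 2 * k)
    (hl : k ≤ l') (hl' : k ≤ l1) (h : c.P l' x ≡ c.P l1 y [MOD 2 ^ k]) : x = y := by
  have h1 := c.modEq_of_P hl hl' (VZ_mod hx) (VZ_mod hy) h
  have hb : (l + 1) / 2 + 2 ≤ k + 2 := by omega
  have h2 := lt_of_lt_of_le (VZ_lt hx) (Nat.pow_le_pow_right (show 0 < 2 by norm_num) hb)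
  have h3 := lt_of_lt_of_le (VZ_lt hy) (Nat.pow_le_pow_right (show 0 < 2 by norm_num) hb)
  exact Nat.ModEq.eq_of_lt_of_lt h1 h2 h3

/-- **Decoding.**  The sum of two contents determines the product of the variables. -/
theorem mul_modEq {l1 l2 l l' k x x' y y' : ℕ} (hx : x ∈ c.X l1) (hy : y ∈ c.X l1)
    (hx' : x' ∈ c.X l2) (hy' : y' ∈ c.X l2) (h1 : k ≤ l1) (h2 : k ≤ l2) (hl : k ≤ l)
    (hl' : k ≤ l') (h : c.P l x + c.P l' x' ≡ c.P l y + c.P l' y' [MOD 2 ^ k]) :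
    x * x' ≡ y * y' [MOD 2 ^ (k + 2)] :=
  decode_mul c.mono hl hl' (c.X_mod hx) (c.X_mod hx') (c.X_mod hy) (c.X_mod hy')
    (fun j hj hjk => c.X_cls hx hy hj (by omega)) (fun j hj hjk => c.X_cls hx' hy' hj (by omega)) h

/-- **Progressions.** -/
theorem P_add_affine {L W l1 l2 l l' : ℕ} (hWL : W ≤ L) (hW : 1 ≤ W)
    (hgap : ∀ i, 1 ≤ i → c.β i ≤ L ∨ L + W ≤ c.β i) (h1 : L ≤ l1) (h2 : L ≤ l2)
    (hl : L + W ≤ l) (hl' : L + W ≤ l') (G : ℕ) :
    ∃ s ν, s % 2 = 1 ∧ ∀ x ∈ c.X l1, ∀ x' ∈ c.X l2, x * x' % 2 ^ (L + 2) = G →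
      c.P l x + c.P l' x' ≡ ν + 2 ^ L * (s * (x * x' / 2 ^ (L + 2))) [MOD 2 ^ (L + W)] :=
  ET.P_add_affine c.mono hWL hW hgap hl hl' (c.X l1) (c.X l2) (fun _ hx => c.X_mod hx)
    (fun _ hx => c.X_mod hx) (fun _ hx _ hy _ hj h => c.X_cls hx hy hj (by omega))
    (fun _ hx _ hy _ hj h => c.X_cls hx hy hj (by omega)) G

end Code

end Pool.Agent.Helper83.ET
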