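import Pool.Agent.Helper83.ET.ML

/-!
# The set Theta (ML3) and the class pigeonhole

`thetaBeta a w`: the first block `[0, a)` is not twisted, then blocks of width `w`.
-/

namespace Pool.Agent.Helper83.ET

open Finset

/-- Block boundaries: an untwisted part of length `a`, then blocks of width `w`. -/
def thetaBeta (a w : ℕ) : ℕ → ℕ := fun i => if i = 0 then 0 else a + (i - 1) * w

theorem thetaBeta_succ (a w i : ℕ) : thetaBeta a w (i + 1) = a + i * w := by
  unfold thetaBeta
  rw [if_neg (by omega), Nat.add_sub_cancel]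

theorem thetaBeta_strictMono {a w : ℕ} (ha : 1 ≤ a) (hw : 1 ≤ w) :
    StrictMono (thetaBeta a w) := by
  apply strictMono_nat_of_lt_succ
  intro i
  rcases Nat.eq_zero_or_pos i with h | h
  · subst h
    rw [thetaBeta_succ]
    unfold thetaBeta
    simp
    omega
  · obtain ⟨i', rfl⟩ : ∃ i', i = i' + 1 := ⟨i - 1, by omega⟩
    rw [thetaBeta_succ, thetaBeta_succ]
    nlinarith

theorem wd_thetaBeta (a w j : ℕ) (hj : 1 ≤ j) : wd (thetaBeta a w) j = w := by
  obtain ⟨j', rfl⟩ : ∃ j', j = j' + 1 := ⟨j - 1, by omega⟩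
  unfold wd
  rw [thetaBeta_succ, thetaBeta_succ]
  rw [show a + (j' + 1) * w = a + j' * w + w by ring]
  omega

/-- The block of a code word. -/
theorem P_div_eq {β m f : ℕ → ℕ} (hβ : StrictMono β) {l j x : ℕ} (hj : β (j + 1) ≤ l)
    (hx : x % 4 = 1) :
    P β m f (β (j + 1)) x / 2 ^ (β j) = P β m f l x / 2 ^ (β j) % 2 ^ (wd β j) := by
  rw [← P_mod hβ l (β (j + 1)) x hj hx]
  have h1 : β j < β (j + 1) := hβ (Nat.lt_succ_self j)
  have h2 : 2 ^ (β (j + 1)) = 2 ^ (β j) * 2 ^ (wd β j) := by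
    rw [← pow_add]
    congr 1
    unfold wd
    omega
  rw [h2, Nat.mod_mul_right_div_self]

/-- **ML3.**  For every finite collection of sets of at most `2 ^ c` numbers there are twists
such that fewer than `2 ^ E` code words of length `W` lie in each of the sets. -/
theorem exists_theta {a w n W c U E K : ℕ} (hw : 3 ≤ w) (hwa : w ≤ a)
    (hW : a + n * w = W) (Q : Finset (Finset ℕ)) (hQU : Q.card ≤ 2 ^ U)
    (hQc : ∀ q ∈ Q, q.card ≤ 2 ^ c) (hE : w * (K + 1) + 1 ≤ E)
    (hU : U + K * (c + 1 + 3 * n) < K * (n * w + E)) :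
    ∃ m f : ℕ → ℕ, ∀ q ∈ Q, (((Finset.range (2 ^ (a + 2))).filter (fun x => x % 4 = 1 ∧
      P (thetaBeta a w) m f W x ∈ q)).card) < 2 ^ E := by
  classical
  set β := thetaBeta a w with hβdef
  have hβ : StrictMono β := thetaBeta_strictMono (by omega) (by omega)
  -- the pairs (variable, target) of a set
  let G : Finset ℕ → Finset (ℕ × ℕ) := fun q =>
    ((Finset.range (2 ^ (a + 2))) ×ˢ q).filter (fun p => p.1 % 4 = 1 ∧ ind a p.1 = p.2 % 2 ^ a)
  let F : Finset ℕ → Fam := fun q =>
    { K := K, v := w, b := a, J := Finset.Icc 1 n, G := G q, A := 2 ^ E }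
  have hGinj : ∀ q, ∀ p ∈ G q, ∀ p' ∈ G q, ind a p.1 = ind a p'.1 → p.1 = p'.1 := by
    intro q p hp p' hp' h
    have h1 := Finset.mem_filter.mp hp
    have h2 := Finset.mem_filter.mp hp'
    have h3 := (ind_modEq_iff a p.1 p'.1 h1.2.1 h2.2.1).mp h
    have h4 := Finset.mem_range.mp (Finset.mem_product.mp h1.1).1
    have h5 := Finset.mem_range.mp (Finset.mem_product.mp h2.1).1
    exact Nat.ModEq.eq_of_lt_of_lt h3 h4 h5
  have hGcard : ∀ q ∈ Q, (G q).card ≤ 2 ^ c := by
    intro q hq
    refine le_trans ?_ (hQc q hq)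
    apply Finset.card_le_card_of_injOn Prod.snd
    · intro p hp
      have h1 := Finset.mem_filter.mp (Finset.mem_coe.mp hp)
      exact Finset.mem_coe.mpr (Finset.mem_product.mp h1.1).2
    · intro p hp p' hp' h
      have h1 := Finset.mem_filter.mp (Finset.mem_coe.mp hp)
      have h2 := Finset.mem_filter.mp (Finset.mem_coe.mp hp')
      have h3 : p.1 = p'.1 := by
        apply hGinj q p (Finset.mem_coe.mp hp) p' (Finset.mem_coe.mp hp')
        rw [h1.2.2, h2.2.2, h]
      exact Prod.ext h3 h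
  have hrho : rho β (Finset.Icc 1 n) = (8 / 2 ^ w : ℝ) ^ n := by
    unfold rho
    have : ∀ j ∈ Finset.Icc 1 n, (8 / 2 ^ (wd β j) : ℝ) = 8 / 2 ^ w := by
      intro j hj
      rw [wd_thetaBeta a w j (Finset.mem_Icc.mp hj).1]
    rw [Finset.prod_congr rfl this, Finset.prod_const, Nat.card_Icc, Nat.add_sub_cancel]
  obtain ⟨m, f, -, hmf⟩ := moment_lemma hβ Q F
    (by
      intro q _
      exact ⟨hw, hwa⟩)
    (by
      intro q _ j hj
      have hj' := Finset.mem_Icc.mp hj
      refine ⟨hj'.1, ?_, ?_, ?_⟩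
      · show a ≤ β j
        obtain ⟨j', rfl⟩ : ∃ j', j = j' + 1 := ⟨j - 1, by omega⟩
        rw [hβdef, thetaBeta_succ]
        omega
      · rw [wd_thetaBeta a w j hj'.1]
        exact hw
      · rw [wd_thetaBeta a w j hj'.1])
    (by
      intro q _ p hp
      exact (Finset.mem_filter.mp hp).2.1)
    (by
      intro q _ p hp p' hp' h
      exact hGinj q p hp p' hp' h)
    (by
      intro q _
      exact Nat.pow_le_pow_right (by norm_num) hE)
    (by
      have hbound : ∀ q ∈ Q, (2 * ((F q).G.card : ℝ) * rho β (F q).J / (F q).A) ^ (F q).K ≤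
          ((2 : ℝ) ^ (c + 1 + 3 * n) / 2 ^ (n * w + E)) ^ K := by
        intro q hq
        show (2 * ((G q).card : ℝ) * rho β (Finset.Icc 1 n) / ((2 ^ E : ℕ) : ℝ)) ^ K ≤ _
        rw [hrho]
        apply pow_le_pow_left₀ (by positivity)
        have h1 : ((G q).card : ℝ) ≤ 2 ^ c := by exact_mod_cast hGcard q hq
        have h2 : (8 / 2 ^ w : ℝ) ^ n = 2 ^ (3 * n) / 2 ^ (n * w) := by
          rw [div_pow, show (8 : ℝ) = 2 ^ 3 by norm_num, ← pow_mul, ← pow_mul, mul_comm w n]
        rw [h2]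
        push_cast
        have h3 : (2 : ℝ) * (G q).card * (2 ^ (3 * n) / 2 ^ (n * w)) / 2 ^ E ≤
            2 * 2 ^ c * (2 ^ (3 * n) / 2 ^ (n * w)) / 2 ^ E := by
          gcongr
        refine h3.trans (le_of_eq ?_)
        rw [pow_add, pow_add, pow_add]
        field_simp
      calc ∑ q ∈ Q, (2 * ((F q).G.card : ℝ) * rho β (F q).J / (F q).A) ^ (F q).K
          ≤ ∑ _q ∈ Q, ((2 : ℝ) ^ (c + 1 + 3 * n) / 2 ^ (n * w + E)) ^ K :=
            Finset.sum_le_sum hbound
        _ = (Q.card : ℝ) * ((2 : ℝ) ^ (c + 1 + 3 * n) / 2 ^ (n * w + E)) ^ K := by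
            rw [Finset.sum_const, nsmul_eq_mul]
        _ ≤ 2 ^ U * ((2 : ℝ) ^ (c + 1 + 3 * n) / 2 ^ (n * w + E)) ^ K := by
            apply mul_le_mul_of_nonneg_right _ (by positivity)
            exact_mod_cast hQU
        _ = 2 ^ (U + K * (c + 1 + 3 * n)) / 2 ^ (K * (n * w + E)) := by
            rw [div_pow, ← pow_mul, ← pow_mul, pow_add 2 U, mul_comm (c + 1 + 3 * n) K,
              mul_comm (n * w + E) K]
            ring
        _ < 1 := by
            rw [div_lt_one (by positivity)]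
            exact pow_lt_pow_right₀ (by norm_num) hU)
  refine ⟨m, f, ?_⟩
  intro q hq
  refine lt_of_le_of_lt ?_ (hmf q hq)
  apply Finset.card_le_card
  intro x hx
  have hx' := Finset.mem_filter.mp hx
  refine Finset.mem_image.mpr ⟨(x, P β m f W x), ?_, rfl⟩
  rw [Finset.mem_filter]
  refine ⟨?_, ?_⟩
  · show (x, P β m f W x) ∈ G q
    rw [Finset.mem_filter, Finset.mem_product]
    refine ⟨⟨hx'.1, hx'.2.2⟩, hx'.2.1, ?_⟩
    -- the untwisted part
    show ind a x = P β m f W x % 2 ^ a
    rw [P_mod hβ W a x (by omega) hx'.2.1]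
    unfold P
    have h0 : ind a x + ∑ i ∈ Finset.range a, 2 ^ (β (i + 1)) * tau β m f (i + 1) x ≡
        ind a x + 0 [MOD 2 ^ a] := by
      apply Nat.ModEq.add_left
      rw [Nat.modEq_zero_iff_dvd]
      apply Finset.dvd_sum
      intro i _
      apply Dvd.dvd.mul_right
      apply pow_dvd_pow
      rw [hβdef, thetaBeta_succ]
      omega
    rw [h0, add_zero, Nat.mod_eq_of_lt (ind_lt _ _)]
  · intro j hj
    have hj' := Finset.mem_Icc.mp hj
    show P β m f (β (j + 1)) x / 2 ^ (β j) = P β m f W x / 2 ^ (β j) % 2 ^ (wd β j)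
    apply P_div_eq hβ _ hx'.2.1
    rw [hβdef, thetaBeta_succ, ← hW]
    have := Nat.mul_le_mul_right w hj'.2
    omega

/-- The class pigeonhole: a subset on which all classes up to block `n` are constant. -/
theorem exists_class (β m f : ℕ → ℕ) (n : ℕ) (S : Finset ℕ) :
    ∃ X ⊆ S, S.card ≤ 4 ^ n * X.card ∧ ∀ x ∈ X, ∀ y ∈ X, ∀ j, 1 ≤ j → j ≤ n →
      cls β m f j x = cls β m f j y := by
  classical
  induction n with
  | zero =>
    refine ⟨S, Finset.Subset.refl _, by simp, ?_⟩
    intro x _ y _ j h1 h2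
    omega
  | succ n ih =>
    obtain ⟨X, hXS, hXc, hX⟩ := ih
    -- the most popular class at block `n + 1`
    have hmaps : ∀ x ∈ X, cls β m f (n + 1) x ∈ (Finset.univ : Finset (Bool × Bool)) :=
      fun x _ => Finset.mem_univ _
    obtain ⟨κ, -, hκ⟩ := Finset.exists_max_image (Finset.univ : Finset (Bool × Bool))
      (fun κ => (X.filter (fun x => cls β m f (n + 1) x = κ)).card) ⟨(true, true), mem_univ _⟩
    have hsum := Finset.card_eq_sum_card_fiberwise hmaps
    refine ⟨X.filter (fun x => cls β m f (n + 1) x = κ), (Finset.filter_subset _ _).trans hXS,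
      ?_, ?_⟩
    · have h1 : X.card ≤ 4 * (X.filter (fun x => cls β m f (n + 1) x = κ)).card := by
        rw [hsum]
        calc _ ≤ ∑ _b ∈ (Finset.univ : Finset (Bool × Bool)),
              (X.filter (fun x => cls β m f (n + 1) x = κ)).card :=
              Finset.sum_le_sum (fun b hb => hκ b hb)
          _ = _ := by
              rw [Finset.sum_const]
              simp
      calc S.card ≤ 4 ^ n * X.card := hXc
        _ ≤ 4 ^ n * (4 * (X.filter (fun x => cls β m f (n + 1) x = κ)).card) :=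
            Nat.mul_le_mul_left _ h1
        _ = _ := by ring
    · intro x hx y hy j h1 h2
      have hx' := Finset.mem_filter.mp hx
      have hy' := Finset.mem_filter.mp hy
      rcases Nat.lt_or_ge n j with h3 | h3
      · have : j = n + 1 := by omega
        subst this
        rw [hx'.2, hy'.2]
      · exact hX x hx'.1 y hy'.1 j h1 h3

end Pool.Agent.Helper83.ET
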